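import Mathlib
import Pool.Agent.Helper23.Bose.Defs

set_option autoImplicit false
open MeasureTheory Set
open scoped ENNReal NNReal Topology

namespace Pool.Agent.Helper67.Bose
open Pool.Agent.Helper23.Bose

/-- smooth truncation with derivative bounded by `1 + δ` -/
theorem exists_theta {δ : ℝ} (hδ : 0 < δ) : ∃ θ : ℝ → ℝ, ContDiff ℝ cinf θ ∧
    (∀ t, t ≤ 0 → θ t = 0) ∧ (∀ t, 1 ≤ t → θ t = 1) ∧ (∀ t, 0 ≤ θ t) ∧ (∀ t, θ t ≤ 1) ∧
    (∀ t, |deriv θ t| ≤ 1 + δ) ∧ ∀ t, θ t ^ 2 ≤ (1 + δ) ^ 2 * t ^ 2 := by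
  set η := δ / (2 * (1 + δ)) with hη
  have hη0 : 0 < η := by positivity
  have hη1 : η < 1 / 2 := by
    rw [hη, div_lt_div_iff₀ (by positivity) (by norm_num)]
    linarith
  have hη2 : 1 - 2 * η = 1 / (1 + δ) := by
    rw [hη]; field_simp; ring
  let φ : ContDiffBump (1 / 2 : ℝ) := ⟨1 / 2 - η, 1 / 2, by linarith, by linarith⟩
  have hφc : Continuous φ := φ.continuous
  have hφ0 : ∀ x, 0 ≤ φ x := fun x => φ.nonneg
  have hφ1 : ∀ x, φ x ≤ 1 := fun x => φ.le_one
  have hφin : ∀ x, η ≤ x → x ≤ 1 - η → φ x = 1 := by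
    intro x h1 h2
    apply φ.one_of_mem_closedBall
    rw [Metric.mem_closedBall, Real.dist_eq, abs_le]
    show -(1 / 2 - η) ≤ x - 1 / 2 ∧ x - 1 / 2 ≤ 1 / 2 - η
    constructor <;> linarith
  have hφout : ∀ x, (x ≤ 0 ∨ 1 ≤ x) → φ x = 0 := by
    intro x h
    apply φ.zero_of_le_dist
    rw [Real.dist_eq]
    show 1 / 2 ≤ |x - 1 / 2|
    rcases h with h | h
    · rw [abs_of_nonpos (by linarith)]; linarith
    · rw [abs_of_nonneg (by linarith)]; linarith
  have hint : ∀ a b : ℝ, IntervalIntegrable φ volume a b := fun a b => hφc.intervalIntegrable a b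
  set m := ∫ x in (0 : ℝ)..1, φ x with hm
  have hm1 : 1 / (1 + δ) ≤ m := by
    have h1 : ∫ x in η..(1 - η), (1 : ℝ) = 1 - 2 * η := by
      rw [intervalIntegral.integral_const]; simp; ring
    rw [← hη2, ← h1]
    calc ∫ x in η..(1 - η), (1 : ℝ) = ∫ x in η..(1 - η), φ x := by
          refine intervalIntegral.integral_congr fun x hx => ?_
          rw [Set.uIcc_of_le (by linarith)] at hx
          exact (hφin x hx.1 hx.2).symm
      _ ≤ m := intervalIntegral.integral_mono_interval hη0.le (by linarith) (by linarith)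
          (Filter.Eventually.of_forall hφ0) (hint 0 1)
  have hm0 : 0 < m := lt_of_lt_of_le (by positivity) hm1
  set θ : ℝ → ℝ := fun t => (∫ x in (0 : ℝ)..t, φ x) / m with hθ
  have hder : ∀ t, HasDerivAt θ (φ t / m) t := by
    intro t
    exact (intervalIntegral.integral_hasDerivAt_right (hint 0 t)
      hφc.aestronglyMeasurable.stronglyMeasurableAtFilter hφc.continuousAt).div_const m
  have hderiv : deriv θ = fun t => φ t / m := funext fun t => (hder t).deriv
  have hsm : ContDiff ℝ cinf θ := by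
    rw [contDiff_infty_iff_deriv]
    refine ⟨fun t => (hder t).differentiableAt, ?_⟩
    rw [hderiv]
    exact φ.contDiff.div_const m
  have h0 : ∀ t, t ≤ 0 → θ t = 0 := by
    intro t ht
    rw [hθ]
    simp only
    rw [intervalIntegral.integral_congr (g := fun _ => (0 : ℝ)) (fun x hx => ?_)]
    · simp
    · rw [Set.uIcc_of_ge ht] at hx
      exact hφout x (Or.inl hx.2)
  have h1 : ∀ t, 1 ≤ t → θ t = 1 := by
    intro t ht
    have : ∫ x in (1 : ℝ)..t, φ x = 0 := by
      rw [intervalIntegral.integral_congr (g := fun _ => (0 : ℝ)) (fun x hx => ?_)]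
      · simp
      · rw [Set.uIcc_of_le ht] at hx
        exact hφout x (Or.inr hx.1)
    rw [hθ]
    simp only
    rw [← intervalIntegral.integral_add_adjacent_intervals (hint 0 1) (hint 1 t), this, add_zero,
      ← hm, div_self hm0.ne']
  have hd : ∀ t, |deriv θ t| ≤ 1 + δ := by
    intro t
    rw [hderiv]
    simp only
    rw [abs_of_nonneg (by have := hφ0 t; positivity), div_le_iff₀ hm0]
    have h2 : 1 ≤ (1 + δ) * m := by
      rw [div_le_iff₀ (by positivity)] at hm1
      linarith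
    exact (hφ1 t).trans h2
  have hmono : Monotone θ := by
    refine monotone_of_deriv_nonneg (fun t => (hder t).differentiableAt) fun t => ?_
    rw [hderiv]
    have := hφ0 t
    positivity
  have hnn : ∀ t, 0 ≤ θ t := by
    intro t
    rcases le_total t 0 with ht | ht
    · rw [h0 t ht]
    · rw [← h0 0 le_rfl]; exact hmono ht
  have hle : ∀ t, θ t ≤ 1 := by
    intro t
    rcases le_total t 1 with ht | ht
    · rw [← h1 1 le_rfl]; exact hmono ht
    · rw [h1 t ht]
  refine ⟨θ, hsm, h0, h1, hnn, hle, hd, ?_⟩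
  intro t
  have h3 : ‖θ t - θ 0‖ ≤ (1 + δ) * ‖t - 0‖ := by
    refine Convex.norm_image_sub_le_of_norm_deriv_le (s := Set.univ)
      (fun x _ => (hder x).differentiableAt) (fun x _ => ?_) convex_univ (mem_univ _) (mem_univ _)
    rw [Real.norm_eq_abs]
    exact hd x
  rw [h0 0 le_rfl, sub_zero, sub_zero, Real.norm_eq_abs, Real.norm_eq_abs,
    abs_of_nonneg (hnn t)] at h3
  calc θ t ^ 2 ≤ ((1 + δ) * |t|) ^ 2 := pow_le_pow_left₀ (hnn t) h3 2
    _ = (1 + δ) ^ 2 * t ^ 2 := by rw [mul_pow, sq_abs]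

variable {E : Type*} [NormedAddCommGroup E] [NormedSpace ℝ E]

/-- truncation of a near minimiser, in exponential form -/
theorem trunc {f : E → ℝ} (hf : ContDiff ℝ cinf f) (hs : HasCompactSupport (fun x => 1 - f x))
    {δ η : ℝ} (hδ : 0 < δ) (hη : 0 < η) (hη1 : η < 1) :
    ∃ h : E → ℝ, ContDiff ℝ cinf h ∧ HasCompactSupport h ∧ (∀ x, 0 ≤ h x) ∧
      (∀ x v, (fderiv ℝ h x v) ^ 2 * Real.exp (-(2 * h x)) ≤ (1 + δ) ^ 2 * (fderiv ℝ f x v) ^ 2) ∧
      (∀ x, Real.exp (-(2 * h x)) ≤ (1 + δ) ^ 2 * f x ^ 2 + 3 * η) ∧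
      ∀ x y, f x = f y → h x = h y := by
  obtain ⟨θ, hsm, h0, h1, hnn, hle, hd, hsq⟩ := exists_theta hδ
  set g : E → ℝ := fun x => η + (1 - η) * θ (f x) with hg
  have hgs : ContDiff ℝ cinf g := contDiff_const.add (contDiff_const.mul (hsm.comp hf))
  have hgpos : ∀ x, 0 < g x := fun x => by
    have := hnn (f x)
    have : 0 ≤ (1 - η) * θ (f x) := mul_nonneg (by linarith) this
    simp only [hg]; linarith
  have hg1 : ∀ x, g x ≤ 1 := fun x => by
    have := hle (f x)
    have : (1 - η) * θ (f x) ≤ (1 - η) * 1 := by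
      apply mul_le_mul_of_nonneg_left this; linarith
    simp only [hg]; linarith
  refine ⟨fun x => -Real.log (g x), ?_, ?_, ?_, ?_, ?_, ?_⟩
  · exact (hgs.log (fun x => (hgpos x).ne')).neg
  · refine hs.mono' ?_
    intro x hx
    by_contra hx'
    apply hx
    have h2 : (1 : ℝ) - f x = 0 := by
      by_contra h3
      exact hx' (subset_tsupport _ h3)
    have h4 : f x = 1 := by linarith
    simp [hg, h4, h1 1 le_rfl]
  · intro x
    have := Real.log_nonpos (hgpos x).le (hg1 x)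
    linarith
  · intro x v
    have hgd : DifferentiableAt ℝ g x := hgs.differentiable (by simp) x
    have hfd : DifferentiableAt ℝ f x := hf.differentiable (by simp) x
    have hθd : DifferentiableAt ℝ θ (f x) := hsm.differentiable (by simp) (f x)
    have e1 : fderiv ℝ (fun x => -Real.log (g x)) x v = -((g x)⁻¹ * fderiv ℝ g x v) := by
      have h2 : HasFDerivAt (fun x => -Real.log (g x)) (-((g x)⁻¹ • fderiv ℝ g x)) x :=
        (hgd.hasFDerivAt.log (hgpos x).ne').neg
      rw [h2.fderiv]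
      simp
    have e2 : fderiv ℝ g x v = (1 - η) * (deriv θ (f x) * fderiv ℝ f x v) := by
      have h2 : HasFDerivAt g ((1 - η) • (deriv θ (f x) • fderiv ℝ f x)) x :=
        ((hθd.hasDerivAt.comp_hasFDerivAt x hfd.hasFDerivAt).const_mul (1 - η)).const_add η
      rw [h2.fderiv]
      simp
    have e3 : Real.exp (-(2 * -Real.log (g x))) = g x ^ 2 := by
      rw [show -(2 * -Real.log (g x)) = Real.log (g x) + Real.log (g x) by ring, Real.exp_add,
        Real.exp_log (hgpos x)]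
      ring
    rw [e1, e3]
    have e4 : (-((g x)⁻¹ * fderiv ℝ g x v)) ^ 2 * g x ^ 2 = (fderiv ℝ g x v) ^ 2 := by
      have := (hgpos x).ne'
      field_simp
    rw [e4, e2]
    have h5 : deriv θ (f x) ^ 2 ≤ (1 + δ) ^ 2 := by
      rw [← sq_abs]
      exact pow_le_pow_left₀ (abs_nonneg _) (hd _) 2
    have h6 : (1 - η) ^ 2 ≤ 1 := by nlinarith
    calc ((1 - η) * (deriv θ (f x) * fderiv ℝ f x v)) ^ 2
        = (1 - η) ^ 2 * (deriv θ (f x) ^ 2 * fderiv ℝ f x v ^ 2) := by ring
      _ ≤ 1 * ((1 + δ) ^ 2 * fderiv ℝ f x v ^ 2) := by gcongr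
      _ = _ := one_mul _
  · intro x
    have e3 : Real.exp (-(2 * -Real.log (g x))) = g x ^ 2 := by
      rw [show -(2 * -Real.log (g x)) = Real.log (g x) + Real.log (g x) by ring, Real.exp_add,
        Real.exp_log (hgpos x)]
      ring
    rw [e3]
    have h5 := hsq (f x)
    have h6 := hnn (f x)
    have h7 := hle (f x)
    simp only [hg]
    have h8 : (η + (1 - η) * θ (f x)) ≤ η + θ (f x) := by nlinarith
    have h9 : 0 ≤ η + (1 - η) * θ (f x) := (hgpos x).le
    calc (η + (1 - η) * θ (f x)) ^ 2 ≤ (η + θ (f x)) ^ 2 := pow_le_pow_left₀ h9 h8 2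
      _ = θ (f x) ^ 2 + (2 * η * θ (f x) + η ^ 2) := by ring
      _ ≤ θ (f x) ^ 2 + 3 * η := by nlinarith
      _ ≤ _ := by linarith
  · intro x y hxy
    simp only [hg, hxy]

end Pool.Agent.Helper67.Bose
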