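import Mathlib
import Pool.Agent.Helper67.Bose.Theta

set_option autoImplicit false
open MeasureTheory Set
open scoped ENNReal NNReal Topology

namespace Pool.Agent.Helper67.Bose
open Pool.Agent.Helper23.Bose

variable {E : Type*} [NormedAddCommGroup E] [NormedSpace ℝ E] [FiniteDimensional ℝ E]
  [MeasurableSpace E] [BorelSpace E]

theorem int_pot (μ : Measure E) [IsFiniteMeasureOnCompacts μ] {V : E → ℝ} (Vm : Measurable V)
    (Vnn : ∀ x, 0 ≤ V x) {M : ℝ} (Vbd : ∀ x, V x ≤ M) (Vs : HasCompactSupport V)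
    {g : E → ℝ} (hg : Continuous g) : Integrable (fun x => V x * g x) μ := by
  have h1 : IntegrableOn (fun x => V x * g x) (tsupport V) μ := by
    have h2 : IntegrableOn g (tsupport V) μ := hg.continuousOn.integrableOn_compact Vs
    refine Integrable.bdd_mul (c := M) h2 Vm.aestronglyMeasurable.restrict
      (Filter.Eventually.of_forall fun x => ?_)
    rw [Real.norm_eq_abs, abs_of_nonneg (Vnn x)]
    exact Vbd x
  refine (integrableOn_iff_integrable_of_support_subset ?_).1 h1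
  intro x hx
  apply subset_tsupport
  intro h0
  apply hx
  simp [h0]

theorem int_kin (μ : Measure E) [IsFiniteMeasureOnCompacts μ] {ι : Type*} (A : Finset ι)
    (w : ι → E) (c : ℝ) {φ : E → ℂ} (hφ : ContDiff ℝ cinf φ) (hs : HasCompactSupport φ) :
    Integrable (fun x => c * ∑ a ∈ A, ‖fderiv ℝ φ x (w a)‖ ^ 2) μ := by
  refine Integrable.const_mul (integrable_finset_sum _ fun a _ => ?_) c
  have h1 : Continuous (fun x : E => fderiv ℝ φ x (w a)) :=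
    (hφ.continuous_fderiv (by simp)).clm_apply continuous_const
  refine Continuous.integrable_of_hasCompactSupport (h1.norm.pow 2) ?_
  have h2 : HasCompactSupport (fderiv ℝ φ) := hs.fderiv ℝ
  refine h2.mono' ?_
  intro x hx
  apply subset_tsupport
  intro h0
  apply hx
  simp [h0]

/-- the energy density -/
noncomputable def dens {ι : Type*} (A : Finset ι) (w : ι → E) (c : ℝ) (V : E → ℝ) (φ : E → ℂ)
    (x : E) : ℝ := c * ∑ a ∈ A, ‖fderiv ℝ φ x (w a)‖ ^ 2 + V x * ‖1 - φ x‖ ^ 2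

theorem int_dens (μ : Measure E) [IsFiniteMeasureOnCompacts μ] {ι : Type*} (A : Finset ι)
    (w : ι → E) (c : ℝ) {V : E → ℝ} (Vm : Measurable V)
    (Vnn : ∀ x, 0 ≤ V x) {M : ℝ} (Vbd : ∀ x, V x ≤ M) (Vs : HasCompactSupport V)
    {φ : E → ℂ} (hφ : ContDiff ℝ cinf φ) (hs : HasCompactSupport φ) :
    Integrable (dens A w c V φ) μ := by
  refine (int_kin μ A w c hφ hs).add (int_pot μ Vm Vnn Vbd Vs ?_)
  have := hφ.continuous
  fun_prop

theorem avg_sq {n : ℕ} (hn : 0 < n) (z : Fin n → ℂ) :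
    (Complex.re ((1 / (n : ℂ)) * ∑ j, z j)) ^ 2 ≤ (1 / (n : ℝ)) * ∑ j, ‖z j‖ ^ 2 := by
  have hn' : (0 : ℝ) < n := by positivity
  have h1 : Complex.re ((1 / (n : ℂ)) * ∑ j, z j) = (1 / (n : ℝ)) * ∑ j, (z j).re := by
    have : (1 / (n : ℂ)) = ((1 / (n : ℝ) : ℝ) : ℂ) := by push_cast; rfl
    rw [this, Complex.re_ofReal_mul, Complex.re_sum]
  rw [h1, mul_pow]
  have h2 : (∑ j, (z j).re) ^ 2 ≤ n * ∑ j, (z j).re ^ 2 := by
    have := sq_sum_le_card_mul_sum_sq (s := Finset.univ) (f := fun j => (z j).re)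
    simpa using this
  calc (1 / (n : ℝ)) ^ 2 * (∑ j, (z j).re) ^ 2
      ≤ (1 / (n : ℝ)) ^ 2 * (n * ∑ j, (z j).re ^ 2) := by gcongr
    _ = (1 / (n : ℝ)) * ∑ j, (z j).re ^ 2 := by field_simp
    _ ≤ _ := by
        refine mul_le_mul_of_nonneg_left (Finset.sum_le_sum fun j _ => ?_) (by positivity)
        rw [← Complex.normSq_eq_norm_sq, Complex.normSq_apply]
        nlinarith [sq_nonneg (z j).im]

/-- symmetrised real part -/
noncomputable def favg {n : ℕ} (m : Fin n → (E ≃L[ℝ] E)) (φ : E → ℂ) (x : E) : ℝ :=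
  Complex.re ((1 / (n : ℂ)) * ∑ j, (1 - φ (m j x)))

theorem fderiv_favg {n : ℕ} (m : Fin n → (E ≃L[ℝ] E)) {φ : E → ℂ}
    (hφ : ContDiff ℝ cinf φ) (x v : E) :
    fderiv ℝ (favg m φ) x v
      = Complex.re ((1 / (n : ℂ)) * ∑ j, (-(fderiv ℝ φ (m j x) (m j v)))) := by
  have h1 : ∀ j, HasFDerivAt (fun x => 1 - φ (m j x))
      (-((fderiv ℝ φ (m j x)).comp (m j : E →L[ℝ] E))) x := by
    intro j
    have h2 : HasFDerivAt φ (fderiv ℝ φ (m j x)) (m j x) :=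
      (hφ.differentiable (by simp) _).hasFDerivAt
    exact (h2.comp x (m j : E →L[ℝ] E).hasFDerivAt).const_sub 1
  have h2 : HasFDerivAt (fun x => ∑ j, (1 - φ (m j x)))
      (∑ j, -((fderiv ℝ φ (m j x)).comp (m j : E →L[ℝ] E))) x :=
    HasFDerivAt.fun_sum fun j _ => h1 j
  have h3 := (Complex.reCLM.hasFDerivAt (x := (1 / (n : ℂ)) * ∑ j, (1 - φ (m j x)))).comp x
    (h2.const_mul (1 / (n : ℂ)))
  have h4 : HasFDerivAt (favg m φ) _ x := h3
  rw [h4.fderiv]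
  simp [ContinuousLinearMap.sum_apply, Finset.sum_neg_distrib]

theorem favg_smooth {n : ℕ} (m : Fin n → (E ≃L[ℝ] E)) {φ : E → ℂ}
    (hφ : ContDiff ℝ cinf φ) : ContDiff ℝ cinf (favg m φ) := by
  unfold favg
  refine Complex.reCLM.contDiff.comp (contDiff_const.mul (ContDiff.sum fun j _ => ?_))
  exact contDiff_const.sub (hφ.comp (m j).contDiff)

theorem favg_supp {n : ℕ} (hn : 0 < n) (m : Fin n → (E ≃L[ℝ] E)) {φ : E → ℂ}
    (hs : HasCompactSupport φ) : HasCompactSupport (fun x => 1 - favg m φ x) := by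
  have hn' : (n : ℂ) ≠ 0 := by exact_mod_cast hn.ne'
  have h1 : (fun x => 1 - favg m φ x)
      = fun x => Complex.re ((1 / (n : ℂ)) * ∑ j, φ (m j x)) := by
    funext x
    unfold favg
    rw [Finset.sum_sub_distrib, mul_sub, Complex.sub_re]
    simp [hn']
  rw [h1]
  have h2 : ∀ j, HasCompactSupport (fun x => φ (m j x)) := fun j =>
    hs.comp_homeomorph (m j).toHomeomorph
  have h3 : HasCompactSupport (fun x => ∑ j, φ (m j x)) := by
    have : ∀ s : Finset (Fin n), HasCompactSupport (fun x => ∑ j ∈ s, φ (m j x)) := by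
      intro s
      induction s using Finset.induction_on with
      | empty =>
        simp only [Finset.sum_empty]
        exact HasCompactSupport.zero
      | insert j s hj ih =>
        simp only [Finset.sum_insert hj]
        exact (h2 j).add ih
    exact this Finset.univ
  exact h3.comp_left (g := fun z : ℂ => Complex.re ((1 / (n : ℂ)) * z)) (by simp)

theorem favg_energy (μ : Measure E) [IsFiniteMeasureOnCompacts μ] {n : ℕ} (hn : 0 < n)
    (m : Fin n → (E ≃L[ℝ] E)) (hmp : ∀ j, MeasurePreserving (m j) μ μ)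
    {ι : Type*} (A : Finset ι) (w : ι → E) {c : ℝ} (hc : 0 ≤ c) {V : E → ℝ}
    (Vm : Measurable V) (Vnn : ∀ x, 0 ≤ V x) {M : ℝ} (Vbd : ∀ x, V x ≤ M)
    (Vs : HasCompactSupport V) (hV : ∀ j x, V (m j x) = V x)
    (hQ : ∀ j, ∀ L : E →L[ℝ] ℂ, ∑ a ∈ A, ‖L (m j (w a))‖ ^ 2 = ∑ a ∈ A, ‖L (w a)‖ ^ 2)
    {φ : E → ℂ} (hφ : ContDiff ℝ cinf φ) (hs : HasCompactSupport φ) :
    ∫⁻ x, ENNReal.ofReal (c * ∑ a ∈ A, (fderiv ℝ (favg m φ) x (w a)) ^ 2
      + V x * (favg m φ x) ^ 2) ∂μ ≤ ENNReal.ofReal (∫ x, dens A w c V φ x ∂μ) := by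
  have hn' : (0 : ℝ) < n := by positivity
  have hpt : ∀ x, c * ∑ a ∈ A, (fderiv ℝ (favg m φ) x (w a)) ^ 2 + V x * (favg m φ x) ^ 2
      ≤ (1 / (n : ℝ)) * ∑ j, dens A w c V φ (m j x) := by
    intro x
    have e1 : ∀ a ∈ A, (fderiv ℝ (favg m φ) x (w a)) ^ 2
        ≤ (1 / (n : ℝ)) * ∑ j, ‖fderiv ℝ φ (m j x) (m j (w a))‖ ^ 2 := by
      intro a _
      rw [fderiv_favg m hφ]
      refine (avg_sq hn _).trans (le_of_eq ?_)
      simp only [norm_neg]
    have e2 : (favg m φ x) ^ 2 ≤ (1 / (n : ℝ)) * ∑ j, ‖1 - φ (m j x)‖ ^ 2 := avg_sq hn _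
    have hVx := Vnn x
    calc c * ∑ a ∈ A, (fderiv ℝ (favg m φ) x (w a)) ^ 2 + V x * (favg m φ x) ^ 2
        ≤ c * ∑ a ∈ A, ((1 / (n : ℝ)) * ∑ j, ‖fderiv ℝ φ (m j x) (m j (w a))‖ ^ 2)
          + V x * ((1 / (n : ℝ)) * ∑ j, ‖1 - φ (m j x)‖ ^ 2) := by
          refine add_le_add (mul_le_mul_of_nonneg_left (Finset.sum_le_sum e1) hc) ?_
          exact mul_le_mul_of_nonneg_left e2 hVx
      _ = (1 / (n : ℝ)) * ∑ j, (c * ∑ a ∈ A, ‖fderiv ℝ φ (m j x) (m j (w a))‖ ^ 2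
            + V x * ‖1 - φ (m j x)‖ ^ 2) := by
          rw [← Finset.mul_sum, Finset.sum_comm, Finset.sum_add_distrib, ← Finset.mul_sum,
            ← Finset.mul_sum]
          ring
      _ = _ := by
          congr 1
          refine Finset.sum_congr rfl fun j _ => ?_
          unfold dens
          rw [hQ j, hV j]
  have hi := int_dens μ A w c Vm Vnn Vbd Vs hφ hs
  have hij : ∀ j, Integrable (fun x => dens A w c V φ (m j x)) μ := fun j =>
    (hmp j).integrable_comp_of_integrable hi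
  have hint : ∫ x, (1 / (n : ℝ)) * ∑ j, dens A w c V φ (m j x) ∂μ
      = ∫ x, dens A w c V φ x ∂μ := by
    rw [integral_const_mul, integral_finset_sum _ (fun j _ => hij j)]
    have : ∀ j, ∫ x, dens A w c V φ (m j x) ∂μ = ∫ x, dens A w c V φ x ∂μ := fun j =>
      (hmp j).integral_comp (m j).toHomeomorph.measurableEmbedding _
    simp only [this, Finset.sum_const, Finset.card_univ, Fintype.card_fin, nsmul_eq_mul]
    field_simp
  have hnn : ∀ x, 0 ≤ dens A w c V φ x := fun x => by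
    have := Vnn x
    unfold dens
    have : 0 ≤ ∑ a ∈ A, ‖fderiv ℝ φ x (w a)‖ ^ 2 := Finset.sum_nonneg fun a _ => by positivity
    positivity
  calc ∫⁻ x, ENNReal.ofReal (c * ∑ a ∈ A, (fderiv ℝ (favg m φ) x (w a)) ^ 2
        + V x * (favg m φ x) ^ 2) ∂μ
      ≤ ∫⁻ x, ENNReal.ofReal ((1 / (n : ℝ)) * ∑ j, dens A w c V φ (m j x)) ∂μ :=
        lintegral_mono fun x => ENNReal.ofReal_le_ofReal (hpt x)
    _ = ENNReal.ofReal (∫ x, (1 / (n : ℝ)) * ∑ j, dens A w c V φ (m j x) ∂μ) := by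
        rw [ofReal_integral_eq_lintegral_ofReal]
        · exact (integrable_finset_sum _ fun j _ => hij j).const_mul _
        · refine Filter.Eventually.of_forall fun x => ?_
          have : 0 ≤ ∑ j, dens A w c V φ (m j x) := Finset.sum_nonneg fun j _ => hnn _
          positivity
    _ = _ := by rw [hint]

theorem choose_de {B0 I ε : ℝ} (hB : 0 ≤ B0) (hI : 0 ≤ I) (hε : 0 < ε) :
    ∃ δ η : ℝ, 0 < δ ∧ 0 < η ∧ η < 1 ∧ (1 + δ) ^ 2 * B0 + 3 * η * I ≤ B0 + ε := by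
  refine ⟨min 1 (ε / (6 * (B0 + 1))), min (1 / 2) (ε / (6 * (I + 1))), by positivity,
    by positivity, lt_of_le_of_lt (min_le_left _ _) (by norm_num), ?_⟩
  set δ := min 1 (ε / (6 * (B0 + 1)))
  set η := min (1 / 2) (ε / (6 * (I + 1)))
  have h0 : 0 ≤ δ := by positivity
  have h0' : 0 ≤ η := by positivity
  have h1 : δ ≤ 1 := min_le_left _ _
  have h2 : δ ≤ ε / (6 * (B0 + 1)) := min_le_right _ _
  have h3 : η ≤ ε / (6 * (I + 1)) := min_le_right _ _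
  rw [le_div_iff₀ (by positivity)] at h2 h3
  nlinarith [mul_nonneg h0 hB, mul_nonneg h0' hI]

/-- near minimisers in exponential form -/
theorem near (μ : Measure E) [IsFiniteMeasureOnCompacts μ] {n : ℕ} (hn : 0 < n)
    (m : Fin n → (E ≃L[ℝ] E)) (hmp : ∀ j, MeasurePreserving (m j) μ μ)
    {ι : Type*} (A : Finset ι) (w : ι → E) {c : ℝ} (hc : 0 ≤ c) {V : E → ℝ}
    (Vm : Measurable V) (Vnn : ∀ x, 0 ≤ V x) {M : ℝ} (Vbd : ∀ x, V x ≤ M)
    (Vs : HasCompactSupport V) (hV : ∀ j x, V (m j x) = V x)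
    (hQ : ∀ j, ∀ L : E →L[ℝ] ℂ, ∑ a ∈ A, ‖L (m j (w a))‖ ^ 2 = ∑ a ∈ A, ‖L (w a)‖ ^ 2)
    {ε : ℝ} (hε : 0 < ε) {cap : ℝ} (hcap : cap = sInf {B : ℝ | ∃ φ : E → ℂ,
      ContDiff ℝ cinf φ ∧ HasCompactSupport φ ∧ B = ∫ x, dens A w c V φ x ∂μ}) :
    ∃ φ : E → ℂ, ContDiff ℝ cinf φ ∧ ∃ (δ η : ℝ) (h : E → ℝ), 0 < δ ∧ 0 < η ∧
      ContDiff ℝ cinf h ∧ HasCompactSupport h ∧ (∀ x, 0 ≤ h x) ∧
      (∀ x v, (fderiv ℝ h x v) ^ 2 * Real.exp (-(2 * h x))
        ≤ (1 + δ) ^ 2 * (fderiv ℝ (favg m φ) x v) ^ 2) ∧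
      (∀ x, Real.exp (-(2 * h x)) ≤ (1 + δ) ^ 2 * (favg m φ x) ^ 2 + 3 * η) ∧
      (∀ x y, favg m φ x = favg m φ y → h x = h y) ∧
      ENNReal.ofReal ((1 + δ) ^ 2) * ∫⁻ x, ENNReal.ofReal
        (c * ∑ a ∈ A, (fderiv ℝ (favg m φ) x (w a)) ^ 2 + V x * (favg m φ x) ^ 2) ∂μ
        + ENNReal.ofReal (3 * η) * ∫⁻ x, ENNReal.ofReal (V x) ∂μ ≤ ENNReal.ofReal (cap + ε) := by
  set S := {B : ℝ | ∃ φ : E → ℂ,
      ContDiff ℝ cinf φ ∧ HasCompactSupport φ ∧ B = ∫ x, dens A w c V φ x ∂μ} with hS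
  have hne : S.Nonempty := ⟨_, 0, contDiff_const, HasCompactSupport.zero, rfl⟩
  have hdn : ∀ (φ : E → ℂ) x, 0 ≤ dens A w c V φ x := fun φ x => by
    have := Vnn x
    unfold dens
    have : 0 ≤ ∑ a ∈ A, ‖fderiv ℝ φ x (w a)‖ ^ 2 := Finset.sum_nonneg fun a _ => by positivity
    positivity
  have hcap0 : 0 ≤ cap := by
    rw [hcap]
    refine Real.sInf_nonneg ?_
    rintro B ⟨φ, _, _, rfl⟩
    exact integral_nonneg (hdn φ)
  obtain ⟨B, ⟨φ, hφ, hs, hB⟩, hlt⟩ := exists_lt_of_csInf_lt (s := S) (b := cap + ε / 2) hne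
    (by rw [← hcap]; linarith)
  have hVint : Integrable V μ := by
    simpa using int_pot μ Vm Vnn Vbd Vs (g := fun _ => (1 : ℝ)) continuous_const
  have hI0 : 0 ≤ ∫ x, V x ∂μ := integral_nonneg Vnn
  obtain ⟨δ, η, hδ, hη, hη1, hde⟩ := choose_de (B0 := cap + ε / 2) (I := ∫ x, V x ∂μ)
    (ε := ε / 2) (by positivity) hI0 (by positivity)
  obtain ⟨h, h1, h2, h3, h4, h5, h6⟩ := trunc (favg_smooth m hφ) (favg_supp hn m hs) hδ hη hη1
  refine ⟨φ, hφ, δ, η, h, hδ, hη, h1, h2, h3, h4, h5, h6, ?_⟩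
  have h7 := favg_energy μ hn m hmp A w hc Vm Vnn Vbd Vs hV hQ hφ hs
  rw [← hB] at h7
  have h8 : ∫⁻ x, ENNReal.ofReal (V x) ∂μ = ENNReal.ofReal (∫ x, V x ∂μ) :=
    (ofReal_integral_eq_lintegral_ofReal hVint (Filter.Eventually.of_forall Vnn)).symm
  rw [h8]
  calc ENNReal.ofReal ((1 + δ) ^ 2) * ∫⁻ x, ENNReal.ofReal
        (c * ∑ a ∈ A, (fderiv ℝ (favg m φ) x (w a)) ^ 2 + V x * (favg m φ x) ^ 2) ∂μ
        + ENNReal.ofReal (3 * η) * ENNReal.ofReal (∫ x, V x ∂μ)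
      ≤ ENNReal.ofReal ((1 + δ) ^ 2) * ENNReal.ofReal (cap + ε / 2)
        + ENNReal.ofReal (3 * η) * ENNReal.ofReal (∫ x, V x ∂μ) := by
        gcongr
        exact h7.trans (ENNReal.ofReal_le_ofReal hlt.le)
    _ = ENNReal.ofReal ((1 + δ) ^ 2 * (cap + ε / 2) + 3 * η * ∫ x, V x ∂μ) := by
        rw [← ENNReal.ofReal_mul (by positivity), ← ENNReal.ofReal_mul (by positivity),
          ← ENNReal.ofReal_add (by positivity) (by positivity)]
    _ ≤ _ := ENNReal.ofReal_le_ofReal (by linarith)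

end Pool.Agent.Helper67.Bose
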