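import Mathlib
import Pool.Agent.Helper23.Bose.Defs

set_option autoImplicit false
open MeasureTheory Finset
open scoped ENNReal

namespace Pool.Agent.Helper67.Bose
open Pool.Agent.Helper23.Bose

variable {N : ℕ}

theorem measurable_update_pair (i : Fin N) :
    Measurable (fun p : (Fin N → E3) × E3 => Function.update p.1 i p.2) := by
  rw [measurable_pi_iff]
  intro j
  by_cases h : j = i
  · subst h
    simpa using measurable_snd
  · simp only [Function.update_of_ne h]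
    exact (measurable_pi_apply j).comp measurable_fst

theorem measurable_marg (i : Fin N) {f : (Fin N → E3) → ℝ≥0∞} (hf : Measurable f) :
    Measurable (fun x : Fin N → E3 => ∫⁻ y, f (Function.update x i y)) := by
  have h : Measurable (fun p : (Fin N → E3) × E3 => f (Function.update p.1 i p.2)) :=
    hf.comp (measurable_update_pair i)
  exact h.lintegral_prod_right'

/-- one-variable Fubini, with a probability density re-inserted -/
theorem lint_split (i : Fin N) {ρ : E3 → ℝ≥0∞} (hρ : Measurable ρ) (h1 : ∫⁻ y, ρ y = 1)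
    {f : (Fin N → E3) → ℝ≥0∞} (hf : Measurable f) :
    ∫⁻ x, f x = ∫⁻ x, ρ (x i) * ∫⁻ y, f (Function.update x i y) := by
  have hm := measurable_marg i hf
  have hg : Measurable (fun x : Fin N → E3 => ρ (x i) * ∫⁻ y, f (Function.update x i y)) :=
    (hρ.comp (measurable_pi_apply i)).mul hm
  refine lintegral_eq_of_lmarginal_eq {i} hf hg ?_
  rw [lmarginal_singleton, lmarginal_singleton]
  funext x
  simp only [Function.update_self, Function.update_idem]
  rw [lintegral_mul_const _ hρ, h1, one_mul]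

/-- independence of a coordinate -/
def Ind (i : Fin N) (Φ : (Fin N → E3) → ℝ≥0∞) : Prop :=
  ∀ x y, Φ (Function.update x i y) = Φ x

/-- the one-body weighted integral with density `τ` for particle `i` and `ρ` for the others -/
noncomputable def GG (ρ : E3 → ℝ≥0∞) (i : Fin N) (τ : E3 → ℝ≥0∞) (Φ : (Fin N → E3) → ℝ≥0∞) :
    ℝ≥0∞ := ∫⁻ x, τ (x i) * (∏ j ∈ univ.erase i, ρ (x j)) * Φ x

/-- expectation -/
noncomputable def EE (ρ : E3 → ℝ≥0∞) (Φ : (Fin N → E3) → ℝ≥0∞) : ℝ≥0∞ :=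
  ∫⁻ x, (∏ j, ρ (x j)) * Φ x

theorem GG_rho (ρ : E3 → ℝ≥0∞) (i : Fin N) (Φ : (Fin N → E3) → ℝ≥0∞) :
    GG ρ i ρ Φ = EE ρ Φ := by
  unfold GG EE
  refine lintegral_congr fun x => ?_
  rw [Finset.mul_prod_erase univ (fun j => ρ (x j)) (mem_univ i)]

theorem measurable_prod_rho {ρ : E3 → ℝ≥0∞} (hρ : Measurable ρ) (s : Finset (Fin N)) :
    Measurable (fun x : Fin N → E3 => ∏ j ∈ s, ρ (x j)) :=
  Finset.measurable_fun_prod s fun j _ => hρ.comp (measurable_pi_apply j)

theorem prod_update_of_notMem (ρ : E3 → ℝ≥0∞) {s : Finset (Fin N)} {i : Fin N} (hi : i ∉ s)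
    (x : Fin N → E3) (y : E3) :
    ∏ j ∈ s, ρ (Function.update x i y j) = ∏ j ∈ s, ρ (x j) := by
  refine Finset.prod_congr rfl fun j hj => ?_
  rw [Function.update_of_ne]
  rintro rfl
  exact hi hj

theorem GG_int {ρ : E3 → ℝ≥0∞} (hρ : Measurable ρ) (h1 : ∫⁻ y, ρ y = 1) (i : Fin N)
    {τ : E3 → ℝ≥0∞} (hτ : Measurable τ) {Φ : (Fin N → E3) → ℝ≥0∞} (hΦ : Measurable Φ)
    (hi : Ind i Φ) : GG ρ i τ Φ = (∫⁻ y, τ y) * EE ρ Φ := by
  have hm1 : Measurable (fun x : Fin N → E3 => τ (x i) * (∏ j ∈ univ.erase i, ρ (x j)) * Φ x) :=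
    ((hτ.comp (measurable_pi_apply i)).mul (measurable_prod_rho hρ _)).mul hΦ
  unfold GG EE
  have hm2 : Measurable (fun x : Fin N → E3 => (∏ j, ρ (x j)) * Φ x) :=
    (measurable_prod_rho hρ _).mul hΦ
  rw [lint_split i hρ h1 hm1, ← lintegral_const_mul _ hm2]
  refine lintegral_congr fun x => ?_
  have : ∀ y, τ (Function.update x i y i) * (∏ j ∈ univ.erase i, ρ (Function.update x i y j))
      * Φ (Function.update x i y) = τ y * ((∏ j ∈ univ.erase i, ρ (x j)) * Φ x) := by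
    intro y
    rw [Function.update_self, prod_update_of_notMem ρ (notMem_erase i univ), hi]
    ring
  simp_rw [this]
  rw [lintegral_mul_const _ hτ, ← Finset.mul_prod_erase univ (fun j => ρ (x j)) (mem_univ i)]
  ring

/-- integrate out the coordinate `r ≠ i` of the factor `H` -/
theorem GG_marg {ρ : E3 → ℝ≥0∞} (hρ : Measurable ρ) (h1 : ∫⁻ y, ρ y = 1) {i r : Fin N}
    (hir : i ≠ r) {τ : E3 → ℝ≥0∞} (hτ : Measurable τ) {H Φ : (Fin N → E3) → ℝ≥0∞}
    (hH : Measurable H) (hΦ : Measurable Φ) (hr : Ind r Φ) :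
    GG ρ i τ (fun x => H x * Φ x)
      = GG ρ i τ (fun x => (∫⁻ y, ρ y * H (Function.update x r y)) * Φ x) := by
  have hm1 : Measurable (fun x : Fin N → E3 =>
      τ (x i) * (∏ j ∈ univ.erase i, ρ (x j)) * (H x * Φ x)) :=
    ((hτ.comp (measurable_pi_apply i)).mul (measurable_prod_rho hρ _)).mul (hH.mul hΦ)
  unfold GG
  rw [lint_split r hρ h1 hm1]
  refine lintegral_congr fun x => ?_
  have hr' : r ∈ univ.erase i := mem_erase.2 ⟨hir.symm, mem_univ r⟩
  have h2 : ∀ y, τ (Function.update x r y i)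
      * (∏ j ∈ univ.erase i, ρ (Function.update x r y j))
      * (H (Function.update x r y) * Φ (Function.update x r y))
      = (ρ y * H (Function.update x r y))
        * (τ (x i) * (∏ j ∈ (univ.erase i).erase r, ρ (x j)) * Φ x) := by
    intro y
    rw [Function.update_of_ne hir, ← Finset.mul_prod_erase (univ.erase i) _ hr',
      Function.update_self, prod_update_of_notMem ρ (notMem_erase r _), hr]
    ring
  simp_rw [h2]
  have h3 : Measurable (fun y => ρ y * H (Function.update x r y)) :=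
    hρ.mul (hH.comp (measurable_update x))
  rw [lintegral_mul_const _ h3, ← Finset.mul_prod_erase (univ.erase i) (fun j => ρ (x j)) hr']
  ring

theorem GG_mono (ρ : E3 → ℝ≥0∞) (i : Fin N) (τ : E3 → ℝ≥0∞) {Φ Ψ : (Fin N → E3) → ℝ≥0∞}
    (h : ∀ x, Φ x ≤ Ψ x) : GG ρ i τ Φ ≤ GG ρ i τ Ψ :=
  lintegral_mono fun x => mul_le_mul_right (h x) _

theorem EE_mono (ρ : E3 → ℝ≥0∞) {Φ Ψ : (Fin N → E3) → ℝ≥0∞}
    (h : ∀ x, Φ x ≤ Ψ x) : EE ρ Φ ≤ EE ρ Ψ :=
  lintegral_mono fun x => mul_le_mul_right (h x) _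

/-- bounded removal of the coordinate `r ≠ i` -/
theorem GG_rem {ρ : E3 → ℝ≥0∞} (hρ : Measurable ρ) (h1 : ∫⁻ y, ρ y = 1) {i r : Fin N}
    (hir : i ≠ r) {τ : E3 → ℝ≥0∞} (hτ : Measurable τ) {h : E3 → E3 → ℝ≥0∞}
    (hh : Measurable (fun p : E3 × E3 => h p.1 p.2)) {κ : ℝ≥0∞}
    (hκ : ∀ z, ∫⁻ y, ρ y * h z y ≤ κ)
    {Φ : (Fin N → E3) → ℝ≥0∞} (hΦ : Measurable Φ) (hr : Ind r Φ) :
    GG ρ i τ (fun x => h (x i) (x r) * Φ x) ≤ κ * GG ρ i τ Φ := by
  have hp : Measurable (fun x : Fin N → E3 => (x i, x r)) :=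
    (measurable_pi_apply i).prodMk (measurable_pi_apply r)
  have hH : Measurable (fun x : Fin N → E3 => h (x i) (x r)) := hh.comp hp
  rw [GG_marg hρ h1 hir hτ hH hΦ hr]
  unfold GG
  have hm2 : Measurable (fun x : Fin N → E3 =>
      τ (x i) * (∏ j ∈ univ.erase i, ρ (x j)) * Φ x) :=
    ((hτ.comp (measurable_pi_apply i)).mul (measurable_prod_rho hρ _)).mul hΦ
  rw [← lintegral_const_mul _ hm2]
  refine lintegral_mono fun x => ?_
  have h4 : (∫⁻ y, ρ y * h (Function.update x r y i) (Function.update x r y r)) ≤ κ := by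
    simp only [Function.update_of_ne hir, Function.update_self]
    exact hκ (x i)
  calc τ (x i) * (∏ j ∈ univ.erase i, ρ (x j))
        * ((∫⁻ y, ρ y * h (Function.update x r y i) (Function.update x r y r)) * Φ x)
      ≤ τ (x i) * (∏ j ∈ univ.erase i, ρ (x j)) * (κ * Φ x) := by gcongr
    _ = κ * (τ (x i) * (∏ j ∈ univ.erase i, ρ (x j)) * Φ x) := by ring

/-- exact removal of a pair -/
theorem GG_pair {ρ : E3 → ℝ≥0∞} (hρ : Measurable ρ) (h1 : ∫⁻ y, ρ y = 1) {i q : Fin N}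
    (hiq : i ≠ q) {k : E3 → E3 → ℝ≥0∞} (hk : Measurable (fun p : E3 × E3 => k p.1 p.2))
    {Φ : (Fin N → E3) → ℝ≥0∞} (hΦ : Measurable Φ) (hi : Ind i Φ) (hq : Ind q Φ) :
    EE ρ (fun x => k (x i) (x q) * Φ x) = (∫⁻ z, ρ z * ∫⁻ y, ρ y * k z y) * EE ρ Φ := by
  have hp : Measurable (fun x : Fin N → E3 => (x i, x q)) :=
    (measurable_pi_apply i).prodMk (measurable_pi_apply q)
  have hH : Measurable (fun x : Fin N → E3 => k (x i) (x q)) := hk.comp hp
  have hm : Measurable (fun p : E3 × E3 => ρ p.2 * k p.1 p.2) := (hρ.comp measurable_snd).mul hk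
  have hm2 : Measurable (fun z => ∫⁻ y, ρ y * k z y) := hm.lintegral_prod_right'
  have hm3 : Measurable (fun z => ρ z * ∫⁻ y, ρ y * k z y) := hρ.mul hm2
  rw [← GG_int hρ h1 i hm3 hΦ hi, ← GG_rho ρ i, GG_marg hρ h1 hiq hρ hH hΦ hq]
  unfold GG
  refine lintegral_congr fun x => ?_
  simp only [Function.update_of_ne hiq, Function.update_self]
  ring

/-- exact removal of a triple -/
theorem GG_triple {ρ : E3 → ℝ≥0∞} (hρ : Measurable ρ) (h1 : ∫⁻ y, ρ y = 1) {i q r : Fin N}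
    (hiq : i ≠ q) (hir : i ≠ r) (hqr : q ≠ r) {k : E3 → E3 → E3 → ℝ≥0∞}
    (hk : Measurable (fun p : E3 × E3 × E3 => k p.1 p.2.1 p.2.2))
    {Φ : (Fin N → E3) → ℝ≥0∞} (hΦ : Measurable Φ) (hi : Ind i Φ) (hq : Ind q Φ) (hr : Ind r Φ) :
    EE ρ (fun x => k (x i) (x q) (x r) * Φ x)
      = (∫⁻ z, ρ z * ∫⁻ y, ρ y * ∫⁻ t, ρ t * k z y t) * EE ρ Φ := by
  have hp : Measurable (fun x : Fin N → E3 => (x i, x q, x r)) :=
    (measurable_pi_apply i).prodMk ((measurable_pi_apply q).prodMk (measurable_pi_apply r))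
  have hH : Measurable (fun x : Fin N → E3 => k (x i) (x q) (x r)) := hk.comp hp
  have ha : Measurable (fun p : (E3 × E3) × E3 => (p.1.1, p.1.2, p.2)) := by fun_prop
  have hm : Measurable (fun p : (E3 × E3) × E3 => ρ p.2 * k p.1.1 p.1.2 p.2) :=
    (hρ.comp measurable_snd).mul (hk.comp ha)
  have hm2 : Measurable (fun p : E3 × E3 => ∫⁻ t, ρ t * k p.1 p.2 t) :=
    hm.lintegral_prod_right'
  rw [← GG_pair hρ h1 hiq hm2 hΦ hi hq, ← GG_rho ρ i, GG_marg hρ h1 hir hρ hH hΦ hr,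
    ← GG_rho ρ i]
  unfold GG
  refine lintegral_congr fun x => ?_
  simp only [Function.update_of_ne hir, Function.update_of_ne hqr, Function.update_self]

/-- bounded removal of several coordinates -/
theorem GG_prod {ρ : E3 → ℝ≥0∞} (hρ : Measurable ρ) (h1 : ∫⁻ y, ρ y = 1) {i : Fin N}
    {τ : E3 → ℝ≥0∞} (hτ : Measurable τ) (h : Fin N → E3 → E3 → ℝ≥0∞)
    (hh : ∀ q, Measurable (fun p : E3 × E3 => h q p.1 p.2)) (κ : Fin N → ℝ≥0∞)
    (hκ : ∀ q z, ∫⁻ y, ρ y * h q z y ≤ κ q) {Φ : (Fin N → E3) → ℝ≥0∞} (hΦ : Measurable Φ)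
    (T : Finset (Fin N)) (hiT : i ∉ T) (hT : ∀ q ∈ T, Ind q Φ) :
    GG ρ i τ (fun x => (∏ q ∈ T, h q (x i) (x q)) * Φ x) ≤ (∏ q ∈ T, κ q) * GG ρ i τ Φ := by
  induction T using Finset.induction_on with
  | empty => simp
  | insert q T hq ih =>
    have hiq : i ≠ q := fun e => hiT (e ▸ mem_insert_self q T)
    have hiT' : i ∉ T := fun e => hiT (mem_insert_of_mem e)
    have hmT : Measurable (fun x : Fin N → E3 => ∏ q ∈ T, h q (x i) (x q)) :=
      Finset.measurable_fun_prod T fun j _ => by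
        have hp : Measurable (fun x : Fin N → E3 => (x i, x j)) :=
          (measurable_pi_apply i).prodMk (measurable_pi_apply j)
        exact (hh j).comp hp
    have hind : Ind q (fun x : Fin N → E3 => (∏ q ∈ T, h q (x i) (x q)) * Φ x) := by
      intro x y
      have e1 : ∏ j ∈ T, h j (Function.update x q y i) (Function.update x q y j)
          = ∏ j ∈ T, h j (x i) (x j) := by
        refine Finset.prod_congr rfl fun j hj => ?_
        have hjq : j ≠ q := fun e => hq (e ▸ hj)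
        rw [Function.update_of_ne hiq, Function.update_of_ne hjq]
      simp only [e1, hT q (mem_insert_self q T) x y]
    calc GG ρ i τ (fun x => (∏ q ∈ insert q T, h q (x i) (x q)) * Φ x)
        = GG ρ i τ (fun x => h q (x i) (x q) * ((∏ q ∈ T, h q (x i) (x q)) * Φ x)) := by
          unfold GG
          refine lintegral_congr fun x => ?_
          simp only [Finset.prod_insert hq]
          ring
      _ ≤ κ q * GG ρ i τ (fun x => (∏ q ∈ T, h q (x i) (x q)) * Φ x) :=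
          GG_rem hρ h1 hiq hτ (hh q) (hκ q) (hmT.mul hΦ) hind
      _ ≤ κ q * ((∏ q ∈ T, κ q) * GG ρ i τ Φ) := by
          gcongr
          exact ih hiT' fun j hj => hT j (mem_insert_of_mem hj)
      _ = (∏ q ∈ insert q T, κ q) * GG ρ i τ Φ := by
          rw [Finset.prod_insert hq]; ring

end Pool.Agent.Helper67.Bose
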