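import Mathlib
import Pool.Agent.Helper67.Bose.Fub

set_option autoImplicit false
open MeasureTheory Finset
open scoped ENNReal

namespace Pool.Agent.Helper67.Bose
open Pool.Agent.Helper23.Bose

/-- hypotheses on the Jastrow exponents -/
structure AB (a : E3 → ℝ) (b : E3 × E3 → ℝ) : Prop where
  a_smooth : ContDiff ℝ cinf a
  a_supp : HasCompactSupport a
  a_nn : ∀ r, 0 ≤ a r
  a_even : ∀ r, a (-r) = a r
  b_smooth : ContDiff ℝ cinf b
  b_supp : HasCompactSupport b
  b_nn : ∀ p, 0 ≤ b p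
  b_swap : ∀ p : E3 × E3, b (p.2, p.1) = b p
  b_rot : ∀ p : E3 × E3, b (-p.1, p.2 - p.1) = b p

variable {N : ℕ} (a : E3 → ℝ) (b : E3 × E3 → ℝ)

/-- pair term -/
noncomputable def pa (i j : Fin N) (x : Fin N → E3) : ℝ :=
  if i = j then 0 else a ((N : ℝ) • (x i - x j))

/-- triple term -/
noncomputable def pb (i j k : Fin N) (x : Fin N → E3) : ℝ :=
  if i = j ∨ i = k ∨ j = k then 0
  else b (Real.sqrt N • (x i - x j), Real.sqrt N • (x i - x k))

/-- the Jastrow exponent restricted to the particles in `S` -/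
noncomputable def AS (S : Finset (Fin N)) (x : Fin N → E3) : ℝ :=
  ∑ i ∈ S, ∑ j ∈ S, pa a i j x + ∑ i ∈ S, ∑ j ∈ S, ∑ k ∈ S, pb b i j k x

/-- interaction of `i` with the particles of `S` -/
noncomputable def BS (i : Fin N) (S : Finset (Fin N)) (x : Fin N → E3) : ℝ :=
  2 * ∑ q ∈ S, pa a i q x + 3 * ∑ q ∈ S, ∑ r ∈ S, pb b i q r x

variable {a b}

theorem pa_self (i : Fin N) (x : Fin N → E3) : pa a i i x = 0 := by simp [pa]

theorem pb_ij (i k : Fin N) (x : Fin N → E3) : pb b i i k x = 0 := by simp [pb]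
theorem pb_ik (i j : Fin N) (x : Fin N → E3) : pb b i j i x = 0 := by simp [pb]
theorem pb_jk (i j : Fin N) (x : Fin N → E3) : pb b i j j x = 0 := by simp [pb]

theorem pa_nn (h : AB a b) (i j : Fin N) (x : Fin N → E3) : 0 ≤ pa a i j x := by
  unfold pa; split_ifs
  · exact le_rfl
  · exact h.a_nn _

theorem pb_nn (h : AB a b) (i j k : Fin N) (x : Fin N → E3) : 0 ≤ pb b i j k x := by
  unfold pb; split_ifs
  · exact le_rfl
  · exact h.b_nn _

theorem pa_comm (h : AB a b) (i j : Fin N) (x : Fin N → E3) : pa a i j x = pa a j i x := by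
  unfold pa
  by_cases hij : i = j
  · simp [hij]
  · rw [if_neg hij, if_neg (fun e => hij e.symm), ← h.a_even]
    congr 1
    rw [← smul_neg, neg_sub]

theorem pb_swap (h : AB a b) (i j k : Fin N) (x : Fin N → E3) :
    pb b i j k x = pb b i k j x := by
  unfold pb
  by_cases hc : i = j ∨ i = k ∨ j = k
  · have hc' : i = k ∨ i = j ∨ k = j := by
      rcases hc with h | h | h
      · exact Or.inr (Or.inl h)
      · exact Or.inl h
      · exact Or.inr (Or.inr h.symm)
    rw [if_pos hc, if_pos hc']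
  · have hc' : ¬ (i = k ∨ i = j ∨ k = j) := by
      rintro (h | h | h)
      · exact hc (Or.inr (Or.inl h))
      · exact hc (Or.inl h)
      · exact hc (Or.inr (Or.inr h.symm))
    rw [if_neg hc, if_neg hc', ← h.b_swap]

theorem pb_rot (h : AB a b) (i j k : Fin N) (x : Fin N → E3) :
    pb b i j k x = pb b j i k x := by
  unfold pb
  by_cases hc : i = j ∨ i = k ∨ j = k
  · have hc' : j = i ∨ j = k ∨ i = k := by
      rcases hc with h | h | h
      · exact Or.inl h.symm
      · exact Or.inr (Or.inr h)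
      · exact Or.inr (Or.inl h)
    rw [if_pos hc, if_pos hc']
  · have hc' : ¬ (j = i ∨ j = k ∨ i = k) := by
      rintro (h | h | h)
      · exact hc (Or.inl h.symm)
      · exact hc (Or.inr (Or.inr h))
      · exact hc (Or.inr (Or.inl h))
    rw [if_neg hc, if_neg hc', ← h.b_rot]
    congr 1
    refine Prod.ext ?_ ?_
    · simp only
      rw [← smul_neg, neg_sub]
    · simp only
      rw [← smul_sub]
      congr 1
      abel

theorem sum3_insert {S : Finset (Fin N)} {i : Fin N} (hi : i ∉ S)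
    (f : Fin N → Fin N → Fin N → ℝ) (h1 : ∀ p q, f p p q = 0) (h2 : ∀ p q, f p q p = 0)
    (h3 : ∀ p q, f p q q = 0) (hs : ∀ p q r, f p q r = f p r q) (hr : ∀ p q r, f p q r = f q p r) :
    ∑ p ∈ insert i S, ∑ q ∈ insert i S, ∑ r ∈ insert i S, f p q r
      = ∑ p ∈ S, ∑ q ∈ S, ∑ r ∈ S, f p q r + 3 * ∑ q ∈ S, ∑ r ∈ S, f i q r := by
  simp only [Finset.sum_insert hi, h1, h2, h3, Finset.sum_add_distrib, Finset.sum_const_zero,
    zero_add, add_zero]
  have e1 : ∑ p ∈ S, ∑ r ∈ S, f p i r = ∑ q ∈ S, ∑ r ∈ S, f i q r :=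
    Finset.sum_congr rfl fun p _ => Finset.sum_congr rfl fun r _ => hr _ _ _
  have e2 : ∑ p ∈ S, ∑ q ∈ S, f p q i = ∑ q ∈ S, ∑ r ∈ S, f i q r :=
    Finset.sum_congr rfl fun p _ => Finset.sum_congr rfl fun q _ => by rw [hs, hr]
  rw [e1, e2]
  ring

theorem sum2_insert {S : Finset (Fin N)} {i : Fin N} (hi : i ∉ S)
    (f : Fin N → Fin N → ℝ) (h1 : ∀ p, f p p = 0) (hs : ∀ p q, f p q = f q p) :
    ∑ p ∈ insert i S, ∑ q ∈ insert i S, f p q
      = ∑ p ∈ S, ∑ q ∈ S, f p q + 2 * ∑ q ∈ S, f i q := by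
  simp only [Finset.sum_insert hi, h1, Finset.sum_add_distrib, zero_add]
  have e1 : ∑ p ∈ S, f p i = ∑ q ∈ S, f i q :=
    Finset.sum_congr rfl fun p _ => hs _ _
  rw [e1]
  ring

theorem AS_insert (h : AB a b) {S : Finset (Fin N)} {i : Fin N} (hi : i ∉ S) (x : Fin N → E3) :
    AS a b (insert i S) x = AS a b S x + BS a b i S x := by
  unfold AS BS
  rw [sum2_insert hi (fun p q => pa a p q x) (fun p => pa_self p x) (fun p q => pa_comm h p q x),
    sum3_insert hi (fun p q r => pb b p q r x) (fun p q => pb_ij p q x) (fun p q => pb_ik p q x)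
      (fun p q => pb_jk p q x) (fun p q r => pb_swap h p q r x) (fun p q r => pb_rot h p q r x)]
  ring

theorem AS_mono (h : AB a b) {S T : Finset (Fin N)} (hST : S ⊆ T) (x : Fin N → E3) :
    AS a b S x ≤ AS a b T x := by
  unfold AS
  refine add_le_add ?_ ?_
  · refine le_trans (Finset.sum_le_sum fun i _ =>
      Finset.sum_le_sum_of_subset_of_nonneg hST fun j _ _ => pa_nn h i j x) ?_
    exact Finset.sum_le_sum_of_subset_of_nonneg hST fun i _ _ =>
      Finset.sum_nonneg fun j _ => pa_nn h i j x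
  · refine le_trans (Finset.sum_le_sum fun i _ => Finset.sum_le_sum fun j _ =>
      Finset.sum_le_sum_of_subset_of_nonneg hST fun k _ _ => pb_nn h i j k x) ?_
    refine le_trans (Finset.sum_le_sum fun i _ =>
      Finset.sum_le_sum_of_subset_of_nonneg hST fun j _ _ =>
        Finset.sum_nonneg fun k _ => pb_nn h i j k x) ?_
    exact Finset.sum_le_sum_of_subset_of_nonneg hST fun i _ _ =>
      Finset.sum_nonneg fun j _ => Finset.sum_nonneg fun k _ => pb_nn h i j k x

theorem BS_nn (h : AB a b) (i : Fin N) (S : Finset (Fin N)) (x : Fin N → E3) :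
    0 ≤ BS a b i S x := by
  unfold BS
  have h1 : 0 ≤ ∑ q ∈ S, pa a i q x := Finset.sum_nonneg fun j _ => pa_nn h i j x
  have h2 : 0 ≤ ∑ q ∈ S, ∑ r ∈ S, pb b i q r x :=
    Finset.sum_nonneg fun j _ => Finset.sum_nonneg fun k _ => pb_nn h i j k x
  linarith

theorem AS_nn (h : AB a b) (S : Finset (Fin N)) (x : Fin N → E3) : 0 ≤ AS a b S x := by
  have := AS_mono h (Finset.empty_subset S) x
  simpa [AS] using this

/-- lower bound used for the main pair term -/
theorem AS_pair (h : AB a b) {i q : Fin N} (hiq : i ≠ q) (x : Fin N → E3) :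
    AS a b ((univ.erase i).erase q) x + 2 * pa a i q x ≤ AS a b univ x := by
  have hi : i ∉ univ.erase i := notMem_erase i univ
  have h1 := AS_insert h hi x
  rw [insert_erase (mem_univ i)] at h1
  rw [h1]
  refine add_le_add (AS_mono h (erase_subset _ _) x) ?_
  unfold BS
  have h2 : pa a i q x ≤ ∑ q ∈ univ.erase i, pa a i q x :=
    Finset.single_le_sum (f := fun q => pa a i q x) (fun j _ => pa_nn h i j x)
      (mem_erase.2 ⟨hiq.symm, mem_univ q⟩)
  have h3 : 0 ≤ ∑ q ∈ univ.erase i, ∑ r ∈ univ.erase i, pb b i q r x :=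
    Finset.sum_nonneg fun j _ => Finset.sum_nonneg fun k _ => pb_nn h i j k x
  linarith

/-- lower bound used for the main triple term -/
theorem AS_triple (h : AB a b) {i q r : Fin N} (hiq : i ≠ q) (hir : i ≠ r) (hqr : q ≠ r)
    (x : Fin N → E3) :
    AS a b (((univ.erase i).erase q).erase r) x + 6 * pb b i q r x ≤ AS a b univ x := by
  have hi : i ∉ univ.erase i := notMem_erase i univ
  have h1 := AS_insert h hi x
  rw [insert_erase (mem_univ i)] at h1
  rw [h1]
  refine add_le_add (AS_mono h ((erase_subset _ _).trans (erase_subset _ _)) x) ?_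
  unfold BS
  have h2 : 0 ≤ ∑ q ∈ univ.erase i, pa a i q x := Finset.sum_nonneg fun j _ => pa_nn h i j x
  have hq : q ∈ univ.erase i := mem_erase.2 ⟨hiq.symm, mem_univ q⟩
  have hr : r ∈ univ.erase i := mem_erase.2 ⟨hir.symm, mem_univ r⟩
  have hsub : ({q, r} : Finset (Fin N)) ⊆ univ.erase i := by
    intro t ht
    rcases mem_insert.1 ht with rfl | ht
    · exact hq
    · rw [mem_singleton.1 ht]; exact hr
  have h3 : ∑ t ∈ ({q, r} : Finset (Fin N)), ∑ s ∈ ({q, r} : Finset (Fin N)), pb b i t s x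
      ≤ ∑ q ∈ univ.erase i, ∑ r ∈ univ.erase i, pb b i q r x := by
    refine le_trans (Finset.sum_le_sum fun i' _ =>
      Finset.sum_le_sum_of_subset_of_nonneg hsub fun j _ _ => pb_nn h i i' j x) ?_
    exact Finset.sum_le_sum_of_subset_of_nonneg hsub fun i' _ _ =>
      Finset.sum_nonneg fun j _ => pb_nn h i i' j x
  rw [Finset.sum_pair hqr, Finset.sum_pair hqr, Finset.sum_pair hqr, pb_jk, pb_jk,
    pb_swap h i r q] at h3
  linarith

end Pool.Agent.Helper67.Bose
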