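import Mathlib
import Pool.Agent.Helper67.Bose.Wt

set_option autoImplicit false
open MeasureTheory Finset
open scoped ENNReal

namespace Pool.Agent.Helper67.Bose
open Pool.Agent.Helper23.Bose

variable {N : ℕ} {a : E3 → ℝ} {b : E3 × E3 → ℝ}

theorem continuous_pa (h : AB a b) (i j : Fin N) : Continuous (pa (N := N) a i j) := by
  unfold pa
  by_cases hij : i = j
  · simp only [if_pos hij]; exact continuous_const
  · simp only [if_neg hij]
    exact h.a_smooth.continuous.comp (by fun_prop)

theorem continuous_pb (h : AB a b) (i j k : Fin N) : Continuous (pb (N := N) b i j k) := by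
  unfold pb
  by_cases hij : i = j ∨ i = k ∨ j = k
  · simp only [if_pos hij]; exact continuous_const
  · simp only [if_neg hij]
    exact h.b_smooth.continuous.comp (by fun_prop)

theorem continuous_AS (h : AB a b) (S : Finset (Fin N)) : Continuous (AS (N := N) a b S) := by
  unfold AS
  refine Continuous.add ?_ ?_
  · exact continuous_finset_sum _ fun i _ => continuous_finset_sum _ fun j _ =>
      continuous_pa h i j
  · exact continuous_finset_sum _ fun i _ => continuous_finset_sum _ fun j _ =>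
      continuous_finset_sum _ fun k _ => continuous_pb h i j k

theorem pa_update (i j k : Fin N) (hi : i ≠ k) (hj : j ≠ k) (x : Fin N → E3) (y : E3) :
    pa a i j (Function.update x k y) = pa a i j x := by
  unfold pa
  rw [Function.update_of_ne hi, Function.update_of_ne hj]

theorem pb_update (i j l k : Fin N) (hi : i ≠ k) (hj : j ≠ k) (hl : l ≠ k) (x : Fin N → E3)
    (y : E3) : pb b i j l (Function.update x k y) = pb b i j l x := by
  unfold pb
  rw [Function.update_of_ne hi, Function.update_of_ne hj, Function.update_of_ne hl]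

theorem AS_update {S : Finset (Fin N)} {k : Fin N} (hk : k ∉ S) (x : Fin N → E3) (y : E3) :
    AS a b S (Function.update x k y) = AS a b S x := by
  have hne : ∀ i ∈ S, i ≠ k := fun i hi e => hk (e ▸ hi)
  unfold AS
  congr 1
  · exact Finset.sum_congr rfl fun i hi => Finset.sum_congr rfl fun j hj =>
      pa_update i j k (hne i hi) (hne j hj) x y
  · exact Finset.sum_congr rfl fun i hi => Finset.sum_congr rfl fun j hj =>
      Finset.sum_congr rfl fun l hl => pb_update i j l k (hne i hi) (hne j hj) (hne l hl) x y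

/-- the weight -/
noncomputable def wS (a : E3 → ℝ) (b : E3 × E3 → ℝ) (S : Finset (Fin N)) (x : Fin N → E3) : ℝ≥0∞ :=
  ENNReal.ofReal (Real.exp (-2 * AS a b S x))

theorem measurable_wS (h : AB a b) (S : Finset (Fin N)) : Measurable (wS (N := N) a b S) := by
  unfold wS
  refine ENNReal.measurable_ofReal.comp (Continuous.measurable ?_)
  exact Real.continuous_exp.comp (continuous_const.mul (continuous_AS h S))

theorem Ind_wS {S : Finset (Fin N)} {k : Fin N} (hk : k ∉ S) : Ind k (wS (N := N) a b S) := by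
  intro x y
  unfold wS
  rw [AS_update hk]

theorem wS_le_one (h : AB a b) (S : Finset (Fin N)) (x : Fin N → E3) : wS a b S x ≤ 1 := by
  unfold wS
  rw [← ENNReal.ofReal_one]
  refine ENNReal.ofReal_le_ofReal (Real.exp_le_one_iff.2 ?_)
  have := AS_nn h S x
  linarith

theorem wS_anti (h : AB a b) {S T : Finset (Fin N)} (hST : S ⊆ T) (x : Fin N → E3) :
    wS a b T x ≤ wS a b S x := by
  unfold wS
  refine ENNReal.ofReal_le_ofReal (Real.exp_le_exp.2 ?_)
  have := AS_mono h hST x
  linarith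

theorem wS_insert_ge (h : AB a b) {S : Finset (Fin N)} {i : Fin N} (hi : i ∉ S)
    (x : Fin N → E3) :
    wS a b S x ≤ wS a b (insert i S) x + ENNReal.ofReal (2 * BS a b i S x) * wS a b S x := by
  unfold wS
  rw [← ENNReal.ofReal_mul (by have := BS_nn h i S x; positivity),
    ← ENNReal.ofReal_add (Real.exp_pos _).le
      (mul_nonneg (by have := BS_nn h i S x; positivity) (Real.exp_pos _).le)]
  refine ENNReal.ofReal_le_ofReal ?_
  rw [AS_insert h hi x, mul_add, Real.exp_add]
  have h1 : 1 ≤ Real.exp (-2 * BS a b i S x) + 2 * BS a b i S x := by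
    have := Real.add_one_le_exp (-2 * BS a b i S x)
    linarith
  nlinarith [Real.exp_pos (-2 * AS a b S x)]

/-- partition functions -/
noncomputable def ZZ (ρ : E3 → ℝ≥0∞) (a : E3 → ℝ) (b : E3 × E3 → ℝ) (S : Finset (Fin N)) : ℝ≥0∞ :=
  EE ρ (wS a b S)

/-- indicator that `s • (z - y)` has norm at most `R` -/
noncomputable def qi (s R : ℝ) (z y : E3) : ℝ≥0∞ := if ‖s • (z - y)‖ ≤ R then 1 else 0

theorem measurable_qi (s R : ℝ) : Measurable (fun p : E3 × E3 => qi s R p.1 p.2) := by
  unfold qi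
  refine Measurable.ite ?_ measurable_const measurable_const
  exact measurableSet_le (by fun_prop) measurable_const

theorem EE_one {ρ : E3 → ℝ≥0∞} (hρ : Measurable ρ) (h1 : ∫⁻ y, ρ y = 1) :
    EE (N := N) ρ (fun _ => 1) = 1 := by
  unfold EE
  simp only [mul_one]
  have hm := measurable_prod_rho (N := N) hρ univ
  have key : ∀ s : Finset (Fin N), ∀ x : Fin N → E3,
      lmarginal (fun _ : Fin N => (volume : Measure E3)) s
        (fun x : Fin N → E3 => ∏ j, ρ (x j)) x = ∏ j ∈ univ \ s, ρ (x j) := by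
    intro s
    induction s using Finset.induction_on with
    | empty => intro x; simp
    | insert i s hi ih =>
      intro x
      rw [lmarginal_insert _ hm hi]
      simp_rw [ih]
      have hi' : i ∈ univ \ s := by simp [hi]
      have h2 : ∀ y, ∏ j ∈ univ \ s, ρ (Function.update x i y j)
          = ρ y * ∏ j ∈ (univ \ s).erase i, ρ (x j) := by
        intro y
        rw [← Finset.mul_prod_erase (univ \ s) _ hi', Function.update_self,
          prod_update_of_notMem ρ (notMem_erase i _)]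
      simp_rw [h2]
      rw [lintegral_mul_const _ hρ, h1, one_mul]
      congr 1
      ext j
      simp only [mem_erase, mem_sdiff, mem_univ, true_and, mem_insert, not_or]
  have h3 := key univ 0
  rw [← lintegral_eq_lmarginal_univ, ← volume_pi] at h3
  simpa using h3

theorem ZZ_empty {ρ : E3 → ℝ≥0∞} (hρ : Measurable ρ) (h1 : ∫⁻ y, ρ y = 1) :
    ZZ (N := N) ρ a b ∅ = 1 := by
  unfold ZZ
  rw [← EE_one (N := N) hρ h1]
  congr 1
  funext x
  simp [wS, AS]

theorem ZZ_anti (h : AB a b) (ρ : E3 → ℝ≥0∞) {S T : Finset (Fin N)} (hST : S ⊆ T) :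
    ZZ ρ a b T ≤ ZZ ρ a b S := EE_mono ρ fun x => wS_anti h hST x

theorem ZZ_le_one (h : AB a b) {ρ : E3 → ℝ≥0∞} (hρ : Measurable ρ) (h1 : ∫⁻ y, ρ y = 1)
    (S : Finset (Fin N)) : ZZ ρ a b S ≤ 1 := by
  rw [← ZZ_empty (N := N) (a := a) (b := b) hρ h1]
  exact ZZ_anti h ρ (Finset.empty_subset S)

/-- standing data -/
structure Std (a : E3 → ℝ) (b : E3 × E3 → ℝ) (ρ : E3 → ℝ≥0∞) (R M A0 : ℝ) : Prop where
  ab : AB a b
  hρ : Measurable ρ
  h1 : ∫⁻ y, ρ y = 1
  hM : ∀ y, ρ y ≤ ENNReal.ofReal M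
  M0 : 0 ≤ M
  R0 : 0 ≤ R
  A00 : 0 ≤ A0
  a_bd : ∀ r, a r ≤ if ‖r‖ ≤ R then A0 else 0
  b_bd : ∀ p : E3 × E3, b p ≤ if ‖p.1‖ ≤ R ∧ ‖p.2‖ ≤ R then A0 else 0
  da_bd : ∀ r k, |fderiv ℝ a r (ek k)| ≤ if ‖r‖ ≤ R then A0 else 0
  db_bd : ∀ (p : E3 × E3) k,
    |fderiv ℝ b p (ek k, ek k)| ≤ if ‖p.1‖ ≤ R ∧ ‖p.2‖ ≤ R then A0 else 0

/-- volume of the unit ball -/
noncomputable def vB : ℝ := (volume (Metric.ball (0 : E3) 1)).toReal

theorem vB_nn : 0 ≤ vB := ENNReal.toReal_nonneg

/-- bound of a one-particle indicator integral -/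
noncomputable def kap (M R s : ℝ) : ℝ := M * vB * (R / s) ^ 3

theorem kap_nn {M R s : ℝ} (hM : 0 ≤ M) (hR : 0 ≤ R) (hs : 0 < s) : 0 ≤ kap M R s := by
  unfold kap
  have := vB_nn
  positivity

theorem lint_qi {ρ : E3 → ℝ≥0∞} {R M s : ℝ} (hM : ∀ y, ρ y ≤ ENNReal.ofReal M) (hM0 : 0 ≤ M)
    (hR : 0 ≤ R) (hs : 0 < s) (z : E3) :
    ∫⁻ y, ρ y * qi s R z y ≤ ENNReal.ofReal (kap M R s) := by
  have hball : ∀ y, ρ y * qi s R z y
      ≤ (Metric.closedBall z (R / s)).indicator (fun _ => ENNReal.ofReal M) y := by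
    intro y
    unfold qi
    by_cases hy : ‖s • (z - y)‖ ≤ R
    · rw [if_pos hy, mul_one, Set.indicator_of_mem]
      · exact hM y
      · rw [Metric.mem_closedBall, dist_comm, dist_eq_norm, le_div_iff₀ hs, mul_comm]
        rwa [norm_smul, Real.norm_of_nonneg hs.le] at hy
    · rw [if_neg hy, mul_zero]
      exact zero_le
  refine (lintegral_mono hball).trans ?_
  rw [lintegral_indicator_const Metric.isClosed_closedBall.measurableSet,
    Measure.addHaar_closedBall _ _ (by positivity)]
  have hf : Module.finrank ℝ E3 = 3 := by simp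
  rw [hf]
  have hfin : volume (Metric.ball (0 : E3) 1) ≠ ⊤ := measure_ball_lt_top.ne
  rw [← ENNReal.ofReal_toReal hfin, ← ENNReal.ofReal_mul (by positivity), ← ENNReal.ofReal_mul hM0]
  refine ENNReal.ofReal_le_ofReal (le_of_eq ?_)
  unfold kap vB
  ring

end Pool.Agent.Helper67.Bose
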