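import Mathlib
import Pool.Agent.Helper67.Bose.Ratio

set_option autoImplicit false
open MeasureTheory Finset
open scoped ENNReal

namespace Pool.Agent.Helper67.Bose
open Pool.Agent.Helper23.Bose

variable {N : ℕ} {a : E3 → ℝ} {b : E3 × E3 → ℝ} {ρ : E3 → ℝ≥0∞} {R M A0 : ℝ}

theorem EE_add (hρ : Measurable ρ) {f g : (Fin N → E3) → ℝ≥0∞} (hf : Measurable f) :
    EE ρ (fun x => f x + g x) = EE ρ f + EE ρ g := by
  unfold EE
  simp only [mul_add]
  exact lintegral_add_left ((measurable_prod_rho hρ _).mul hf) _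

theorem EE_mul (hρ : Measurable ρ) (c : ℝ≥0∞) {f : (Fin N → E3) → ℝ≥0∞} (hf : Measurable f) :
    EE ρ (fun x => c * f x) = c * EE ρ f := by
  unfold EE
  have hm : Measurable (fun x : Fin N → E3 => (∏ j, ρ (x j)) * f x) :=
    (measurable_prod_rho hρ _).mul hf
  rw [← lintegral_const_mul _ hm]
  exact lintegral_congr fun x => by ring

theorem EE_sum (hρ : Measurable ρ) {ι : Type*} (s : Finset ι) {f : ι → (Fin N → E3) → ℝ≥0∞}
    (hf : ∀ j ∈ s, Measurable (f j)) :
    EE ρ (fun x => ∑ j ∈ s, f j x) = ∑ j ∈ s, EE ρ (f j) := by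
  unfold EE
  simp only [Finset.mul_sum]
  exact lintegral_finsetSum' _ fun j hj => ((measurable_prod_rho hρ _).mul (hf j hj)).aemeasurable

theorem measurable_qi_comp (s R : ℝ) (i q : Fin N) :
    Measurable (fun x : Fin N → E3 => qi s R (x i) (x q)) := by
  unfold qi
  refine Measurable.ite ?_ measurable_const measurable_const
  refine measurableSet_le ?_ measurable_const
  have h1 : Measurable (fun x : Fin N → E3 => x i - x q) :=
    (measurable_pi_apply i).sub (measurable_pi_apply q)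
  exact (h1.const_smul s).norm

theorem EE_rem1 (H : Std a b ρ R M A0) {s : ℝ} (hs : 0 < s) {i q : Fin N} (hiq : i ≠ q)
    {Φ : (Fin N → E3) → ℝ≥0∞} (hΦ : Measurable Φ) (hq : Ind q Φ) :
    EE ρ (fun x => qi s R (x i) (x q) * Φ x) ≤ ENNReal.ofReal (kap M R s) * EE ρ Φ := by
  rw [← GG_rho ρ i, ← GG_rho ρ i]
  exact GG_rem H.hρ H.h1 hiq H.hρ (measurable_qi s R) (lint_qi H.hM H.M0 H.R0 hs) hΦ hq

theorem EE_rem2 (H : Std a b ρ R M A0) {s : ℝ} (hs : 0 < s) {i q r : Fin N} (hiq : i ≠ q)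
    (hir : i ≠ r) (hqr : q ≠ r)
    {Φ : (Fin N → E3) → ℝ≥0∞} (hΦ : Measurable Φ) (hq : Ind q Φ) (hr : Ind r Φ) :
    EE ρ (fun x => qi s R (x i) (x q) * (qi s R (x i) (x r) * Φ x))
      ≤ ENNReal.ofReal (kap M R s) * (ENNReal.ofReal (kap M R s) * EE ρ Φ) := by
  refine (EE_rem1 H hs hiq ((measurable_qi_comp s R i r).mul hΦ) ?_).trans ?_
  · intro x y
    show qi s R (Function.update x q y i) (Function.update x q y r) * Φ (Function.update x q y)
      = qi s R (x i) (x r) * Φ x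
    rw [Function.update_of_ne hiq, Function.update_of_ne hqr.symm, hq x y]
  · gcongr
    exact EE_rem1 H hs hir hΦ hr

theorem pa_bd (H : Std a b ρ R M A0) (i q : Fin N) (x : Fin N → E3) :
    ENNReal.ofReal (pa a i q x) ≤ ENNReal.ofReal A0 * qi (N : ℝ) R (x i) (x q) := by
  unfold pa qi
  by_cases hiq : i = q
  · rw [if_pos hiq]; simp
  · rw [if_neg hiq]
    have h1 := H.a_bd ((N : ℝ) • (x i - x q))
    split_ifs at h1 ⊢ with h2
    · rw [mul_one]; exact ENNReal.ofReal_le_ofReal h1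
    · rw [mul_zero]; simpa using h1

theorem pb_bd (H : Std a b ρ R M A0) (i q r : Fin N) (x : Fin N → E3) :
    ENNReal.ofReal (pb b i q r x)
      ≤ ENNReal.ofReal A0 * (qi (Real.sqrt N) R (x i) (x q) * qi (Real.sqrt N) R (x i) (x r)) := by
  unfold pb qi
  by_cases hiq : i = q ∨ i = r ∨ q = r
  · rw [if_pos hiq]; simp
  · rw [if_neg hiq]
    have h1 := H.b_bd (Real.sqrt N • (x i - x q), Real.sqrt N • (x i - x r))
    simp only at h1
    by_cases h2 : ‖Real.sqrt N • (x i - x q)‖ ≤ R ∧ ‖Real.sqrt N • (x i - x r)‖ ≤ R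
    · rw [if_pos h2] at h1
      rw [if_pos h2.1, if_pos h2.2, mul_one, mul_one]
      exact ENNReal.ofReal_le_ofReal h1
    · rw [if_neg h2] at h1
      rw [ENNReal.ofReal_of_nonpos h1]
      exact zero_le

theorem BS_bd (H : Std a b ρ R M A0) {i : Fin N} {S : Finset (Fin N)} (x : Fin N → E3) :
    ENNReal.ofReal (2 * BS a b i S x) * wS a b S x ≤
      ∑ q ∈ S, ENNReal.ofReal (4 * A0) * (qi (N : ℝ) R (x i) (x q) * wS a b (S.erase q) x)
      + ∑ q ∈ S, ∑ r ∈ S.erase q, ENNReal.ofReal (6 * A0) * (qi (Real.sqrt N) R (x i) (x q)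
        * (qi (Real.sqrt N) R (x i) (x r) * wS a b ((S.erase q).erase r) x)) := by
  have hA := H.A00
  have e1 : 2 * BS a b i S x = ∑ q ∈ S, 4 * pa a i q x
      + ∑ q ∈ S, ∑ r ∈ S.erase q, 6 * pb b i q r x := by
    unfold BS
    have : ∀ q ∈ S, ∑ r ∈ S, pb b i q r x = ∑ r ∈ S.erase q, pb b i q r x := by
      intro q hq
      rw [← Finset.add_sum_erase S _ hq, pb_jk, zero_add]
    rw [Finset.sum_congr rfl this]
    simp only [← Finset.mul_sum]
    ring
  have h4 : ∀ q ∈ S, 0 ≤ 4 * pa a i q x := fun q _ => by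
    have := pa_nn H.ab i q x; positivity
  have h6 : ∀ q, ∀ r ∈ S.erase q, 0 ≤ 6 * pb b i q r x := fun q r _ => by
    have := pb_nn H.ab i q r x; positivity
  have h6' : ∀ q ∈ S, 0 ≤ ∑ r ∈ S.erase q, 6 * pb b i q r x := fun q _ =>
    Finset.sum_nonneg (h6 q)
  rw [e1, ENNReal.ofReal_add (Finset.sum_nonneg h4) (Finset.sum_nonneg h6'), add_mul,
    ENNReal.ofReal_sum_of_nonneg h4, ENNReal.ofReal_sum_of_nonneg h6', Finset.sum_mul,
    Finset.sum_mul]
  refine add_le_add ?_ ?_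
  · refine Finset.sum_le_sum fun q hq => ?_
    calc ENNReal.ofReal (4 * pa a i q x) * wS a b S x
        ≤ ENNReal.ofReal 4 * (ENNReal.ofReal A0 * qi (N : ℝ) R (x i) (x q))
          * wS a b (S.erase q) x := by
          rw [ENNReal.ofReal_mul (by norm_num)]
          gcongr
          · exact pa_bd H i q x
          · exact wS_anti H.ab (erase_subset _ _) x
      _ = _ := by rw [ENNReal.ofReal_mul (by norm_num)]; ring
  · refine Finset.sum_le_sum fun q hq => ?_
    rw [ENNReal.ofReal_sum_of_nonneg (h6 q), Finset.sum_mul]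
    refine Finset.sum_le_sum fun r hr => ?_
    calc ENNReal.ofReal (6 * pb b i q r x) * wS a b S x
        ≤ ENNReal.ofReal 6 * (ENNReal.ofReal A0 *
          (qi (Real.sqrt N) R (x i) (x q) * qi (Real.sqrt N) R (x i) (x r)))
          * wS a b ((S.erase q).erase r) x := by
          rw [ENNReal.ofReal_mul (by norm_num)]
          gcongr
          · exact pb_bd H i q r x
          · exact wS_anti H.ab ((erase_subset _ _).trans (erase_subset _ _)) x
      _ = _ := by rw [ENNReal.ofReal_mul (by norm_num)]; ring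

theorem kap1 (hN : 0 < N) : (N : ℝ) * kap M R N = (M * vB * R ^ 3) / N ^ 2 := by
  unfold kap
  have : (N : ℝ) ≠ 0 := by positivity
  field_simp

theorem kap2 (hN : 0 < N) : (N : ℝ) ^ 2 * (kap M R (Real.sqrt N) * kap M R (Real.sqrt N))
    = (M * vB * R ^ 3) ^ 2 / N := by
  unfold kap
  have h0 : (0 : ℝ) < N := by positivity
  have h1 : Real.sqrt N ≠ 0 := (Real.sqrt_pos.2 h0).ne'
  have h2 : Real.sqrt N ^ 2 = N := Real.sq_sqrt h0.le
  have h3 : (R / Real.sqrt N) ^ 3 * (R / Real.sqrt N) ^ 3 = R ^ 6 / N ^ 3 := by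
    rw [div_pow, div_mul_div_comm, ← pow_add, ← pow_add]
    norm_num
    rw [show (Real.sqrt N) ^ 6 = (Real.sqrt N ^ 2) ^ 3 by ring, h2]
  calc (N : ℝ) ^ 2 * (M * vB * (R / Real.sqrt N) ^ 3 * (M * vB * (R / Real.sqrt N) ^ 3))
      = (N : ℝ) ^ 2 * (M * vB) ^ 2 * ((R / Real.sqrt N) ^ 3 * (R / Real.sqrt N) ^ 3) := by ring
    _ = _ := by rw [h3]; field_simp

/-- the constant in the recursion -/
noncomputable def Cr (R M A0 : ℝ) : ℝ :=
  8 * A0 * (M * vB * R ^ 3) + 24 * A0 * (M * vB * R ^ 3) ^ 2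

theorem Cr_nn (H : Std a b ρ R M A0) : 0 ≤ Cr R M A0 := by
  have := H.A00; have := H.M0; have := H.R0; have := vB_nn
  unfold Cr; positivity

theorem BS_int (H : Std a b ρ R M A0) (hN : 0 < N) {i : Fin N} {S : Finset (Fin N)} (hi : i ∉ S)
    (h1 : ∀ q ∈ S, ZZ ρ a b (S.erase q) ≤ 2 * ZZ ρ a b S)
    (h2 : ∀ q ∈ S, ∀ r ∈ S.erase q, ZZ ρ a b ((S.erase q).erase r) ≤ 4 * ZZ ρ a b S) :
    EE ρ (fun x => ENNReal.ofReal (2 * BS a b i S x) * wS a b S x)
      ≤ ENNReal.ofReal (Cr R M A0 / N) * ZZ ρ a b S := by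
  have hN0 : (0 : ℝ) < N := by positivity
  have hsN : 0 < Real.sqrt N := Real.sqrt_pos.2 hN0
  have hA := H.A00
  have hk1 := kap_nn H.M0 H.R0 hN0
  have hk2 := kap_nn H.M0 H.R0 hsN
  refine (EE_mono ρ (BS_bd H (i := i) (S := S))).trans ?_
  have m1 : ∀ q ∈ S, Measurable (fun x : Fin N → E3 => ENNReal.ofReal (4 * A0) *
      (qi (N : ℝ) R (x i) (x q) * wS a b (S.erase q) x)) := fun q _ =>
    ((measurable_qi_comp _ _ i q).mul (measurable_wS H.ab _)).const_mul _
  have m2 : ∀ q, ∀ r ∈ S.erase q, Measurable (fun x : Fin N → E3 => ENNReal.ofReal (6 * A0) *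
      (qi (Real.sqrt N) R (x i) (x q)
        * (qi (Real.sqrt N) R (x i) (x r) * wS a b ((S.erase q).erase r) x))) := fun q r _ =>
    ((measurable_qi_comp _ _ i q).mul ((measurable_qi_comp _ _ i r).mul
      (measurable_wS H.ab _))).const_mul _
  rw [EE_add H.hρ (Finset.measurable_fun_sum S m1), EE_sum H.hρ S m1,
    EE_sum H.hρ S (fun q _ => Finset.measurable_fun_sum _ (m2 q))]
  have hcard : (S.card : ℝ≥0∞) ≤ (N : ℝ≥0∞) := by
    have := Finset.card_le_univ S
    rw [Fintype.card_fin] at this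
    exact_mod_cast this
  have b1 : ∑ q ∈ S, EE ρ (fun x : Fin N → E3 => ENNReal.ofReal (4 * A0) *
      (qi (N : ℝ) R (x i) (x q) * wS a b (S.erase q) x))
      ≤ N * (ENNReal.ofReal (4 * A0) * (ENNReal.ofReal (kap M R N) * (2 * ZZ ρ a b S))) := by
    refine (Finset.sum_le_card_nsmul S _
      (ENNReal.ofReal (4 * A0) * (ENNReal.ofReal (kap M R N) * (2 * ZZ ρ a b S)))
      fun q hq => ?_).trans ?_
    · have hiq : i ≠ q := fun e => hi (e ▸ hq)
      have mm : Measurable (fun x : Fin N → E3 =>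
          qi (N : ℝ) R (x i) (x q) * wS a b (S.erase q) x) :=
        (measurable_qi_comp _ _ i q).mul (measurable_wS H.ab _)
      rw [EE_mul H.hρ _ mm]
      gcongr
      refine (EE_rem1 H hN0 hiq (measurable_wS H.ab _) (Ind_wS (notMem_erase q S))).trans ?_
      gcongr
      exact h1 q hq
    · rw [nsmul_eq_mul]
      gcongr
  have b2 : ∑ q ∈ S, EE ρ (fun x : Fin N → E3 => ∑ r ∈ S.erase q, ENNReal.ofReal (6 * A0) *
      (qi (Real.sqrt N) R (x i) (x q)
        * (qi (Real.sqrt N) R (x i) (x r) * wS a b ((S.erase q).erase r) x)))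
      ≤ N * (N * (ENNReal.ofReal (6 * A0) * (ENNReal.ofReal (kap M R (Real.sqrt N))
        * (ENNReal.ofReal (kap M R (Real.sqrt N)) * (4 * ZZ ρ a b S))))) := by
    refine (Finset.sum_le_card_nsmul S _
      (N * (ENNReal.ofReal (6 * A0) * (ENNReal.ofReal (kap M R (Real.sqrt N))
        * (ENNReal.ofReal (kap M R (Real.sqrt N)) * (4 * ZZ ρ a b S)))))
      fun q hq => ?_).trans ?_
    · rw [EE_sum H.hρ _ (m2 q)]
      refine (Finset.sum_le_card_nsmul (S.erase q) _
        (ENNReal.ofReal (6 * A0) * (ENNReal.ofReal (kap M R (Real.sqrt N))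
        * (ENNReal.ofReal (kap M R (Real.sqrt N)) * (4 * ZZ ρ a b S))))
        fun r hr => ?_).trans ?_
      · have hiq : i ≠ q := fun e => hi (e ▸ hq)
        have hir : i ≠ r := fun e => hi (e ▸ mem_of_mem_erase hr)
        have hqr : q ≠ r := (ne_of_mem_erase hr).symm
        have mm : Measurable (fun x : Fin N → E3 => qi (Real.sqrt N) R (x i) (x q)
            * (qi (Real.sqrt N) R (x i) (x r) * wS a b ((S.erase q).erase r) x)) :=
          (measurable_qi_comp _ _ i q).mul ((measurable_qi_comp _ _ i r).mul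
            (measurable_wS H.ab _))
        rw [EE_mul H.hρ _ mm]
        gcongr
        refine (EE_rem2 H hsN hiq hir hqr (measurable_wS H.ab _)
          (Ind_wS (fun hh => notMem_erase q S (mem_of_mem_erase hh)))
          (Ind_wS (notMem_erase r _))).trans ?_
        gcongr
        exact h2 q hq r hr
      · rw [nsmul_eq_mul]
        gcongr
        have h5 : (S.erase q).card ≤ S.card := Finset.card_le_card (erase_subset q S)
        exact h5.trans (by simpa using Finset.card_le_univ S)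
    · rw [nsmul_eq_mul]
      gcongr
  refine (add_le_add b1 b2).trans ?_
  have hNc : (N : ℝ≥0∞) = ENNReal.ofReal N := by simp
  have e2 : (2 : ℝ≥0∞) = ENNReal.ofReal 2 := by simp
  have e4 : (4 : ℝ≥0∞) = ENNReal.ofReal 4 := by simp
  have f1 : (N : ℝ≥0∞) * (ENNReal.ofReal (4 * A0) * (ENNReal.ofReal (kap M R N) *
      (2 * ZZ ρ a b S))) = ENNReal.ofReal (8 * A0 * (N * kap M R N)) * ZZ ρ a b S := by
    rw [hNc, e2, show (8 * A0 * (N * kap M R N)) = N * ((4 * A0) * (kap M R N * 2)) by ring,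
      ENNReal.ofReal_mul hN0.le, ENNReal.ofReal_mul (p := 4 * A0) (q := kap M R N * 2)
      (by positivity), ENNReal.ofReal_mul (p := kap M R N) (q := 2) hk1]
    ring
  have f2 : (N : ℝ≥0∞) * (N * (ENNReal.ofReal (6 * A0) * (ENNReal.ofReal (kap M R (Real.sqrt N))
        * (ENNReal.ofReal (kap M R (Real.sqrt N)) * (4 * ZZ ρ a b S)))))
      = ENNReal.ofReal (24 * A0 * ((N : ℝ) ^ 2 * (kap M R (Real.sqrt N) * kap M R (Real.sqrt N))))
        * ZZ ρ a b S := by
    rw [hNc, e4, show (24 * A0 * ((N : ℝ) ^ 2 * (kap M R (Real.sqrt N) * kap M R (Real.sqrt N))))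
      = N * (N * ((6 * A0) * (kap M R (Real.sqrt N) * (kap M R (Real.sqrt N) * 4)))) by ring,
      ENNReal.ofReal_mul hN0.le, ENNReal.ofReal_mul hN0.le,
      ENNReal.ofReal_mul (p := 6 * A0) (q := kap M R (Real.sqrt N) * (kap M R (Real.sqrt N) * 4))
      (by positivity),
      ENNReal.ofReal_mul (p := kap M R (Real.sqrt N)) (q := kap M R (Real.sqrt N) * 4) hk2,
      ENNReal.ofReal_mul (p := kap M R (Real.sqrt N)) (q := 4) hk2]
    ring
  rw [f1, f2, ← add_mul, ← ENNReal.ofReal_add (by positivity) (by positivity), kap1 hN, kap2 hN]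
  gcongr
  have hv := vB_nn
  have hM := H.M0
  have hR := H.R0
  have h1N : (1 : ℝ) ≤ N := by exact_mod_cast hN
  have hc : M * vB * R ^ 3 / (N : ℝ) ^ 2 ≤ M * vB * R ^ 3 / N := by
    apply div_le_div_of_nonneg_left (by positivity) hN0
    nlinarith
  unfold Cr
  calc 8 * A0 * (M * vB * R ^ 3 / (N : ℝ) ^ 2) + 24 * A0 * ((M * vB * R ^ 3) ^ 2 / N)
      ≤ 8 * A0 * (M * vB * R ^ 3 / N) + 24 * A0 * ((M * vB * R ^ 3) ^ 2 / N) := by gcongr
    _ = _ := by ring

theorem ZZ_rec (H : Std a b ρ R M A0) (hN : 0 < N) {i : Fin N} {S : Finset (Fin N)} (hi : i ∉ S)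
    (h1 : ∀ q ∈ S, ZZ ρ a b (S.erase q) ≤ 2 * ZZ ρ a b S)
    (h2 : ∀ q ∈ S, ∀ r ∈ S.erase q, ZZ ρ a b ((S.erase q).erase r) ≤ 4 * ZZ ρ a b S) :
    ZZ ρ a b S ≤ ZZ ρ a b (insert i S) + ENNReal.ofReal (Cr R M A0 / N) * ZZ ρ a b S := by
  have h3 := BS_int H hN hi h1 h2
  calc ZZ ρ a b S ≤ EE ρ (fun x => wS a b (insert i S) x
        + ENNReal.ofReal (2 * BS a b i S x) * wS a b S x) :=
        EE_mono ρ fun x => wS_insert_ge H.ab hi x
    _ = ZZ ρ a b (insert i S) + EE ρ (fun x => ENNReal.ofReal (2 * BS a b i S x) * wS a b S x) :=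
        EE_add H.hρ (measurable_wS H.ab _)
    _ ≤ _ := by gcongr

theorem ZZ_two (H : Std a b ρ R M A0) (hN : 0 < N) (hc : Cr R M A0 / N ≤ 1 / 2) :
    ∀ (n : ℕ) (S : Finset (Fin N)), S.card = n → ∀ i, i ∉ S →
      ZZ ρ a b S ≤ ENNReal.ofReal (1 + 2 * (Cr R M A0 / N)) * ZZ ρ a b (insert i S) := by
  intro n
  induction n using Nat.strong_induction_on with
  | _ n ih =>
    intro S hS i hi
    have hc0 : 0 ≤ Cr R M A0 / N := div_nonneg (Cr_nn H) (by positivity)
    have h2' : ENNReal.ofReal (1 + 2 * (Cr R M A0 / N)) ≤ 2 := by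
      have : (2 : ℝ≥0∞) = ENNReal.ofReal 2 := by simp
      rw [this]
      exact ENNReal.ofReal_le_ofReal (by linarith)
    have h1 : ∀ T : Finset (Fin N), T.card ≤ n → ∀ q ∈ T, ZZ ρ a b (T.erase q) ≤ 2 * ZZ ρ a b T := by
      intro T hT q hq
      have hlt : (T.erase q).card < n := lt_of_lt_of_le (Finset.card_erase_lt_of_mem hq) hT
      have h3 := ih _ hlt (T.erase q) rfl q (notMem_erase q T)
      rw [insert_erase hq] at h3
      exact h3.trans (by gcongr)
    have h2 : ∀ q ∈ S, ∀ r ∈ S.erase q, ZZ ρ a b ((S.erase q).erase r) ≤ 4 * ZZ ρ a b S := by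
      intro q hq r hr
      have e1 := h1 (S.erase q) ((Finset.card_erase_le).trans hS.le) r hr
      have e2 := h1 S hS.le q hq
      calc ZZ ρ a b ((S.erase q).erase r) ≤ 2 * (2 * ZZ ρ a b S) := e1.trans (by gcongr)
        _ = 4 * ZZ ρ a b S := by ring
    have h4 := ZZ_rec H hN hi (h1 S hS.le) h2
    -- convert to reals
    have hf1 : ZZ ρ a b S ≠ ⊤ := ((ZZ_le_one H.ab H.hρ H.h1 S).trans_lt ENNReal.one_lt_top).ne
    have hf2 : ZZ ρ a b (insert i S) ≠ ⊤ :=
      ((ZZ_le_one H.ab H.hρ H.h1 (insert i S)).trans_lt ENNReal.one_lt_top).ne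
    set t := Cr R M A0 / N with ht
    rw [← ENNReal.ofReal_toReal hf1, ← ENNReal.ofReal_toReal hf2] at h4 ⊢
    set u := (ZZ ρ a b S).toReal with hu
    set v := (ZZ ρ a b (insert i S)).toReal with hv
    have hu0 : 0 ≤ u := ENNReal.toReal_nonneg
    have hv0 : 0 ≤ v := ENNReal.toReal_nonneg
    rw [← ENNReal.ofReal_mul hc0, ← ENNReal.ofReal_add hv0 (by positivity),
      ENNReal.ofReal_le_ofReal_iff (by positivity)] at h4
    rw [← ENNReal.ofReal_mul (by positivity)]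
    refine ENNReal.ofReal_le_ofReal ?_
    have h5 : u * (1 - t) ≤ v := by linarith
    have h6 : u ≤ (1 + 2 * t) * (u * (1 - t)) := by
      have : (1 + 2 * t) * (1 - t) ≥ 1 := by nlinarith
      nlinarith
    exact h6.trans (by gcongr)

theorem ZZ_step (H : Std a b ρ R M A0) (hN : 0 < N) (hc : Cr R M A0 / N ≤ 1 / 2)
    {S : Finset (Fin N)} {i : Fin N} (hi : i ∈ S) :
    ZZ ρ a b (S.erase i) ≤ ENNReal.ofReal (1 + 2 * (Cr R M A0 / N)) * ZZ ρ a b S := by
  have := ZZ_two H hN hc _ (S.erase i) rfl i (notMem_erase i S)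
  rwa [insert_erase hi] at this

end Pool.Agent.Helper67.Bose
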