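import Mathlib
import Pool.Agent.Helper67.Bose.Rec

set_option autoImplicit false
open MeasureTheory Finset
open scoped ENNReal

namespace Pool.Agent.Helper67.Bose
open Pool.Agent.Helper23.Bose

variable {N : ℕ} {a : E3 → ℝ} {b : E3 × E3 → ℝ} {u : E3 → ℂ}

/-- trial state -/
noncomputable def Psi (u : E3 → ℂ) (a : E3 → ℝ) (b : E3 × E3 → ℝ) (x : Fin N → E3) : ℂ :=
  (∏ j, u (x j)) * ((Real.exp (-(AS a b univ x)) : ℝ) : ℂ)

theorem line_ne (x : Fin N → E3) {i j : Fin N} (h : j ≠ i) (v : E3) (t : ℝ) :
    (x + t • (Pi.single i v : Fin N → E3)) j = x j := by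
  simp [Pi.single_eq_of_ne h]

theorem line_eq (x : Fin N → E3) (i : Fin N) (v : E3) (t : ℝ) :
    (x + t • (Pi.single i v : Fin N → E3)) i = x i + t • v := by
  simp

theorem line_update (x : Fin N → E3) (i : Fin N) (v : E3) (t : ℝ) :
    x + t • (Pi.single i v : Fin N → E3) = Function.update x i (x i + t • v) := by
  funext j
  by_cases h : j = i
  · subst h; rw [line_eq, Function.update_self]
  · rw [line_ne x h, Function.update_of_ne h]

/-- derivative of the pair exponent -/
noncomputable def al (a : E3 → ℝ) (i q : Fin N) (v : E3) (x : Fin N → E3) : ℝ :=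
  if i = q then 0 else 2 * (N * fderiv ℝ a ((N : ℝ) • (x i - x q)) v)

/-- derivative of the triple exponent -/
noncomputable def be (b : E3 × E3 → ℝ) (i q r : Fin N) (v : E3) (x : Fin N → E3) : ℝ :=
  if i = q ∨ i = r ∨ q = r then 0
  else 3 * (Real.sqrt N * fderiv ℝ b (Real.sqrt N • (x i - x q), Real.sqrt N • (x i - x r)) (v, v))

/-- derivative of the exponent -/
noncomputable def db (a : E3 → ℝ) (b : E3 × E3 → ℝ) (i : Fin N) (v : E3) (x : Fin N → E3) : ℝ :=
  ∑ q ∈ univ.erase i, al a i q v x + ∑ q ∈ univ.erase i, ∑ r ∈ univ.erase i, be b i q r v x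

theorem hasDerivAt_pa (h : AB a b) (i q : Fin N) (v : E3) (x : Fin N → E3) :
    HasDerivAt (fun t : ℝ => 2 * pa a i q (x + t • (Pi.single i v : Fin N → E3)))
      (al a i q v x) 0 := by
  unfold al pa
  by_cases hiq : i = q
  · simp only [if_pos hiq, mul_zero]
    exact hasDerivAt_const _ _
  · simp only [if_neg hiq]
    have h1 : ∀ t : ℝ, (N : ℝ) • ((x + t • (Pi.single i v : Fin N → E3)) i
        - (x + t • (Pi.single i v : Fin N → E3)) q)
        = (N : ℝ) • (x i - x q) + t • ((N : ℝ) • v) := by
      intro t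
      rw [line_eq, line_ne x (Ne.symm hiq), smul_comm, ← smul_add]
      congr 1
      abel
    simp_rw [h1]
    have h2 : HasDerivAt (fun t : ℝ => (N : ℝ) • (x i - x q) + t • ((N : ℝ) • v))
        ((N : ℝ) • v) 0 := by
      simpa using ((hasDerivAt_id (0 : ℝ)).smul_const ((N : ℝ) • v)).const_add
        ((N : ℝ) • (x i - x q))
    have h3 : HasFDerivAt a (fderiv ℝ a ((N : ℝ) • (x i - x q)))
        ((N : ℝ) • (x i - x q) + (0 : ℝ) • ((N : ℝ) • v)) := by
      rw [zero_smul, add_zero]
      exact (h.a_smooth.differentiable (by simp) _).hasFDerivAt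
    have h4 := (h3.comp_hasDerivAt (0 : ℝ) h2).const_mul 2
    simpa [map_smul] using h4

theorem hasDerivAt_pb (h : AB a b) (i q r : Fin N) (v : E3) (x : Fin N → E3) :
    HasDerivAt (fun t : ℝ => 3 * pb b i q r (x + t • (Pi.single i v : Fin N → E3)))
      (be b i q r v x) 0 := by
  unfold be pb
  by_cases hiq : i = q ∨ i = r ∨ q = r
  · simp only [if_pos hiq, mul_zero]
    exact hasDerivAt_const _ _
  · simp only [if_neg hiq]
    push Not at hiq
    set s := Real.sqrt N with hs
    have h1 : ∀ t : ℝ, (s • ((x + t • (Pi.single i v : Fin N → E3)) i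
        - (x + t • (Pi.single i v : Fin N → E3)) q),
        s • ((x + t • (Pi.single i v : Fin N → E3)) i
        - (x + t • (Pi.single i v : Fin N → E3)) r))
        = (s • (x i - x q), s • (x i - x r)) + t • (s • (v, v)) := by
      intro t
      rw [line_eq, line_ne x (Ne.symm hiq.1), line_ne x (Ne.symm hiq.2.1)]
      refine Prod.ext ?_ ?_
      · simp only [Prod.fst_add, Prod.smul_fst]
        rw [smul_comm t, ← smul_add]
        congr 1
        abel
      · simp only [Prod.snd_add, Prod.smul_snd]
        rw [smul_comm t, ← smul_add]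
        congr 1
        abel
    simp_rw [h1]
    have h2 : HasDerivAt (fun t : ℝ => (s • (x i - x q), s • (x i - x r)) + t • (s • (v, v)))
        (s • (v, v)) 0 := by
      simpa using ((hasDerivAt_id (0 : ℝ)).smul_const (s • (v, v))).const_add
        (s • (x i - x q), s • (x i - x r))
    have h3 : HasFDerivAt b (fderiv ℝ b (s • (x i - x q), s • (x i - x r)))
        ((s • (x i - x q), s • (x i - x r)) + (0 : ℝ) • (s • (v, v))) := by
      rw [zero_smul, add_zero]
      exact (h.b_smooth.differentiable (by simp) _).hasFDerivAt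
    have h4 := (h3.comp_hasDerivAt (0 : ℝ) h2).const_mul 3
    simp only [map_smul, smul_eq_mul] at h4
    exact h4

theorem hasDerivAt_BS (h : AB a b) (i : Fin N) (v : E3) (x : Fin N → E3) :
    HasDerivAt (fun t : ℝ => BS a b i (univ.erase i) (x + t • (Pi.single i v : Fin N → E3)))
      (db a b i v x) 0 := by
  unfold BS db
  simp_rw [Finset.mul_sum]
  refine HasDerivAt.add ?_ ?_
  · exact HasDerivAt.fun_sum fun q _ => hasDerivAt_pa h i q v x
  · exact HasDerivAt.fun_sum fun q _ => HasDerivAt.fun_sum fun r _ => hasDerivAt_pb h i q r v x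

theorem contDiff_pa (h : AB a b) (i j : Fin N) : ContDiff ℝ cinf (pa (N := N) a i j) := by
  unfold pa
  by_cases hij : i = j
  · simp only [if_pos hij]; exact contDiff_const
  · simp only [if_neg hij]
    refine h.a_smooth.comp ?_
    exact ((contDiff_apply ℝ E3 i).sub (contDiff_apply ℝ E3 j)).const_smul (N : ℝ)

theorem contDiff_pb (h : AB a b) (i j k : Fin N) : ContDiff ℝ cinf (pb (N := N) b i j k) := by
  unfold pb
  by_cases hij : i = j ∨ i = k ∨ j = k
  · simp only [if_pos hij]; exact contDiff_const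
  · simp only [if_neg hij]
    refine h.b_smooth.comp ?_
    exact (((contDiff_apply ℝ E3 i).sub (contDiff_apply ℝ E3 j)).const_smul (Real.sqrt N)).prodMk
      (((contDiff_apply ℝ E3 i).sub (contDiff_apply ℝ E3 k)).const_smul (Real.sqrt N))

theorem contDiff_AS (h : AB a b) (S : Finset (Fin N)) : ContDiff ℝ cinf (AS (N := N) a b S) := by
  unfold AS
  refine ContDiff.add ?_ ?_
  · exact ContDiff.sum fun i _ => ContDiff.sum fun j _ => contDiff_pa h i j
  · exact ContDiff.sum fun i _ => ContDiff.sum fun j _ => ContDiff.sum fun k _ =>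
      contDiff_pb h i j k

theorem contDiff_Psi (h : AB a b) (hu : ContDiff ℝ cinf u) :
    ContDiff ℝ cinf (Psi (N := N) u a b) := by
  unfold Psi
  refine ContDiff.mul ?_ ?_
  · exact contDiff_prod fun j _ => hu.comp (contDiff_apply ℝ E3 j)
  · exact Complex.ofRealCLM.contDiff.comp ((Real.contDiff_exp).comp (contDiff_AS h univ).neg)

theorem fderiv_Psi (h : AB a b) (hu : ContDiff ℝ cinf u) (i : Fin N) (v : E3)
    (x : Fin N → E3) :
    fderiv ℝ (Psi (N := N) u a b) x (Pi.single i v)
      = (∏ j ∈ univ.erase i, u (x j)) * ((Real.exp (-(AS a b univ x)) : ℝ) : ℂ)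
        * (fderiv ℝ u (x i) v - u (x i) * ((db a b i v x : ℝ) : ℂ)) := by
  have hx0 : x + (0 : ℝ) • (Pi.single i v : Fin N → E3) = x := by simp
  have h1 : HasDerivAt (fun t : ℝ => x + t • (Pi.single i v : Fin N → E3))
      (Pi.single i v) 0 := by
    simpa using ((hasDerivAt_id (0 : ℝ)).smul_const (Pi.single i v : Fin N → E3)).const_add x
  have h2 : HasFDerivAt (Psi (N := N) u a b) (fderiv ℝ (Psi (N := N) u a b) x)
      (x + (0 : ℝ) • (Pi.single i v : Fin N → E3)) := by
    rw [hx0]
    exact ((contDiff_Psi h hu).differentiable (by simp) _).hasFDerivAt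
  have h3 := h2.comp_hasDerivAt (0 : ℝ) h1
  have hi : i ∉ univ.erase i := notMem_erase i univ
  have h4 : ∀ t : ℝ, Psi (N := N) u a b (x + t • (Pi.single i v : Fin N → E3))
      = (∏ j ∈ univ.erase i, u (x j)) * (u (x i + t • v) *
        ((Real.exp (-(AS a b (univ.erase i) x
          + BS a b i (univ.erase i) (x + t • (Pi.single i v : Fin N → E3)))) : ℝ) : ℂ)) := by
    intro t
    unfold Psi
    rw [← Finset.mul_prod_erase univ _ (mem_univ i), line_eq]
    have e1 : AS a b univ (x + t • (Pi.single i v : Fin N → E3))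
        = AS a b (univ.erase i) x
          + BS a b i (univ.erase i) (x + t • (Pi.single i v : Fin N → E3)) := by
      have := AS_insert h hi (x + t • (Pi.single i v : Fin N → E3))
      rw [insert_erase (mem_univ i)] at this
      rw [this]
      congr 1
      rw [line_update, AS_update hi]
    have e2 : ∏ j ∈ univ.erase i, u ((x + t • (Pi.single i v : Fin N → E3)) j)
        = ∏ j ∈ univ.erase i, u (x j) :=
      Finset.prod_congr rfl fun j hj => by rw [line_ne x (ne_of_mem_erase hj)]
    rw [e1, e2]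
    ring
  have h5 : HasDerivAt (fun t : ℝ => x i + t • v) v 0 := by
    simpa using ((hasDerivAt_id (0 : ℝ)).smul_const v).const_add (x i)
  have h6 : HasFDerivAt u (fderiv ℝ u (x i)) (x i + (0 : ℝ) • v) := by
    rw [zero_smul, add_zero]
    exact (hu.differentiable (by simp) _).hasFDerivAt
  have h7 := h6.comp_hasDerivAt (0 : ℝ) h5
  have h8 := (((hasDerivAt_BS h i v x).const_add (AS a b (univ.erase i) x)).neg.exp).ofReal_comp
  have h9 := (h7.mul h8).const_mul (∏ j ∈ univ.erase i, u (x j))
  have e3 : AS a b (univ.erase i) x + BS a b i (univ.erase i) x = AS a b univ x := by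
    have := AS_insert h hi x
    rw [insert_erase (mem_univ i)] at this
    rw [this]
  have h10 : HasDerivAt (fun t : ℝ => Psi (N := N) u a b (x + t • (Pi.single i v : Fin N → E3)))
      ((∏ j ∈ univ.erase i, u (x j)) * ((Real.exp (-(AS a b univ x)) : ℝ) : ℂ)
        * (fderiv ℝ u (x i) v - u (x i) * ((db a b i v x : ℝ) : ℂ))) 0 := by
    simp_rw [h4]
    refine h9.congr_deriv ?_
    simp only [Function.comp_apply, Pi.neg_apply, hx0, zero_smul, add_zero]
    rw [e3]
    push_cast
    ring
  exact h3.unique h10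

end Pool.Agent.Helper67.Bose
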