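import Mathlib
import Pool.Agent.Helper67.Bose.Kin

set_option autoImplicit false
open MeasureTheory Finset
open scoped ENNReal

namespace Pool.Agent.Helper67.Bose
open Pool.Agent.Helper23.Bose

variable {N : ℕ} {a : E3 → ℝ} {b : E3 × E3 → ℝ} {u : E3 → ℂ} {ρ : E3 → ℝ≥0∞} {R M A0 : ℝ}

theorem be_swap (h : AB a b) (i q r : Fin N) (v : E3) (x : Fin N → E3) :
    be b i q r v x = be b i r q v x := by
  have h1 := hasDerivAt_pb h i q r v x
  have h2 := hasDerivAt_pb h i r q v x
  simp_rw [pb_swap h i r q] at h2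
  exact h1.unique h2

theorem be_self (i q : Fin N) (v : E3) (x : Fin N → E3) : be b i q q v x = 0 := by simp [be]

theorem continuous_al (h : AB a b) (i q : Fin N) (v : E3) : Continuous (al (N := N) a i q v) := by
  unfold al
  by_cases hij : i = q
  · simp only [if_pos hij]; exact continuous_const
  · simp only [if_neg hij]
    have h1 : Continuous (fun r : E3 => fderiv ℝ a r v) :=
      (h.a_smooth.continuous_fderiv (by simp)).clm_apply continuous_const
    have h2 : Continuous (fun x : Fin N → E3 => (N : ℝ) • (x i - x q)) := by fun_prop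
    exact continuous_const.mul (continuous_const.mul (h1.comp h2))

theorem continuous_be (h : AB a b) (i q r : Fin N) (v : E3) :
    Continuous (be (N := N) b i q r v) := by
  unfold be
  by_cases hij : i = q ∨ i = r ∨ q = r
  · simp only [if_pos hij]; exact continuous_const
  · simp only [if_neg hij]
    have h1 : Continuous (fun p : E3 × E3 => fderiv ℝ b p (v, v)) :=
      (h.b_smooth.continuous_fderiv (by simp)).clm_apply continuous_const
    have h2 : Continuous (fun x : Fin N → E3 =>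
      (Real.sqrt N • (x i - x q), Real.sqrt N • (x i - x r))) := by fun_prop
    exact continuous_const.mul (continuous_const.mul (h1.comp h2))

theorem continuous_db (h : AB a b) (i : Fin N) (v : E3) : Continuous (db (N := N) a b i v) := by
  unfold db
  exact (continuous_finset_sum _ fun q _ => continuous_al h i q v).add
    (continuous_finset_sum _ fun q _ => continuous_finset_sum _ fun r _ => continuous_be h i q r v)

/-- absolute values -/
noncomputable def aal (a : E3 → ℝ) (i q : Fin N) (v : E3) (x : Fin N → E3) : ℝ≥0∞ :=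
  ENNReal.ofReal |al a i q v x|
/-- absolute values -/
noncomputable def bbe (b : E3 × E3 → ℝ) (i q r : Fin N) (v : E3) (x : Fin N → E3) : ℝ≥0∞ :=
  ENNReal.ofReal |be b i q r v x|

theorem measurable_aal (h : AB a b) (i q : Fin N) (v : E3) :
    Measurable (aal (N := N) a i q v) := by
  unfold aal
  exact ENNReal.measurable_ofReal.comp (continuous_al h i q v).abs.measurable

theorem measurable_bbe (h : AB a b) (i q r : Fin N) (v : E3) :
    Measurable (bbe (N := N) b i q r v) := by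
  unfold bbe
  exact ENNReal.measurable_ofReal.comp (continuous_be h i q r v).abs.measurable

theorem bbe_self (i q : Fin N) (v : E3) (x : Fin N → E3) : bbe b i q q v x = 0 := by
  simp [bbe, be_self]

theorem bbe_swap (h : AB a b) (i q r : Fin N) (v : E3) (x : Fin N → E3) :
    bbe b i q r v x = bbe b i r q v x := by
  simp [bbe, be_swap h i q r]

theorem aal_bd (H : Std a b ρ R M A0) (i q : Fin N) (k : Fin 3) (x : Fin N → E3) :
    aal a i q (ek k) x ≤ ENNReal.ofReal (2 * N * A0) * qi (N : ℝ) R (x i) (x q) := by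
  unfold aal al qi
  by_cases hiq : i = q
  · rw [if_pos hiq]; simp
  · rw [if_neg hiq]
    have h1 := H.da_bd ((N : ℝ) • (x i - x q)) k
    split_ifs at h1 ⊢ with h2
    · rw [mul_one]
      refine ENNReal.ofReal_le_ofReal ?_
      rw [abs_mul, abs_mul, abs_of_nonneg (by norm_num : (0 : ℝ) ≤ 2),
        abs_of_nonneg (Nat.cast_nonneg N), mul_assoc]
      gcongr
    · have h3 : fderiv ℝ a ((N : ℝ) • (x i - x q)) (ek k) = 0 :=
        abs_eq_zero.1 (le_antisymm h1 (abs_nonneg _))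
      rw [h3]; simp

theorem bbe_bd (H : Std a b ρ R M A0) (i q r : Fin N) (k : Fin 3) (x : Fin N → E3) :
    bbe b i q r (ek k) x
      ≤ ENNReal.ofReal (3 * Real.sqrt N * A0)
        * (qi (Real.sqrt N) R (x i) (x q) * qi (Real.sqrt N) R (x i) (x r)) := by
  unfold bbe be qi
  by_cases hiq : i = q ∨ i = r ∨ q = r
  · rw [if_pos hiq]; simp
  · rw [if_neg hiq]
    have h1 := H.db_bd (Real.sqrt N • (x i - x q), Real.sqrt N • (x i - x r)) k
    simp only at h1
    by_cases h2 : ‖Real.sqrt N • (x i - x q)‖ ≤ R ∧ ‖Real.sqrt N • (x i - x r)‖ ≤ R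
    · rw [if_pos h2] at h1
      rw [if_pos h2.1, if_pos h2.2, mul_one, mul_one]
      refine ENNReal.ofReal_le_ofReal ?_
      rw [abs_mul, abs_mul, abs_of_nonneg (by norm_num : (0 : ℝ) ≤ 3),
        abs_of_nonneg (Real.sqrt_nonneg _), mul_assoc]
      gcongr
    · rw [if_neg h2] at h1
      have h3 : fderiv ℝ b (Real.sqrt N • (x i - x q), Real.sqrt N • (x i - x r)) (ek k, ek k) = 0 :=
        abs_eq_zero.1 (le_antisymm h1 (abs_nonneg _))
      rw [h3]; simp

theorem qi_le_one (s R : ℝ) (z y : E3) : qi s R z y ≤ 1 := by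
  unfold qi; split_ifs <;> simp

theorem GG_mul (hρ : Measurable ρ) (i : Fin N) {τ : E3 → ℝ≥0∞} (hτ : Measurable τ) (c : ℝ≥0∞)
    {f : (Fin N → E3) → ℝ≥0∞} (hf : Measurable f) :
    GG ρ i τ (fun x => c * f x) = c * GG ρ i τ f := by
  unfold GG
  have hm : Measurable (fun x : Fin N → E3 =>
      τ (x i) * (∏ j ∈ univ.erase i, ρ (x j)) * f x) :=
    ((hτ.comp (measurable_pi_apply i)).mul (measurable_prod_rho hρ _)).mul hf
  rw [← lintegral_const_mul _ hm]
  exact lintegral_congr fun x => by ring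

theorem GG_sum (hρ : Measurable ρ) (i : Fin N) {τ : E3 → ℝ≥0∞} (hτ : Measurable τ)
    {ι : Type*} (s : Finset ι) {f : ι → (Fin N → E3) → ℝ≥0∞} (hf : ∀ j ∈ s, Measurable (f j)) :
    GG ρ i τ (fun x => ∑ j ∈ s, f j x) = ∑ j ∈ s, GG ρ i τ (f j) := by
  unfold GG
  simp only [Finset.mul_sum]
  exact lintegral_finsetSum' _ fun j hj =>
    (((hτ.comp (measurable_pi_apply i)).mul (measurable_prod_rho hρ _)).mul (hf j hj)).aemeasurable

theorem GG_add (hρ : Measurable ρ) (i : Fin N) {τ : E3 → ℝ≥0∞} (hτ : Measurable τ)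
    {f g : (Fin N → E3) → ℝ≥0∞} (hf : Measurable f) :
    GG ρ i τ (fun x => f x + g x) = GG ρ i τ f + GG ρ i τ g := by
  unfold GG
  simp only [mul_add]
  exact lintegral_add_left
    (((hτ.comp (measurable_pi_apply i)).mul (measurable_prod_rho hρ _)).mul hf) _

theorem meas_qi_mul (s R : ℝ) (i q : Fin N) {Φ : (Fin N → E3) → ℝ≥0∞} (hΦ : Measurable Φ) :
    Measurable (fun x : Fin N → E3 => qi s R (x i) (x q) * Φ x) :=
  (measurable_qi_comp s R i q).mul hΦ

theorem Ind_qi_mul (s R : ℝ) {i q r : Fin N} (hi : i ≠ r) (hq : q ≠ r)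
    {Φ : (Fin N → E3) → ℝ≥0∞} (hΦ : Ind r Φ) :
    Ind r (fun x : Fin N → E3 => qi s R (x i) (x q) * Φ x) := by
  intro x y
  show qi s R (Function.update x r y i) (Function.update x r y q) * Φ (Function.update x r y)
      = qi s R (x i) (x q) * Φ x
  rw [Function.update_of_ne hi, Function.update_of_ne hq, hΦ x y]

theorem G1 (H : Std a b ρ R M A0) {s : ℝ} (hs : 0 < s) {i q : Fin N} (hiq : i ≠ q)
    {τ : E3 → ℝ≥0∞} (hτ : Measurable τ)
    {Φ : (Fin N → E3) → ℝ≥0∞} (hΦ : Measurable Φ) (hq : Ind q Φ) :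
    GG ρ i τ (fun x => qi s R (x i) (x q) * Φ x) ≤ ENNReal.ofReal (kap M R s) * GG ρ i τ Φ :=
  GG_rem H.hρ H.h1 hiq hτ (measurable_qi s R) (lint_qi H.hM H.M0 H.R0 hs) hΦ hq

theorem ZZ_er (H : Std a b ρ R M A0) (hN : 0 < N) (hc : Cr R M A0 / N ≤ 1 / 2)
    (S : Finset (Fin N)) (i : Fin N) : ZZ ρ a b (S.erase i) ≤ 2 * ZZ ρ a b S := by
  by_cases hi : i ∈ S
  · refine (ZZ_step H hN hc hi).trans ?_
    gcongr
    have : (2 : ℝ≥0∞) = ENNReal.ofReal 2 := by simp
    rw [this]
    exact ENNReal.ofReal_le_ofReal (by linarith)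
  · rw [erase_eq_of_notMem hi]
    calc ZZ ρ a b S = 1 * ZZ ρ a b S := (one_mul _).symm
      _ ≤ _ := by gcongr; norm_num

/-- total mass of a density -/
noncomputable def mass (τ : E3 → ℝ≥0∞) : ℝ≥0∞ := ∫⁻ y, τ y

variable {τ : E3 → ℝ≥0∞}

theorem GG0 (H : Std a b ρ R M A0) {S : Finset (Fin N)} {i : Fin N} (hi : i ∉ S)
    (hτ : Measurable τ) : GG ρ i τ (wS a b S) = mass τ * ZZ ρ a b S :=
  GG_int H.hρ H.h1 i hτ (measurable_wS H.ab S) (Ind_wS hi)

/-- one removal -/
theorem rem1 (H : Std a b ρ R M A0) (hN : 0 < N) (hc : Cr R M A0 / N ≤ 1 / 2)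
    (hτ : Measurable τ) {s1 : ℝ} (h1 : 0 < s1) {i q : Fin N} (hiq : i ≠ q) :
    GG ρ i τ (fun x => qi s1 R (x i) (x q) * wS a b univ x)
      ≤ ENNReal.ofReal (kap M R s1) * (mass τ * (4 * ZZ ρ a b (univ : Finset (Fin N)))) := by
  set S := (univ.erase i).erase q with hS
  have hiS : i ∉ S := fun e => notMem_erase i _ (mem_of_mem_erase e)
  have hqS : q ∉ S := notMem_erase q _
  have hZ : ZZ ρ a b S ≤ 4 * ZZ ρ a b (univ : Finset (Fin N)) := by
    calc ZZ ρ a b S ≤ 2 * (2 * ZZ ρ a b (univ : Finset (Fin N))) :=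
          (ZZ_er H hN hc _ _).trans (by gcongr; exact ZZ_er H hN hc _ _)
      _ = _ := by ring
  calc GG ρ i τ (fun x => qi s1 R (x i) (x q) * wS a b univ x)
      ≤ GG ρ i τ (fun x => qi s1 R (x i) (x q) * wS a b S x) :=
        GG_mono ρ i τ fun x => by gcongr; exact wS_anti H.ab (subset_univ S) x
    _ ≤ ENNReal.ofReal (kap M R s1) * GG ρ i τ (wS a b S) :=
        G1 H h1 hiq hτ (measurable_wS H.ab S) (Ind_wS hqS)
    _ = ENNReal.ofReal (kap M R s1) * (mass τ * ZZ ρ a b S) := by rw [GG0 H hiS hτ]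
    _ ≤ _ := by gcongr

/-- two removals -/
theorem rem2 (H : Std a b ρ R M A0) (hN : 0 < N) (hc : Cr R M A0 / N ≤ 1 / 2)
    (hτ : Measurable τ) {s1 s2 : ℝ} (h1 : 0 < s1) (h2 : 0 < s2) {i q r : Fin N} (hiq : i ≠ q)
    (hir : i ≠ r) (hqr : q ≠ r) :
    GG ρ i τ (fun x => qi s1 R (x i) (x q) * (qi s2 R (x i) (x r) * wS a b univ x))
      ≤ ENNReal.ofReal (kap M R s1) * (ENNReal.ofReal (kap M R s2)
        * (mass τ * (8 * ZZ ρ a b (univ : Finset (Fin N))))) := by
  set S := ((univ.erase i).erase q).erase r with hS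
  have hiS : i ∉ S := fun e => notMem_erase i _ (mem_of_mem_erase (mem_of_mem_erase e))
  have hqS : q ∉ S := fun e => notMem_erase q _ (mem_of_mem_erase e)
  have hrS : r ∉ S := notMem_erase r _
  have hZ : ZZ ρ a b S ≤ 8 * ZZ ρ a b (univ : Finset (Fin N)) := by
    calc ZZ ρ a b S ≤ 2 * (2 * (2 * ZZ ρ a b (univ : Finset (Fin N)))) :=
          (ZZ_er H hN hc _ _).trans (by
            gcongr; refine (ZZ_er H hN hc _ _).trans ?_; gcongr; exact ZZ_er H hN hc _ _)
      _ = _ := by ring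
  calc GG ρ i τ (fun x => qi s1 R (x i) (x q) * (qi s2 R (x i) (x r) * wS a b univ x))
      ≤ GG ρ i τ (fun x => qi s1 R (x i) (x q) * (qi s2 R (x i) (x r) * wS a b S x)) :=
        GG_mono ρ i τ fun x => by gcongr; exact wS_anti H.ab (subset_univ S) x
    _ ≤ ENNReal.ofReal (kap M R s1) * GG ρ i τ (fun x => qi s2 R (x i) (x r) * wS a b S x) :=
        G1 H h1 hiq hτ (meas_qi_mul _ _ _ _ (measurable_wS H.ab S))
          (Ind_qi_mul _ _ hiq hqr.symm (Ind_wS hqS))
    _ ≤ ENNReal.ofReal (kap M R s1) * (ENNReal.ofReal (kap M R s2) * GG ρ i τ (wS a b S)) := by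
        gcongr
        exact G1 H h2 hir hτ (measurable_wS H.ab S) (Ind_wS hrS)
    _ = ENNReal.ofReal (kap M R s1) * (ENNReal.ofReal (kap M R s2) * (mass τ * ZZ ρ a b S)) := by
        rw [GG0 H hiS hτ]
    _ ≤ _ := by gcongr

/-- three removals -/
theorem rem3 (H : Std a b ρ R M A0) (hN : 0 < N) (hc : Cr R M A0 / N ≤ 1 / 2)
    (hτ : Measurable τ) {s1 s2 s3 : ℝ} (h1 : 0 < s1) (h2 : 0 < s2) (h3 : 0 < s3)
    {i q r t : Fin N} (hiq : i ≠ q)
    (hir : i ≠ r) (hit : i ≠ t) (hqr : q ≠ r) (hqt : q ≠ t) (hrt : r ≠ t) :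
    GG ρ i τ (fun x => qi s1 R (x i) (x q) * (qi s2 R (x i) (x r)
        * (qi s3 R (x i) (x t) * wS a b univ x)))
      ≤ ENNReal.ofReal (kap M R s1) * (ENNReal.ofReal (kap M R s2)
        * (ENNReal.ofReal (kap M R s3)
        * (mass τ * (16 * ZZ ρ a b (univ : Finset (Fin N)))))) := by
  set S := (((univ.erase i).erase q).erase r).erase t with hS
  have hiS : i ∉ S := fun e =>
    notMem_erase i _ (mem_of_mem_erase (mem_of_mem_erase (mem_of_mem_erase e)))
  have hqS : q ∉ S := fun e => notMem_erase q _ (mem_of_mem_erase (mem_of_mem_erase e))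
  have hrS : r ∉ S := fun e => notMem_erase r _ (mem_of_mem_erase e)
  have htS : t ∉ S := notMem_erase t _
  have hZ : ZZ ρ a b S ≤ 16 * ZZ ρ a b (univ : Finset (Fin N)) := by
    calc ZZ ρ a b S ≤ 2 * (2 * (2 * (2 * ZZ ρ a b (univ : Finset (Fin N))))) :=
          (ZZ_er H hN hc _ _).trans (by
            gcongr; refine (ZZ_er H hN hc _ _).trans ?_; gcongr
            refine (ZZ_er H hN hc _ _).trans ?_; gcongr; exact ZZ_er H hN hc _ _)
      _ = _ := by ring
  calc GG ρ i τ (fun x => qi s1 R (x i) (x q) * (qi s2 R (x i) (x r)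
        * (qi s3 R (x i) (x t) * wS a b univ x)))
      ≤ GG ρ i τ (fun x => qi s1 R (x i) (x q) * (qi s2 R (x i) (x r)
        * (qi s3 R (x i) (x t) * wS a b S x))) :=
        GG_mono ρ i τ fun x => by gcongr; exact wS_anti H.ab (subset_univ S) x
    _ ≤ ENNReal.ofReal (kap M R s1) * GG ρ i τ (fun x => qi s2 R (x i) (x r)
        * (qi s3 R (x i) (x t) * wS a b S x)) :=
        G1 H h1 hiq hτ (meas_qi_mul _ _ _ _ (meas_qi_mul _ _ _ _ (measurable_wS H.ab S)))
          (Ind_qi_mul _ _ hiq hqr.symm (Ind_qi_mul _ _ hiq hqt.symm (Ind_wS hqS)))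
    _ ≤ ENNReal.ofReal (kap M R s1) * (ENNReal.ofReal (kap M R s2) *
          GG ρ i τ (fun x => qi s3 R (x i) (x t) * wS a b S x)) := by
        gcongr
        exact G1 H h2 hir hτ (meas_qi_mul _ _ _ _ (measurable_wS H.ab S))
          (Ind_qi_mul _ _ hir hrt.symm (Ind_wS hrS))
    _ ≤ ENNReal.ofReal (kap M R s1) * (ENNReal.ofReal (kap M R s2) *
          (ENNReal.ofReal (kap M R s3) * GG ρ i τ (wS a b S))) := by
        gcongr
        exact G1 H h3 hit hτ (measurable_wS H.ab S) (Ind_wS htS)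
    _ = ENNReal.ofReal (kap M R s1) * (ENNReal.ofReal (kap M R s2) *
          (ENNReal.ofReal (kap M R s3) * (mass τ * ZZ ρ a b S))) := by
        rw [GG0 H hiS hτ]
    _ ≤ _ := by gcongr

/-- four removals -/
theorem rem4 (H : Std a b ρ R M A0) (hN : 0 < N) (hc : Cr R M A0 / N ≤ 1 / 2)
    (hτ : Measurable τ) {s1 s2 s3 s4 : ℝ} (h1 : 0 < s1) (h2 : 0 < s2) (h3 : 0 < s3)
    (h4 : 0 < s4) {i q r t w : Fin N} (hiq : i ≠ q)
    (hir : i ≠ r) (hit : i ≠ t) (hiw : i ≠ w) (hqr : q ≠ r) (hqt : q ≠ t) (hqw : q ≠ w)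
    (hrt : r ≠ t) (hrw : r ≠ w) (htw : t ≠ w) :
    GG ρ i τ (fun x => qi s1 R (x i) (x q) * (qi s2 R (x i) (x r)
        * (qi s3 R (x i) (x t) * (qi s4 R (x i) (x w) * wS a b univ x))))
      ≤ ENNReal.ofReal (kap M R s1) * (ENNReal.ofReal (kap M R s2)
        * (ENNReal.ofReal (kap M R s3) * (ENNReal.ofReal (kap M R s4)
        * (mass τ * (32 * ZZ ρ a b (univ : Finset (Fin N))))))) := by
  set S := ((((univ.erase i).erase q).erase r).erase t).erase w with hS
  have hiS : i ∉ S := fun e => notMem_erase i _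
    (mem_of_mem_erase (mem_of_mem_erase (mem_of_mem_erase (mem_of_mem_erase e))))
  have hqS : q ∉ S := fun e =>
    notMem_erase q _ (mem_of_mem_erase (mem_of_mem_erase (mem_of_mem_erase e)))
  have hrS : r ∉ S := fun e => notMem_erase r _ (mem_of_mem_erase (mem_of_mem_erase e))
  have htS : t ∉ S := fun e => notMem_erase t _ (mem_of_mem_erase e)
  have hwS : w ∉ S := notMem_erase w _
  have hZ : ZZ ρ a b S ≤ 32 * ZZ ρ a b (univ : Finset (Fin N)) := by
    calc ZZ ρ a b S ≤ 2 * (2 * (2 * (2 * (2 * ZZ ρ a b (univ : Finset (Fin N)))))) :=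
          (ZZ_er H hN hc _ _).trans (by
            gcongr; refine (ZZ_er H hN hc _ _).trans ?_; gcongr
            refine (ZZ_er H hN hc _ _).trans ?_; gcongr
            refine (ZZ_er H hN hc _ _).trans ?_; gcongr; exact ZZ_er H hN hc _ _)
      _ = _ := by ring
  calc GG ρ i τ (fun x => qi s1 R (x i) (x q) * (qi s2 R (x i) (x r)
        * (qi s3 R (x i) (x t) * (qi s4 R (x i) (x w) * wS a b univ x))))
      ≤ GG ρ i τ (fun x => qi s1 R (x i) (x q) * (qi s2 R (x i) (x r)
        * (qi s3 R (x i) (x t) * (qi s4 R (x i) (x w) * wS a b S x)))) :=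
        GG_mono ρ i τ fun x => by gcongr; exact wS_anti H.ab (subset_univ S) x
    _ ≤ ENNReal.ofReal (kap M R s1) * GG ρ i τ (fun x => qi s2 R (x i) (x r)
        * (qi s3 R (x i) (x t) * (qi s4 R (x i) (x w) * wS a b S x))) :=
        G1 H h1 hiq hτ (meas_qi_mul _ _ _ _ (meas_qi_mul _ _ _ _
          (meas_qi_mul _ _ _ _ (measurable_wS H.ab S))))
          (Ind_qi_mul _ _ hiq hqr.symm (Ind_qi_mul _ _ hiq hqt.symm
            (Ind_qi_mul _ _ hiq hqw.symm (Ind_wS hqS))))
    _ ≤ ENNReal.ofReal (kap M R s1) * (ENNReal.ofReal (kap M R s2) *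
          GG ρ i τ (fun x => qi s3 R (x i) (x t) * (qi s4 R (x i) (x w) * wS a b S x))) := by
        gcongr
        exact G1 H h2 hir hτ (meas_qi_mul _ _ _ _ (meas_qi_mul _ _ _ _ (measurable_wS H.ab S)))
          (Ind_qi_mul _ _ hir hrt.symm (Ind_qi_mul _ _ hir hrw.symm (Ind_wS hrS)))
    _ ≤ ENNReal.ofReal (kap M R s1) * (ENNReal.ofReal (kap M R s2) *
          (ENNReal.ofReal (kap M R s3) *
            GG ρ i τ (fun x => qi s4 R (x i) (x w) * wS a b S x))) := by
        gcongr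
        exact G1 H h3 hit hτ (meas_qi_mul _ _ _ _ (measurable_wS H.ab S))
          (Ind_qi_mul _ _ hit htw.symm (Ind_wS htS))
    _ ≤ ENNReal.ofReal (kap M R s1) * (ENNReal.ofReal (kap M R s2) *
          (ENNReal.ofReal (kap M R s3) * (ENNReal.ofReal (kap M R s4) *
            GG ρ i τ (wS a b S)))) := by
        gcongr
        exact G1 H h4 hiw hτ (measurable_wS H.ab S) (Ind_wS hwS)
    _ = ENNReal.ofReal (kap M R s1) * (ENNReal.ofReal (kap M R s2) *
          (ENNReal.ofReal (kap M R s3) * (ENNReal.ofReal (kap M R s4) *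
            (mass τ * ZZ ρ a b S)))) := by
        rw [GG0 H hiS hτ]
    _ ≤ _ := by gcongr

end Pool.Agent.Helper67.Bose
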