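import Mathlib
import Pool.Agent.Helper67.Bose.Err

set_option autoImplicit false
open MeasureTheory Finset
open scoped ENNReal

namespace Pool.Agent.Helper67.Bose
open Pool.Agent.Helper23.Bose

variable {N : ℕ} {a : E3 → ℝ} {b : E3 × E3 → ℝ} {u : E3 → ℂ} {ρ τ : E3 → ℝ≥0∞} {R M A0 : ℝ}

/-- constants -/
noncomputable def C1 (N : ℕ) (A0 : ℝ) : ℝ≥0∞ := ENNReal.ofReal (2 * N * A0)
/-- constants -/
noncomputable def C2 (N : ℕ) (A0 : ℝ) : ℝ≥0∞ := ENNReal.ofReal (3 * Real.sqrt N * A0)
/-- constants -/
noncomputable def K1 (N : ℕ) (M R : ℝ) : ℝ≥0∞ := ENNReal.ofReal (kap M R N)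
/-- constants -/
noncomputable def K2 (N : ℕ) (M R : ℝ) : ℝ≥0∞ := ENNReal.ofReal (kap M R (Real.sqrt N))

theorem sqN_pos (hN : 0 < N) : 0 < Real.sqrt N := Real.sqrt_pos.2 (by positivity)

theorem cN_pos (hN : 0 < N) : (0 : ℝ) < N := by positivity

theorem err0a (H : Std a b ρ R M A0) (hN : 0 < N) (hc : Cr R M A0 / N ≤ 1 / 2)
    (hτ : Measurable τ) {i q : Fin N} (k : Fin 3) (hiq : i ≠ q) :
    GG ρ i τ (fun x => aal a i q (ek k) x * wS a b univ x)
      ≤ C1 N A0 * (K1 N M R * (mass τ * (4 * ZZ ρ a b (univ : Finset (Fin N))))) := by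
  calc GG ρ i τ (fun x => aal a i q (ek k) x * wS a b univ x)
      ≤ GG ρ i τ (fun x => C1 N A0 * (qi (N : ℝ) R (x i) (x q) * wS a b univ x)) :=
        GG_mono ρ i τ fun x => by
          rw [← mul_assoc]
          gcongr
          exact aal_bd H i q k x
    _ = C1 N A0 * GG ρ i τ (fun x => qi (N : ℝ) R (x i) (x q) * wS a b univ x) :=
        GG_mul H.hρ i hτ _ (meas_qi_mul _ _ _ _ (measurable_wS H.ab univ))
    _ ≤ _ := by
        gcongr
        exact rem1 H hN hc hτ (cN_pos hN) hiq

theorem err0b (H : Std a b ρ R M A0) (hN : 0 < N) (hc : Cr R M A0 / N ≤ 1 / 2)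
    (hτ : Measurable τ) {i q r : Fin N} (k : Fin 3) (hiq : i ≠ q) (hir : i ≠ r) :
    GG ρ i τ (fun x => bbe b i q r (ek k) x * wS a b univ x)
      ≤ C2 N A0 * (K2 N M R * (K2 N M R
        * (mass τ * (8 * ZZ ρ a b (univ : Finset (Fin N)))))) := by
  by_cases hqr : q = r
  · subst hqr
    have : ∀ x : Fin N → E3, bbe b i q q (ek k) x * wS a b univ x = 0 := fun x => by
      rw [bbe_self, zero_mul]
    simp [this, GG]
  calc GG ρ i τ (fun x => bbe b i q r (ek k) x * wS a b univ x)
      ≤ GG ρ i τ (fun x => C2 N A0 * (qi (Real.sqrt N) R (x i) (x q)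
          * (qi (Real.sqrt N) R (x i) (x r) * wS a b univ x))) :=
        GG_mono ρ i τ fun x => by
          rw [← mul_assoc (qi _ _ _ _), ← mul_assoc]
          gcongr
          exact bbe_bd H i q r k x
    _ = C2 N A0 * GG ρ i τ (fun x => qi (Real.sqrt N) R (x i) (x q)
          * (qi (Real.sqrt N) R (x i) (x r) * wS a b univ x)) :=
        GG_mul H.hρ i hτ _ (meas_qi_mul _ _ _ _ (meas_qi_mul _ _ _ _ (measurable_wS H.ab univ)))
    _ ≤ _ := by
        gcongr
        exact rem2 H hN hc hτ (sqN_pos hN) (sqN_pos hN) hiq hir hqr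

theorem err1 (H : Std a b ρ R M A0) (hN : 0 < N) (hc : Cr R M A0 / N ≤ 1 / 2)
    (hτ : Measurable τ) {i q r : Fin N} (k : Fin 3) (hiq : i ≠ q) (hir : i ≠ r) (hqr : q ≠ r) :
    GG ρ i τ (fun x => aal a i q (ek k) x * (aal a i r (ek k) x * wS a b univ x))
      ≤ C1 N A0 * C1 N A0 * (K1 N M R * (K1 N M R
        * (mass τ * (8 * ZZ ρ a b (univ : Finset (Fin N)))))) := by
  calc GG ρ i τ (fun x => aal a i q (ek k) x * (aal a i r (ek k) x * wS a b univ x))
      ≤ GG ρ i τ (fun x => C1 N A0 * C1 N A0 * (qi (N : ℝ) R (x i) (x q)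
          * (qi (N : ℝ) R (x i) (x r) * wS a b univ x))) :=
        GG_mono ρ i τ fun x => by
          calc aal a i q (ek k) x * (aal a i r (ek k) x * wS a b univ x)
              ≤ (C1 N A0 * qi (N : ℝ) R (x i) (x q))
                * ((C1 N A0 * qi (N : ℝ) R (x i) (x r)) * wS a b univ x) := by
                gcongr
                · exact aal_bd H i q k x
                · exact aal_bd H i r k x
            _ = _ := by ring
    _ = C1 N A0 * C1 N A0 * GG ρ i τ (fun x => qi (N : ℝ) R (x i) (x q)
          * (qi (N : ℝ) R (x i) (x r) * wS a b univ x)) :=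
        GG_mul H.hρ i hτ _ (meas_qi_mul _ _ _ _ (meas_qi_mul _ _ _ _ (measurable_wS H.ab univ)))
    _ ≤ _ := by
        gcongr
        exact rem2 H hN hc hτ (cN_pos hN) (cN_pos hN) hiq hir hqr

theorem err2 (H : Std a b ρ R M A0) (hN : 0 < N) (hc : Cr R M A0 / N ≤ 1 / 2)
    (hτ : Measurable τ) {i q s t : Fin N} (k : Fin 3) (hiq : i ≠ q) (his : i ≠ s) (hit : i ≠ t) :
    GG ρ i τ (fun x => aal a i q (ek k) x * (bbe b i s t (ek k) x * wS a b univ x))
      ≤ C1 N A0 * C2 N A0 * ((if q = s then K1 N M R * (K2 N M R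
        * (mass τ * (8 * ZZ ρ a b (univ : Finset (Fin N))))) else 0)
        + (if q = t then K1 N M R * (K2 N M R
        * (mass τ * (8 * ZZ ρ a b (univ : Finset (Fin N))))) else 0)
        + K1 N M R * (K2 N M R * (K2 N M R
        * (mass τ * (16 * ZZ ρ a b (univ : Finset (Fin N))))))) := by
  by_cases hst : s = t
  · subst hst
    have : ∀ x : Fin N → E3, aal a i q (ek k) x * (bbe b i s s (ek k) x * wS a b univ x) = 0 :=
      fun x => by rw [bbe_self, zero_mul, mul_zero]
    simp [this, GG]
  have hm := measurable_wS (N := N) H.ab univ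
  by_cases hqs : q = s
  · subst hqs
    refine le_trans (b := C1 N A0 * C2 N A0 * (K1 N M R * (K2 N M R
        * (mass τ * (8 * ZZ ρ a b (univ : Finset (Fin N))))))) ?_ ?_
    · calc GG ρ i τ (fun x => aal a i q (ek k) x * (bbe b i q t (ek k) x * wS a b univ x))
          ≤ GG ρ i τ (fun x => C1 N A0 * C2 N A0 * (qi (N : ℝ) R (x i) (x q)
            * (qi (Real.sqrt N) R (x i) (x t) * wS a b univ x))) :=
            GG_mono ρ i τ fun x => by
              calc aal a i q (ek k) x * (bbe b i q t (ek k) x * wS a b univ x)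
                  ≤ (C1 N A0 * qi (N : ℝ) R (x i) (x q))
                    * ((C2 N A0 * (1 * qi (Real.sqrt N) R (x i) (x t))) * wS a b univ x) := by
                    gcongr
                    · exact aal_bd H i q k x
                    · refine (bbe_bd H i q t k x).trans ?_
                      unfold C2
                      gcongr
                      exact qi_le_one _ _ _ _
                _ = _ := by ring
        _ = C1 N A0 * C2 N A0 * GG ρ i τ (fun x => qi (N : ℝ) R (x i) (x q)
              * (qi (Real.sqrt N) R (x i) (x t) * wS a b univ x)) :=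
            GG_mul H.hρ i hτ _ (meas_qi_mul _ _ _ _ (meas_qi_mul _ _ _ _ hm))
        _ ≤ _ := by
            gcongr
            exact rem2 H hN hc hτ (cN_pos hN) (sqN_pos hN) hiq hit hst
    · gcongr
      rw [if_pos rfl, add_assoc]
      exact le_self_add
  by_cases hqt : q = t
  · subst hqt
    refine le_trans (b := C1 N A0 * C2 N A0 * (K1 N M R * (K2 N M R
        * (mass τ * (8 * ZZ ρ a b (univ : Finset (Fin N))))))) ?_ ?_
    · calc GG ρ i τ (fun x => aal a i q (ek k) x * (bbe b i s q (ek k) x * wS a b univ x))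
          ≤ GG ρ i τ (fun x => C1 N A0 * C2 N A0 * (qi (N : ℝ) R (x i) (x q)
            * (qi (Real.sqrt N) R (x i) (x s) * wS a b univ x))) :=
            GG_mono ρ i τ fun x => by
              calc aal a i q (ek k) x * (bbe b i s q (ek k) x * wS a b univ x)
                  ≤ (C1 N A0 * qi (N : ℝ) R (x i) (x q))
                    * ((C2 N A0 * (qi (Real.sqrt N) R (x i) (x s) * 1)) * wS a b univ x) := by
                    gcongr
                    · exact aal_bd H i q k x
                    · refine (bbe_bd H i s q k x).trans ?_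
                      unfold C2
                      gcongr
                      exact qi_le_one _ _ _ _
                _ = _ := by ring
        _ = C1 N A0 * C2 N A0 * GG ρ i τ (fun x => qi (N : ℝ) R (x i) (x q)
              * (qi (Real.sqrt N) R (x i) (x s) * wS a b univ x)) :=
            GG_mul H.hρ i hτ _ (meas_qi_mul _ _ _ _ (meas_qi_mul _ _ _ _ hm))
        _ ≤ _ := by
            gcongr
            exact rem2 H hN hc hτ (cN_pos hN) (sqN_pos hN) hiq his hqs
    · gcongr
      rw [if_neg hqs, if_pos rfl, zero_add]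
      exact le_self_add
  calc GG ρ i τ (fun x => aal a i q (ek k) x * (bbe b i s t (ek k) x * wS a b univ x))
      ≤ GG ρ i τ (fun x => C1 N A0 * C2 N A0 * (qi (N : ℝ) R (x i) (x q)
            * (qi (Real.sqrt N) R (x i) (x s) * (qi (Real.sqrt N) R (x i) (x t)
              * wS a b univ x)))) :=
        GG_mono ρ i τ fun x => by
          calc aal a i q (ek k) x * (bbe b i s t (ek k) x * wS a b univ x)
              ≤ (C1 N A0 * qi (N : ℝ) R (x i) (x q))
                * ((C2 N A0 * (qi (Real.sqrt N) R (x i) (x s) * qi (Real.sqrt N) R (x i) (x t)))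
                  * wS a b univ x) := by
                gcongr
                · exact aal_bd H i q k x
                · exact bbe_bd H i s t k x
            _ = _ := by ring
    _ = C1 N A0 * C2 N A0 * GG ρ i τ (fun x => qi (N : ℝ) R (x i) (x q)
            * (qi (Real.sqrt N) R (x i) (x s) * (qi (Real.sqrt N) R (x i) (x t)
              * wS a b univ x))) :=
        GG_mul H.hρ i hτ _ (meas_qi_mul _ _ _ _ (meas_qi_mul _ _ _ _ (meas_qi_mul _ _ _ _ hm)))
    _ ≤ _ := by
        rw [if_neg hqs, if_neg hqt, zero_add, zero_add]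
        gcongr
        exact rem3 H hN hc hτ (cN_pos hN) (sqN_pos hN) (sqN_pos hN) hiq his hit hqs hqt hst

theorem err3c (H : Std a b ρ R M A0) (hN : 0 < N) (hc : Cr R M A0 / N ≤ 1 / 2)
    (hτ : Measurable τ) {i q r t : Fin N} (k : Fin 3) (hiq : i ≠ q) (hir : i ≠ r) (hit : i ≠ t)
    (hqr : q ≠ r) (hqt : q ≠ t) (hrt : r ≠ t) :
    GG ρ i τ (fun x => bbe b i q r (ek k) x * (bbe b i q t (ek k) x * wS a b univ x))
      ≤ C2 N A0 * C2 N A0 * (K2 N M R * (K2 N M R * (K2 N M R
        * (mass τ * (16 * ZZ ρ a b (univ : Finset (Fin N))))))) := by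
  have hm := measurable_wS (N := N) H.ab univ
  calc GG ρ i τ (fun x => bbe b i q r (ek k) x * (bbe b i q t (ek k) x * wS a b univ x))
      ≤ GG ρ i τ (fun x => C2 N A0 * C2 N A0 * (qi (Real.sqrt N) R (x i) (x q)
            * (qi (Real.sqrt N) R (x i) (x r) * (qi (Real.sqrt N) R (x i) (x t)
              * wS a b univ x)))) :=
        GG_mono ρ i τ fun x => by
          calc bbe b i q r (ek k) x * (bbe b i q t (ek k) x * wS a b univ x)
              ≤ (C2 N A0 * (qi (Real.sqrt N) R (x i) (x q) * qi (Real.sqrt N) R (x i) (x r)))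
                * ((C2 N A0 * (1 * qi (Real.sqrt N) R (x i) (x t)))
                  * wS a b univ x) := by
                gcongr
                · exact bbe_bd H i q r k x
                · refine (bbe_bd H i q t k x).trans ?_
                  unfold C2
                  gcongr
                  exact qi_le_one _ _ _ _
            _ = _ := by ring
    _ = C2 N A0 * C2 N A0 * GG ρ i τ (fun x => qi (Real.sqrt N) R (x i) (x q)
            * (qi (Real.sqrt N) R (x i) (x r) * (qi (Real.sqrt N) R (x i) (x t)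
              * wS a b univ x))) :=
        GG_mul H.hρ i hτ _ (meas_qi_mul _ _ _ _ (meas_qi_mul _ _ _ _ (meas_qi_mul _ _ _ _ hm)))
    _ ≤ _ := by
        gcongr
        exact rem3 H hN hc hτ (sqN_pos hN) (sqN_pos hN) (sqN_pos hN) hiq hir hit hqr hqt hrt

theorem err3 (H : Std a b ρ R M A0) (hN : 0 < N) (hc : Cr R M A0 / N ≤ 1 / 2)
    (hτ : Measurable τ) {i q r s t : Fin N} (k : Fin 3) (hiq : i ≠ q) (hir : i ≠ r)
    (his : i ≠ s) (hit : i ≠ t) (h1 : ¬ (q = s ∧ r = t)) (h2 : ¬ (q = t ∧ r = s)) :
    GG ρ i τ (fun x => bbe b i q r (ek k) x * (bbe b i s t (ek k) x * wS a b univ x))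
      ≤ C2 N A0 * C2 N A0 * ((if q = s then K2 N M R * (K2 N M R * (K2 N M R
        * (mass τ * (16 * ZZ ρ a b (univ : Finset (Fin N)))))) else 0)
        + (if q = t then K2 N M R * (K2 N M R * (K2 N M R
        * (mass τ * (16 * ZZ ρ a b (univ : Finset (Fin N)))))) else 0)
        + (if r = s then K2 N M R * (K2 N M R * (K2 N M R
        * (mass τ * (16 * ZZ ρ a b (univ : Finset (Fin N)))))) else 0)
        + (if r = t then K2 N M R * (K2 N M R * (K2 N M R
        * (mass τ * (16 * ZZ ρ a b (univ : Finset (Fin N)))))) else 0)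
        + K2 N M R * (K2 N M R * (K2 N M R * (K2 N M R
        * (mass τ * (32 * ZZ ρ a b (univ : Finset (Fin N)))))))) := by
  have hm := measurable_wS (N := N) H.ab univ
  by_cases hqr : q = r
  · subst hqr
    have : ∀ x : Fin N → E3, bbe b i q q (ek k) x * (bbe b i s t (ek k) x * wS a b univ x) = 0 :=
      fun x => by rw [bbe_self, zero_mul]
    simp [this, GG]
  by_cases hst : s = t
  · subst hst
    have : ∀ x : Fin N → E3, bbe b i q r (ek k) x * (bbe b i s s (ek k) x * wS a b univ x) = 0 :=
      fun x => by rw [bbe_self, zero_mul, mul_zero]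
    simp [this, GG]
  by_cases hqs : q = s
  · subst hqs
    have hrt : r ≠ t := fun e => h1 ⟨rfl, e⟩
    refine (err3c H hN hc hτ k hiq hir hit hqr hst hrt).trans ?_
    gcongr
    rw [if_pos rfl, add_assoc, add_assoc, add_assoc]
    exact le_self_add
  by_cases hqt : q = t
  · subst hqt
    have hrs : r ≠ s := fun e => h2 ⟨rfl, e⟩
    have e : ∀ x : Fin N → E3, bbe b i s q (ek k) x = bbe b i q s (ek k) x :=
      fun x => bbe_swap H.ab i s q _ x
    simp_rw [e]
    refine (err3c H hN hc hτ k hiq hir his hqr hqs hrs).trans ?_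
    gcongr
    rw [if_neg hqs, if_pos trivial, zero_add, add_assoc, add_assoc]
    exact le_self_add
  by_cases hrs : r = s
  · subst hrs
    have e : ∀ x : Fin N → E3, bbe b i q r (ek k) x = bbe b i r q (ek k) x :=
      fun x => bbe_swap H.ab i q r _ x
    simp_rw [e]
    refine (err3c H hN hc hτ k hir hiq hit (Ne.symm hqr) hst hqt).trans ?_
    gcongr
    rw [if_neg hqs, if_neg hqt, if_pos trivial, zero_add, zero_add, add_assoc]
    exact le_self_add
  by_cases hrt : r = t
  · subst hrt
    have e : ∀ x : Fin N → E3, bbe b i q r (ek k) x = bbe b i r q (ek k) x :=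
      fun x => bbe_swap H.ab i q r _ x
    have e' : ∀ x : Fin N → E3, bbe b i s r (ek k) x = bbe b i r s (ek k) x :=
      fun x => bbe_swap H.ab i s r _ x
    simp_rw [e, e']
    refine (err3c H hN hc hτ k hir hiq his (Ne.symm hqr) hrs hqs).trans ?_
    gcongr
    rw [if_neg hqs, if_neg hqt, if_neg hrs, if_pos trivial, zero_add, zero_add, zero_add]
    exact le_self_add
  calc GG ρ i τ (fun x => bbe b i q r (ek k) x * (bbe b i s t (ek k) x * wS a b univ x))
      ≤ GG ρ i τ (fun x => C2 N A0 * C2 N A0 * (qi (Real.sqrt N) R (x i) (x q)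
            * (qi (Real.sqrt N) R (x i) (x r) * (qi (Real.sqrt N) R (x i) (x s)
            * (qi (Real.sqrt N) R (x i) (x t) * wS a b univ x))))) :=
        GG_mono ρ i τ fun x => by
          calc bbe b i q r (ek k) x * (bbe b i s t (ek k) x * wS a b univ x)
              ≤ (C2 N A0 * (qi (Real.sqrt N) R (x i) (x q) * qi (Real.sqrt N) R (x i) (x r)))
                * ((C2 N A0 * (qi (Real.sqrt N) R (x i) (x s) * qi (Real.sqrt N) R (x i) (x t)))
                  * wS a b univ x) := by
                gcongr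
                · exact bbe_bd H i q r k x
                · exact bbe_bd H i s t k x
            _ = _ := by ring
    _ = C2 N A0 * C2 N A0 * GG ρ i τ (fun x => qi (Real.sqrt N) R (x i) (x q)
            * (qi (Real.sqrt N) R (x i) (x r) * (qi (Real.sqrt N) R (x i) (x s)
            * (qi (Real.sqrt N) R (x i) (x t) * wS a b univ x)))) :=
        GG_mul H.hρ i hτ _ (meas_qi_mul _ _ _ _ (meas_qi_mul _ _ _ _ (meas_qi_mul _ _ _ _
          (meas_qi_mul _ _ _ _ hm))))
    _ ≤ _ := by
        rw [if_neg hqs, if_neg hqt, if_neg hrs, if_neg hrt, zero_add, zero_add, zero_add, zero_add]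
        gcongr
        exact rem4 H hN hc hτ (sqN_pos hN) (sqN_pos hN) (sqN_pos hN) (sqN_pos hN) hiq hir his hit
          hqr hqs hqt hrs hrt hst

end Pool.Agent.Helper67.Bose
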