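import Mathlib
import Pool.Agent.Helper67.Bose.Err2

set_option autoImplicit false
open MeasureTheory Finset
open scoped ENNReal

namespace Pool.Agent.Helper67.Bose
open Pool.Agent.Helper23.Bose

variable {N : ℕ} {a : E3 → ℝ} {b : E3 × E3 → ℝ} {u : E3 → ℂ} {ρ τ : E3 → ℝ≥0∞} {R M A0 : ℝ}

theorem db_abs (i : Fin N) (v : E3) (x : Fin N → E3) :
    ENNReal.ofReal |db a b i v x| ≤ ∑ q ∈ univ.erase i, aal a i q v x
      + ∑ q ∈ univ.erase i, ∑ r ∈ univ.erase i, bbe b i q r v x := by
  unfold db aal bbe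
  have h1 : ∀ q ∈ univ.erase i, (0 : ℝ) ≤ |al a i q v x| := fun q _ => abs_nonneg _
  have h2 : ∀ q ∈ univ.erase i, ∀ r ∈ univ.erase i, (0 : ℝ) ≤ |be b i q r v x| :=
    fun q _ r _ => abs_nonneg _
  rw [← ENNReal.ofReal_sum_of_nonneg h1]
  have h3 : ∑ q ∈ univ.erase i, ∑ r ∈ univ.erase i, ENNReal.ofReal |be b i q r v x|
      = ENNReal.ofReal (∑ q ∈ univ.erase i, ∑ r ∈ univ.erase i, |be b i q r v x|) := by
    rw [ENNReal.ofReal_sum_of_nonneg (fun q hq => Finset.sum_nonneg (h2 q hq))]
    exact Finset.sum_congr rfl fun q hq => (ENNReal.ofReal_sum_of_nonneg (h2 q hq)).symm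
  rw [h3, ← ENNReal.ofReal_add (Finset.sum_nonneg h1)
    (Finset.sum_nonneg fun q hq => Finset.sum_nonneg (h2 q hq))]
  refine ENNReal.ofReal_le_ofReal ((abs_add_le _ _).trans (add_le_add ?_ ?_))
  · exact Finset.abs_sum_le_sum_abs _ _
  · exact (Finset.abs_sum_le_sum_abs _ _).trans
      (Finset.sum_le_sum fun q _ => Finset.abs_sum_le_sum_abs _ _)

theorem card_J' (i : Fin N) : (univ.erase i).card ≤ N := by
  have := Finset.card_le_univ (univ.erase i)
  rwa [Fintype.card_fin] at this

theorem card_J (i : Fin N) : ((univ.erase i).card : ℝ≥0∞) ≤ (N : ℝ≥0∞) := by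
  exact_mod_cast card_J' i

theorem cross_bd (H : Std a b ρ R M A0) (hN : 0 < N) (hc : Cr R M A0 / N ≤ 1 / 2)
    (hτ : Measurable τ) (i : Fin N) (k : Fin 3) :
    GG ρ i τ (fun x => ENNReal.ofReal |db a b i (ek k) x| * wS a b univ x)
      ≤ N * (C1 N A0 * (K1 N M R * (mass τ * (4 * ZZ ρ a b (univ : Finset (Fin N))))))
        + N * (N * (C2 N A0 * (K2 N M R * (K2 N M R
          * (mass τ * (8 * ZZ ρ a b (univ : Finset (Fin N)))))))) := by
  have hm := measurable_wS (N := N) H.ab univ
  have m1 : ∀ q ∈ univ.erase i, Measurable (fun x : Fin N → E3 =>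
      aal a i q (ek k) x * wS a b univ x) := fun q _ => (measurable_aal H.ab i q _).mul hm
  have m2 : ∀ q, ∀ r ∈ univ.erase i, Measurable (fun x : Fin N → E3 =>
      bbe b i q r (ek k) x * wS a b univ x) := fun q r _ => (measurable_bbe H.ab i q r _).mul hm
  calc GG ρ i τ (fun x => ENNReal.ofReal |db a b i (ek k) x| * wS a b univ x)
      ≤ GG ρ i τ (fun x => ∑ q ∈ univ.erase i, aal a i q (ek k) x * wS a b univ x
        + ∑ q ∈ univ.erase i, ∑ r ∈ univ.erase i, bbe b i q r (ek k) x * wS a b univ x) :=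
        GG_mono ρ i τ fun x => by
          simp only [← Finset.sum_mul]
          rw [← add_mul]
          gcongr
          exact db_abs i _ x
    _ = ∑ q ∈ univ.erase i, GG ρ i τ (fun x => aal a i q (ek k) x * wS a b univ x)
        + ∑ q ∈ univ.erase i, ∑ r ∈ univ.erase i,
          GG ρ i τ (fun x => bbe b i q r (ek k) x * wS a b univ x) := by
        rw [GG_add H.hρ i hτ (Finset.measurable_fun_sum _ m1), GG_sum H.hρ i hτ _ m1,
          GG_sum H.hρ i hτ _ (fun q _ => Finset.measurable_fun_sum _ (m2 q))]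
        congr 1
        exact Finset.sum_congr rfl fun q _ => GG_sum H.hρ i hτ _ (m2 q)
    _ ≤ _ := by
        refine add_le_add ?_ ?_
        · refine (Finset.sum_le_card_nsmul _ _ _ fun q hq =>
            err0a H hN hc hτ k (ne_of_mem_erase hq).symm).trans ?_
          rw [nsmul_eq_mul]
          gcongr
          exact card_J' i
        · refine (Finset.sum_le_card_nsmul _ _ _ fun q hq =>
            (Finset.sum_le_card_nsmul _ _ _ fun r hr =>
            err0b H hN hc hτ k (ne_of_mem_erase hq).symm (ne_of_mem_erase hr).symm)).trans ?_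
          rw [nsmul_eq_mul, nsmul_eq_mul]
          gcongr
          · exact card_J' i
          · exact card_J' i

theorem sum_aux1 {ι : Type*} [DecidableEq ι] (J : Finset ι) {q : ι} (hq : q ∈ J)
    (D e : ℝ≥0∞) :
    ∑ r ∈ J, ((if q = r then D else 0) + e) = D + J.card * e := by
  rw [Finset.sum_add_distrib, Finset.sum_ite_eq, if_pos hq, Finset.sum_const, nsmul_eq_mul]

theorem sum_aux2 {ι : Type*} [DecidableEq ι] (J : Finset ι) {q : ι} (hq : q ∈ J)
    (C k k' : ℝ≥0∞) :
    ∑ s ∈ J, ∑ t ∈ J, (C * ((if q = s then k else 0) + (if q = t then k else 0) + k'))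
      = C * (2 * (J.card * k) + J.card * (J.card * k')) := by
  simp only [← Finset.mul_sum, Finset.sum_add_distrib, Finset.sum_ite_eq, if_pos hq,
    Finset.sum_const, nsmul_eq_mul]
  congr 1
  ring

theorem sum_aux3 {ι : Type*} [DecidableEq ι] (J : Finset ι) {q r : ι} (hq : q ∈ J) (hr : r ∈ J)
    (D C k k' : ℝ≥0∞) :
    ∑ s ∈ J, ∑ t ∈ J, ((if q = s then (if r = t then D else 0) else 0)
      + (if r = s then (if q = t then D else 0) else 0)
      + C * ((if q = s then k else 0) + (if q = t then k else 0) + (if r = s then k else 0)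
        + (if r = t then k else 0) + k'))
      = 2 * D + C * (4 * (J.card * k) + J.card * (J.card * k')) := by
  simp only [← Finset.mul_sum, Finset.sum_add_distrib, Finset.sum_ite_eq, if_pos hq, if_pos hr,
    Finset.sum_const, nsmul_eq_mul]
  simp only [Finset.sum_ite_irrel, Finset.sum_ite_eq, if_pos hq, if_pos hr, Finset.sum_const,
    nsmul_eq_mul, mul_zero, mul_ite]
  ring

/-- total off-diagonal error -/
noncomputable def Eoff (N : ℕ) (A0 M R : ℝ) : ℝ≥0∞ :=
  N * (N * (C1 N A0 * C1 N A0 * (K1 N M R * (K1 N M R * 8))))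
  + 2 * (N * (C1 N A0 * C2 N A0 * (2 * (N * (K1 N M R * (K2 N M R * 8)))
    + N * (N * (K1 N M R * (K2 N M R * (K2 N M R * 16)))))))
  + N * (N * (C2 N A0 * C2 N A0 * (4 * (N * (K2 N M R * (K2 N M R * (K2 N M R * 16))))
    + N * (N * (K2 N M R * (K2 N M R * (K2 N M R * (K2 N M R * 32))))))))

theorem sq_bd (H : Std a b ρ R M A0) (hN : 0 < N) (hc : Cr R M A0 / N ≤ 1 / 2)
    (hτ : Measurable τ) (i : Fin N) (k : Fin 3) :
    GG ρ i τ (fun x => ENNReal.ofReal (db a b i (ek k) x ^ 2) * wS a b univ x)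
      ≤ ∑ q ∈ univ.erase i, GG ρ i τ (fun x => aal a i q (ek k) x
          * (aal a i q (ek k) x * wS a b univ x))
        + 2 * ∑ q ∈ univ.erase i, ∑ r ∈ univ.erase i, GG ρ i τ (fun x => bbe b i q r (ek k) x
          * (bbe b i q r (ek k) x * wS a b univ x))
        + Eoff N A0 M R * (mass τ * ZZ ρ a b (univ : Finset (Fin N))) := by
  have hm := measurable_wS (N := N) H.ab univ
  set J := univ.erase i with hJ
  have hJi : ∀ q ∈ J, i ≠ q := fun q hq => (ne_of_mem_erase hq).symm
  have ma : ∀ q, Measurable (aal (N := N) a i q (ek k)) := fun q => measurable_aal H.ab i q _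
  have mb : ∀ q r, Measurable (bbe (N := N) b i q r (ek k)) := fun q r =>
    measurable_bbe H.ab i q r _
  -- expand the square
  have hpt : ∀ x : Fin N → E3, ENNReal.ofReal (db a b i (ek k) x ^ 2) * wS a b univ x
      ≤ ∑ q ∈ J, ∑ r ∈ J, aal a i q (ek k) x * (aal a i r (ek k) x * wS a b univ x)
        + (2 * ∑ q ∈ J, ∑ s ∈ J, ∑ t ∈ J,
          aal a i q (ek k) x * (bbe b i s t (ek k) x * wS a b univ x)
        + ∑ q ∈ J, ∑ r ∈ J, ∑ s ∈ J, ∑ t ∈ J,
          bbe b i q r (ek k) x * (bbe b i s t (ek k) x * wS a b univ x)) := by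
    intro x
    have e1 : ENNReal.ofReal (db a b i (ek k) x ^ 2)
        = ENNReal.ofReal |db a b i (ek k) x| ^ 2 := by
      rw [← ENNReal.ofReal_pow (abs_nonneg _), sq_abs]
    have e2 := db_abs (a := a) (b := b) i (ek k) x
    rw [← hJ] at e2
    set A := ∑ q ∈ J, aal a i q (ek k) x with hA
    set B := ∑ q ∈ J, ∑ r ∈ J, bbe b i q r (ek k) x with hB
    have f1 : ∑ q ∈ J, ∑ r ∈ J, aal a i q (ek k) x * (aal a i r (ek k) x * wS a b univ x)
        = A * (A * wS a b univ x) := by
      simp only [← Finset.mul_sum, ← Finset.sum_mul, hA]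
    have f2 : ∑ q ∈ J, ∑ s ∈ J, ∑ t ∈ J,
          aal a i q (ek k) x * (bbe b i s t (ek k) x * wS a b univ x)
        = A * (B * wS a b univ x) := by
      simp only [← Finset.mul_sum, ← Finset.sum_mul, hA, hB]
    have f3 : ∑ q ∈ J, ∑ r ∈ J, ∑ s ∈ J, ∑ t ∈ J,
          bbe b i q r (ek k) x * (bbe b i s t (ek k) x * wS a b univ x)
        = B * (B * wS a b univ x) := by
      simp only [← Finset.mul_sum, ← Finset.sum_mul, hB]
    rw [f1, f2, f3, e1]
    calc ENNReal.ofReal |db a b i (ek k) x| ^ 2 * wS a b univ x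
        ≤ (A + B) ^ 2 * wS a b univ x := by gcongr
      _ = _ := by ring
  have m1 : ∀ q ∈ J, Measurable (fun x : Fin N → E3 => ∑ r ∈ J,
      aal a i q (ek k) x * (aal a i r (ek k) x * wS a b univ x)) := fun q _ =>
    Finset.measurable_fun_sum _ fun r _ => (ma q).mul ((ma r).mul hm)
  have m2'' : ∀ q s, Measurable (fun x : Fin N → E3 => ∑ t ∈ J,
      aal a i q (ek k) x * (bbe b i s t (ek k) x * wS a b univ x)) := fun q s =>
    Finset.measurable_fun_sum _ fun t _ => (ma q).mul ((mb s t).mul hm)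
  have m2' : ∀ q ∈ J, Measurable (fun x : Fin N → E3 => ∑ s ∈ J, ∑ t ∈ J,
      aal a i q (ek k) x * (bbe b i s t (ek k) x * wS a b univ x)) := fun q _ =>
    Finset.measurable_fun_sum _ fun s _ => m2'' q s
  have m2 : Measurable (fun x : Fin N → E3 => ∑ q ∈ J, ∑ s ∈ J, ∑ t ∈ J,
      aal a i q (ek k) x * (bbe b i s t (ek k) x * wS a b univ x)) :=
    Finset.measurable_fun_sum _ m2'
  have m3'' : ∀ q r s, Measurable (fun x : Fin N → E3 => ∑ t ∈ J,
      bbe b i q r (ek k) x * (bbe b i s t (ek k) x * wS a b univ x)) := fun q r s =>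
    Finset.measurable_fun_sum _ fun t _ => (mb q r).mul ((mb s t).mul hm)
  have m3' : ∀ q r, Measurable (fun x : Fin N → E3 => ∑ s ∈ J, ∑ t ∈ J,
      bbe b i q r (ek k) x * (bbe b i s t (ek k) x * wS a b univ x)) := fun q r =>
    Finset.measurable_fun_sum _ fun s _ => m3'' q r s
  have m3 : ∀ q ∈ J, Measurable (fun x : Fin N → E3 => ∑ r ∈ J, ∑ s ∈ J, ∑ t ∈ J,
      bbe b i q r (ek k) x * (bbe b i s t (ek k) x * wS a b univ x)) := fun q _ =>
    Finset.measurable_fun_sum _ fun r _ => m3' q r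
  have step1 : GG ρ i τ (fun x => ENNReal.ofReal (db a b i (ek k) x ^ 2) * wS a b univ x)
      ≤ ∑ q ∈ J, ∑ r ∈ J, GG ρ i τ (fun x =>
          aal a i q (ek k) x * (aal a i r (ek k) x * wS a b univ x))
        + (2 * ∑ q ∈ J, ∑ s ∈ J, ∑ t ∈ J, GG ρ i τ (fun x =>
          aal a i q (ek k) x * (bbe b i s t (ek k) x * wS a b univ x))
        + ∑ q ∈ J, ∑ r ∈ J, ∑ s ∈ J, ∑ t ∈ J, GG ρ i τ (fun x =>
          bbe b i q r (ek k) x * (bbe b i s t (ek k) x * wS a b univ x))) := by
    refine (GG_mono ρ i τ hpt).trans (le_of_eq ?_)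
    rw [GG_add H.hρ i hτ (Finset.measurable_fun_sum _ m1), GG_add H.hρ i hτ (m2.const_mul _),
      GG_mul H.hρ i hτ _ m2]
    congr 1
    · rw [GG_sum H.hρ i hτ _ m1]
      exact Finset.sum_congr rfl fun q _ => GG_sum H.hρ i hτ _
        fun r _ => (ma q).mul ((ma r).mul hm)
    congr 1
    · congr 1
      rw [GG_sum H.hρ i hτ _ m2']
      refine Finset.sum_congr rfl fun q _ => ?_
      rw [GG_sum H.hρ i hτ _ (fun s _ => m2'' q s)]
      exact Finset.sum_congr rfl fun s _ => GG_sum H.hρ i hτ _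
        fun t _ => (ma q).mul ((mb s t).mul hm)
    · rw [GG_sum H.hρ i hτ _ m3]
      refine Finset.sum_congr rfl fun q _ => ?_
      rw [GG_sum H.hρ i hτ _ (fun r _ => m3' q r)]
      refine Finset.sum_congr rfl fun r _ => ?_
      rw [GG_sum H.hρ i hτ _ (fun s _ => m3'' q r s)]
      exact Finset.sum_congr rfl fun s _ => GG_sum H.hρ i hτ _
        fun t _ => (mb q r).mul ((mb s t).mul hm)
  set Zu := ZZ ρ a b (univ : Finset (Fin N)) with hZu
  set m := mass τ with hmm
  have hcard : (J.card : ℝ≥0∞) ≤ (N : ℝ≥0∞) := card_J i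
  -- first sum
  have s1 : ∑ q ∈ J, ∑ r ∈ J, GG ρ i τ (fun x =>
          aal a i q (ek k) x * (aal a i r (ek k) x * wS a b univ x))
      ≤ ∑ q ∈ J, GG ρ i τ (fun x => aal a i q (ek k) x * (aal a i q (ek k) x * wS a b univ x))
        + N * (N * (C1 N A0 * C1 N A0 * (K1 N M R * (K1 N M R * (m * (8 * Zu)))))) := by
    have : ∀ q ∈ J, ∑ r ∈ J, GG ρ i τ (fun x =>
          aal a i q (ek k) x * (aal a i r (ek k) x * wS a b univ x))
        ≤ GG ρ i τ (fun x => aal a i q (ek k) x * (aal a i q (ek k) x * wS a b univ x))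
        + N * (C1 N A0 * C1 N A0 * (K1 N M R * (K1 N M R * (m * (8 * Zu))))) := by
      intro q hq
      calc ∑ r ∈ J, GG ρ i τ (fun x =>
          aal a i q (ek k) x * (aal a i r (ek k) x * wS a b univ x))
          ≤ ∑ r ∈ J, ((if q = r then GG ρ i τ (fun x =>
            aal a i q (ek k) x * (aal a i q (ek k) x * wS a b univ x)) else 0)
            + C1 N A0 * C1 N A0 * (K1 N M R * (K1 N M R * (m * (8 * Zu))))) := by
            refine Finset.sum_le_sum fun r hr => ?_
            by_cases hqr : q = r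
            · subst hqr
              rw [if_pos rfl]
              exact le_self_add
            · rw [if_neg hqr, zero_add]
              exact err1 H hN hc hτ k (hJi q hq) (hJi r hr) hqr
        _ = _ := sum_aux1 J hq _ _
        _ ≤ _ := by gcongr
    refine (Finset.sum_le_sum this).trans ?_
    rw [Finset.sum_add_distrib, Finset.sum_const, nsmul_eq_mul]
    gcongr
  -- second sum
  have s2 : ∑ q ∈ J, ∑ s ∈ J, ∑ t ∈ J, GG ρ i τ (fun x =>
          aal a i q (ek k) x * (bbe b i s t (ek k) x * wS a b univ x))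
      ≤ N * (C1 N A0 * C2 N A0 * (2 * (N * (K1 N M R * (K2 N M R * (m * (8 * Zu)))))
        + N * (N * (K1 N M R * (K2 N M R * (K2 N M R * (m * (16 * Zu)))))))) := by
    have : ∀ q ∈ J, ∑ s ∈ J, ∑ t ∈ J, GG ρ i τ (fun x =>
          aal a i q (ek k) x * (bbe b i s t (ek k) x * wS a b univ x))
        ≤ C1 N A0 * C2 N A0 * (2 * (N * (K1 N M R * (K2 N M R * (m * (8 * Zu)))))
        + N * (N * (K1 N M R * (K2 N M R * (K2 N M R * (m * (16 * Zu))))))) := by
      intro q hq
      refine (Finset.sum_le_sum fun s hs => Finset.sum_le_sum fun t ht =>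
        err2 H hN hc hτ k (hJi q hq) (hJi s hs) (hJi t ht)).trans ?_
      rw [sum_aux2 J hq]
      gcongr
    refine (Finset.sum_le_card_nsmul _ _ _ this).trans ?_
    rw [nsmul_eq_mul]
    gcongr
  -- third sum
  have s3 : ∑ q ∈ J, ∑ r ∈ J, ∑ s ∈ J, ∑ t ∈ J, GG ρ i τ (fun x =>
          bbe b i q r (ek k) x * (bbe b i s t (ek k) x * wS a b univ x))
      ≤ 2 * ∑ q ∈ J, ∑ r ∈ J, GG ρ i τ (fun x => bbe b i q r (ek k) x
          * (bbe b i q r (ek k) x * wS a b univ x))
        + N * (N * (C2 N A0 * C2 N A0 *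
          (4 * (N * (K2 N M R * (K2 N M R * (K2 N M R * (m * (16 * Zu))))))
        + N * (N * (K2 N M R * (K2 N M R * (K2 N M R * (K2 N M R * (m * (32 * Zu)))))))))) := by
    have : ∀ q ∈ J, ∀ r ∈ J, ∑ s ∈ J, ∑ t ∈ J, GG ρ i τ (fun x =>
          bbe b i q r (ek k) x * (bbe b i s t (ek k) x * wS a b univ x))
        ≤ 2 * GG ρ i τ (fun x => bbe b i q r (ek k) x
          * (bbe b i q r (ek k) x * wS a b univ x))
        + C2 N A0 * C2 N A0 *
          (4 * (N * (K2 N M R * (K2 N M R * (K2 N M R * (m * (16 * Zu))))))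
        + N * (N * (K2 N M R * (K2 N M R * (K2 N M R * (K2 N M R * (m * (32 * Zu)))))))) := by
      intro q hq r hr
      refine (Finset.sum_le_sum (g := fun s => ∑ t ∈ J, ((if q = s then (if r = t then
          GG ρ i τ (fun x => bbe b i q r (ek k) x
          * (bbe b i q r (ek k) x * wS a b univ x)) else 0) else 0)
          + (if r = s then (if q = t then GG ρ i τ (fun x => bbe b i q r (ek k) x
          * (bbe b i q r (ek k) x * wS a b univ x)) else 0) else 0)
          + C2 N A0 * C2 N A0 * ((if q = s then K2 N M R * (K2 N M R * (K2 N M R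
          * (m * (16 * Zu)))) else 0)
          + (if q = t then K2 N M R * (K2 N M R * (K2 N M R * (m * (16 * Zu)))) else 0)
          + (if r = s then K2 N M R * (K2 N M R * (K2 N M R * (m * (16 * Zu)))) else 0)
          + (if r = t then K2 N M R * (K2 N M R * (K2 N M R * (m * (16 * Zu)))) else 0)
          + K2 N M R * (K2 N M R * (K2 N M R * (K2 N M R * (m * (32 * Zu))))))))
          fun s hs => Finset.sum_le_sum fun t ht => ?_).trans ?_
      · by_cases h1 : q = s ∧ r = t
        · obtain ⟨h1, h2⟩ := h1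
          subst h1 h2
          rw [if_pos rfl, if_pos rfl, add_assoc]
          exact le_self_add
        by_cases h2 : q = t ∧ r = s
        · obtain ⟨h2, h3⟩ := h2
          subst h2 h3
          have e : ∀ x : Fin N → E3, bbe b i r q (ek k) x = bbe b i q r (ek k) x :=
            fun x => bbe_swap H.ab i r q _ x
          simp_rw [e]
          rw [if_pos trivial, if_pos trivial]
          refine le_trans ?_ le_self_add
          exact le_add_self
        · have e1 : (if q = s then (if r = t then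
              GG ρ i τ (fun x => bbe b i q r (ek k) x
              * (bbe b i q r (ek k) x * wS a b univ x)) else 0) else 0) = 0 := by
            by_cases hqs : q = s
            · rw [if_pos hqs, if_neg (fun e => h1 ⟨hqs, e⟩)]
            · rw [if_neg hqs]
          have e2 : (if r = s then (if q = t then
              GG ρ i τ (fun x => bbe b i q r (ek k) x
              * (bbe b i q r (ek k) x * wS a b univ x)) else 0) else 0) = 0 := by
            by_cases hrs : r = s
            · rw [if_pos hrs, if_neg (fun e => h2 ⟨e, hrs⟩)]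
            · rw [if_neg hrs]
          rw [e1, e2, zero_add, zero_add]
          exact err3 H hN hc hτ k (hJi q hq) (hJi r hr) (hJi s hs) (hJi t ht) h1 h2
      · rw [sum_aux3 J hq hr]
        gcongr
    refine (Finset.sum_le_sum fun q hq => Finset.sum_le_sum fun r hr => this q hq r hr).trans ?_
    simp only [Finset.sum_add_distrib, Finset.sum_const, nsmul_eq_mul, ← Finset.mul_sum]
    gcongr
  refine step1.trans ((add_le_add s1 (add_le_add (mul_le_mul_right s2 2) s3)).trans
    (le_of_eq ?_))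
  unfold Eoff
  ring

end Pool.Agent.Helper67.Bose
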