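import Mathlib
import Pool.Agent.Helper67.Bose.Tot

set_option autoImplicit false
open MeasureTheory Finset
open scoped ENNReal NNReal

namespace Pool.Agent.Helper67.Bose
open Pool.Agent.Helper23.Bose

theorem conv1 {n c1 c2 k1 k2 : ℝ} (hn : 0 ≤ n) (h1 : 0 ≤ c1) (h2 : 0 ≤ c2) (hk1 : 0 ≤ k1)
    (hk2 : 0 ≤ k2) :
    ENNReal.ofReal n * (ENNReal.ofReal n * (ENNReal.ofReal c1 * ENNReal.ofReal c1
      * (ENNReal.ofReal k1 * (ENNReal.ofReal k1 * 8))))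
    + 2 * (ENNReal.ofReal n * (ENNReal.ofReal c1 * ENNReal.ofReal c2
      * (2 * (ENNReal.ofReal n * (ENNReal.ofReal k1 * (ENNReal.ofReal k2 * 8)))
    + ENNReal.ofReal n * (ENNReal.ofReal n * (ENNReal.ofReal k1 * (ENNReal.ofReal k2
      * (ENNReal.ofReal k2 * 16)))))))
    + ENNReal.ofReal n * (ENNReal.ofReal n * (ENNReal.ofReal c2 * ENNReal.ofReal c2
      * (4 * (ENNReal.ofReal n * (ENNReal.ofReal k2 * (ENNReal.ofReal k2
        * (ENNReal.ofReal k2 * 16))))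
    + ENNReal.ofReal n * (ENNReal.ofReal n * (ENNReal.ofReal k2 * (ENNReal.ofReal k2
      * (ENNReal.ofReal k2 * (ENNReal.ofReal k2 * 32))))))))
    = ENNReal.ofReal (n * (n * (c1 * c1 * (k1 * (k1 * 8))))
      + 2 * (n * (c1 * c2 * (2 * (n * (k1 * (k2 * 8))) + n * (n * (k1 * (k2 * (k2 * 16)))))))
      + n * (n * (c2 * c2 * (4 * (n * (k2 * (k2 * (k2 * 16))))
        + n * (n * (k2 * (k2 * (k2 * (k2 * 32))))))))) := by
  lift n to ℝ≥0 using hn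
  lift c1 to ℝ≥0 using h1
  lift c2 to ℝ≥0 using h2
  lift k1 to ℝ≥0 using hk1
  lift k2 to ℝ≥0 using hk2
  simp only [ENNReal.ofReal_coe_nnreal]
  norm_cast
  rw [ENNReal.ofReal_coe_nnreal]

theorem conv2 {n c1 c2 k1 k2 : ℝ} (hn : 0 ≤ n) (h1 : 0 ≤ c1) (h2 : 0 ≤ c2) (hk1 : 0 ≤ k1)
    (hk2 : 0 ≤ k2) :
    ENNReal.ofReal n * (ENNReal.ofReal c1 * (ENNReal.ofReal k1 * 4))
    + ENNReal.ofReal n * (ENNReal.ofReal n * (ENNReal.ofReal c2
      * (ENNReal.ofReal k2 * (ENNReal.ofReal k2 * 8))))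
    = ENNReal.ofReal (n * (c1 * (k1 * 4)) + n * (n * (c2 * (k2 * (k2 * 8))))) := by
  lift n to ℝ≥0 using hn
  lift c1 to ℝ≥0 using h1
  lift c2 to ℝ≥0 using h2
  lift k1 to ℝ≥0 using hk1
  lift k2 to ℝ≥0 using hk2
  simp only [ENNReal.ofReal_coe_nnreal]
  norm_cast
  rw [ENNReal.ofReal_coe_nnreal]

variable {N : ℕ} {a : E3 → ℝ} {b : E3 × E3 → ℝ} {u : E3 → ℂ} {ρ τ : E3 → ℝ≥0∞} {R M A0 : ℝ}

/-- constant for the off-diagonal error -/
noncomputable def CE (R M A0 : ℝ) : ℝ :=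
  A0 ^ 2 * (224 * (M * vB * R ^ 3) ^ 2 + 768 * (M * vB * R ^ 3) ^ 3 + 288 * (M * vB * R ^ 3) ^ 4)

/-- constant for the cross error -/
noncomputable def CX (R M A0 : ℝ) : ℝ :=
  A0 * (8 * (M * vB * R ^ 3) + 24 * (M * vB * R ^ 3) ^ 2)

theorem Eoff_le (hM : 0 ≤ M) (hR : 0 ≤ R) (hA : 0 ≤ A0) (hN : 0 < N) :
    Eoff N A0 M R ≤ ENNReal.ofReal (CE R M A0 / Real.sqrt N) := by
  have hN0 := cN_pos hN
  have hs := sqN_pos hN
  have hk1 := kap_nn hM hR hN0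
  have hk2 := kap_nn hM hR hs
  unfold Eoff C1 C2 K1 K2
  have hNc : (N : ℝ≥0∞) = ENNReal.ofReal N := by simp
  rw [hNc, conv1 hN0.le (by positivity) (by positivity) hk1 hk2]
  refine ENNReal.ofReal_le_ofReal ?_
  set s := Real.sqrt N with hsdef
  have hss : (N : ℝ) = s ^ 2 := (Real.sq_sqrt hN0.le).symm
  have hs1 : 1 ≤ s := by
    rw [hsdef, Real.one_le_sqrt]
    exact_mod_cast hN
  have hv := vB_nn
  set c := M * vB * R ^ 3 with hc
  have hc0 : 0 ≤ c := by positivity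
  have e1 : kap M R (N : ℝ) = c / s ^ 6 := by
    unfold kap; rw [hss, hc]; field_simp
  have e2 : kap M R s = c / s ^ 3 := by
    unfold kap; rw [hc]; field_simp
  rw [e1, e2, hss]
  have hsne : s ≠ 0 := hs.ne'
  have key : s ^ 2 * (s ^ 2 * (2 * s ^ 2 * A0 * (2 * s ^ 2 * A0) * (c / s ^ 6 * (c / s ^ 6 * 8))))
      + 2 * (s ^ 2 * (2 * s ^ 2 * A0 * (3 * s * A0) *
        (2 * (s ^ 2 * (c / s ^ 6 * (c / s ^ 3 * 8)))
          + s ^ 2 * (s ^ 2 * (c / s ^ 6 * (c / s ^ 3 * (c / s ^ 3 * 16)))))))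
      + s ^ 2 * (s ^ 2 * (3 * s * A0 * (3 * s * A0) *
        (4 * (s ^ 2 * (c / s ^ 3 * (c / s ^ 3 * (c / s ^ 3 * 16))))
          + s ^ 2 * (s ^ 2 * (c / s ^ 3 * (c / s ^ 3 * (c / s ^ 3 * (c / s ^ 3 * 32))))))))
      = A0 ^ 2 * (32 * c ^ 2 / s ^ 4 + 192 * c ^ 2 / s ^ 2 + 192 * c ^ 3 / s ^ 3
        + 576 * c ^ 3 / s + 288 * c ^ 4 / s ^ 2) := by
    field_simp
    ring
  rw [key]
  have h2 : ∀ {x : ℝ} {n : ℕ}, 0 ≤ x → 1 ≤ n → x / s ^ n ≤ x / s := by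
    intro x n hx hn
    apply div_le_div_of_nonneg_left hx hs
    calc s = s ^ 1 := (pow_one s).symm
      _ ≤ s ^ n := pow_le_pow_right₀ hs1 hn
  have i1 := h2 (x := 32 * c ^ 2) (n := 4) (by positivity) (by norm_num)
  have i2 := h2 (x := 192 * c ^ 2) (n := 2) (by positivity) (by norm_num)
  have i3 := h2 (x := 192 * c ^ 3) (n := 3) (by positivity) (by norm_num)
  have i4 := h2 (x := 288 * c ^ 4) (n := 2) (by positivity) (by norm_num)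
  calc A0 ^ 2 * (32 * c ^ 2 / s ^ 4 + 192 * c ^ 2 / s ^ 2 + 192 * c ^ 3 / s ^ 3
        + 576 * c ^ 3 / s + 288 * c ^ 4 / s ^ 2)
      ≤ A0 ^ 2 * (32 * c ^ 2 / s + 192 * c ^ 2 / s + 192 * c ^ 3 / s
        + 576 * c ^ 3 / s + 288 * c ^ 4 / s) := by
        gcongr
    _ = CE R M A0 / s := by unfold CE; rw [← hc]; ring

theorem Ecr_le (hM : 0 ≤ M) (hR : 0 ≤ R) (hA : 0 ≤ A0) (hN : 0 < N) :
    (N : ℝ≥0∞) * (C1 N A0 * (K1 N M R * 4)) + N * (N * (C2 N A0 * (K2 N M R * (K2 N M R * 8))))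
      ≤ ENNReal.ofReal (CX R M A0 / Real.sqrt N) := by
  have hN0 := cN_pos hN
  have hs := sqN_pos hN
  have hk1 := kap_nn hM hR hN0
  have hk2 := kap_nn hM hR hs
  unfold C1 C2 K1 K2
  have hNc : (N : ℝ≥0∞) = ENNReal.ofReal N := by simp
  rw [hNc, conv2 hN0.le (by positivity) (by positivity) hk1 hk2]
  refine ENNReal.ofReal_le_ofReal ?_
  set s := Real.sqrt N with hsdef
  have hss : (N : ℝ) = s ^ 2 := (Real.sq_sqrt hN0.le).symm
  have hs1 : 1 ≤ s := by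
    rw [hsdef, Real.one_le_sqrt]
    exact_mod_cast hN
  have hv := vB_nn
  set c := M * vB * R ^ 3 with hc
  have hc0 : 0 ≤ c := by positivity
  have e1 : kap M R (N : ℝ) = c / s ^ 6 := by
    unfold kap; rw [hss, hc]; field_simp
  have e2 : kap M R s = c / s ^ 3 := by
    unfold kap; rw [hc]; field_simp
  rw [e1, e2, hss]
  have hsne : s ≠ 0 := hs.ne'
  have key : s ^ 2 * (2 * s ^ 2 * A0 * (c / s ^ 6 * 4))
      + s ^ 2 * (s ^ 2 * (3 * s * A0 * (c / s ^ 3 * (c / s ^ 3 * 8))))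
      = A0 * (8 * c / s ^ 2 + 24 * c ^ 2 / s) := by
    field_simp
    ring
  rw [key]
  have i1 : 8 * c / s ^ 2 ≤ 8 * c / s := by
    apply div_le_div_of_nonneg_left (by positivity) hs
    nlinarith
  calc A0 * (8 * c / s ^ 2 + 24 * c ^ 2 / s) ≤ A0 * (8 * c / s + 24 * c ^ 2 / s) := by gcongr
    _ = CX R M A0 / s := by unfold CX; rw [← hc]; ring

end Pool.Agent.Helper67.Bose
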