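import Mathlib
import Pool.Agent.Helper67.Bose.Eoff

set_option autoImplicit false
open MeasureTheory Finset
open scoped ENNReal NNReal

namespace Pool.Agent.Helper67.Bose
open Pool.Agent.Helper23.Bose

/-- scaling factor -/
noncomputable def sc (s : ℝ) : ℝ≥0∞ := ENNReal.ofReal (1 / s ^ 3)

theorem lint_smul {s : ℝ} (hs : 0 < s) {F : E3 → ℝ≥0∞} (hF : Measurable F) :
    ∫⁻ y, F (s • y) = sc s * ∫⁻ y, F y := by
  have h := Measure.map_addHaar_smul (volume : Measure E3) hs.ne'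
  have hf : Module.finrank ℝ E3 = 3 := by simp
  rw [hf] at h
  have h2 : ∫⁻ y, F (s • y) = ∫⁻ y, F y ∂(Measure.map (s • ·) (volume : Measure E3)) :=
    (lintegral_map hF (measurable_const_smul s)).symm
  rw [h2, h, lintegral_smul_measure]
  unfold sc
  rw [abs_of_pos (by positivity), one_div]
  rfl

theorem lint_left {s : ℝ} (hs : 0 < s) {F : E3 → ℝ≥0∞} (hF : Measurable F) (z : E3) :
    ∫⁻ y, F (s • (z - y)) = sc s * ∫⁻ y, F y := by
  rw [lintegral_sub_left_eq_self (fun y => F (s • y)) z, lint_smul hs hF]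

theorem lint_right {s : ℝ} (hs : 0 < s) {F : E3 → ℝ≥0∞} (hF : Measurable F) (y : E3) :
    ∫⁻ z, F (s • (z - y)) = sc s * ∫⁻ y, F y := by
  rw [lintegral_sub_right_eq_self (fun z => F (s • z)) y, lint_smul hs hF]

theorem amgm2 (x y : ℝ≥0∞) : 2 * (x * y) ≤ x ^ 2 + y ^ 2 := by
  by_cases hx : x = ⊤
  · simp [hx]
  by_cases hy : y = ⊤
  · simp [hy]
  lift x to ℝ≥0 using hx
  lift y to ℝ≥0 using hy
  norm_cast
  have : 2 * ((x : ℝ) * y) ≤ x ^ 2 + y ^ 2 := by nlinarith [sq_nonneg ((x : ℝ) - y)]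
  exact_mod_cast this

theorem amgm3 (x y z : ℝ≥0∞) : 3 * (x * (y * z)) ≤ x ^ 3 + (y ^ 3 + z ^ 3) := by
  by_cases hx : x = ⊤
  · simp [hx]
  by_cases hy : y = ⊤
  · simp [hy]
  by_cases hz : z = ⊤
  · simp [hz]
  lift x to ℝ≥0 using hx
  lift y to ℝ≥0 using hy
  lift z to ℝ≥0 using hz
  norm_cast
  have : 3 * ((x : ℝ) * (y * z)) ≤ x ^ 3 + (y ^ 3 + z ^ 3) := by
    have h1 : (0 : ℝ) ≤ x := x.2
    have h2 : (0 : ℝ) ≤ y := y.2
    have h3 : (0 : ℝ) ≤ z := z.2
    nlinarith [mul_nonneg (add_nonneg (add_nonneg h1 h2) h3) (sq_nonneg ((x : ℝ) - y)),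
      mul_nonneg (add_nonneg (add_nonneg h1 h2) h3) (sq_nonneg ((y : ℝ) - z)),
      mul_nonneg (add_nonneg (add_nonneg h1 h2) h3) (sq_nonneg ((x : ℝ) - z))]
  exact_mod_cast this

theorem pairint {ρ : E3 → ℝ≥0∞} (hρ : Measurable ρ) {s : ℝ} (hs : 0 < s) {F : E3 → ℝ≥0∞}
    (hF : Measurable F) :
    ∫⁻ z, ρ z * ∫⁻ y, ρ y * F (s • (z - y)) ≤ sc s * ((∫⁻ r, F r) * ∫⁻ y, ρ y ^ 2) := by
  have h2 : (2 : ℝ≥0∞) ≠ 0 := two_ne_zero
  have h2' : (2 : ℝ≥0∞) ≠ ⊤ := ENNReal.ofNat_ne_top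
  rw [← ENNReal.mul_le_mul_iff_right h2 h2']
  have hFs : Measurable (fun p : E3 × E3 => F (s • (p.1 - p.2))) :=
    hF.comp (by fun_prop)
  have hz : ∀ z : E3, Measurable (fun y => F (s • (z - y))) := fun z => hF.comp (by fun_prop)
  have m1 : Measurable (fun z => ∫⁻ y, ρ y * F (s • (z - y))) := by
    have : Measurable (fun p : E3 × E3 => ρ p.2 * F (s • (p.1 - p.2))) :=
      (hρ.comp measurable_snd).mul hFs
    exact this.lintegral_prod_right'
  calc 2 * ∫⁻ z, ρ z * ∫⁻ y, ρ y * F (s • (z - y))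
      = ∫⁻ z, ∫⁻ y, 2 * (ρ z * ρ y) * F (s • (z - y)) := by
        have m1' : Measurable (fun z => ρ z * ∫⁻ y, ρ y * F (s • (z - y))) := hρ.mul m1
        rw [← lintegral_const_mul _ m1']
        refine lintegral_congr fun z => ?_
        have m2' : Measurable (fun y => ρ y * F (s • (z - y))) := hρ.mul (hz z)
        rw [← lintegral_const_mul _ m2', ← lintegral_const_mul _ (m2'.const_mul _)]
        exact lintegral_congr fun y => by ring
    _ ≤ ∫⁻ z, ∫⁻ y, (ρ z ^ 2 * F (s • (z - y)) + ρ y ^ 2 * F (s • (z - y))) := by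
        refine lintegral_mono fun z => lintegral_mono fun y => ?_
        rw [← add_mul]
        exact mul_le_mul_left (amgm2 _ _) _
    _ = (∫⁻ z, ∫⁻ y, ρ z ^ 2 * F (s • (z - y))) + (∫⁻ z, ∫⁻ y, ρ y ^ 2 * F (s • (z - y))) := by
        have : ∀ z, ∫⁻ y, (ρ z ^ 2 * F (s • (z - y)) + ρ y ^ 2 * F (s • (z - y)))
            = (∫⁻ y, ρ z ^ 2 * F (s • (z - y))) + (∫⁻ y, ρ y ^ 2 * F (s • (z - y))) := fun z =>
          lintegral_add_left ((hz z).const_mul _) _
        simp_rw [this]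
        refine lintegral_add_left ?_ _
        have : Measurable (fun p : E3 × E3 => ρ p.1 ^ 2 * F (s • (p.1 - p.2))) :=
          ((hρ.comp measurable_fst).pow_const 2).mul hFs
        exact this.lintegral_prod_right'
    _ = 2 * (sc s * ((∫⁻ r, F r) * ∫⁻ y, ρ y ^ 2)) := by
        have e1 : ∫⁻ z, ∫⁻ y, ρ z ^ 2 * F (s • (z - y)) = sc s * ((∫⁻ r, F r) * ∫⁻ y, ρ y ^ 2) := by
          have : ∀ z, ∫⁻ y, ρ z ^ 2 * F (s • (z - y)) = ρ z ^ 2 * (sc s * ∫⁻ r, F r) := fun z => by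
            rw [lintegral_const_mul _ (hz z), lint_left hs hF]
          simp_rw [this]
          rw [lintegral_mul_const _ (hρ.pow_const 2)]
          ring
        have e2 : ∫⁻ z, ∫⁻ y, ρ y ^ 2 * F (s • (z - y)) = sc s * ((∫⁻ r, F r) * ∫⁻ y, ρ y ^ 2) := by
          have hm : Measurable (fun p : E3 × E3 => ρ p.2 ^ 2 * F (s • (p.1 - p.2))) :=
            ((hρ.comp measurable_snd).pow_const 2).mul hFs
          rw [lintegral_lintegral_swap (f := fun z y => ρ y ^ 2 * F (s • (z - y))) hm.aemeasurable]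
          have hy : ∀ y : E3, Measurable (fun z => F (s • (z - y))) :=
            fun y => hF.comp (by fun_prop)
          have : ∀ y, ∫⁻ z, ρ y ^ 2 * F (s • (z - y)) = ρ y ^ 2 * (sc s * ∫⁻ r, F r) := fun y => by
            rw [lintegral_const_mul _ (hy y), lint_right hs hF]
          simp_rw [this]
          rw [lintegral_mul_const _ (hρ.pow_const 2)]
          ring
        rw [e1, e2]
        ring

theorem tripleint {ρ : E3 → ℝ≥0∞} (hρ : Measurable ρ) {s : ℝ} (hs : 0 < s)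
    {G : E3 × E3 → ℝ≥0∞} (hG : Measurable G) :
    ∫⁻ z, ρ z * ∫⁻ y, ρ y * ∫⁻ t, ρ t * G (s • (z - y), s • (z - t))
      ≤ sc s * sc s * ((∫⁻ p, G p) * ∫⁻ y, ρ y ^ 3) := by
  have h2 : (3 : ℝ≥0∞) ≠ 0 := three_ne_zero
  have h2' : (3 : ℝ≥0∞) ≠ ⊤ := ENNReal.ofNat_ne_top
  rw [← ENNReal.mul_le_mul_iff_right h2 h2']
  set H1 : E3 → ℝ≥0∞ := fun r1 => ∫⁻ r2, G (r1, r2) with hH1
  set H2 : E3 → ℝ≥0∞ := fun r2 => ∫⁻ r1, G (r1, r2) with hH2
  have mH1 : Measurable H1 := hG.lintegral_prod_right'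
  have mH2 : Measurable H2 := hG.lintegral_prod_left'
  have iH1 : ∫⁻ r, H1 r = ∫⁻ p, G p := by
    rw [Measure.volume_eq_prod, lintegral_prod _ hG.aemeasurable]
  have iH2 : ∫⁻ r, H2 r = ∫⁻ p, G p := by
    rw [Measure.volume_eq_prod, lintegral_prod_symm _ hG.aemeasurable]
  have mG3 : Measurable (fun p : (E3 × E3) × E3 =>
      G (s • (p.1.1 - p.1.2), s • (p.1.1 - p.2))) := hG.comp (by fun_prop)
  have mGt : ∀ z y : E3, Measurable (fun t => G (s • (z - y), s • (z - t))) := fun z y =>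
    hG.comp (by fun_prop)
  have mGy : ∀ z t : E3, Measurable (fun y => G (s • (z - y), s • (z - t))) := fun z y =>
    hG.comp (by fun_prop)
  have mGyt : ∀ z : E3, Measurable (fun p : E3 × E3 => G (s • (z - p.1), s • (z - p.2))) :=
    fun z => hG.comp (by fun_prop)
  have mR1 : Measurable (fun p : (E3 × E3) × E3 => ρ p.1.1) :=
    hρ.comp (measurable_fst.comp measurable_fst)
  have mR2 : Measurable (fun p : (E3 × E3) × E3 => ρ p.1.2) :=
    hρ.comp (measurable_snd.comp measurable_fst)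
  have mR3 : Measurable (fun p : (E3 × E3) × E3 => ρ p.2) := hρ.comp measurable_snd
  have it : ∀ z y : E3, ∫⁻ t, G (s • (z - y), s • (z - t)) = sc s * H1 (s • (z - y)) := by
    intro z y
    exact lint_left hs (F := fun r => G (s • (z - y), r)) (hG.comp (by fun_prop)) z
  have iy : ∀ z t : E3, ∫⁻ y, G (s • (z - y), s • (z - t)) = sc s * H2 (s • (z - t)) := by
    intro z t
    exact lint_left hs (F := fun r => G (r, s • (z - t))) (hG.comp (by fun_prop)) z
  -- two-fold integrals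
  have mi : ∀ {K : (E3 × E3) × E3 → ℝ≥0∞}, Measurable K →
      Measurable (fun z : E3 => ∫⁻ y, ∫⁻ t, K ((z, y), t)) := by
    intro K hK
    have h1 : Measurable (fun p : E3 × E3 => ∫⁻ t, K (p, t)) := hK.lintegral_prod_right'
    exact h1.lintegral_prod_right'
  have mii : ∀ {K : (E3 × E3) × E3 → ℝ≥0∞}, Measurable K → ∀ z : E3,
      Measurable (fun y : E3 => ∫⁻ t, K ((z, y), t)) := by
    intro K hK z
    have h1 : Measurable (fun p : E3 × E3 => ∫⁻ t, K (p, t)) := hK.lintegral_prod_right'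
    exact h1.comp (by fun_prop)
  have T1 : ∫⁻ z, ∫⁻ y, ∫⁻ t, ρ z ^ 3 * G (s • (z - y), s • (z - t))
      = sc s * sc s * ((∫⁻ p, G p) * ∫⁻ y, ρ y ^ 3) := by
    have e : ∀ z, ∫⁻ y, ∫⁻ t, ρ z ^ 3 * G (s • (z - y), s • (z - t))
        = ρ z ^ 3 * (sc s * (sc s * ∫⁻ p, G p)) := by
      intro z
      have e' : ∀ y, ∫⁻ t, ρ z ^ 3 * G (s • (z - y), s • (z - t))
          = (ρ z ^ 3 * sc s) * H1 (s • (z - y)) := by
        intro y
        rw [lintegral_const_mul _ (mGt z y), it]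
        ring
      simp_rw [e']
      have mm : Measurable (fun y => H1 (s • (z - y))) := mH1.comp (by fun_prop)
      rw [lintegral_const_mul _ mm, lint_left hs mH1, iH1]
      ring
    simp_rw [e]
    rw [lintegral_mul_const _ (hρ.pow_const 3)]
    ring
  have T2 : ∫⁻ z, ∫⁻ y, ∫⁻ t, ρ y ^ 3 * G (s • (z - y), s • (z - t))
      = sc s * sc s * ((∫⁻ p, G p) * ∫⁻ y, ρ y ^ 3) := by
    have e' : ∀ z y, ∫⁻ t, ρ y ^ 3 * G (s • (z - y), s • (z - t))
        = ρ y ^ 3 * sc s * H1 (s • (z - y)) := by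
      intro z y
      rw [lintegral_const_mul _ (mGt z y), it]
      ring
    simp_rw [e']
    have hm : Measurable (fun p : E3 × E3 => ρ p.2 ^ 3 * sc s * H1 (s • (p.1 - p.2))) :=
      (((hρ.comp measurable_snd).pow_const 3).mul_const _).mul (mH1.comp (by fun_prop))
    rw [lintegral_lintegral_swap (f := fun z y => ρ y ^ 3 * sc s * H1 (s • (z - y)))
      hm.aemeasurable]
    have e : ∀ y, ∫⁻ z, ρ y ^ 3 * sc s * H1 (s • (z - y))
        = ρ y ^ 3 * (sc s * (sc s * ∫⁻ p, G p)) := by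
      intro y
      have mm : Measurable (fun z => H1 (s • (z - y))) := mH1.comp (by fun_prop)
      rw [lintegral_const_mul _ mm, lint_right hs mH1, iH1]
      ring
    simp_rw [e]
    rw [lintegral_mul_const _ (hρ.pow_const 3)]
    ring
  have T3 : ∫⁻ z, ∫⁻ y, ∫⁻ t, ρ t ^ 3 * G (s • (z - y), s • (z - t))
      = sc s * sc s * ((∫⁻ p, G p) * ∫⁻ y, ρ y ^ 3) := by
    have e0 : ∀ z, ∫⁻ y, ∫⁻ t, ρ t ^ 3 * G (s • (z - y), s • (z - t))
        = ∫⁻ t, ρ t ^ 3 * sc s * H2 (s • (z - t)) := by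
      intro z
      have hm : Measurable (fun p : E3 × E3 => ρ p.2 ^ 3 * G (s • (z - p.1), s • (z - p.2))) :=
        ((hρ.comp measurable_snd).pow_const 3).mul (mGyt z)
      rw [lintegral_lintegral_swap (f := fun y t => ρ t ^ 3 * G (s • (z - y), s • (z - t)))
        hm.aemeasurable]
      refine lintegral_congr fun t => ?_
      rw [lintegral_const_mul _ (mGy z t), iy]
      ring
    simp_rw [e0]
    have hm : Measurable (fun p : E3 × E3 => ρ p.2 ^ 3 * sc s * H2 (s • (p.1 - p.2))) :=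
      (((hρ.comp measurable_snd).pow_const 3).mul_const _).mul (mH2.comp (by fun_prop))
    rw [lintegral_lintegral_swap (f := fun z y => ρ y ^ 3 * sc s * H2 (s • (z - y)))
      hm.aemeasurable]
    have e : ∀ y, ∫⁻ z, ρ y ^ 3 * sc s * H2 (s • (z - y))
        = ρ y ^ 3 * (sc s * (sc s * ∫⁻ p, G p)) := by
      intro y
      have mm : Measurable (fun z => H2 (s • (z - y))) := mH2.comp (by fun_prop)
      rw [lintegral_const_mul _ mm, lint_right hs mH2, iH2]
      ring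
    simp_rw [e]
    rw [lintegral_mul_const _ (hρ.pow_const 3)]
    ring
  have m1 : Measurable (fun p : (E3 × E3) × E3 =>
      ρ p.1.1 ^ 3 * G (s • (p.1.1 - p.1.2), s • (p.1.1 - p.2))) := (mR1.pow_const 3).mul mG3
  have m2 : Measurable (fun p : (E3 × E3) × E3 =>
      ρ p.1.2 ^ 3 * G (s • (p.1.1 - p.1.2), s • (p.1.1 - p.2))) := (mR2.pow_const 3).mul mG3
  have m3 : Measurable (fun p : (E3 × E3) × E3 =>
      ρ p.2 ^ 3 * G (s • (p.1.1 - p.1.2), s • (p.1.1 - p.2))) := (mR3.pow_const 3).mul mG3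
  have m4 : Measurable (fun p : (E3 × E3) × E3 =>
      ρ p.2 * G (s • (p.1.1 - p.1.2), s • (p.1.1 - p.2))) := mR3.mul mG3
  calc 3 * ∫⁻ z, ρ z * ∫⁻ y, ρ y * ∫⁻ t, ρ t * G (s • (z - y), s • (z - t))
      = ∫⁻ z, ∫⁻ y, ∫⁻ t, 3 * (ρ z * (ρ y * ρ t)) * G (s • (z - y), s • (z - t)) := by
        have h1 : Measurable (fun p : E3 × E3 =>
            ρ p.2 * ∫⁻ t, ρ t * G (s • (p.1 - p.2), s • (p.1 - t))) :=
          (hρ.comp measurable_snd).mul m4.lintegral_prod_right'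
        have h1' : Measurable (fun z : E3 =>
            ρ z * ∫⁻ y, ρ y * ∫⁻ t, ρ t * G (s • (z - y), s • (z - t))) :=
          hρ.mul h1.lintegral_prod_right'
        rw [← lintegral_const_mul _ h1']
        refine lintegral_congr fun z => ?_
        have h2 : Measurable (fun y : E3 =>
            ρ y * ∫⁻ t, ρ t * G (s • (z - y), s • (z - t))) :=
          h1.comp (measurable_prodMk_left (x := z))
        rw [← lintegral_const_mul _ h2, ← lintegral_const_mul _ (h2.const_mul _)]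
        refine lintegral_congr fun y => ?_
        have h3 : Measurable (fun t : E3 => ρ t * G (s • (z - y), s • (z - t))) :=
          hρ.mul (mGt z y)
        rw [← lintegral_const_mul _ h3, ← lintegral_const_mul _ (h3.const_mul _),
          ← lintegral_const_mul _ ((h3.const_mul _).const_mul _)]
        exact lintegral_congr fun t => by ring
    _ ≤ ∫⁻ z, ∫⁻ y, ∫⁻ t, (ρ z ^ 3 * G (s • (z - y), s • (z - t))
          + (ρ y ^ 3 * G (s • (z - y), s • (z - t)) + ρ t ^ 3 * G (s • (z - y), s • (z - t)))) := by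
        refine lintegral_mono fun z => lintegral_mono fun y => lintegral_mono fun t => ?_
        rw [← add_mul, ← add_mul]
        exact mul_le_mul_left (amgm3 _ _ _) _
    _ = (∫⁻ z, ∫⁻ y, ∫⁻ t, ρ z ^ 3 * G (s • (z - y), s • (z - t)))
          + ((∫⁻ z, ∫⁻ y, ∫⁻ t, ρ y ^ 3 * G (s • (z - y), s • (z - t)))
          + (∫⁻ z, ∫⁻ y, ∫⁻ t, ρ t ^ 3 * G (s • (z - y), s • (z - t)))) := by
        have e1 : ∀ z, ∫⁻ y, ∫⁻ t, (ρ z ^ 3 * G (s • (z - y), s • (z - t))
          + (ρ y ^ 3 * G (s • (z - y), s • (z - t)) + ρ t ^ 3 * G (s • (z - y), s • (z - t))))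
            = (∫⁻ y, ∫⁻ t, ρ z ^ 3 * G (s • (z - y), s • (z - t)))
              + ((∫⁻ y, ∫⁻ t, ρ y ^ 3 * G (s • (z - y), s • (z - t)))
                + (∫⁻ y, ∫⁻ t, ρ t ^ 3 * G (s • (z - y), s • (z - t)))) := by
          intro z
          have e2 : ∀ y, ∫⁻ t, (ρ z ^ 3 * G (s • (z - y), s • (z - t))
            + (ρ y ^ 3 * G (s • (z - y), s • (z - t)) + ρ t ^ 3 * G (s • (z - y), s • (z - t))))
            = (∫⁻ t, ρ z ^ 3 * G (s • (z - y), s • (z - t)))
              + ((∫⁻ t, ρ y ^ 3 * G (s • (z - y), s • (z - t)))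
                + (∫⁻ t, ρ t ^ 3 * G (s • (z - y), s • (z - t)))) := by
            intro y
            rw [lintegral_add_left ((mGt z y).const_mul _), lintegral_add_left
              ((mGt z y).const_mul _)]
          simp_rw [e2]
          rw [lintegral_add_left (mii m1 z), lintegral_add_left (mii m2 z)]
        simp_rw [e1]
        rw [lintegral_add_left (mi m1), lintegral_add_left (mi m2)]
    _ = _ := by
        rw [T1, T2, T3]
        ring

end Pool.Agent.Helper67.Bose
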