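import Mathlib
import Pool.Agent.Helper67.Bose.Scale

set_option autoImplicit false
open MeasureTheory Finset
open scoped ENNReal NNReal

namespace Pool.Agent.Helper67.Bose
open Pool.Agent.Helper23.Bose

variable {N : ℕ} {a : E3 → ℝ} {b : E3 × E3 → ℝ} {u : E3 → ℂ} {ρ τ : E3 → ℝ≥0∞} {R M A0 : ℝ}

/-- kinetic pair density -/
noncomputable def Fk (a : E3 → ℝ) (k : Fin 3) (r : E3) : ℝ≥0∞ :=
  ENNReal.ofReal (4 * (fderiv ℝ a r (ek k)) ^ 2 * Real.exp (-(4 * a r)))

/-- kinetic triple density -/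
noncomputable def Gk (b : E3 × E3 → ℝ) (k : Fin 3) (p : E3 × E3) : ℝ≥0∞ :=
  ENNReal.ofReal (9 * (fderiv ℝ b p (ek k, ek k)) ^ 2 * Real.exp (-(12 * b p)))

/-- potential pair density -/
noncomputable def FW (W : E3 → ℝ) (a : E3 → ℝ) (r : E3) : ℝ≥0∞ :=
  ENNReal.ofReal (W r * Real.exp (-(4 * a r)))

/-- potential triple density -/
noncomputable def GV (V : E3 × E3 → ℝ) (b : E3 × E3 → ℝ) (p : E3 × E3) : ℝ≥0∞ :=
  ENNReal.ofReal (V p * Real.exp (-(12 * b p)))

theorem measurable_Fk (h : AB a b) (k : Fin 3) : Measurable (Fk a k) := by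
  unfold Fk
  have h1 : Continuous (fun r : E3 => fderiv ℝ a r (ek k)) :=
    (h.a_smooth.continuous_fderiv (by simp)).clm_apply continuous_const
  have h2 := h.a_smooth.continuous
  exact ENNReal.measurable_ofReal.comp (by fun_prop : Continuous fun r =>
    4 * (fderiv ℝ a r (ek k)) ^ 2 * Real.exp (-(4 * a r))).measurable

theorem measurable_Gk (h : AB a b) (k : Fin 3) : Measurable (Gk b k) := by
  unfold Gk
  have h1 : Continuous (fun p : E3 × E3 => fderiv ℝ b p (ek k, ek k)) :=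
    (h.b_smooth.continuous_fderiv (by simp)).clm_apply continuous_const
  have h2 := h.b_smooth.continuous
  exact ENNReal.measurable_ofReal.comp (by fun_prop : Continuous fun p =>
    9 * (fderiv ℝ b p (ek k, ek k)) ^ 2 * Real.exp (-(12 * b p))).measurable

theorem measurable_FW (h : AB a b) {W : E3 → ℝ} (hW : Measurable W) : Measurable (FW W a) := by
  unfold FW
  have h2 := h.a_smooth.continuous.measurable
  exact ENNReal.measurable_ofReal.comp (by fun_prop)

theorem measurable_GV (h : AB a b) {V : E3 × E3 → ℝ} (hV : Measurable V) :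
    Measurable (GV V b) := by
  unfold GV
  have h2 := h.b_smooth.continuous.measurable
  exact ENNReal.measurable_ofReal.comp (by fun_prop)

/-- ratio constant -/
noncomputable def th (N : ℕ) (R M A0 : ℝ) : ℝ≥0∞ := ENNReal.ofReal (1 + 2 * (Cr R M A0 / N))

theorem one_le_th (H : Std a b ρ R M A0) : 1 ≤ th N R M A0 := by
  unfold th
  rw [← ENNReal.ofReal_one]
  refine ENNReal.ofReal_le_ofReal ?_
  have := Cr_nn H
  have : 0 ≤ Cr R M A0 / N := by positivity
  linarith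

theorem ZZ_th (H : Std a b ρ R M A0) (hN : 0 < N) (hc : Cr R M A0 / N ≤ 1 / 2)
    (S : Finset (Fin N)) (i : Fin N) : ZZ ρ a b (S.erase i) ≤ th N R M A0 * ZZ ρ a b S := by
  by_cases hi : i ∈ S
  · exact ZZ_step H hN hc hi
  · rw [erase_eq_of_notMem hi]
    calc ZZ ρ a b S = 1 * ZZ ρ a b S := (one_mul _).symm
      _ ≤ _ := by gcongr; exact one_le_th H

theorem ZZ_th2 (H : Std a b ρ R M A0) (hN : 0 < N) (hc : Cr R M A0 / N ≤ 1 / 2)
    (S : Finset (Fin N)) (i q : Fin N) :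
    ZZ ρ a b ((S.erase i).erase q) ≤ th N R M A0 ^ 2 * ZZ ρ a b S := by
  refine (ZZ_th H hN hc _ _).trans ?_
  rw [pow_two, mul_assoc]
  gcongr
  exact ZZ_th H hN hc _ _

theorem ZZ_th3 (H : Std a b ρ R M A0) (hN : 0 < N) (hc : Cr R M A0 / N ≤ 1 / 2)
    (S : Finset (Fin N)) (i q r : Fin N) :
    ZZ ρ a b (((S.erase i).erase q).erase r) ≤ th N R M A0 ^ 3 * ZZ ρ a b S := by
  refine (ZZ_th H hN hc _ _).trans ?_
  rw [pow_succ' _ 2, mul_assoc]
  gcongr
  exact ZZ_th2 H hN hc _ _ _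

theorem pair_main (H : Std a b ρ R M A0) (hN : 0 < N) (hc : Cr R M A0 / N ≤ 1 / 2)
    {i q : Fin N} (hiq : i ≠ q) {K : E3 → ℝ≥0∞} (hK : Measurable K)
    {Φ : (Fin N → E3) → ℝ≥0∞}
    (hΦ : ∀ x, Φ x ≤ K ((N : ℝ) • (x i - x q)) * wS a b ((univ.erase i).erase q) x) :
    EE ρ Φ ≤ sc N * ((∫⁻ r, K r) * ∫⁻ y, ρ y ^ 2)
      * (th N R M A0 ^ 2 * ZZ ρ a b (univ : Finset (Fin N))) := by
  have hiS : i ∉ (univ.erase i).erase q := fun e => notMem_erase i _ (mem_of_mem_erase e)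
  have hqS : q ∉ (univ.erase i).erase q := notMem_erase q _
  have hk : Measurable (fun p : E3 × E3 => K ((N : ℝ) • (p.1 - p.2))) := hK.comp (by fun_prop)
  calc EE ρ Φ ≤ EE ρ (fun x => K ((N : ℝ) • (x i - x q)) * wS a b ((univ.erase i).erase q) x) :=
        EE_mono ρ hΦ
    _ = (∫⁻ z, ρ z * ∫⁻ y, ρ y * K ((N : ℝ) • (z - y)))
          * EE ρ (wS a b ((univ.erase i).erase q)) :=
        GG_pair H.hρ H.h1 hiq (k := fun z y => K ((N : ℝ) • (z - y))) hk
          (measurable_wS H.ab _) (Ind_wS hiS) (Ind_wS hqS)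
    _ ≤ _ := by
        gcongr
        · exact pairint H.hρ (cN_pos hN) hK
        · exact ZZ_th2 H hN hc _ _ _

theorem triple_main (H : Std a b ρ R M A0) (hN : 0 < N) (hc : Cr R M A0 / N ≤ 1 / 2)
    {i q r : Fin N} (hiq : i ≠ q) (hir : i ≠ r) (hqr : q ≠ r) {K : E3 × E3 → ℝ≥0∞}
    (hK : Measurable K) {Φ : (Fin N → E3) → ℝ≥0∞}
    (hΦ : ∀ x, Φ x ≤ K (Real.sqrt N • (x i - x q), Real.sqrt N • (x i - x r))
      * wS a b (((univ.erase i).erase q).erase r) x) :
    EE ρ Φ ≤ sc (Real.sqrt N) * sc (Real.sqrt N) * ((∫⁻ p, K p) * ∫⁻ y, ρ y ^ 3)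
      * (th N R M A0 ^ 3 * ZZ ρ a b (univ : Finset (Fin N))) := by
  have hiS : i ∉ ((univ.erase i).erase q).erase r :=
    fun e => notMem_erase i _ (mem_of_mem_erase (mem_of_mem_erase e))
  have hqS : q ∉ ((univ.erase i).erase q).erase r :=
    fun e => notMem_erase q _ (mem_of_mem_erase e)
  have hrS : r ∉ ((univ.erase i).erase q).erase r := notMem_erase r _
  have hk : Measurable (fun p : E3 × E3 × E3 =>
      K (Real.sqrt N • (p.1 - p.2.1), Real.sqrt N • (p.1 - p.2.2))) := hK.comp (by fun_prop)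
  calc EE ρ Φ ≤ EE ρ (fun x => K (Real.sqrt N • (x i - x q), Real.sqrt N • (x i - x r))
        * wS a b (((univ.erase i).erase q).erase r) x) := EE_mono ρ hΦ
    _ = (∫⁻ z, ρ z * ∫⁻ y, ρ y * ∫⁻ t, ρ t * K (Real.sqrt N • (z - y), Real.sqrt N • (z - t)))
          * EE ρ (wS a b (((univ.erase i).erase q).erase r)) :=
        GG_triple H.hρ H.h1 hiq hir hqr
          (k := fun z y t => K (Real.sqrt N • (z - y), Real.sqrt N • (z - t))) hk
          (measurable_wS H.ab _) (Ind_wS hiS) (Ind_wS hqS) (Ind_wS hrS)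
    _ ≤ _ := by
        gcongr
        · exact tripleint H.hρ (sqN_pos hN) hK
        · exact ZZ_th3 H hN hc _ _ _ _

theorem exp_pair (h : AB a b) {i q : Fin N} (hiq : i ≠ q) (x : Fin N → E3) :
    Real.exp (-2 * AS a b univ x) ≤ Real.exp (-(4 * a ((N : ℝ) • (x i - x q))))
      * Real.exp (-2 * AS a b ((univ.erase i).erase q) x) := by
  rw [← Real.exp_add]
  refine Real.exp_le_exp.2 ?_
  have h1 := AS_pair h hiq x
  have h2 : pa a i q x = a ((N : ℝ) • (x i - x q)) := by unfold pa; rw [if_neg hiq]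
  rw [h2] at h1
  linarith

theorem exp_triple (h : AB a b) {i q r : Fin N} (hiq : i ≠ q) (hir : i ≠ r) (hqr : q ≠ r)
    (x : Fin N → E3) :
    Real.exp (-2 * AS a b univ x)
      ≤ Real.exp (-(12 * b (Real.sqrt N • (x i - x q), Real.sqrt N • (x i - x r))))
      * Real.exp (-2 * AS a b (((univ.erase i).erase q).erase r) x) := by
  rw [← Real.exp_add]
  refine Real.exp_le_exp.2 ?_
  have h1 := AS_triple h hiq hir hqr x
  have h2 : pb b i q r x = b (Real.sqrt N • (x i - x q), Real.sqrt N • (x i - x r)) := by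
    unfold pb; rw [if_neg]
    rintro (h | h | h)
    · exact hiq h
    · exact hir h
    · exact hqr h
  rw [h2] at h1
  linarith

theorem aal_pt (h : AB a b) {i q : Fin N} (hiq : i ≠ q) (k : Fin 3) (x : Fin N → E3) :
    aal a i q (ek k) x * (aal a i q (ek k) x * wS a b univ x)
      ≤ (ENNReal.ofReal ((N : ℝ) ^ 2) * Fk a k ((N : ℝ) • (x i - x q)))
        * wS a b ((univ.erase i).erase q) x := by
  have h1 := exp_pair h hiq x
  unfold aal al wS Fk
  rw [if_neg hiq, ← ENNReal.ofReal_mul (abs_nonneg _), ← ENNReal.ofReal_mul (abs_nonneg _),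
    ← ENNReal.ofReal_mul (by positivity), ← ENNReal.ofReal_mul (by positivity)]
  refine ENNReal.ofReal_le_ofReal ?_
  rw [← mul_assoc, abs_mul_abs_self]
  set D := fderiv ℝ a ((N : ℝ) • (x i - x q)) (ek k)
  calc 2 * ((N : ℝ) * D) * (2 * ((N : ℝ) * D)) * Real.exp (-2 * AS a b univ x)
      = (4 * (N : ℝ) ^ 2 * D ^ 2) * Real.exp (-2 * AS a b univ x) := by ring
    _ ≤ (4 * (N : ℝ) ^ 2 * D ^ 2) * (Real.exp (-(4 * a ((N : ℝ) • (x i - x q))))
      * Real.exp (-2 * AS a b ((univ.erase i).erase q) x)) := by gcongr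
    _ = _ := by ring

theorem bbe_pt (h : AB a b) {i q r : Fin N} (hiq : i ≠ q) (hir : i ≠ r) (hqr : q ≠ r)
    (k : Fin 3) (x : Fin N → E3) :
    bbe b i q r (ek k) x * (bbe b i q r (ek k) x * wS a b univ x)
      ≤ (ENNReal.ofReal (N : ℝ) * Gk b k (Real.sqrt N • (x i - x q), Real.sqrt N • (x i - x r)))
        * wS a b (((univ.erase i).erase q).erase r) x := by
  have h1 := exp_triple h hiq hir hqr x
  have hne : ¬ (i = q ∨ i = r ∨ q = r) := by
    rintro (h | h | h)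
    · exact hiq h
    · exact hir h
    · exact hqr h
  unfold bbe be wS Gk
  rw [if_neg hne, ← ENNReal.ofReal_mul (abs_nonneg _), ← ENNReal.ofReal_mul (abs_nonneg _),
    ← ENNReal.ofReal_mul (by positivity), ← ENNReal.ofReal_mul (by positivity)]
  refine ENNReal.ofReal_le_ofReal ?_
  rw [← mul_assoc, abs_mul_abs_self]
  set D := fderiv ℝ b (Real.sqrt N • (x i - x q), Real.sqrt N • (x i - x r)) (ek k, ek k)
  have hs : Real.sqrt N ^ 2 = N := Real.sq_sqrt (Nat.cast_nonneg N)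
  calc 3 * (Real.sqrt N * D) * (3 * (Real.sqrt N * D)) * Real.exp (-2 * AS a b univ x)
      = (9 * (Real.sqrt N ^ 2) * D ^ 2) * Real.exp (-2 * AS a b univ x) := by ring
    _ = (9 * (N : ℝ) * D ^ 2) * Real.exp (-2 * AS a b univ x) := by rw [hs]
    _ ≤ (9 * (N : ℝ) * D ^ 2) *
      (Real.exp (-(12 * b (Real.sqrt N • (x i - x q), Real.sqrt N • (x i - x r))))
      * Real.exp (-2 * AS a b (((univ.erase i).erase q).erase r) x)) := by gcongr
    _ = _ := by ring

theorem scN (hN : 0 < N) : ENNReal.ofReal ((N : ℝ) ^ 2) * sc N = ENNReal.ofReal (1 / N) := by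
  unfold sc
  have := cN_pos hN
  rw [← ENNReal.ofReal_mul (by positivity)]
  congr 1
  field_simp

theorem scsN (hN : 0 < N) : ENNReal.ofReal (N : ℝ) * (sc (Real.sqrt N) * sc (Real.sqrt N))
    = ENNReal.ofReal (1 / (N : ℝ) ^ 2) := by
  unfold sc
  have h0 := cN_pos hN
  have h1 := sqN_pos hN
  have hs : Real.sqrt N ^ 2 = N := Real.sq_sqrt (Nat.cast_nonneg N)
  rw [← ENNReal.ofReal_mul (by positivity), ← ENNReal.ofReal_mul (by positivity)]
  congr 1
  have : 1 / Real.sqrt N ^ 3 * (1 / Real.sqrt N ^ 3) = 1 / (N : ℝ) ^ 3 := by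
    rw [div_mul_div_comm, ← pow_add, one_mul]
    norm_num
    rw [← hs, ← pow_mul]
    norm_num
  rw [this]
  field_simp

theorem aal_main (H : Std a b ρ R M A0) (hN : 0 < N) (hc : Cr R M A0 / N ≤ 1 / 2)
    {i q : Fin N} (hiq : i ≠ q) (k : Fin 3) :
    EE ρ (fun x => aal a i q (ek k) x * (aal a i q (ek k) x * wS a b univ x))
      ≤ ENNReal.ofReal (1 / N) * ((∫⁻ r, Fk a k r) * ∫⁻ y, ρ y ^ 2)
      * (th N R M A0 ^ 2 * ZZ ρ a b (univ : Finset (Fin N))) := by
  have mF := measurable_Fk H.ab k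
  refine (pair_main H hN hc hiq (K := fun r => ENNReal.ofReal ((N : ℝ) ^ 2) * Fk a k r)
    (mF.const_mul _) (aal_pt H.ab hiq k)).trans (le_of_eq ?_)
  rw [lintegral_const_mul _ mF, ← scN hN]
  ring

theorem bbe_main (H : Std a b ρ R M A0) (hN : 0 < N) (hc : Cr R M A0 / N ≤ 1 / 2)
    {i q r : Fin N} (hiq : i ≠ q) (hir : i ≠ r) (k : Fin 3) :
    EE ρ (fun x => bbe b i q r (ek k) x * (bbe b i q r (ek k) x * wS a b univ x))
      ≤ ENNReal.ofReal (1 / (N : ℝ) ^ 2) * ((∫⁻ p, Gk b k p) * ∫⁻ y, ρ y ^ 3)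
      * (th N R M A0 ^ 3 * ZZ ρ a b (univ : Finset (Fin N))) := by
  by_cases hqr : q = r
  · subst hqr
    have : ∀ x : Fin N → E3, bbe b i q q (ek k) x * (bbe b i q q (ek k) x * wS a b univ x) = 0 :=
      fun x => by rw [bbe_self, zero_mul]
    simp [this, EE]
  have mG := measurable_Gk H.ab k
  refine (triple_main H hN hc hiq hir hqr (K := fun p => ENNReal.ofReal (N : ℝ) * Gk b k p)
    (mG.const_mul _) (bbe_pt H.ab hiq hir hqr k)).trans (le_of_eq ?_)
  rw [lintegral_const_mul _ mG, ← scsN hN]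
  ring

theorem W_main (H : Std a b ρ R M A0) (hN : 0 < N) (hc : Cr R M A0 / N ≤ 1 / 2)
    {W : E3 → ℝ} (hW : Measurable W) (hW0 : ∀ x, 0 ≤ W x) {i q : Fin N} (hiq : i ≠ q) :
    EE ρ (fun x => ENNReal.ofReal ((N : ℝ) ^ 2 * W ((N : ℝ) • (x i - x q))) * wS a b univ x)
      ≤ ENNReal.ofReal (1 / N) * ((∫⁻ r, FW W a r) * ∫⁻ y, ρ y ^ 2)
      * (th N R M A0 ^ 2 * ZZ ρ a b (univ : Finset (Fin N))) := by
  have mF := measurable_FW H.ab hW
  refine (pair_main H hN hc hiq (K := fun r => ENNReal.ofReal ((N : ℝ) ^ 2) * FW W a r)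
    (mF.const_mul _) (fun x => ?_)).trans (le_of_eq ?_)
  · have h1 := exp_pair H.ab hiq x
    have h2 := hW0 ((N : ℝ) • (x i - x q))
    unfold wS FW
    rw [← ENNReal.ofReal_mul (by positivity), ← ENNReal.ofReal_mul (by positivity),
      ← ENNReal.ofReal_mul (by positivity)]
    refine ENNReal.ofReal_le_ofReal ?_
    calc (N : ℝ) ^ 2 * W ((N : ℝ) • (x i - x q)) * Real.exp (-2 * AS a b univ x)
        ≤ (N : ℝ) ^ 2 * W ((N : ℝ) • (x i - x q))
          * (Real.exp (-(4 * a ((N : ℝ) • (x i - x q))))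
            * Real.exp (-2 * AS a b ((univ.erase i).erase q) x)) := by gcongr
      _ = _ := by ring
  · rw [lintegral_const_mul _ mF, ← scN hN]
    ring

theorem V_main (H : Std a b ρ R M A0) (hN : 0 < N) (hc : Cr R M A0 / N ≤ 1 / 2)
    {V : E3 × E3 → ℝ} (hV : Measurable V) (hV0 : ∀ x, 0 ≤ V x) {i q r : Fin N} (hiq : i ≠ q)
    (hir : i ≠ r) (hqr : q ≠ r) :
    EE ρ (fun x => ENNReal.ofReal ((N : ℝ) * V (Real.sqrt N • (x i - x q),
        Real.sqrt N • (x i - x r))) * wS a b univ x)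
      ≤ ENNReal.ofReal (1 / (N : ℝ) ^ 2) * ((∫⁻ p, GV V b p) * ∫⁻ y, ρ y ^ 3)
      * (th N R M A0 ^ 3 * ZZ ρ a b (univ : Finset (Fin N))) := by
  have mF := measurable_GV H.ab hV
  refine (triple_main H hN hc hiq hir hqr (K := fun p => ENNReal.ofReal (N : ℝ) * GV V b p)
    (mF.const_mul _) (fun x => ?_)).trans (le_of_eq ?_)
  · have h1 := exp_triple H.ab hiq hir hqr x
    have h2 := hV0 (Real.sqrt N • (x i - x q), Real.sqrt N • (x i - x r))
    unfold wS GV
    rw [← ENNReal.ofReal_mul (by positivity), ← ENNReal.ofReal_mul (by positivity),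
      ← ENNReal.ofReal_mul (by positivity)]
    refine ENNReal.ofReal_le_ofReal ?_
    calc (N : ℝ) * V (Real.sqrt N • (x i - x q), Real.sqrt N • (x i - x r))
          * Real.exp (-2 * AS a b univ x)
        ≤ (N : ℝ) * V (Real.sqrt N • (x i - x q), Real.sqrt N • (x i - x r))
          * (Real.exp (-(12 * b (Real.sqrt N • (x i - x q), Real.sqrt N • (x i - x r))))
            * Real.exp (-2 * AS a b (((univ.erase i).erase q).erase r) x)) := by gcongr
      _ = _ := by ring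
  · rw [lintegral_const_mul _ mF, ← scsN hN]
    ring

end Pool.Agent.Helper67.Bose
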