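import Mathlib
import Pool.Agent.Helper67.Bose.Avg
import Pool.Agent.Helper67.Bose.MainT

set_option autoImplicit false
open MeasureTheory
open scoped ENNReal NNReal Topology

namespace Pool.Agent.Helper67.Bose
open Pool.Agent.Helper23.Bose

variable {Vext W : E3 → ℝ} {V : E3 × E3 → ℝ}

/-! ### pair -/

/-- the two symmetries of the pair problem -/
noncomputable def m2 : Fin 2 → (E3 ≃L[ℝ] E3) :=
  ![ContinuousLinearEquiv.refl ℝ E3, ContinuousLinearEquiv.neg ℝ]

theorem m2_0 (x : E3) : m2 0 x = x := rfl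
theorem m2_1 (x : E3) : m2 1 x = -x := rfl

theorem favg_even (φ : E3 → ℂ) (x : E3) : favg m2 φ (-x) = favg m2 φ x := by
  unfold favg
  rw [Fin.sum_univ_two, Fin.sum_univ_two, m2_0, m2_1, m2_0, m2_1, neg_neg, add_comm]

theorem fderiv_div_const' {E : Type*} [NormedAddCommGroup E] [NormedSpace ℝ E] {h : E → ℝ}
    (hh : ContDiff ℝ cinf h) (c : ℝ) (x v : E) :
    fderiv ℝ (fun x => h x / c) x v = fderiv ℝ h x v / c := by
  have h1 : HasFDerivAt h (fderiv ℝ h x) x := (hh.differentiable (by simp) _).hasFDerivAt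
  have h2 : HasFDerivAt (fun x => h x / c) (c⁻¹ • fderiv ℝ h x) x := by
    simpa [div_eq_inv_mul] using h1.const_mul c⁻¹
  rw [h2.fderiv]
  simp [div_eq_inv_mul]

theorem supp_div_const {E : Type*} [NormedAddCommGroup E] {h : E → ℝ}
    (hh : HasCompactSupport h) (c : ℝ) : HasCompactSupport (fun x => h x / c) :=
  hh.comp_left (g := fun t : ℝ => t / c) (by simp)

theorem nearW (Hy : Hyp Vext W V) {ε : ℝ} (hε : 0 < ε) :
    ∃ a : E3 → ℝ, ContDiff ℝ cinf a ∧ HasCompactSupport a ∧ (∀ r, 0 ≤ a r) ∧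
      (∀ r, a (-r) = a r) ∧
      ∫⁻ r, (2 * ∑ k, Fk a k r + FW W a r) ≤ ENNReal.ofReal (bW W + ε) := by
  obtain ⟨M, hM⟩ := Hy.wbd
  have hmp : ∀ j, MeasurePreserving (m2 j) (volume : Measure E3) volume := by
    intro j
    fin_cases j
    · exact MeasurePreserving.id _
    · exact Measure.measurePreserving_neg _
  have hV : ∀ j x, W (m2 j x) = W x := by
    intro j x
    fin_cases j
    · rfl
    · exact Hy.weven x
  have hQ : ∀ j, ∀ L : E3 →L[ℝ] ℂ, ∑ k ∈ Finset.univ, ‖L (m2 j (ek k))‖ ^ 2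
      = ∑ k ∈ Finset.univ, ‖L (ek k)‖ ^ 2 := by
    intro j L
    refine Finset.sum_congr rfl fun k _ => ?_
    fin_cases j
    · rfl
    · show ‖L (-(ek k))‖ ^ 2 = _
      rw [map_neg, norm_neg]
  obtain ⟨φ, hφ, δ, η, h, hδ, hη, h1, h2, h3, h4, h5, h6, h7⟩ :=
    near (volume : Measure E3) (n := 2) (by norm_num) m2 hmp Finset.univ ek (c := 2) (by norm_num)
      Hy.wm Hy.wnn hM Hy.wsupp hV hQ hε (cap := bW W) rfl
  have hfs := favg_smooth m2 hφ
  have hfe := favg_even φ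
  set f := favg m2 φ with hf
  refine ⟨fun r => h r / 2, h1.div_const 2, supp_div_const h2 2,
    fun r => div_nonneg (h3 r) (by norm_num), fun r => ?_, ?_⟩
  · show h (-r) / 2 = h r / 2
    rw [h6 _ _ (hfe r)]
  have hWm : Measurable (fun x : E3 => ENNReal.ofReal (W x)) :=
    ENNReal.measurable_ofReal.comp Hy.wm
  have hpt : ∀ r, 2 * ∑ k, Fk (fun r => h r / 2) k r + FW W (fun r => h r / 2) r
      ≤ ENNReal.ofReal ((1 + δ) ^ 2) * ENNReal.ofReal (2 * ∑ k, (fderiv ℝ f r (ek k)) ^ 2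
        + W r * f r ^ 2) + ENNReal.ofReal (3 * η) * ENNReal.ofReal (W r) := by
    intro r
    have e1 : ∀ k, Fk (fun r => h r / 2) k r
        ≤ ENNReal.ofReal ((1 + δ) ^ 2 * (fderiv ℝ f r (ek k)) ^ 2) := by
      intro k
      unfold Fk
      refine ENNReal.ofReal_le_ofReal ?_
      rw [fderiv_div_const' h1]
      calc 4 * (fderiv ℝ h r (ek k) / 2) ^ 2 * Real.exp (-(4 * (h r / 2)))
          = (fderiv ℝ h r (ek k)) ^ 2 * Real.exp (-(2 * h r)) := by
            rw [show 4 * (h r / 2) = 2 * h r by ring]; ring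
        _ ≤ _ := h4 r (ek k)
    have e2 : FW W (fun r => h r / 2) r
        ≤ ENNReal.ofReal (W r * ((1 + δ) ^ 2 * f r ^ 2 + 3 * η)) := by
      unfold FW
      refine ENNReal.ofReal_le_ofReal ?_
      rw [show 4 * (h r / 2) = 2 * h r by ring]
      exact mul_le_mul_of_nonneg_left (h5 r) (Hy.wnn r)
    have hWr := Hy.wnn r
    have h2' : ∀ X : ℝ, 2 * ENNReal.ofReal X = ENNReal.ofReal (2 * X) := fun X => by
      rw [ENNReal.ofReal_mul (by norm_num)]; simp
    calc 2 * ∑ k, Fk (fun r => h r / 2) k r + FW W (fun r => h r / 2) r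
        ≤ 2 * ∑ k, ENNReal.ofReal ((1 + δ) ^ 2 * (fderiv ℝ f r (ek k)) ^ 2)
          + ENNReal.ofReal (W r * ((1 + δ) ^ 2 * f r ^ 2 + 3 * η)) := by
          gcongr with k
          · exact e1 k
      _ = ENNReal.ofReal (2 * ∑ k, ((1 + δ) ^ 2 * (fderiv ℝ f r (ek k)) ^ 2)
          + W r * ((1 + δ) ^ 2 * f r ^ 2 + 3 * η)) := by
          rw [← ENNReal.ofReal_sum_of_nonneg (fun k _ => by positivity), h2',
            ← ENNReal.ofReal_add (by positivity) (by positivity)]
      _ = ENNReal.ofReal ((1 + δ) ^ 2 * (2 * ∑ k, (fderiv ℝ f r (ek k)) ^ 2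
          + W r * f r ^ 2) + 3 * η * W r) := by
          congr 1
          rw [← Finset.mul_sum]; ring
      _ = _ := by
          rw [ENNReal.ofReal_add (by positivity) (by positivity),
            ENNReal.ofReal_mul (by positivity), ENNReal.ofReal_mul (by positivity)]
  refine (lintegral_mono hpt).trans ?_
  have mf : Measurable (fun r : E3 => ENNReal.ofReal (2 * ∑ k, (fderiv ℝ f r (ek k)) ^ 2
        + W r * f r ^ 2)) := by
    refine ENNReal.measurable_ofReal.comp ?_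
    have c1 : ∀ k, Continuous (fun r : E3 => fderiv ℝ f r (ek k)) := fun k =>
      (hfs.continuous_fderiv (by simp)).clm_apply continuous_const
    have c2 : Measurable (fun r : E3 => 2 * ∑ k, (fderiv ℝ f r (ek k)) ^ 2) :=
      (Finset.measurable_fun_sum _ fun k _ => (c1 k).measurable.pow_const 2).const_mul _
    exact c2.add (Hy.wm.mul (hfs.continuous.measurable.pow_const 2))
  rw [lintegral_add_left (mf.const_mul _), lintegral_const_mul _ mf, lintegral_const_mul _ hWm]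
  exact h7

/-! ### triple -/

/-- exchange -/
noncomputable def sg : (E3 × E3) ≃L[ℝ] (E3 × E3) := ContinuousLinearEquiv.prodComm ℝ E3 E3

theorem sg_apply (p : E3 × E3) : sg p = (p.2, p.1) := rfl

/-- the map `(r₁, r₂) ↦ (-r₁, r₂ - r₁)` -/
noncomputable def taL : (E3 × E3) →L[ℝ] (E3 × E3) :=
  (-(ContinuousLinearMap.fst ℝ E3 E3)).prod
    (ContinuousLinearMap.snd ℝ E3 E3 - ContinuousLinearMap.fst ℝ E3 E3)

theorem taL_apply (p : E3 × E3) : taL p = (-p.1, p.2 - p.1) := rfl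

theorem taL_inv (p : E3 × E3) : taL (taL p) = p := by
  rw [taL_apply, taL_apply]
  refine Prod.ext ?_ ?_
  · simp
  · simp

/-- the map `(r₁, r₂) ↦ (-r₁, r₂ - r₁)` -/
noncomputable def ta : (E3 × E3) ≃L[ℝ] (E3 × E3) :=
  ContinuousLinearEquiv.equivOfInverse taL taL taL_inv taL_inv

theorem ta_apply (p : E3 × E3) : ta p = (-p.1, p.2 - p.1) := rfl

/-- the nine vectors of `form3` -/
noncomputable def w9 : Fin 3 × Fin 3 → E3 × E3 := fun a =>
  ![(ek a.1, 0), (0, ek a.1), (ek a.1, ek a.1)] a.2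

theorem sum_w9 {F : E3 × E3 → ℝ} : ∑ a ∈ (Finset.univ : Finset (Fin 3 × Fin 3)), F (w9 a)
    = ∑ k : Fin 3, (F (ek k, 0) + F (0, ek k) + F (ek k, ek k)) := by
  rw [Fintype.sum_prod_type]
  refine Finset.sum_congr rfl fun k _ => ?_
  rw [Fin.sum_univ_three]
  rfl

/-- good symmetries -/
structure Good (V : E3 × E3 → ℝ) (m : (E3 × E3) ≃L[ℝ] (E3 × E3)) : Prop where
  mp : MeasurePreserving m (volume : Measure (E3 × E3)) volume
  hV : ∀ p, V (m p) = V p
  hQ : ∀ L : (E3 × E3) →L[ℝ] ℂ, ∑ a ∈ (Finset.univ : Finset (Fin 3 × Fin 3)), ‖L (m (w9 a))‖ ^ 2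
      = ∑ a ∈ (Finset.univ : Finset (Fin 3 × Fin 3)), ‖L (w9 a)‖ ^ 2

theorem Good.trans {m m' : (E3 × E3) ≃L[ℝ] (E3 × E3)} (h : Good V m) (h' : Good V m') :
    Good V (m.trans m') := by
  refine ⟨h'.mp.comp h.mp, fun p => ?_, fun L => ?_⟩
  · show V (m' (m p)) = V p
    rw [h'.hV, h.hV]
  · have := h.hQ (L.comp (m' : (E3 × E3) →L[ℝ] (E3 × E3)))
    exact this.trans (h'.hQ L)

theorem good_refl : Good V (ContinuousLinearEquiv.refl ℝ (E3 × E3)) :=
  ⟨MeasurePreserving.id _, fun _ => rfl, fun _ => rfl⟩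

theorem good_sg (Hy : Hyp Vext W V) : Good V sg := by
  refine ⟨Measure.measurePreserving_swap, fun p => ?_, fun L => ?_⟩
  · rw [sg_apply]; exact Hy.Vsymm p.2 p.1
  · rw [sum_w9 (F := fun v => ‖L (sg v)‖ ^ 2), sum_w9 (F := fun v => ‖L v‖ ^ 2)]
    refine Finset.sum_congr rfl fun k _ => ?_
    simp only [sg_apply]
    ring

theorem good_ta (Hy : Hyp Vext W V) : Good V ta := by
  refine ⟨?_, fun p => ?_, fun L => ?_⟩
  · have h1 : MeasurePreserving (fun z : E3 × E3 => (z.1, -z.1 + z.2)) volume volume :=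
      measurePreserving_prod_neg_add volume volume
    have h2 : MeasurePreserving (Prod.map (fun x : E3 => -x) (fun y : E3 => y)) volume volume :=
      (Measure.measurePreserving_neg (volume : Measure E3)).prod (MeasurePreserving.id _)
    have h3 := h2.comp h1
    have h4 : (ta : E3 × E3 → E3 × E3) = (Prod.map (fun x : E3 => -x) (fun y : E3 => y)) ∘
        (fun z : E3 × E3 => (z.1, -z.1 + z.2)) := by
      funext p
      rw [ta_apply]
      simp [sub_eq_neg_add]
    rw [h4]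
    exact h3
  · rw [ta_apply]
    have := (Hy.Vperm 0 (-p.1) (-p.2)).1
    simp only [sub_neg_eq_add, zero_add, sub_zero] at this
    rw [show p.2 - p.1 = -p.1 + p.2 by abel]
    exact this.symm
  · rw [sum_w9 (F := fun v => ‖L (ta v)‖ ^ 2), sum_w9 (F := fun v => ‖L v‖ ^ 2)]
    refine Finset.sum_congr rfl fun k _ => ?_
    have e1 : ta (ek k, 0) = -(ek k, ek k) := by
      rw [ta_apply]; simp
    have e2 : ta (0, ek k) = (0, ek k) := by
      rw [ta_apply]; simp
    have e3 : ta (ek k, ek k) = -(ek k, 0) := by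
      rw [ta_apply]; simp
    rw [e1, e2, e3, map_neg, map_neg, norm_neg, norm_neg]
    ring

/-- the six symmetries of the triple problem -/
noncomputable def m6 : Fin 6 → ((E3 × E3) ≃L[ℝ] (E3 × E3)) :=
  ![ContinuousLinearEquiv.refl ℝ (E3 × E3), sg, ta, sg.trans ta, ta.trans sg,
    (sg.trans ta).trans sg]

theorem good_m6 (Hy : Hyp Vext W V) (j : Fin 6) : Good V (m6 j) := by
  have h1 := good_sg Hy
  have h2 := good_ta Hy
  fin_cases j
  · exact good_refl
  · exact h1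
  · exact h2
  · exact h1.trans h2
  · exact h2.trans h1
  · exact (h1.trans h2).trans h1

theorem sum_m6 (F : E3 × E3 → ℂ) (p : E3 × E3) : ∑ j, F (m6 j p)
    = F p + F (sg p) + F (ta p) + F (ta (sg p)) + F (sg (ta p)) + F (sg (ta (sg p))) := by
  rw [Fin.sum_univ_six]
  rfl

theorem sg_sg (p : E3 × E3) : sg (sg p) = p := rfl
theorem ta_ta (p : E3 × E3) : ta (ta p) = p := taL_inv p
theorem braid (p : E3 × E3) : ta (sg (ta p)) = sg (ta (sg p)) := by
  simp only [ta_apply, sg_apply]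
  refine Prod.ext ?_ ?_
  · simp
  · simp only
    abel

theorem favg_sg (φ : E3 × E3 → ℂ) (p : E3 × E3) : favg m6 φ (sg p) = favg m6 φ p := by
  unfold favg
  rw [sum_m6 (fun p => 1 - φ p) (sg p), sum_m6 (fun p => 1 - φ p) p]
  congr 2
  rw [sg_sg]
  ring

theorem favg_ta (φ : E3 × E3 → ℂ) (p : E3 × E3) : favg m6 φ (ta p) = favg m6 φ p := by
  unfold favg
  rw [sum_m6 (fun p => 1 - φ p) (ta p), sum_m6 (fun p => 1 - φ p) p]
  congr 2
  rw [ta_ta, braid p, sg_sg]
  ring

/-- symmetry of the gradients under a symmetry of the function -/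
theorem grad_symm {f : E3 × E3 → ℝ} (hf : ContDiff ℝ cinf f) {m : (E3 × E3) ≃L[ℝ] (E3 × E3)}
    (hm : MeasurePreserving m (volume : Measure (E3 × E3)) volume) (h : ∀ p, f (m p) = f p)
    (v : E3 × E3) : ∫⁻ p, ENNReal.ofReal ((fderiv ℝ f p v) ^ 2)
      = ∫⁻ p, ENNReal.ofReal ((fderiv ℝ f p (m v)) ^ 2) := by
  have h1 : ∀ p, fderiv ℝ f p v = fderiv ℝ f (m p) (m v) := by
    intro p
    have h2 : HasFDerivAt f (fderiv ℝ f (m p)) (m p) :=
      (hf.differentiable (by simp) _).hasFDerivAt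
    have h3 := h2.comp p (m : (E3 × E3) →L[ℝ] (E3 × E3)).hasFDerivAt
    have h4 : f ∘ (⇑m) = f := by
      funext p; exact h p
    rw [h4] at h3
    rw [h3.fderiv]
    rfl
  simp_rw [h1]
  have c1 : Continuous (fun p : E3 × E3 => fderiv ℝ f p (m v)) :=
    (hf.continuous_fderiv (by simp)).clm_apply continuous_const
  have c2 : Measurable (fun p : E3 × E3 => ENNReal.ofReal ((fderiv ℝ f p (m v)) ^ 2)) :=
    ENNReal.measurable_ofReal.comp (c1.pow 2).measurable
  exact hm.lintegral_comp c2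

theorem nearM (Hy : Hyp Vext W V) {ε : ℝ} (hε : 0 < ε) :
    ∃ b : E3 × E3 → ℝ, ContDiff ℝ cinf b ∧ HasCompactSupport b ∧ (∀ p, 0 ≤ b p) ∧
      (∀ p : E3 × E3, b (p.2, p.1) = b p) ∧ (∀ p : E3 × E3, b (-p.1, p.2 - p.1) = b p) ∧
      ∫⁻ p, (12 * ∑ k, Gk b k p + GV V b p) ≤ ENNReal.ofReal (bM V + ε) := by
  obtain ⟨M, hM⟩ := Hy.Vbd
  have hcap : bM V = sInf {B : ℝ | ∃ φ : E3 × E3 → ℂ,
      ContDiff ℝ cinf φ ∧ HasCompactSupport φ ∧
        B = ∫ x, dens (Finset.univ : Finset (Fin 3 × Fin 3)) w9 1 V φ x} := by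
    unfold bM
    have : ∀ φ : E3 × E3 → ℂ, (fun p => form3 φ p + V p * ‖1 - φ p‖ ^ 2)
        = dens (Finset.univ : Finset (Fin 3 × Fin 3)) w9 1 V φ := by
      intro φ
      funext p
      unfold dens form3
      rw [sum_w9 (F := fun v => ‖fderiv ℝ φ p v‖ ^ 2), one_mul]
    simp_rw [this]
  obtain ⟨φ, hφ, δ, η, h, hδ, hη, h1, h2, h3, h4, h5, h6, h7⟩ :=
    near (volume : Measure (E3 × E3)) (n := 6) (by norm_num) m6 (fun j => (good_m6 Hy j).mp)
      (Finset.univ : Finset (Fin 3 × Fin 3)) w9 (c := 1) (by norm_num)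
      Hy.Vm Hy.Vnn hM Hy.Vsupp (fun j => (good_m6 Hy j).hV) (fun j => (good_m6 Hy j).hQ) hε
      (cap := bM V) hcap
  have hfs := favg_smooth m6 hφ
  have hf1 := favg_sg φ
  have hf2 := favg_ta φ
  set f := favg m6 φ with hf
  refine ⟨fun r => h r / 6, h1.div_const 6, supp_div_const h2 6,
    fun r => div_nonneg (h3 r) (by norm_num), fun p => ?_, fun p => ?_, ?_⟩
  · show h (p.2, p.1) / 6 = h p / 6
    have := h6 _ _ (hf1 p)
    rw [sg_apply] at this
    rw [this]
  · show h (-p.1, p.2 - p.1) / 6 = h p / 6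
    have := h6 _ _ (hf2 p)
    rw [ta_apply] at this
    rw [this]
  have hVm : Measurable (fun x : E3 × E3 => ENNReal.ofReal (V x)) :=
    ENNReal.measurable_ofReal.comp Hy.Vm
  have c1 : ∀ v, Measurable (fun p : E3 × E3 => ENNReal.ofReal ((fderiv ℝ f p v) ^ 2)) := by
    intro v
    have c1 : Continuous (fun p : E3 × E3 => fderiv ℝ f p v) :=
      (hfs.continuous_fderiv (by simp)).clm_apply continuous_const
    exact ENNReal.measurable_ofReal.comp (c1.pow 2).measurable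
  have c3 : Measurable (fun p : E3 × E3 => ENNReal.ofReal (V p * f p ^ 2)) :=
    ENNReal.measurable_ofReal.comp (Hy.Vm.mul (hfs.continuous.measurable.pow_const 2))
  have hpt : ∀ p, 12 * ∑ k, Gk (fun r => h r / 6) k p + GV V (fun r => h r / 6) p
      ≤ ENNReal.ofReal ((1 + δ) ^ 2) * (3 * ∑ k, ENNReal.ofReal ((fderiv ℝ f p (ek k, ek k)) ^ 2)
        + ENNReal.ofReal (V p * f p ^ 2)) + ENNReal.ofReal (3 * η) * ENNReal.ofReal (V p) := by
    intro p
    have e1 : ∀ k, 12 * Gk (fun r => h r / 6) k p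
        ≤ ENNReal.ofReal ((1 + δ) ^ 2)
          * (3 * ENNReal.ofReal ((fderiv ℝ f p (ek k, ek k)) ^ 2)) := by
      intro k
      have h12 : (12 : ℝ≥0∞) = ENNReal.ofReal 12 := by simp
      have h3' : (3 : ℝ≥0∞) = ENNReal.ofReal 3 := by simp
      unfold Gk
      rw [h12, h3', ← ENNReal.ofReal_mul (by norm_num), ← ENNReal.ofReal_mul (by norm_num),
        ← ENNReal.ofReal_mul (by positivity)]
      refine ENNReal.ofReal_le_ofReal ?_
      rw [fderiv_div_const' h1]
      calc 12 * (9 * (fderiv ℝ h p (ek k, ek k) / 6) ^ 2 * Real.exp (-(12 * (h p / 6))))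
          = 3 * ((fderiv ℝ h p (ek k, ek k)) ^ 2 * Real.exp (-(2 * h p))) := by
            rw [show 12 * (h p / 6) = 2 * h p by ring]; ring
        _ ≤ 3 * ((1 + δ) ^ 2 * (fderiv ℝ f p (ek k, ek k)) ^ 2) := by
            have := h4 p (ek k, ek k)
            linarith
        _ = _ := by ring
    have e2 : GV V (fun r => h r / 6) p
        ≤ ENNReal.ofReal ((1 + δ) ^ 2) * ENNReal.ofReal (V p * f p ^ 2)
          + ENNReal.ofReal (3 * η) * ENNReal.ofReal (V p) := by
      have hVp := Hy.Vnn p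
      unfold GV
      rw [← ENNReal.ofReal_mul (by positivity), ← ENNReal.ofReal_mul (by positivity),
        ← ENNReal.ofReal_add (by positivity) (by positivity)]
      refine ENNReal.ofReal_le_ofReal ?_
      rw [show 12 * (h p / 6) = 2 * h p by ring]
      calc V p * Real.exp (-(2 * h p)) ≤ V p * ((1 + δ) ^ 2 * f p ^ 2 + 3 * η) :=
            mul_le_mul_of_nonneg_left (h5 p) hVp
        _ = _ := by ring
    calc 12 * ∑ k, Gk (fun r => h r / 6) k p + GV V (fun r => h r / 6) p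
        ≤ ∑ k, ENNReal.ofReal ((1 + δ) ^ 2)
          * (3 * ENNReal.ofReal ((fderiv ℝ f p (ek k, ek k)) ^ 2))
          + (ENNReal.ofReal ((1 + δ) ^ 2) * ENNReal.ofReal (V p * f p ^ 2)
          + ENNReal.ofReal (3 * η) * ENNReal.ofReal (V p)) := by
          rw [Finset.mul_sum]
          exact add_le_add (Finset.sum_le_sum fun k _ => e1 k) e2
      _ = _ := by
          rw [← Finset.mul_sum, ← Finset.mul_sum]
          ring
  refine (lintegral_mono hpt).trans ?_
  have c4 : Measurable (fun p : E3 × E3 =>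
      3 * ∑ k, ENNReal.ofReal ((fderiv ℝ f p (ek k, ek k)) ^ 2)) :=
    (Finset.measurable_fun_sum _ fun k _ => c1 _).const_mul _
  have c5 : Measurable (fun p : E3 × E3 =>
      3 * ∑ k, ENNReal.ofReal ((fderiv ℝ f p (ek k, ek k)) ^ 2)
        + ENNReal.ofReal (V p * f p ^ 2)) := c4.add c3
  rw [lintegral_add_left (c5.const_mul _), lintegral_const_mul _ c5,
    lintegral_add_left c4, lintegral_const_mul _ (Finset.measurable_fun_sum _ fun k _ => c1 _),
    lintegral_finsetSum _ (fun k _ => c1 _), lintegral_const_mul _ hVm]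
  refine le_trans (le_of_eq ?_) h7
  congr 2
  have s1 : ∀ k, ∫⁻ p, ENNReal.ofReal ((fderiv ℝ f p (ek k, 0)) ^ 2)
      = ∫⁻ p, ENNReal.ofReal ((fderiv ℝ f p (ek k, ek k)) ^ 2) := by
    intro k
    rw [grad_symm hfs (good_ta Hy).mp hf2]
    have e1 : ta (ek k, 0) = -(ek k, ek k) := by
      rw [ta_apply]; simp
    rw [e1]
    simp only [map_neg, neg_sq]
  have s2 : ∀ k, ∫⁻ p, ENNReal.ofReal ((fderiv ℝ f p (0, ek k)) ^ 2)
      = ∫⁻ p, ENNReal.ofReal ((fderiv ℝ f p (ek k, ek k)) ^ 2) := by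
    intro k
    rw [← s1, grad_symm hfs (good_sg Hy).mp hf1]
    rfl
  have e5 : ∀ p : E3 × E3, ENNReal.ofReal (1 * ∑ a ∈ (Finset.univ : Finset (Fin 3 × Fin 3)),
      (fderiv ℝ f p (w9 a)) ^ 2 + V p * f p ^ 2)
      = (∑ k, (ENNReal.ofReal ((fderiv ℝ f p (ek k, 0)) ^ 2)
        + ENNReal.ofReal ((fderiv ℝ f p (0, ek k)) ^ 2)
        + ENNReal.ofReal ((fderiv ℝ f p (ek k, ek k)) ^ 2)))
        + ENNReal.ofReal (V p * f p ^ 2) := by
    intro p
    have hVp := Hy.Vnn p
    rw [one_mul, sum_w9 (F := fun v => (fderiv ℝ f p v) ^ 2),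
      ENNReal.ofReal_add (Finset.sum_nonneg fun k _ => by positivity) (by positivity),
      ENNReal.ofReal_sum_of_nonneg (fun k _ => by positivity)]
    congr 1
    refine Finset.sum_congr rfl fun k _ => ?_
    rw [ENNReal.ofReal_add (by positivity) (by positivity),
      ENNReal.ofReal_add (by positivity) (by positivity)]
  simp_rw [e5]
  have c6 : ∀ k ∈ (Finset.univ : Finset (Fin 3)), Measurable (fun p : E3 × E3 =>
      (ENNReal.ofReal ((fderiv ℝ f p (ek k, 0)) ^ 2)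
        + ENNReal.ofReal ((fderiv ℝ f p (0, ek k)) ^ 2)
        + ENNReal.ofReal ((fderiv ℝ f p (ek k, ek k)) ^ 2))) := fun k _ =>
    ((c1 _).add (c1 _)).add (c1 _)
  rw [lintegral_add_left (Finset.measurable_fun_sum _ c6), lintegral_finsetSum _ c6]
  congr 1
  rw [Finset.mul_sum]
  refine Finset.sum_congr rfl fun k _ => ?_
  have c7 : Measurable (fun p : E3 × E3 =>
      (ENNReal.ofReal ((fderiv ℝ f p (ek k, 0)) ^ 2)
        + ENNReal.ofReal ((fderiv ℝ f p (0, ek k)) ^ 2))) := (c1 _).add (c1 _)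
  rw [lintegral_add_left c7, lintegral_add_left (c1 _), s1, s2]
  ring

end Pool.Agent.Helper67.Bose
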