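import Mathlib
import Pool.Agent.Helper67.Bose.MainT

set_option autoImplicit false
open MeasureTheory Finset
open scoped ENNReal NNReal

namespace Pool.Agent.Helper67.Bose
open Pool.Agent.Helper23.Bose

variable {N : ℕ} {a : E3 → ℝ} {b : E3 × E3 → ℝ} {u : E3 → ℂ} {R M A0 : ℝ}

/-- one-body density -/
noncomputable def rho (u : E3 → ℂ) (y : E3) : ℝ≥0∞ := ENNReal.ofReal (‖u y‖ ^ 2)
/-- one-body kinetic density -/
noncomputable def gk (u : E3 → ℂ) (k : Fin 3) (y : E3) : ℝ≥0∞ :=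
  ENNReal.ofReal (‖fderiv ℝ u y (ek k)‖ ^ 2)
/-- mixed density -/
noncomputable def tk (u : E3 → ℂ) (k : Fin 3) (y : E3) : ℝ≥0∞ :=
  ENNReal.ofReal (‖u y‖ * ‖fderiv ℝ u y (ek k)‖)

theorem measurable_rho (hu : ContDiff ℝ cinf u) : Measurable (rho u) := by
  unfold rho
  have := hu.continuous
  exact ENNReal.measurable_ofReal.comp (by fun_prop : Continuous fun y => ‖u y‖ ^ 2).measurable

theorem measurable_gk (hu : ContDiff ℝ cinf u) (k : Fin 3) : Measurable (gk u k) := by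
  unfold gk
  have h1 : Continuous (fun r : E3 => fderiv ℝ u r (ek k)) :=
    (hu.continuous_fderiv (by simp)).clm_apply continuous_const
  exact ENNReal.measurable_ofReal.comp
    (by fun_prop : Continuous fun y => ‖fderiv ℝ u y (ek k)‖ ^ 2).measurable

theorem measurable_tk (hu : ContDiff ℝ cinf u) (k : Fin 3) : Measurable (tk u k) := by
  unfold tk
  have h0 := hu.continuous
  have h1 : Continuous (fun r : E3 => fderiv ℝ u r (ek k)) :=
    (hu.continuous_fderiv (by simp)).clm_apply continuous_const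
  exact ENNReal.measurable_ofReal.comp
    (by fun_prop : Continuous fun y => ‖u y‖ * ‖fderiv ℝ u y (ek k)‖).measurable

theorem prod_rho (s : Finset (Fin N)) (x : Fin N → E3) :
    ∏ j ∈ s, rho u (x j) = ENNReal.ofReal ((∏ j ∈ s, ‖u (x j)‖) ^ 2) := by
  unfold rho
  rw [← ENNReal.ofReal_prod_of_nonneg (fun j _ => by positivity), Finset.prod_pow]

theorem exp_sq (t : ℝ) : Real.exp (-t) ^ 2 = Real.exp (-2 * t) := by
  rw [← Real.exp_nat_mul]; congr 1; push_cast; ring

theorem norm_Psi (x : Fin N → E3) :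
    ENNReal.ofReal (‖Psi u a b x‖ ^ 2) = (∏ j, rho u (x j)) * wS a b univ x := by
  rw [prod_rho]
  unfold Psi wS
  rw [← ENNReal.ofReal_mul (by positivity)]
  congr 1
  rw [norm_mul, mul_pow, norm_prod, Complex.norm_real, Real.norm_of_nonneg (Real.exp_pos _).le,
    exp_sq]

theorem conv3 {g P e t d r d' : ℝ} (hg : 0 ≤ g) (hP : 0 ≤ P) (he : 0 ≤ e) (ht : 0 ≤ t)
    (hd : 0 ≤ d) (hr : 0 ≤ r) (hd' : 0 ≤ d') :
    ENNReal.ofReal g * ENNReal.ofReal P * ENNReal.ofReal e
      + (2 * (ENNReal.ofReal t * ENNReal.ofReal P * (ENNReal.ofReal d * ENNReal.ofReal e))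
      + ENNReal.ofReal r * ENNReal.ofReal P * (ENNReal.ofReal d' * ENNReal.ofReal e))
    = ENNReal.ofReal (g * P * e + (2 * (t * P * (d * e)) + r * P * (d' * e))) := by
  lift g to ℝ≥0 using hg
  lift P to ℝ≥0 using hP
  lift e to ℝ≥0 using he
  lift t to ℝ≥0 using ht
  lift d to ℝ≥0 using hd
  lift r to ℝ≥0 using hr
  lift d' to ℝ≥0 using hd'
  simp only [ENNReal.ofReal_coe_nnreal]
  norm_cast
  rw [ENNReal.ofReal_coe_nnreal]

theorem kin_pt (h : AB a b) (hu : ContDiff ℝ cinf u) (i : Fin N) (k : Fin 3)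
    (x : Fin N → E3) :
    ENNReal.ofReal (‖fderiv ℝ (Psi (N := N) u a b) x (Pi.single i (ek k))‖ ^ 2)
      ≤ gk u k (x i) * (∏ j ∈ univ.erase i, rho u (x j)) * wS a b univ x
        + (2 * (tk u k (x i) * (∏ j ∈ univ.erase i, rho u (x j))
          * (ENNReal.ofReal |db a b i (ek k) x| * wS a b univ x))
        + rho u (x i) * (∏ j ∈ univ.erase i, rho u (x j))
          * (ENNReal.ofReal (db a b i (ek k) x ^ 2) * wS a b univ x)) := by
  rw [prod_rho, fderiv_Psi h hu]
  unfold gk tk rho wS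
  set P := ∏ j ∈ univ.erase i, ‖u (x j)‖ with hP
  have hP0 : 0 ≤ P := Finset.prod_nonneg fun j _ => norm_nonneg _
  set d := db a b i (ek k) x with hd
  rw [conv3 (by positivity) (by positivity) (by positivity) (by positivity) (by positivity)
    (by positivity) (by positivity)]
  refine ENNReal.ofReal_le_ofReal ?_
  rw [norm_mul, norm_mul, norm_prod, Complex.norm_real, Real.norm_of_nonneg (Real.exp_pos _).le,
    mul_pow, mul_pow, exp_sq, ← hP]
  have h3 : ‖fderiv ℝ u (x i) (ek k) - u (x i) * ((d : ℝ) : ℂ)‖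
      ≤ ‖fderiv ℝ u (x i) (ek k)‖ + ‖u (x i)‖ * |d| := by
    refine (norm_sub_le _ _).trans ?_
    rw [norm_mul, Complex.norm_real, Real.norm_eq_abs]
  calc P ^ 2 * Real.exp (-2 * AS a b univ x)
        * ‖fderiv ℝ u (x i) (ek k) - u (x i) * ((d : ℝ) : ℂ)‖ ^ 2
      ≤ P ^ 2 * Real.exp (-2 * AS a b univ x)
        * (‖fderiv ℝ u (x i) (ek k)‖ + ‖u (x i)‖ * |d|) ^ 2 := by gcongr
    _ = P ^ 2 * Real.exp (-2 * AS a b univ x)
        * (‖fderiv ℝ u (x i) (ek k)‖ ^ 2 + 2 * (‖u (x i)‖ * ‖fderiv ℝ u (x i) (ek k)‖ * |d|)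
          + ‖u (x i)‖ ^ 2 * |d| ^ 2) := by ring
    _ = _ := by rw [sq_abs]; ring

theorem kin_int (h : AB a b) (hu : ContDiff ℝ cinf u) (i : Fin N) (k : Fin 3) :
    ∫⁻ x, ENNReal.ofReal (‖fderiv ℝ (Psi (N := N) u a b) x (Pi.single i (ek k))‖ ^ 2)
      ≤ GG (rho u) i (gk u k) (wS a b univ)
        + (2 * GG (rho u) i (tk u k) (fun x => ENNReal.ofReal |db a b i (ek k) x|
          * wS a b univ x)
        + GG (rho u) i (rho u) (fun x => ENNReal.ofReal (db a b i (ek k) x ^ 2)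
          * wS a b univ x)) := by
  refine (lintegral_mono (kin_pt h hu i k)).trans (le_of_eq ?_)
  have hm := measurable_wS (N := N) h univ
  have hr := measurable_prod_rho (N := N) (measurable_rho hu) (univ.erase i)
  have hdb : Measurable (fun x : Fin N → E3 => ENNReal.ofReal |db a b i (ek k) x|) :=
    ENNReal.measurable_ofReal.comp (continuous_db h i _).abs.measurable
  have m1 : Measurable (fun x : Fin N → E3 =>
      gk u k (x i) * (∏ j ∈ univ.erase i, rho u (x j)) * wS a b univ x) :=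
    (((measurable_gk hu k).comp (measurable_pi_apply i)).mul hr).mul hm
  have m2 : Measurable (fun x : Fin N → E3 => tk u k (x i) * (∏ j ∈ univ.erase i, rho u (x j))
          * (ENNReal.ofReal |db a b i (ek k) x| * wS a b univ x)) :=
    (((measurable_tk hu k).comp (measurable_pi_apply i)).mul hr).mul (hdb.mul hm)
  rw [lintegral_add_left m1, lintegral_add_left (m2.const_mul _), lintegral_const_mul _ m2]
  rfl

variable (H : Std a b (rho u) R M A0)

include H in
theorem kin_bd (hu : ContDiff ℝ cinf u) (hN : 0 < N) (hc : Cr R M A0 / N ≤ 1 / 2)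
    (i : Fin N) (k : Fin 3) :
    ∫⁻ x, ENNReal.ofReal (‖fderiv ℝ (Psi (N := N) u a b) x (Pi.single i (ek k))‖ ^ 2)
      ≤ (th N R M A0 * mass (gk u k)
          + 2 * (ENNReal.ofReal (CX R M A0 / Real.sqrt N) * mass (tk u k))
          + th N R M A0 ^ 2 * ((∫⁻ r, Fk a k r) * ∫⁻ y, rho u y ^ 2)
          + th N R M A0 ^ 3 * (2 * ((∫⁻ p, Gk b k p) * ∫⁻ y, rho u y ^ 3))
          + ENNReal.ofReal (CE R M A0 / Real.sqrt N))
        * ZZ (rho u) a b (univ : Finset (Fin N)) := by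
  have hN0 := cN_pos hN
  have hρ := measurable_rho hu
  set Zu := ZZ (rho u) a b (univ : Finset (Fin N)) with hZu
  have t1 : GG (rho u) i (gk u k) (wS a b univ) ≤ th N R M A0 * mass (gk u k) * Zu := by
    calc GG (rho u) i (gk u k) (wS a b univ)
        ≤ GG (rho u) i (gk u k) (wS a b (univ.erase i)) :=
          GG_mono _ i _ fun x => wS_anti H.ab (subset_univ _) x
      _ = mass (gk u k) * ZZ (rho u) a b (univ.erase i) :=
          GG0 H (notMem_erase i univ) (measurable_gk hu k)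
      _ ≤ mass (gk u k) * (th N R M A0 * Zu) := by gcongr; exact ZZ_th H hN hc _ _
      _ = _ := by ring
  have t2 : GG (rho u) i (tk u k) (fun x => ENNReal.ofReal |db a b i (ek k) x| * wS a b univ x)
      ≤ ENNReal.ofReal (CX R M A0 / Real.sqrt N) * mass (tk u k) * Zu := by
    refine (cross_bd H hN hc (measurable_tk hu k) i k).trans ?_
    calc _ = ((N : ℝ≥0∞) * (C1 N A0 * (K1 N M R * 4))
          + N * (N * (C2 N A0 * (K2 N M R * (K2 N M R * 8))))) * (mass (tk u k) * Zu) := by ring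
      _ ≤ ENNReal.ofReal (CX R M A0 / Real.sqrt N) * (mass (tk u k) * Zu) := by
          gcongr
          exact Ecr_le H.M0 H.R0 H.A00 hN
      _ = _ := by ring
  have t3 : GG (rho u) i (rho u) (fun x => ENNReal.ofReal (db a b i (ek k) x ^ 2)
      * wS a b univ x)
      ≤ (th N R M A0 ^ 2 * ((∫⁻ r, Fk a k r) * ∫⁻ y, rho u y ^ 2)
          + th N R M A0 ^ 3 * (2 * ((∫⁻ p, Gk b k p) * ∫⁻ y, rho u y ^ 3))
          + ENNReal.ofReal (CE R M A0 / Real.sqrt N)) * Zu := by
    refine (sq_bd H hN hc hρ i k).trans ?_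
    have hm1 : mass (rho u) = 1 := H.h1
    simp only [GG_rho]
    rw [hm1, one_mul, add_mul, add_mul]
    have hNN : (N : ℝ≥0∞) * ENNReal.ofReal (1 / N) = 1 := by
      have : (N : ℝ≥0∞) = ENNReal.ofReal N := by simp
      rw [this, ← ENNReal.ofReal_mul hN0.le, mul_one_div, div_self hN0.ne', ENNReal.ofReal_one]
    have hNN2 : (N : ℝ≥0∞) * (N * ENNReal.ofReal (1 / (N : ℝ) ^ 2)) = 1 := by
      have : (N : ℝ≥0∞) = ENNReal.ofReal N := by simp
      rw [this, ← ENNReal.ofReal_mul hN0.le, ← ENNReal.ofReal_mul hN0.le]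
      rw [← ENNReal.ofReal_one]
      congr 1
      field_simp
    refine add_le_add (add_le_add ?_ ?_) ?_
    · refine (Finset.sum_le_card_nsmul _ _ _ fun q hq =>
        aal_main H hN hc (ne_of_mem_erase hq).symm k).trans ?_
      rw [nsmul_eq_mul]
      calc ((univ.erase i).card : ℝ≥0∞) * (ENNReal.ofReal (1 / N) *
            ((∫⁻ r, Fk a k r) * ∫⁻ y, rho u y ^ 2) * (th N R M A0 ^ 2 * Zu))
          ≤ (N : ℝ≥0∞) * (ENNReal.ofReal (1 / N) *
            ((∫⁻ r, Fk a k r) * ∫⁻ y, rho u y ^ 2) * (th N R M A0 ^ 2 * Zu)) := by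
            gcongr
            exact card_J' i
        _ = ((N : ℝ≥0∞) * ENNReal.ofReal (1 / N)) *
            (th N R M A0 ^ 2 * ((∫⁻ r, Fk a k r) * ∫⁻ y, rho u y ^ 2) * Zu) := by ring
        _ = _ := by rw [hNN, one_mul]
    · have h6 : ∑ q ∈ univ.erase i, ∑ r ∈ univ.erase i, EE (rho u) (fun x => bbe b i q r (ek k) x
          * (bbe b i q r (ek k) x * wS a b univ x))
          ≤ th N R M A0 ^ 3 * ((∫⁻ p, Gk b k p) * ∫⁻ y, rho u y ^ 3) * Zu := by
        refine (Finset.sum_le_card_nsmul _ _ _ fun q hq =>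
          (Finset.sum_le_card_nsmul _ _ _ fun r hr => bbe_main H hN hc
            (ne_of_mem_erase hq).symm (ne_of_mem_erase hr).symm k)).trans ?_
        rw [nsmul_eq_mul, nsmul_eq_mul]
        calc ((univ.erase i).card : ℝ≥0∞) * (((univ.erase i).card : ℝ≥0∞) *
            (ENNReal.ofReal (1 / (N : ℝ) ^ 2) *
            ((∫⁻ p, Gk b k p) * ∫⁻ y, rho u y ^ 3) * (th N R M A0 ^ 3 * Zu)))
          ≤ (N : ℝ≥0∞) * ((N : ℝ≥0∞) * (ENNReal.ofReal (1 / (N : ℝ) ^ 2) *
            ((∫⁻ p, Gk b k p) * ∫⁻ y, rho u y ^ 3) * (th N R M A0 ^ 3 * Zu))) := by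
              gcongr
              · exact card_J' i
              · exact card_J' i
          _ = ((N : ℝ≥0∞) * (N * ENNReal.ofReal (1 / (N : ℝ) ^ 2))) *
            (th N R M A0 ^ 3 * ((∫⁻ p, Gk b k p) * ∫⁻ y, rho u y ^ 3) * Zu) := by ring
          _ = _ := by rw [hNN2, one_mul]
      calc 2 * ∑ q ∈ univ.erase i, ∑ r ∈ univ.erase i, EE (rho u)
            (fun x => bbe b i q r (ek k) x * (bbe b i q r (ek k) x * wS a b univ x))
          ≤ 2 * (th N R M A0 ^ 3 * ((∫⁻ p, Gk b k p) * ∫⁻ y, rho u y ^ 3) * Zu) := by gcongr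
        _ = _ := by ring
    · gcongr
      exact Eoff_le H.M0 H.R0 H.A00 hN
  refine (kin_int H.ab hu i k).trans ((add_le_add t1 (add_le_add (mul_le_mul_right t2 2)
    t3)).trans (le_of_eq ?_))
  ring

end Pool.Agent.Helper67.Bose
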