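import Mathlib
import Pool.Agent.Helper67.Bose.Kin2

set_option autoImplicit false
open MeasureTheory Finset
open scoped ENNReal NNReal

namespace Pool.Agent.Helper67.Bose
open Pool.Agent.Helper23.Bose

/-! ### counting -/

theorem cnt2 (N : ℕ) : 2 * ∑ i : Fin N, (Ioi i).card ≤ N ^ 2 := by
  have h1 : ∀ i : Fin N, (Ioi i).card = ∑ j : Fin N, if i < j then 1 else 0 := by
    intro i
    rw [Finset.card_eq_sum_ones, ← Finset.sum_filter]
    congr 1
    ext j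
    simp
  simp_rw [h1]
  have h2 : ∑ i : Fin N, ∑ j : Fin N, (if i < j then 1 else 0)
      = ∑ i : Fin N, ∑ j : Fin N, (if j < i then 1 else 0) := Finset.sum_comm
  have h3 : 2 * ∑ i : Fin N, ∑ j : Fin N, (if i < j then 1 else 0)
      = ∑ i : Fin N, ∑ j : Fin N, ((if i < j then 1 else 0) + (if j < i then 1 else 0)) := by
    rw [two_mul]
    conv_lhs => rw [h2]
    conv_lhs =>
      lhs
      rw [← h2]
    simp only [Finset.sum_add_distrib]
  rw [h3]
  calc ∑ i : Fin N, ∑ j : Fin N, ((if i < j then 1 else 0) + (if j < i then 1 else 0))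
      ≤ ∑ i : Fin N, ∑ j : Fin N, 1 := by
        refine Finset.sum_le_sum fun i _ => Finset.sum_le_sum fun j _ => ?_
        split_ifs with h h' h'
        · exact absurd h (not_lt.2 h'.le)
        · norm_num
        · norm_num
        · norm_num
    _ = N ^ 2 := by simp [pow_two]

theorem cnt3 (N : ℕ) : 6 * ∑ i : Fin N, ∑ j ∈ Ioi i, (Ioi j).card ≤ N ^ 3 := by
  set f : Fin N → Fin N → Fin N → ℕ := fun i j k => if i < j ∧ j < k then 1 else 0 with hf
  have h1 : ∑ i : Fin N, ∑ j ∈ Ioi i, (Ioi j).card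
      = ∑ i : Fin N, ∑ j : Fin N, ∑ k : Fin N, f i j k := by
    refine Finset.sum_congr rfl fun i _ => ?_
    have hI : (Ioi i) = univ.filter (fun j => i < j) := by ext j; simp
    rw [hI, Finset.sum_filter]
    refine Finset.sum_congr rfl fun j _ => ?_
    by_cases hij : i < j
    · rw [if_pos hij, Finset.card_eq_sum_ones]
      have hJ : (Ioi j) = univ.filter (fun k => j < k) := by ext k; simp
      rw [hJ, Finset.sum_filter]
      refine Finset.sum_congr rfl fun k _ => ?_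
      simp [hf, hij]
    · rw [if_neg hij]
      simp [hf, hij]
  rw [h1]
  set S := ∑ i : Fin N, ∑ j : Fin N, ∑ k : Fin N, f i j k with hS
  have s2 : ∑ i : Fin N, ∑ j : Fin N, ∑ k : Fin N, f i k j = S :=
    Finset.sum_congr rfl fun i _ => Finset.sum_comm
  have s3 : ∑ i : Fin N, ∑ j : Fin N, ∑ k : Fin N, f j i k = S := Finset.sum_comm
  have s4 : ∑ i : Fin N, ∑ j : Fin N, ∑ k : Fin N, f k i j = S := by
    rw [← s3]
    exact Finset.sum_congr rfl fun i _ => Finset.sum_comm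
  have s5 : ∑ i : Fin N, ∑ j : Fin N, ∑ k : Fin N, f j k i = S := by
    rw [Finset.sum_comm]
    exact Finset.sum_congr rfl fun i _ => Finset.sum_comm
  have s6 : ∑ i : Fin N, ∑ j : Fin N, ∑ k : Fin N, f k j i = S := by
    rw [← s5]
    exact Finset.sum_congr rfl fun i _ => Finset.sum_comm
  have h6 : 6 * S = ∑ i : Fin N, ∑ j : Fin N, ∑ k : Fin N,
      (f i j k + f i k j + f j i k + f k i j + f j k i + f k j i) := by
    simp only [Finset.sum_add_distrib, s2, s3, s4, s5, s6]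
    rw [← hS]
    ring
  rw [h6]
  calc ∑ i : Fin N, ∑ j : Fin N, ∑ k : Fin N,
      (f i j k + f i k j + f j i k + f k i j + f j k i + f k j i)
      ≤ ∑ i : Fin N, ∑ j : Fin N, ∑ k : Fin N, 1 := by
        refine Finset.sum_le_sum fun i _ => Finset.sum_le_sum fun j _ =>
          Finset.sum_le_sum fun k _ => ?_
        simp only [hf]
        split_ifs <;> omega
    _ = N ^ 3 := by simp; ring

variable {N : ℕ} {a : E3 → ℝ} {b : E3 × E3 → ℝ} {u : E3 → ℂ} {R M A0 : ℝ}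
variable {Vext W : E3 → ℝ} {V : E3 × E3 → ℝ}

theorem vnn (Hy : Hyp Vext W V) (x : E3) : 0 ≤ Vext x := by
  obtain ⟨C, α, hC, _, h⟩ := Hy.vgrow
  exact le_trans (by positivity) (h x)

/-- external potential density -/
noncomputable def vk (Vext : E3 → ℝ) (u : E3 → ℂ) (y : E3) : ℝ≥0∞ :=
  ENNReal.ofReal (Vext y) * rho u y

theorem ext_bd (H : Std a b (rho u) R M A0) (hu : ContDiff ℝ cinf u)
    (hV : Measurable Vext) (hN : 0 < N) (hc : Cr R M A0 / N ≤ 1 / 2) (i : Fin N) :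
    ∫⁻ x, ENNReal.ofReal (Vext (x i)) * ENNReal.ofReal (‖Psi (N := N) u a b x‖ ^ 2)
      ≤ th N R M A0 * mass (vk Vext u) * ZZ (rho u) a b (univ : Finset (Fin N)) := by
  have hm : Measurable (vk Vext u) :=
    (ENNReal.measurable_ofReal.comp hV).mul (measurable_rho hu)
  calc ∫⁻ x, ENNReal.ofReal (Vext (x i)) * ENNReal.ofReal (‖Psi (N := N) u a b x‖ ^ 2)
      = GG (rho u) i (vk Vext u) (wS a b univ) := by
        unfold GG
        refine lintegral_congr fun x => ?_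
        rw [norm_Psi, ← Finset.mul_prod_erase univ _ (mem_univ i)]
        unfold vk
        ring
    _ ≤ GG (rho u) i (vk Vext u) (wS a b (univ.erase i)) :=
        GG_mono _ i _ fun x => wS_anti H.ab (subset_univ _) x
    _ = mass (vk Vext u) * ZZ (rho u) a b (univ.erase i) := GG0 H (notMem_erase i univ) hm
    _ ≤ mass (vk Vext u) * (th N R M A0 * ZZ (rho u) a b (univ : Finset (Fin N))) := by
        gcongr; exact ZZ_th H hN hc _ _
    _ = _ := by ring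

theorem cnt2E (hN : 0 < N) :
    (∑ i : Fin N, ((Ioi i).card : ℝ≥0∞)) * ENNReal.ofReal (1 / N)
      ≤ N * ENNReal.ofReal (1 / 2) := by
  have hN0 := cN_pos hN
  have h1 : (∑ i : Fin N, ((Ioi i).card : ℝ≥0∞))
      = ENNReal.ofReal ((∑ i : Fin N, (Ioi i).card : ℕ) : ℝ) := by
    rw [ENNReal.ofReal_natCast]; push_cast; rfl
  have h2 : (N : ℝ≥0∞) = ENNReal.ofReal N := by simp
  rw [h1, h2, ← ENNReal.ofReal_mul (Nat.cast_nonneg _), ← ENNReal.ofReal_mul hN0.le]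
  refine ENNReal.ofReal_le_ofReal ?_
  have h3 : 2 * ((∑ i : Fin N, (Ioi i).card : ℕ) : ℝ) ≤ (N : ℝ) ^ 2 := by
    exact_mod_cast cnt2 N
  rw [mul_one_div, div_le_iff₀ hN0]
  nlinarith

theorem cnt3E (hN : 0 < N) :
    (∑ i : Fin N, ∑ j ∈ Ioi i, ((Ioi j).card : ℝ≥0∞)) * ENNReal.ofReal (1 / (N : ℝ) ^ 2)
      ≤ N * ENNReal.ofReal (1 / 6) := by
  have hN0 := cN_pos hN
  have h1 : (∑ i : Fin N, ∑ j ∈ Ioi i, ((Ioi j).card : ℝ≥0∞))
      = ENNReal.ofReal ((∑ i : Fin N, ∑ j ∈ Ioi i, (Ioi j).card : ℕ) : ℝ) := by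
    rw [ENNReal.ofReal_natCast]; push_cast; rfl
  have h2 : (N : ℝ≥0∞) = ENNReal.ofReal N := by simp
  rw [h1, h2, ← ENNReal.ofReal_mul (Nat.cast_nonneg _), ← ENNReal.ofReal_mul hN0.le]
  refine ENNReal.ofReal_le_ofReal ?_
  have h3 : 6 * ((∑ i : Fin N, ∑ j ∈ Ioi i, (Ioi j).card : ℕ) : ℝ) ≤ (N : ℝ) ^ 3 := by
    exact_mod_cast cnt3 N
  rw [mul_one_div, div_le_iff₀ (by positivity)]
  nlinarith

theorem pot2_bd (H : Std a b (rho u) R M A0)
    (Hy : Hyp Vext W V) (hN : 0 < N) (hc : Cr R M A0 / N ≤ 1 / 2) :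
    ∑ i : Fin N, ∑ j ∈ Ioi i, ∫⁻ x, ENNReal.ofReal ((N : ℝ) ^ 2 * W ((N : ℝ) • (x i - x j)))
        * ENNReal.ofReal (‖Psi (N := N) u a b x‖ ^ 2)
      ≤ N * (th N R M A0 ^ 2 * (ENNReal.ofReal (1 / 2) * ((∫⁻ r, FW W a r) * ∫⁻ y, rho u y ^ 2))
        * ZZ (rho u) a b (univ : Finset (Fin N))) := by
  have h1 : ∀ i : Fin N, ∀ j ∈ Ioi i, ∫⁻ x, ENNReal.ofReal ((N : ℝ) ^ 2 * W ((N : ℝ) • (x i - x j)))
        * ENNReal.ofReal (‖Psi (N := N) u a b x‖ ^ 2)
      ≤ ENNReal.ofReal (1 / N) * ((∫⁻ r, FW W a r) * ∫⁻ y, rho u y ^ 2)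
      * (th N R M A0 ^ 2 * ZZ (rho u) a b (univ : Finset (Fin N))) := by
    intro i j hj
    have hij : i ≠ j := (mem_Ioi.1 hj).ne
    refine (le_of_eq ?_).trans (W_main H hN hc Hy.wm Hy.wnn hij)
    unfold EE
    refine lintegral_congr fun x => ?_
    rw [norm_Psi]
    ring
  refine (Finset.sum_le_sum fun i _ => Finset.sum_le_card_nsmul _ _ _ (h1 i)).trans ?_
  simp only [nsmul_eq_mul, ← Finset.sum_mul]
  calc (∑ i : Fin N, ((Ioi i).card : ℝ≥0∞)) * (ENNReal.ofReal (1 / N)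
        * ((∫⁻ r, FW W a r) * ∫⁻ y, rho u y ^ 2)
        * (th N R M A0 ^ 2 * ZZ (rho u) a b (univ : Finset (Fin N))))
      = ((∑ i : Fin N, ((Ioi i).card : ℝ≥0∞)) * ENNReal.ofReal (1 / N))
        * (((∫⁻ r, FW W a r) * ∫⁻ y, rho u y ^ 2)
        * (th N R M A0 ^ 2 * ZZ (rho u) a b (univ : Finset (Fin N)))) := by ring
    _ ≤ (N * ENNReal.ofReal (1 / 2)) * (((∫⁻ r, FW W a r) * ∫⁻ y, rho u y ^ 2)
        * (th N R M A0 ^ 2 * ZZ (rho u) a b (univ : Finset (Fin N)))) := by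
          exact mul_le_mul_left (cnt2E hN) _
    _ = _ := by ring

theorem pot3_bd (H : Std a b (rho u) R M A0)
    (Hy : Hyp Vext W V) (hN : 0 < N) (hc : Cr R M A0 / N ≤ 1 / 2) :
    ∑ i : Fin N, ∑ j ∈ Ioi i, ∑ k ∈ Ioi j, ∫⁻ x, ENNReal.ofReal ((N : ℝ) *
        V (Real.sqrt N • (x i - x j), Real.sqrt N • (x i - x k)))
        * ENNReal.ofReal (‖Psi (N := N) u a b x‖ ^ 2)
      ≤ N * (th N R M A0 ^ 3 * (ENNReal.ofReal (1 / 6) * ((∫⁻ p, GV V b p) * ∫⁻ y, rho u y ^ 3))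
        * ZZ (rho u) a b (univ : Finset (Fin N))) := by
  have h1 : ∀ i : Fin N, ∀ j ∈ Ioi i, ∀ k ∈ Ioi j, ∫⁻ x, ENNReal.ofReal ((N : ℝ) *
        V (Real.sqrt N • (x i - x j), Real.sqrt N • (x i - x k)))
        * ENNReal.ofReal (‖Psi (N := N) u a b x‖ ^ 2)
      ≤ ENNReal.ofReal (1 / (N : ℝ) ^ 2) * ((∫⁻ p, GV V b p) * ∫⁻ y, rho u y ^ 3)
      * (th N R M A0 ^ 3 * ZZ (rho u) a b (univ : Finset (Fin N))) := by
    intro i j hj k hk
    have hij := mem_Ioi.1 hj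
    have hjk := mem_Ioi.1 hk
    refine (le_of_eq ?_).trans (V_main H hN hc Hy.Vm Hy.Vnn hij.ne (hij.trans hjk).ne hjk.ne)
    unfold EE
    refine lintegral_congr fun x => ?_
    rw [norm_Psi]
    ring
  refine (Finset.sum_le_sum fun i _ => Finset.sum_le_sum fun j hj =>
    Finset.sum_le_card_nsmul _ _ _ (h1 i j hj)).trans ?_
  simp only [nsmul_eq_mul, ← Finset.sum_mul]
  calc (∑ i : Fin N, ∑ j ∈ Ioi i, ((Ioi j).card : ℝ≥0∞)) * (ENNReal.ofReal (1 / (N : ℝ) ^ 2)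
        * ((∫⁻ p, GV V b p) * ∫⁻ y, rho u y ^ 3)
        * (th N R M A0 ^ 3 * ZZ (rho u) a b (univ : Finset (Fin N))))
      = ((∑ i : Fin N, ∑ j ∈ Ioi i, ((Ioi j).card : ℝ≥0∞)) * ENNReal.ofReal (1 / (N : ℝ) ^ 2))
        * (((∫⁻ p, GV V b p) * ∫⁻ y, rho u y ^ 3)
        * (th N R M A0 ^ 3 * ZZ (rho u) a b (univ : Finset (Fin N)))) := by ring
    _ ≤ (N * ENNReal.ofReal (1 / 6)) * (((∫⁻ p, GV V b p) * ∫⁻ y, rho u y ^ 3)
        * (th N R M A0 ^ 3 * ZZ (rho u) a b (univ : Finset (Fin N)))) := by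
          exact mul_le_mul_left (cnt3E hN) _
    _ = _ := by ring

/-- the integrand of the energy -/
noncomputable def integ (Vext W : E3 → ℝ) (V : E3 × E3 → ℝ) (N : ℕ) (ψ : (Fin N → E3) → ℂ)
    (x : Fin N → E3) : ℝ :=
  ∑ i : Fin N, gradi ψ i x + (∑ i : Fin N, Vext (x i)) * ‖ψ x‖ ^ 2
    + pot2 W N x * ‖ψ x‖ ^ 2 + pot3 V N x * ‖ψ x‖ ^ 2

/-- the total bound -/
noncomputable def BB (Vext W : E3 → ℝ) (V : E3 × E3 → ℝ) (u : E3 → ℂ) (a : E3 → ℝ)
    (b : E3 × E3 → ℝ) (N : ℕ) (R M A0 : ℝ) : ℝ≥0∞ :=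
  ∑ k : Fin 3, (th N R M A0 * mass (gk u k)
          + 2 * (ENNReal.ofReal (CX R M A0 / Real.sqrt N) * mass (tk u k))
          + th N R M A0 ^ 2 * ((∫⁻ r, Fk a k r) * ∫⁻ y, rho u y ^ 2)
          + th N R M A0 ^ 3 * (2 * ((∫⁻ p, Gk b k p) * ∫⁻ y, rho u y ^ 3))
          + ENNReal.ofReal (CE R M A0 / Real.sqrt N))
  + th N R M A0 * mass (vk Vext u)
  + th N R M A0 ^ 2 * (ENNReal.ofReal (1 / 2) * ((∫⁻ r, FW W a r) * ∫⁻ y, rho u y ^ 2))
  + th N R M A0 ^ 3 * (ENNReal.ofReal (1 / 6) * ((∫⁻ p, GV V b p) * ∫⁻ y, rho u y ^ 3))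

theorem total_bd (H : Std a b (rho u) R M A0) (hu : ContDiff ℝ cinf u)
    (Hy : Hyp Vext W V) (hN : 0 < N) (hc : Cr R M A0 / N ≤ 1 / 2) :
    ∫⁻ x, ENNReal.ofReal (integ Vext W V N (Psi u a b) x)
      ≤ N * (BB Vext W V u a b N R M A0 * ZZ (rho u) a b (univ : Finset (Fin N))) := by
  set Zu := ZZ (rho u) a b (univ : Finset (Fin N)) with hZu
  set ψ := Psi (N := N) u a b with hψ
  have hsm := contDiff_Psi (N := N) H.ab hu
  have mk : ∀ (i : Fin N) (k : Fin 3), Measurable (fun x : Fin N → E3 =>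
      ENNReal.ofReal (‖fderiv ℝ ψ x (Pi.single i (ek k))‖ ^ 2)) := by
    intro i k
    have h1 : Continuous (fun x : Fin N → E3 => fderiv ℝ ψ x (Pi.single i (ek k))) :=
      (hsm.continuous_fderiv (by simp)).clm_apply continuous_const
    exact ENNReal.measurable_ofReal.comp (h1.norm.pow 2).measurable
  have mψ : Measurable (fun x : Fin N → E3 => ENNReal.ofReal (‖ψ x‖ ^ 2)) :=
    ENNReal.measurable_ofReal.comp (hsm.continuous.norm.pow 2).measurable
  have mV : ∀ i : Fin N, Measurable (fun x : Fin N → E3 =>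
      ENNReal.ofReal (Vext (x i)) * ENNReal.ofReal (‖ψ x‖ ^ 2)) := fun i =>
    (ENNReal.measurable_ofReal.comp (Hy.vm.comp (measurable_pi_apply i))).mul mψ
  have mW : ∀ i j : Fin N, Measurable (fun x : Fin N → E3 =>
      ENNReal.ofReal ((N : ℝ) ^ 2 * W ((N : ℝ) • (x i - x j))) * ENNReal.ofReal (‖ψ x‖ ^ 2)) := by
    intro i j
    have h1 : Measurable (fun x : Fin N → E3 => W ((N : ℝ) • (x i - x j))) :=
      Hy.wm.comp (by fun_prop)
    exact (ENNReal.measurable_ofReal.comp (h1.const_mul _)).mul mψ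
  have mVV : ∀ i j k : Fin N, Measurable (fun x : Fin N → E3 =>
      ENNReal.ofReal ((N : ℝ) * V (Real.sqrt N • (x i - x j), Real.sqrt N • (x i - x k)))
        * ENNReal.ofReal (‖ψ x‖ ^ 2)) := by
    intro i j k
    have h1 : Measurable (fun x : Fin N → E3 =>
        V (Real.sqrt N • (x i - x j), Real.sqrt N • (x i - x k))) :=
      Hy.Vm.comp (by fun_prop)
    exact (ENNReal.measurable_ofReal.comp (h1.const_mul _)).mul mψ
  have hpt : ∀ x : Fin N → E3, ENNReal.ofReal (integ Vext W V N ψ x)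
      ≤ ∑ i : Fin N, ∑ k : Fin 3, ENNReal.ofReal (‖fderiv ℝ ψ x (Pi.single i (ek k))‖ ^ 2)
        + (∑ i : Fin N, ENNReal.ofReal (Vext (x i)) * ENNReal.ofReal (‖ψ x‖ ^ 2)
        + (∑ i : Fin N, ∑ j ∈ Ioi i, ENNReal.ofReal ((N : ℝ) ^ 2 * W ((N : ℝ) • (x i - x j)))
          * ENNReal.ofReal (‖ψ x‖ ^ 2)
        + ∑ i : Fin N, ∑ j ∈ Ioi i, ∑ k ∈ Ioi j, ENNReal.ofReal ((N : ℝ) *
          V (Real.sqrt N • (x i - x j), Real.sqrt N • (x i - x k)))
          * ENNReal.ofReal (‖ψ x‖ ^ 2))) := by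
    intro x
    have e1 : ENNReal.ofReal (∑ i : Fin N, gradi ψ i x)
        = ∑ i : Fin N, ∑ k : Fin 3, ENNReal.ofReal (‖fderiv ℝ ψ x (Pi.single i (ek k))‖ ^ 2) := by
      unfold gradi
      rw [ENNReal.ofReal_sum_of_nonneg (fun i _ => Finset.sum_nonneg fun k _ => by positivity)]
      exact Finset.sum_congr rfl fun i _ =>
        ENNReal.ofReal_sum_of_nonneg (fun k _ => by positivity)
    have e2 : ENNReal.ofReal ((∑ i : Fin N, Vext (x i)) * ‖ψ x‖ ^ 2)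
        = ∑ i : Fin N, ENNReal.ofReal (Vext (x i)) * ENNReal.ofReal (‖ψ x‖ ^ 2) := by
      rw [ENNReal.ofReal_mul (Finset.sum_nonneg fun i _ => vnn Hy _),
        ENNReal.ofReal_sum_of_nonneg (fun i _ => vnn Hy _), Finset.sum_mul]
    have e3 : ENNReal.ofReal (pot2 W N x * ‖ψ x‖ ^ 2)
        = ∑ i : Fin N, ∑ j ∈ Ioi i, ENNReal.ofReal ((N : ℝ) ^ 2 * W ((N : ℝ) • (x i - x j)))
          * ENNReal.ofReal (‖ψ x‖ ^ 2) := by
      unfold pot2
      have hw : ∀ i j : Fin N, 0 ≤ (N : ℝ) ^ 2 * W ((N : ℝ) • (x i - x j)) := fun i j => by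
        have := Hy.wnn ((N : ℝ) • (x i - x j)); positivity
      rw [ENNReal.ofReal_mul (Finset.sum_nonneg fun i _ => Finset.sum_nonneg fun j _ => hw i j),
        ENNReal.ofReal_sum_of_nonneg (fun i _ => Finset.sum_nonneg fun j _ => hw i j),
        Finset.sum_mul]
      refine Finset.sum_congr rfl fun i _ => ?_
      rw [ENNReal.ofReal_sum_of_nonneg (fun j _ => hw i j), Finset.sum_mul]
    have e4 : ENNReal.ofReal (pot3 V N x * ‖ψ x‖ ^ 2)
        = ∑ i : Fin N, ∑ j ∈ Ioi i, ∑ k ∈ Ioi j, ENNReal.ofReal ((N : ℝ) *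
          V (Real.sqrt N • (x i - x j), Real.sqrt N • (x i - x k)))
          * ENNReal.ofReal (‖ψ x‖ ^ 2) := by
      unfold pot3
      have hw : ∀ i j k : Fin N, 0 ≤ (N : ℝ) *
          V (Real.sqrt N • (x i - x j), Real.sqrt N • (x i - x k)) := fun i j k => by
        have := Hy.Vnn (Real.sqrt N • (x i - x j), Real.sqrt N • (x i - x k)); positivity
      rw [ENNReal.ofReal_mul (Finset.sum_nonneg fun i _ => Finset.sum_nonneg fun j _ =>
          Finset.sum_nonneg fun k _ => hw i j k),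
        ENNReal.ofReal_sum_of_nonneg (fun i _ => Finset.sum_nonneg fun j _ =>
          Finset.sum_nonneg fun k _ => hw i j k), Finset.sum_mul]
      refine Finset.sum_congr rfl fun i _ => ?_
      rw [ENNReal.ofReal_sum_of_nonneg (fun j _ => Finset.sum_nonneg fun k _ => hw i j k),
        Finset.sum_mul]
      refine Finset.sum_congr rfl fun j _ => ?_
      rw [ENNReal.ofReal_sum_of_nonneg (fun k _ => hw i j k), Finset.sum_mul]
    rw [← e1, ← e2, ← e3, ← e4]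
    unfold integ
    refine ENNReal.ofReal_add_le.trans ?_
    rw [← add_assoc, ← add_assoc]
    gcongr
    refine ENNReal.ofReal_add_le.trans ?_
    gcongr
    exact ENNReal.ofReal_add_le
  have mk' : ∀ i ∈ (univ : Finset (Fin N)), Measurable (fun x : Fin N → E3 =>
      ∑ k : Fin 3, ENNReal.ofReal (‖fderiv ℝ ψ x (Pi.single i (ek k))‖ ^ 2)) := fun i _ =>
    Finset.measurable_fun_sum _ fun k _ => mk i k
  have mW' : ∀ i ∈ (univ : Finset (Fin N)), Measurable (fun x : Fin N → E3 =>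
      ∑ j ∈ Ioi i, ENNReal.ofReal ((N : ℝ) ^ 2 * W ((N : ℝ) • (x i - x j)))
        * ENNReal.ofReal (‖ψ x‖ ^ 2)) := fun i _ =>
    Finset.measurable_fun_sum _ fun j _ => mW i j
  have mVV'' : ∀ i, ∀ j ∈ Ioi i, Measurable (fun x : Fin N → E3 =>
      ∑ k ∈ Ioi j, ENNReal.ofReal ((N : ℝ) *
        V (Real.sqrt N • (x i - x j), Real.sqrt N • (x i - x k)))
        * ENNReal.ofReal (‖ψ x‖ ^ 2)) := fun i j _ =>
    Finset.measurable_fun_sum _ fun k _ => mVV i j k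
  have mVV' : ∀ i ∈ (univ : Finset (Fin N)), Measurable (fun x : Fin N → E3 =>
      ∑ j ∈ Ioi i, ∑ k ∈ Ioi j, ENNReal.ofReal ((N : ℝ) *
        V (Real.sqrt N • (x i - x j), Real.sqrt N • (x i - x k)))
        * ENNReal.ofReal (‖ψ x‖ ^ 2)) := fun i _ =>
    Finset.measurable_fun_sum _ (mVV'' i)
  calc ∫⁻ x, ENNReal.ofReal (integ Vext W V N ψ x)
      ≤ ∫⁻ x, (∑ i : Fin N, ∑ k : Fin 3,
            ENNReal.ofReal (‖fderiv ℝ ψ x (Pi.single i (ek k))‖ ^ 2)
        + (∑ i : Fin N, ENNReal.ofReal (Vext (x i)) * ENNReal.ofReal (‖ψ x‖ ^ 2)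
        + (∑ i : Fin N, ∑ j ∈ Ioi i, ENNReal.ofReal ((N : ℝ) ^ 2 * W ((N : ℝ) • (x i - x j)))
          * ENNReal.ofReal (‖ψ x‖ ^ 2)
        + ∑ i : Fin N, ∑ j ∈ Ioi i, ∑ k ∈ Ioi j, ENNReal.ofReal ((N : ℝ) *
          V (Real.sqrt N • (x i - x j), Real.sqrt N • (x i - x k)))
          * ENNReal.ofReal (‖ψ x‖ ^ 2)))) := lintegral_mono hpt
    _ = ∑ i : Fin N, ∑ k : Fin 3, (∫⁻ x,
            ENNReal.ofReal (‖fderiv ℝ ψ x (Pi.single i (ek k))‖ ^ 2))
        + (∑ i : Fin N, (∫⁻ x, ENNReal.ofReal (Vext (x i)) * ENNReal.ofReal (‖ψ x‖ ^ 2))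
        + (∑ i : Fin N, ∑ j ∈ Ioi i, (∫⁻ x,
            ENNReal.ofReal ((N : ℝ) ^ 2 * W ((N : ℝ) • (x i - x j)))
          * ENNReal.ofReal (‖ψ x‖ ^ 2))
        + ∑ i : Fin N, ∑ j ∈ Ioi i, ∑ k ∈ Ioi j, (∫⁻ x, ENNReal.ofReal ((N : ℝ) *
          V (Real.sqrt N • (x i - x j), Real.sqrt N • (x i - x k)))
          * ENNReal.ofReal (‖ψ x‖ ^ 2)))) := by
        rw [lintegral_add_left (Finset.measurable_fun_sum _ mk'),
          lintegral_add_left (Finset.measurable_fun_sum _ fun i _ => mV i),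
          lintegral_add_left (Finset.measurable_fun_sum _ mW'),
          lintegral_finsetSum _ mk', lintegral_finsetSum _ (fun i _ => mV i),
          lintegral_finsetSum _ mW', lintegral_finsetSum _ mVV']
        congr 1
        · exact Finset.sum_congr rfl fun i _ => lintegral_finsetSum _ fun k _ => mk i k
        congr 1
        congr 1
        · exact Finset.sum_congr rfl fun i _ => lintegral_finsetSum _ fun j _ => mW i j
        · refine Finset.sum_congr rfl fun i _ => ?_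
          rw [lintegral_finsetSum _ (mVV'' i)]
          exact Finset.sum_congr rfl fun j _ => lintegral_finsetSum _ fun k _ => mVV i j k
    _ ≤ N * ((∑ k : Fin 3, (th N R M A0 * mass (gk u k)
          + 2 * (ENNReal.ofReal (CX R M A0 / Real.sqrt N) * mass (tk u k))
          + th N R M A0 ^ 2 * ((∫⁻ r, Fk a k r) * ∫⁻ y, rho u y ^ 2)
          + th N R M A0 ^ 3 * (2 * ((∫⁻ p, Gk b k p) * ∫⁻ y, rho u y ^ 3))
          + ENNReal.ofReal (CE R M A0 / Real.sqrt N))) * Zu)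
        + (N * (th N R M A0 * mass (vk Vext u) * Zu)
        + (N * (th N R M A0 ^ 2 * (ENNReal.ofReal (1 / 2)
            * ((∫⁻ r, FW W a r) * ∫⁻ y, rho u y ^ 2)) * Zu)
        + N * (th N R M A0 ^ 3 * (ENNReal.ofReal (1 / 6)
            * ((∫⁻ p, GV V b p) * ∫⁻ y, rho u y ^ 3)) * Zu))) := by
        refine add_le_add ?_ (add_le_add ?_ (add_le_add ?_ ?_))
        · refine (Finset.sum_le_card_nsmul _ _ _ (fun i _ => ?_)).trans (le_of_eq
            (by rw [nsmul_eq_mul, card_univ, Fintype.card_fin]))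
          rw [Finset.sum_mul]
          exact Finset.sum_le_sum fun k _ => kin_bd H hu hN hc i k
        · refine (Finset.sum_le_card_nsmul _ _ _ (fun i _ => ?_)).trans (le_of_eq
            (by rw [nsmul_eq_mul, card_univ, Fintype.card_fin]))
          exact ext_bd H hu Hy.vm hN hc i
        · exact pot2_bd H Hy hN hc
        · exact pot3_bd H Hy hN hc
    _ = _ := by
        unfold BB
        ring

end Pool.Agent.Helper67.Bose
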