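import Mathlib
import Pool.Agent.Helper67.Bose.Total
import Pool.Agent.Helper67.Bose.NearAB

set_option autoImplicit false
open MeasureTheory
open scoped ENNReal NNReal Topology

namespace Pool.Agent.Helper67.Bose
open Pool.Agent.Helper23.Bose

variable {Vext W : E3 → ℝ} {V : E3 × E3 → ℝ}

theorem exists_adm1 : ∃ u : E3 → ℂ, Adm1 u := by
  let φ : ContDiffBump (0 : E3) := ⟨1, 2, by norm_num, by norm_num⟩
  have hφs : ContDiff ℝ cinf (φ : E3 → ℝ) := φ.contDiff
  have hφc : HasCompactSupport (φ : E3 → ℝ) := φ.hasCompactSupport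
  set c := ∫ x, (φ x) ^ 2 with hc
  have hcont : Continuous (fun x : E3 => (φ x) ^ 2) := hφs.continuous.pow 2
  have hsupp : HasCompactSupport (fun x : E3 => (φ x) ^ 2) :=
    hφc.comp_left (g := fun t : ℝ => t ^ 2) (by simp)
  have hc0 : 0 < c := by
    refine hcont.integral_pos_of_hasCompactSupport_nonneg_nonzero hsupp
      (fun x => sq_nonneg _) (x := 0) ?_
    have : φ 0 = 1 := φ.one_of_mem_closedBall (by simp [φ.rIn_pos.le])
    simp [this]
  refine ⟨fun x => ((φ x / Real.sqrt c : ℝ) : ℂ), ?_, ?_, ?_⟩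
  · exact Complex.ofRealCLM.contDiff.comp (hφs.div_const _)
  · exact (hφc.comp_left (g := fun t : ℝ => ((t / Real.sqrt c : ℝ) : ℂ)) (by simp))
  · have : ∀ x : E3, ‖((φ x / Real.sqrt c : ℝ) : ℂ)‖ ^ 2 = (1 / c) * (φ x) ^ 2 := by
      intro x
      rw [Complex.norm_real, Real.norm_eq_abs, sq_abs, div_pow, Real.sq_sqrt hc0.le]
      ring
    simp_rw [this]
    rw [integral_const_mul, ← hc]
    field_simp

theorem exists_gp {Vext : E3 → ℝ} {b₁ b₂ : ℝ} {ε : ℝ} (hε : 0 < ε) :
    ∃ u : E3 → ℂ, Adm1 u ∧ GPf Vext b₁ b₂ u < eGP Vext b₁ b₂ + ε := by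
  have hne : {E : ℝ | ∃ u : E3 → ℂ, Adm1 u ∧ E = GPf Vext b₁ b₂ u}.Nonempty := by
    obtain ⟨u, hu⟩ := exists_adm1
    exact ⟨_, u, hu, rfl⟩
  obtain ⟨E, ⟨u, hu, rfl⟩, hlt⟩ := exists_lt_of_csInf_lt hne
    (show sInf {E : ℝ | ∃ u : E3 → ℂ, Adm1 u ∧ E = GPf Vext b₁ b₂ u} < eGP Vext b₁ b₂ + ε by
      unfold eGP; linarith)
  exact ⟨u, hu, hlt⟩

variable {u : E3 → ℂ}

theorem int_grad (hu : ContDiff ℝ cinf u) (hs : HasCompactSupport u) (k : Fin 3) :
    Integrable (fun y : E3 => ‖fderiv ℝ u y (ek k)‖ ^ 2) := by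
  have h1 : Continuous (fun x : E3 => fderiv ℝ u x (ek k)) :=
    (hu.continuous_fderiv (by simp)).clm_apply continuous_const
  refine Continuous.integrable_of_hasCompactSupport (h1.norm.pow 2) ?_
  have h2 : HasCompactSupport (fderiv ℝ u) := hs.fderiv ℝ
  exact h2.comp_left (g := fun L : E3 →L[ℝ] ℂ => ‖L (ek k)‖ ^ 2) (by simp)

theorem int_mix (hu : ContDiff ℝ cinf u) (hs : HasCompactSupport u) (k : Fin 3) :
    Integrable (fun y : E3 => ‖u y‖ * ‖fderiv ℝ u y (ek k)‖) := by
  have h1 : Continuous (fun x : E3 => fderiv ℝ u x (ek k)) :=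
    (hu.continuous_fderiv (by simp)).clm_apply continuous_const
  refine Continuous.integrable_of_hasCompactSupport (hu.continuous.norm.mul h1.norm) ?_
  exact (hs.comp_left (g := fun z : ℂ => ‖z‖) (by simp)).mul_right

theorem int_pow (hu : ContDiff ℝ cinf u) (hs : HasCompactSupport u) {n : ℕ} (hn : n ≠ 0) :
    Integrable (fun y : E3 => ‖u y‖ ^ n) := by
  refine Continuous.integrable_of_hasCompactSupport (hu.continuous.norm.pow n) ?_
  exact hs.comp_left (g := fun z : ℂ => ‖z‖ ^ n) (by simp [hn])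

theorem int_ext (Hy : Hyp Vext W V) (hu : ContDiff ℝ cinf u) (hs : HasCompactSupport u) :
    Integrable (fun y : E3 => Vext y * ‖u y‖ ^ 2) := by
  obtain ⟨M, hM⟩ := Hy.vloc (tsupport u) hs
  have hg : Continuous (fun y : E3 => ‖u y‖ ^ 2) := hu.continuous.norm.pow 2
  have h1 : IntegrableOn (fun x => Vext x * ‖u x‖ ^ 2) (tsupport u) := by
    have h2 : IntegrableOn (fun y : E3 => ‖u y‖ ^ 2) (tsupport u) :=
      hg.continuousOn.integrableOn_compact hs
    refine Integrable.bdd_mul (c := M) h2 Hy.vm.aestronglyMeasurable.restrict ?_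
    rw [ae_restrict_iff' (isClosed_tsupport u).measurableSet]
    exact Filter.Eventually.of_forall fun x hx => by
      rw [Real.norm_eq_abs]; exact hM x hx
  refine (integrableOn_iff_integrable_of_support_subset ?_).1 h1
  intro x hx
  apply subset_tsupport
  intro h0
  apply hx
  simp [h0]

theorem mass_gk (hu : ContDiff ℝ cinf u) (hs : HasCompactSupport u) (k : Fin 3) :
    mass (gk u k) = ENNReal.ofReal (∫ y, ‖fderiv ℝ u y (ek k)‖ ^ 2) :=
  (ofReal_integral_eq_lintegral_ofReal (int_grad hu hs k)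
    (Filter.Eventually.of_forall fun x => by positivity)).symm

theorem mass_tk (hu : ContDiff ℝ cinf u) (hs : HasCompactSupport u) (k : Fin 3) :
    mass (tk u k) = ENNReal.ofReal (∫ y, ‖u y‖ * ‖fderiv ℝ u y (ek k)‖) :=
  (ofReal_integral_eq_lintegral_ofReal (int_mix hu hs k)
    (Filter.Eventually.of_forall fun x => by positivity)).symm

theorem mass_vk (Hy : Hyp Vext W V) (hu : ContDiff ℝ cinf u) (hs : HasCompactSupport u) :
    mass (vk Vext u) = ENNReal.ofReal (∫ y, Vext y * ‖u y‖ ^ 2) := by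
  rw [ofReal_integral_eq_lintegral_ofReal (int_ext Hy hu hs)
    (Filter.Eventually.of_forall fun x => mul_nonneg (vnn Hy x) (by positivity))]
  unfold mass vk rho
  refine lintegral_congr fun x => ?_
  rw [ENNReal.ofReal_mul (vnn Hy x)]

theorem mass_rho (hu : ContDiff ℝ cinf u) (hs : HasCompactSupport u) :
    ∫⁻ y, rho u y = ENNReal.ofReal (∫ y, ‖u y‖ ^ 2) :=
  (ofReal_integral_eq_lintegral_ofReal (int_pow hu hs (by norm_num))
    (Filter.Eventually.of_forall fun x => by positivity)).symm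

theorem mass_rho2 (hu : ContDiff ℝ cinf u) (hs : HasCompactSupport u) :
    ∫⁻ y, rho u y ^ 2 = ENNReal.ofReal (∫ y, ‖u y‖ ^ 4) := by
  rw [ofReal_integral_eq_lintegral_ofReal (int_pow hu hs (by norm_num))
    (Filter.Eventually.of_forall fun x => by positivity)]
  unfold rho
  refine lintegral_congr fun x => ?_
  rw [← ENNReal.ofReal_pow (by positivity)]
  congr 1
  ring

theorem mass_rho3 (hu : ContDiff ℝ cinf u) (hs : HasCompactSupport u) :
    ∫⁻ y, rho u y ^ 3 = ENNReal.ofReal (∫ y, ‖u y‖ ^ 6) := by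
  rw [ofReal_integral_eq_lintegral_ofReal (int_pow hu hs (by norm_num))
    (Filter.Eventually.of_forall fun x => by positivity)]
  unfold rho
  refine lintegral_congr fun x => ?_
  rw [← ENNReal.ofReal_pow (by positivity)]
  congr 1
  ring

theorem GPf_split (Hy : Hyp Vext W V) {b₁ b₂ : ℝ} (hu : ContDiff ℝ cinf u)
    (hs : HasCompactSupport u) :
    GPf Vext b₁ b₂ u = (∑ k : Fin 3, ∫ y, ‖fderiv ℝ u y (ek k)‖ ^ 2)
      + (∫ y, Vext y * ‖u y‖ ^ 2) + b₁ / 2 * (∫ y, ‖u y‖ ^ 4) + b₂ / 6 * (∫ y, ‖u y‖ ^ 6) := by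
  unfold GPf grad2
  have i1 : Integrable (fun y : E3 => ∑ k : Fin 3, ‖fderiv ℝ u y (ek k)‖ ^ 2) :=
    integrable_finset_sum _ fun k _ => int_grad hu hs k
  have i2 := int_ext Hy hu hs
  have i3 : Integrable (fun y : E3 => b₁ / 2 * ‖u y‖ ^ 4) :=
    (int_pow hu hs (by norm_num)).const_mul _
  have i4 : Integrable (fun y : E3 => b₂ / 6 * ‖u y‖ ^ 6) :=
    (int_pow hu hs (by norm_num)).const_mul _
  have i12 : Integrable (fun y : E3 => ∑ k : Fin 3, ‖fderiv ℝ u y (ek k)‖ ^ 2
      + Vext y * ‖u y‖ ^ 2) := i1.add i2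
  have i123 : Integrable (fun y : E3 => ∑ k : Fin 3, ‖fderiv ℝ u y (ek k)‖ ^ 2
      + Vext y * ‖u y‖ ^ 2 + b₁ / 2 * ‖u y‖ ^ 4) := i12.add i3
  rw [integral_add i123 i4, integral_add i12 i3, integral_add i1 i2,
    integral_finset_sum _ (fun k _ => int_grad hu hs k), integral_const_mul, integral_const_mul]

/-- existence of the standing data -/
theorem exists_std {a : E3 → ℝ} {b : E3 × E3 → ℝ} (h : AB a b) (hu : Adm1 u) :
    ∃ R M A0 : ℝ, Std a b (rho u) R M A0 := by
  obtain ⟨hu1, hu2, hu3⟩ := hu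
  obtain ⟨C, hC⟩ := hu2.exists_bound_of_continuous hu1.continuous
  have hC0 : 0 ≤ C := (norm_nonneg _).trans (hC 0)
  obtain ⟨Ra, hRa⟩ := (h.a_supp.isCompact).isBounded.subset_closedBall (0 : E3)
  obtain ⟨Rb, hRb⟩ := (h.b_supp.isCompact).isBounded.subset_closedBall (0 : E3 × E3)
  obtain ⟨Ca, hCa⟩ := h.a_supp.exists_bound_of_continuous h.a_smooth.continuous
  obtain ⟨Cb, hCb⟩ := h.b_supp.exists_bound_of_continuous h.b_smooth.continuous
  have c1 : ∀ k, Continuous (fun r : E3 => fderiv ℝ a r (ek k)) := fun k =>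
    (h.a_smooth.continuous_fderiv (by simp)).clm_apply continuous_const
  have s1 : ∀ k, HasCompactSupport (fun r : E3 => fderiv ℝ a r (ek k)) := fun k =>
    (h.a_supp.fderiv ℝ).comp_left (g := fun L : E3 →L[ℝ] ℝ => L (ek k)) (by simp)
  have c2 : ∀ k, Continuous (fun r : E3 × E3 => fderiv ℝ b r (ek k, ek k)) := fun k =>
    (h.b_smooth.continuous_fderiv (by simp)).clm_apply continuous_const
  have s2 : ∀ k, HasCompactSupport (fun r : E3 × E3 => fderiv ℝ b r (ek k, ek k)) := fun k =>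
    (h.b_supp.fderiv ℝ).comp_left (g := fun L : (E3 × E3) →L[ℝ] ℝ => L (ek k, ek k)) (by simp)
  choose Da hDa using fun k => (s1 k).exists_bound_of_continuous (c1 k)
  choose Db hDb using fun k => (s2 k).exists_bound_of_continuous (c2 k)
  set R := max (max Ra Rb) 0 with hR
  set A0 := |Ca| + |Cb| + ∑ k, |Da k| + ∑ k, |Db k| with hA0
  have hsa : 0 ≤ ∑ k, |Da k| := Finset.sum_nonneg fun k _ => abs_nonneg _
  have hsb : 0 ≤ ∑ k, |Db k| := Finset.sum_nonneg fun k _ => abs_nonneg _
  have hDa' : ∀ k, |Da k| ≤ ∑ k, |Da k| := fun k =>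
    Finset.single_le_sum (f := fun k => |Da k|) (fun k _ => abs_nonneg _) (Finset.mem_univ k)
  have hDb' : ∀ k, |Db k| ≤ ∑ k, |Db k| := fun k =>
    Finset.single_le_sum (f := fun k => |Db k|) (fun k _ => abs_nonneg _) (Finset.mem_univ k)
  have hca := abs_nonneg Ca
  have hcb := abs_nonneg Cb
  have offa : ∀ r : E3, ¬ ‖r‖ ≤ R → r ∉ tsupport a := by
    intro r hr hmem
    apply hr
    have := hRa hmem
    rw [mem_closedBall_zero_iff] at this
    exact this.trans ((le_max_left _ _).trans (le_max_left _ _))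
  have offb : ∀ p : E3 × E3, ¬ (‖p.1‖ ≤ R ∧ ‖p.2‖ ≤ R) → p ∉ tsupport b := by
    intro p hp hmem
    apply hp
    have := hRb hmem
    rw [mem_closedBall_zero_iff] at this
    have h2 : ‖p‖ ≤ R := this.trans ((le_max_right _ _).trans (le_max_left _ _))
    exact ⟨(norm_fst_le p).trans h2, (norm_snd_le p).trans h2⟩
  refine ⟨R, C ^ 2, A0, ?_⟩
  refine
    { ab := h
      hρ := measurable_rho hu1
      h1 := ?_
      hM := ?_
      M0 := by positivity
      R0 := le_max_right _ _
      A00 := by positivity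
      a_bd := ?_
      b_bd := ?_
      da_bd := ?_
      db_bd := ?_ }
  · rw [mass_rho hu1 hu2, hu3, ENNReal.ofReal_one]
  · intro y
    unfold rho
    exact ENNReal.ofReal_le_ofReal (pow_le_pow_left₀ (norm_nonneg _) (hC y) 2)
  · intro r
    split_ifs with hr
    · have := hCa r
      rw [Real.norm_eq_abs] at this
      have h2 := le_abs_self (a r)
      have h3 := le_abs_self Ca
      linarith
    · rw [image_eq_zero_of_notMem_tsupport (offa r hr)]
  · intro p
    split_ifs with hr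
    · have := hCb p
      rw [Real.norm_eq_abs] at this
      have h2 := le_abs_self (b p)
      have h3 := le_abs_self Cb
      linarith
    · rw [image_eq_zero_of_notMem_tsupport (offb p hr)]
  · intro r k
    split_ifs with hr
    · have := hDa k r
      rw [Real.norm_eq_abs] at this
      have h3 := le_abs_self (Da k)
      have h4 := hDa' k
      linarith
    · have : fderiv ℝ a r = 0 := by
        apply image_eq_zero_of_notMem_tsupport
        exact fun hm => offa r hr (tsupport_fderiv_subset ℝ hm)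
      rw [this]; simp
  · intro p k
    split_ifs with hr
    · have := hDb k p
      rw [Real.norm_eq_abs] at this
      have h3 := le_abs_self (Db k)
      have h4 := hDb' k
      linarith
    · have : fderiv ℝ b p = 0 := by
        apply image_eq_zero_of_notMem_tsupport
        exact fun hm => offb p hr (tsupport_fderiv_subset ℝ hm)
      rw [this]; simp

end Pool.Agent.Helper67.Bose
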