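import Mathlib
import Pool.Agent.Helper67.Bose.GP

set_option autoImplicit false
open MeasureTheory
open scoped ENNReal NNReal Topology

namespace Pool.Agent.Helper67.Mac
open Pool.Agent.Helper23.Bose

variable {Vext W : E3 → ℝ} {V : E3 × E3 → ℝ}

theorem vnn' (Hy : Hyp Vext W V) (x : E3) : 0 ≤ Vext x := by
  obtain ⟨C, α, hC, hα, h⟩ := Hy.vgrow
  exact le_trans (mul_nonneg hC.le (Real.rpow_nonneg (norm_nonneg _) _)) (h x)

theorem GPf_nonneg (Hy : Hyp Vext W V) {b1 b2 : ℝ} (hb1 : 0 ≤ b1) (hb2 : 0 ≤ b2) (u : E3 → ℂ) :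
    0 ≤ GPf Vext b1 b2 u := by
  refine integral_nonneg fun x => ?_
  have := vnn' Hy x
  have h2 : 0 ≤ grad2 u x := Finset.sum_nonneg fun k _ => by positivity
  positivity

theorem eGP_le (Hy : Hyp Vext W V) {b1 b2 : ℝ} (hb1 : 0 ≤ b1) (hb2 : 0 ≤ b2) {u : E3 → ℂ}
    (hu : Adm1 u) : eGP Vext b1 b2 ≤ GPf Vext b1 b2 u := by
  refine csInf_le ⟨0, ?_⟩ ⟨u, hu, rfl⟩
  rintro E ⟨v, _, rfl⟩
  exact GPf_nonneg Hy hb1 hb2 v

theorem eGP_nonneg (Hy : Hyp Vext W V) {b1 b2 : ℝ} (hb1 : 0 ≤ b1) (hb2 : 0 ≤ b2) :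
    0 ≤ eGP Vext b1 b2 := by
  refine Real.sInf_nonneg ?_
  rintro E ⟨v, _, rfl⟩
  exact GPf_nonneg Hy hb1 hb2 v

/-- data of the comparison -/
structure Dat (r χ : E3 → ℝ) (a K Q : ℝ) : Prop where
  rs : ContDiff ℝ cinf r
  rpos : ∀ y, 0 < r y
  rint : Integrable r
  rone : ∫ y, r y = 1
  rle : ∀ y, r y ≤ K
  rdf : ∀ y, ‖fderiv ℝ r y‖ ≤ Q * r y
  cs : ContDiff ℝ cinf χ
  cc : HasCompactSupport χ
  c0 : ∀ y, 0 ≤ χ y
  c1 : ∀ y, χ y ≤ 1
  cdf : ∀ y, ‖fderiv ℝ χ y‖ ≤ a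

/-- the test function without normalisation -/
noncomputable def w (r χ : E3 → ℝ) (y : E3) : ℝ := χ y * Real.sqrt (r y)

variable {r χ : E3 → ℝ} {a K Q : ℝ}

theorem sqrt_contDiff (D : Dat r χ a K Q) : ContDiff ℝ cinf (fun y => Real.sqrt (r y)) :=
  D.rs.sqrt fun y => (D.rpos y).ne'

theorem w_contDiff (D : Dat r χ a K Q) : ContDiff ℝ cinf (w r χ) :=
  D.cs.mul (sqrt_contDiff D)

theorem w_supp (D : Dat r χ a K Q) : HasCompactSupport (w r χ) := D.cc.mul_right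

theorem w_fderiv (D : Dat r χ a K Q) (y v : E3) :
    fderiv ℝ (w r χ) y v
      = fderiv ℝ χ y v * Real.sqrt (r y) + χ y * (fderiv ℝ r y v / (2 * Real.sqrt (r y))) := by
  have h1 : HasFDerivAt r (fderiv ℝ r y) y :=
    (D.rs.differentiable (by simp) y).hasFDerivAt
  have h2 : HasFDerivAt χ (fderiv ℝ χ y) y :=
    (D.cs.differentiable (by simp) y).hasFDerivAt
  have h3 := h1.sqrt (D.rpos y).ne'
  have h4 := h2.mul h3
  have h5 : fderiv ℝ (w r χ) y = _ := h4.fderiv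
  rw [h5]
  simp only [ContinuousLinearMap.add_apply, ContinuousLinearMap.smul_apply, smul_eq_mul]
  ring

theorem w_grad_sq (D : Dat r χ a K Q) {e : ℝ} (he : 0 < e) (y : E3) (k : Fin 3) :
    (fderiv ℝ (w r χ) y (ek k)) ^ 2
      ≤ (1 + e) * ((fderiv ℝ r y (ek k)) ^ 2 / (4 * r y)) + (1 + 1 / e) * a ^ 2 * r y := by
  rw [w_fderiv D]
  have hr := D.rpos y
  set s := Real.sqrt (r y) with hs
  have hs0 : 0 < s := Real.sqrt_pos.2 hr
  have hs2 : s ^ 2 = r y := Real.sq_sqrt hr.le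
  set p := fderiv ℝ χ y (ek k) with hp
  set q := fderiv ℝ r y (ek k) with hq
  have hn : ‖ek k‖ = 1 := by simp [ek]
  have hpa : p ^ 2 ≤ a ^ 2 := by
    have h1 : |p| ≤ a := by
      have := (fderiv ℝ χ y).le_opNorm (ek k)
      rw [hn, mul_one, Real.norm_eq_abs] at this
      exact this.trans (D.cdf y)
    exact sq_le_sq' (by linarith [neg_abs_le p]) (le_trans (le_abs_self p) h1)
  have hc : χ y ^ 2 ≤ 1 := pow_le_one₀ (D.c0 y) (D.c1 y)
  -- (A + B)^2 ≤ (1+1/e) A^2 + (1+e) B^2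
  have key : ∀ A B : ℝ, (A + B) ^ 2 ≤ (1 + 1 / e) * A ^ 2 + (1 + e) * B ^ 2 := by
    intro A B
    have h1 : 0 ≤ (A - e * B) ^ 2 / e := by positivity
    have h2 : (1 + 1 / e) * A ^ 2 + (1 + e) * B ^ 2 - (A + B) ^ 2 = (A - e * B) ^ 2 / e := by
      field_simp
      ring
    linarith
  refine (key _ _).trans ?_
  have h1 : (p * s) ^ 2 ≤ a ^ 2 * r y := by
    rw [mul_pow, hs2]
    exact mul_le_mul_of_nonneg_right hpa hr.le
  have h2 : (χ y * (q / (2 * s))) ^ 2 ≤ q ^ 2 / (4 * r y) := by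
    have : (χ y * (q / (2 * s))) ^ 2 = χ y ^ 2 * (q ^ 2 / (4 * r y)) := by
      rw [mul_pow, div_pow, mul_pow, hs2]; norm_num
    rw [this]
    have h3 : 0 ≤ q ^ 2 / (4 * r y) := by positivity
    nlinarith
  have he1 : 0 ≤ 1 + 1 / e := by positivity
  have := mul_le_mul_of_nonneg_left h1 he1
  have := mul_le_mul_of_nonneg_left h2 (by linarith : 0 ≤ 1 + e)
  nlinarith

theorem int_T (D : Dat r χ a K Q) (k : Fin 3) :
    Integrable (fun y => (fderiv ℝ r y (ek k)) ^ 2 / (4 * r y)) := by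
  have hc : Continuous (fun y => (fderiv ℝ r y (ek k)) ^ 2 / (4 * r y)) := by
    have h1 : Continuous (fun x : E3 => fderiv ℝ r x (ek k)) :=
      (D.rs.continuous_fderiv (by simp)).clm_apply continuous_const
    exact (h1.pow 2).div (continuous_const.mul D.rs.continuous) fun y => by
      have := D.rpos y; positivity
  refine (D.rint.const_mul (Q ^ 2 / 4)).mono' hc.aestronglyMeasurable
    (Filter.Eventually.of_forall fun y => ?_)
  have hr := D.rpos y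
  have hn : ‖ek k‖ = 1 := by simp [ek]
  have h1 : |fderiv ℝ r y (ek k)| ≤ Q * r y := by
    have := (fderiv ℝ r y).le_opNorm (ek k)
    rw [hn, mul_one, Real.norm_eq_abs] at this
    exact this.trans (D.rdf y)
  have h2 : (fderiv ℝ r y (ek k)) ^ 2 ≤ (Q * r y) ^ 2 :=
    sq_le_sq' (by linarith [neg_abs_le (fderiv ℝ r y (ek k))]) (le_trans (le_abs_self _) h1)
  rw [Real.norm_eq_abs, abs_of_nonneg (by positivity), div_le_iff₀ (by positivity)]
  nlinarith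

theorem int_rpow (D : Dat r χ a K Q) {n : ℕ} (hn : n ≠ 0) : Integrable (fun y => r y ^ n) := by
  obtain ⟨m, rfl⟩ := Nat.exists_eq_succ_of_ne_zero hn
  refine (D.rint.const_mul (K ^ m)).mono' (D.rs.continuous.pow _).aestronglyMeasurable
    (Filter.Eventually.of_forall fun y => ?_)
  have hr := D.rpos y
  rw [Real.norm_eq_abs, abs_of_nonneg (by positivity), pow_succ]
  exact mul_le_mul_of_nonneg_right (pow_le_pow_left₀ hr.le (D.rle y) m) hr.le

theorem arith {s E X P J2 J3 b1 b2 A3 A4 A1 : ℝ} (hs0 : 0 < s) (hs1 : s ≤ 1) (hb1 : 0 ≤ b1)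
    (hb2 : 0 ≤ b2) (hX : 0 ≤ X) (hP : 0 ≤ P) (hJ2 : 0 ≤ J2) (hJ3 : 0 ≤ J3)
    (hle : E ≤ A1 + s⁻¹ * P + b1 / 2 * A3 + b2 / 6 * A4) (h1 : A1 ≤ s⁻¹ * X)
    (h3 : A3 ≤ s⁻¹ ^ 2 * J2) (h4 : A4 ≤ s⁻¹ ^ 3 * J3) :
    s ^ 3 * E ≤ X + P + (b1 / 2 * J2 + b2 / 6 * J3) := by
  have k1 : E ≤ s⁻¹ * X + s⁻¹ * P + b1 / 2 * (s⁻¹ ^ 2 * J2) + b2 / 6 * (s⁻¹ ^ 3 * J3) := by
    have := mul_le_mul_of_nonneg_left h3 (by positivity : 0 ≤ b1 / 2)
    have := mul_le_mul_of_nonneg_left h4 (by positivity : 0 ≤ b2 / 6)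
    linarith
  have k2 := mul_le_mul_of_nonneg_left k1 (by positivity : 0 ≤ s ^ 3)
  refine k2.trans ?_
  have k3 : s ^ 3 * (s⁻¹ * X + s⁻¹ * P + b1 / 2 * (s⁻¹ ^ 2 * J2) + b2 / 6 * (s⁻¹ ^ 3 * J3))
      = s ^ 2 * X + s ^ 2 * P + s * (b1 / 2 * J2) + b2 / 6 * J3 := by
    field_simp
  rw [k3]
  have hs2 : s ^ 2 ≤ 1 := pow_le_one₀ hs0.le hs1
  have e1 : s ^ 2 * X ≤ X := by nlinarith
  have e2 : s ^ 2 * P ≤ P := by nlinarith
  have e3 : s * (b1 / 2 * J2) ≤ b1 / 2 * J2 := by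
    have : 0 ≤ b1 / 2 * J2 := by positivity
    nlinarith
  linarith

theorem compare (Hy : Hyp Vext W V) {b1 b2 : ℝ} (hb1 : 0 ≤ b1) (hb2 : 0 ≤ b2)
    (D : Dat r χ a K Q) {e : ℝ} (he : 0 < e) {s : ℝ} (hs : s = ∫ y, χ y ^ 2 * r y)
    (hs0 : 0 < s) (hs1 : s ≤ 1) :
    s ^ 3 * eGP Vext b1 b2 ≤ (1 + e) * (∫ y, (∑ k : Fin 3, (fderiv ℝ r y (ek k)) ^ 2) / (4 * r y))
      + (1 + 1 / e) * (3 * a ^ 2) + (∫ y, (Vext y * χ y ^ 2) * r y)
      + ∫ y, (b1 / 2 * r y ^ 2 + b2 / 6 * r y ^ 3) := by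
  -- the test function
  set c : ℝ := Real.sqrt s with hc
  have hc0 : 0 < c := Real.sqrt_pos.2 hs0
  have hc2 : c ^ 2 = s := Real.sq_sqrt hs0.le
  set u : E3 → ℂ := fun y => ((c⁻¹ * w r χ y : ℝ) : ℂ) with hu
  have hreal : ContDiff ℝ cinf (fun y => c⁻¹ * w r χ y) := contDiff_const.mul (w_contDiff D)
  have hus : ContDiff ℝ cinf u := Complex.ofRealCLM.contDiff.comp hreal
  have huc : HasCompactSupport u :=
    (w_supp D).comp_left (g := fun t : ℝ => ((c⁻¹ * t : ℝ) : ℂ)) (by simp)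
  have hun : ∀ y, ‖u y‖ ^ 2 = s⁻¹ * (χ y ^ 2 * r y) := by
    intro y
    rw [hu]
    simp only [Complex.norm_real, Real.norm_eq_abs, sq_abs, w]
    rw [mul_pow, mul_pow, Real.sq_sqrt (D.rpos y).le, inv_pow, hc2]
  have hadm : Adm1 u := by
    refine ⟨hus, huc, ?_⟩
    simp_rw [hun]
    rw [integral_const_mul, ← hs]
    exact inv_mul_cancel₀ hs0.ne'
  have hfd : ∀ y v, ‖fderiv ℝ u y v‖ ^ 2 = s⁻¹ * (fderiv ℝ (w r χ) y v) ^ 2 := by
    intro y v
    have h1 : HasFDerivAt (w r χ) (fderiv ℝ (w r χ) y) y :=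
      ((w_contDiff D).differentiable (by simp) y).hasFDerivAt
    have h2 := h1.const_mul c⁻¹
    have h3 : HasFDerivAt u (Complex.ofRealCLM.comp (c⁻¹ • fderiv ℝ (w r χ) y)) y :=
      Complex.ofRealCLM.hasFDerivAt.comp y h2
    rw [h3.fderiv]
    simp only [ContinuousLinearMap.comp_apply, ContinuousLinearMap.smul_apply, smul_eq_mul,
      Complex.ofRealCLM_apply, Complex.norm_real, Real.norm_eq_abs, sq_abs]
    rw [mul_pow, inv_pow, hc2]
  have hle := eGP_le Hy hb1 hb2 hadm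
  rw [Pool.Agent.Helper67.Bose.GPf_split Hy hus huc] at hle
  -- bounds of the pieces
  set T := ∫ y, (∑ k : Fin 3, (fderiv ℝ r y (ek k)) ^ 2) / (4 * r y) with hT
  have hT' : T = ∑ k : Fin 3, ∫ y, (fderiv ℝ r y (ek k)) ^ 2 / (4 * r y) := by
    rw [hT, ← integral_finset_sum _ fun k _ => int_T D k]
    refine integral_congr_ae (Filter.Eventually.of_forall fun y => ?_)
    simp only [Finset.sum_div]
  have B1 : (∑ k : Fin 3, ∫ y, ‖fderiv ℝ u y (ek k)‖ ^ 2)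
      ≤ s⁻¹ * ((1 + e) * T + (1 + 1 / e) * (3 * a ^ 2)) := by
    have hk : ∀ k : Fin 3, ∫ y, ‖fderiv ℝ u y (ek k)‖ ^ 2
        ≤ s⁻¹ * ((1 + e) * (∫ y, (fderiv ℝ r y (ek k)) ^ 2 / (4 * r y)) + (1 + 1 / e) * a ^ 2) := by
      intro k
      have i1 := int_T D k
      have i2 : Integrable (fun y => s⁻¹ * ((1 + e) * ((fderiv ℝ r y (ek k)) ^ 2 / (4 * r y))
          + (1 + 1 / e) * a ^ 2 * r y)) :=
        ((i1.const_mul _).add (D.rint.const_mul _)).const_mul _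
      have h1 : ∫ y, ‖fderiv ℝ u y (ek k)‖ ^ 2 ≤ ∫ y, s⁻¹ * ((1 + e) *
          ((fderiv ℝ r y (ek k)) ^ 2 / (4 * r y)) + (1 + 1 / e) * a ^ 2 * r y) := by
        refine integral_mono (Pool.Agent.Helper67.Bose.int_grad hus huc k) i2 fun y => ?_
        simp only [hfd]
        exact mul_le_mul_of_nonneg_left (w_grad_sq D he y k) (by positivity)
      refine h1.trans (le_of_eq ?_)
      rw [integral_const_mul, integral_add (i1.const_mul _) (D.rint.const_mul _),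
        integral_const_mul, integral_const_mul, D.rone, mul_one]
    refine (Finset.sum_le_sum fun k _ => hk k).trans (le_of_eq ?_)
    rw [hT', ← Finset.mul_sum, Finset.sum_add_distrib, ← Finset.mul_sum]
    simp only [Finset.sum_const, Finset.card_univ, Fintype.card_fin, nsmul_eq_mul]
    push_cast
    ring
  have B2 : (∫ y, Vext y * ‖u y‖ ^ 2) = s⁻¹ * ∫ y, (Vext y * χ y ^ 2) * r y := by
    rw [← integral_const_mul]
    refine integral_congr_ae (Filter.Eventually.of_forall fun y => ?_)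
    simp only [hun]
    ring
  have hu2 : ∀ y, ‖u y‖ ^ 2 ≤ s⁻¹ * r y := by
    intro y
    rw [hun]
    refine mul_le_mul_of_nonneg_left ?_ (by positivity)
    have hr := D.rpos y
    have hc : χ y ^ 2 ≤ 1 := pow_le_one₀ (D.c0 y) (D.c1 y)
    nlinarith
  have B3 : (∫ y, ‖u y‖ ^ 4) ≤ s⁻¹ ^ 2 * ∫ y, r y ^ 2 := by
    rw [← integral_const_mul]
    refine integral_mono (Pool.Agent.Helper67.Bose.int_pow hus huc (by norm_num))
      ((int_rpow D (by norm_num)).const_mul _) fun y => ?_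
    have : ‖u y‖ ^ 4 = (‖u y‖ ^ 2) ^ 2 := by ring
    simp only [this, ← mul_pow]
    exact pow_le_pow_left₀ (by positivity) (hu2 y) 2
  have B4 : (∫ y, ‖u y‖ ^ 6) ≤ s⁻¹ ^ 3 * ∫ y, r y ^ 3 := by
    rw [← integral_const_mul]
    refine integral_mono (Pool.Agent.Helper67.Bose.int_pow hus huc (by norm_num))
      ((int_rpow D (by norm_num)).const_mul _) fun y => ?_
    have : ‖u y‖ ^ 6 = (‖u y‖ ^ 2) ^ 3 := by ring
    simp only [this, ← mul_pow]
    exact pow_le_pow_left₀ (by positivity) (hu2 y) 3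
  have hG : ∫ y, (b1 / 2 * r y ^ 2 + b2 / 6 * r y ^ 3)
      = b1 / 2 * (∫ y, r y ^ 2) + b2 / 6 * ∫ y, r y ^ 3 := by
    rw [integral_add ((int_rpow D (by norm_num)).const_mul _)
      ((int_rpow D (by norm_num)).const_mul _), integral_const_mul, integral_const_mul]
  have hT0 : 0 ≤ T := integral_nonneg fun y => by
    have hr := D.rpos y
    have : 0 ≤ ∑ k : Fin 3, (fderiv ℝ r y (ek k)) ^ 2 := Finset.sum_nonneg fun k _ => by positivity
    positivity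
  have hP0 : 0 ≤ ∫ y, (Vext y * χ y ^ 2) * r y := integral_nonneg fun y => by
    have hr := D.rpos y
    have := vnn' Hy y
    positivity
  have hJ20 : 0 ≤ ∫ y, r y ^ 2 := integral_nonneg fun y => by positivity
  have hJ30 : 0 ≤ ∫ y, r y ^ 3 := integral_nonneg fun y => by have := D.rpos y; positivity
  have hX0 : 0 ≤ (1 + e) * T + (1 + 1 / e) * (3 * a ^ 2) := by positivity
  rw [hG]
  rw [B2] at hle
  exact arith hs0 hs1 hb1 hb2 hX0 hP0 hJ20 hJ30 hle B1 B3 B4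

end Pool.Agent.Helper67.Mac
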