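import Mathlib
import Pool.Agent.Helper92.Bose.Rho

set_option autoImplicit false
open MeasureTheory
open scoped ENNReal NNReal Topology

namespace Pool.Agent.Helper67.Mac
open Pool.Agent.Helper23.Bose Pool.Agent.Helper92.Bose

variable {Vext : E3 → ℝ} {ν : Measure E3} {δ M0 : ℝ}

theorem int_eta_prod [IsProbabilityMeasure ν] (hδ : 0 < δ) :
    Integrable (fun p : E3 × E3 => eta δ (p.1 - p.2)) ((volume : Measure E3).prod ν) := by
  have hc : Continuous (eta δ) := (eta_contDiff δ).continuous
  have hm : AEStronglyMeasurable (fun p : E3 × E3 => eta δ (p.1 - p.2))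
      ((volume : Measure E3).prod ν) :=
    (hc.comp (continuous_fst.sub continuous_snd)).aestronglyMeasurable
  rw [integrable_prod_iff' hm]
  refine ⟨Filter.Eventually.of_forall fun x => (eta_integrable hδ).comp_sub_right x, ?_⟩
  have : ∀ x : E3, ∫ y, ‖eta δ (y - x)‖ = 1 := by
    intro x
    have h1 : ∀ y, ‖eta δ (y - x)‖ = eta δ (y - x) := fun y =>
      Real.norm_of_nonneg (eta_pos hδ _).le
    simp_rw [h1]
    rw [integral_sub_right_eq_self (eta δ) x, eta_integral hδ]
  simp_rw [this]
  exact integrable_const _

theorem swap_eq [IsProbabilityMeasure ν] (hδ : 0 < δ) {h : E3 → ℝ} {B : ℝ} (hm : Measurable h)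
    (hB : ∀ x, |h x| ≤ B) :
    ∫ y, h y * rho δ ν y = ∫ z, eta δ z * (∫ x, h (x + z) ∂ν) := by
  have hc : Continuous (eta δ) := (eta_contDiff δ).continuous
  have i1 : Integrable (fun p : E3 × E3 => h p.1 * eta δ (p.1 - p.2))
      ((volume : Measure E3).prod ν) := by
    refine Integrable.bdd_mul (c := B) (int_eta_prod hδ)
      (hm.comp measurable_fst).aestronglyMeasurable (Filter.Eventually.of_forall fun p => ?_)
    rw [Real.norm_eq_abs]
    exact hB _
  have i2 : Integrable (fun p : E3 × E3 => eta δ p.1 * h (p.2 + p.1))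
      ((volume : Measure E3).prod ν) := by
    have i3 : Integrable (fun p : E3 × E3 => eta δ p.1 * (1 : ℝ))
        ((volume : Measure E3).prod ν) :=
      (eta_integrable hδ).mul_prod (integrable_const (μ := ν) (1 : ℝ))
    have i4 : Integrable (fun p : E3 × E3 => h (p.2 + p.1) * (eta δ p.1 * (1 : ℝ)))
        ((volume : Measure E3).prod ν) := by
      refine Integrable.bdd_mul (c := B) i3
        (hm.comp (measurable_snd.add measurable_fst)).aestronglyMeasurable
        (Filter.Eventually.of_forall fun p => ?_)
      rw [Real.norm_eq_abs]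
      exact hB _
    refine i4.congr (Filter.Eventually.of_forall fun p => ?_)
    simp only
    ring
  calc ∫ y, h y * rho δ ν y = ∫ y, (∫ x, h y * eta δ (y - x) ∂ν) := by
        refine integral_congr_ae (Filter.Eventually.of_forall fun y => ?_)
        simp only [rho]
        rw [integral_const_mul]
    _ = ∫ x, (∫ y, h y * eta δ (y - x)) ∂ν := integral_integral_swap i1
    _ = ∫ x, (∫ z, eta δ z * h (x + z)) ∂ν := by
        refine integral_congr_ae (Filter.Eventually.of_forall fun x => ?_)
        simp only
        rw [← integral_add_right_eq_self (fun y => h y * eta δ (y - x)) x]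
        refine integral_congr_ae (Filter.Eventually.of_forall fun z => ?_)
        simp only [add_sub_cancel_right]
        rw [add_comm z x, mul_comm]
    _ = ∫ z, (∫ x, eta δ z * h (x + z) ∂ν) := (integral_integral_swap i2).symm
    _ = ∫ z, eta δ z * (∫ x, h (x + z) ∂ν) := by
        refine integral_congr_ae (Filter.Eventually.of_forall fun z => ?_)
        simp only
        rw [integral_const_mul]

theorem swap_est (hδ : 0 < δ) (Mg : Marg Vext M0 ν) {h : E3 → ℝ} {B : ℝ} (hm : Measurable h)
    (hB : ∀ x, |h x| ≤ B) :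
    |(∫ y, h y * rho δ ν y) - ∫ x, h x ∂ν| ≤ 2 * B * Real.sqrt M0 * (δ * momC) := by
  haveI := Mg.prob
  have hm2 : Measurable (fun p : E3 × E3 => h (p.2 + p.1)) :=
    hm.comp (measurable_snd.add measurable_fst)
  have h1 : ∫ x, h x ∂ν = ∫ z, eta δ z * (∫ x, h x ∂ν) := by
    rw [integral_mul_const, eta_integral hδ, one_mul]
  rw [swap_eq hδ hm hB, h1]
  have hmeas : AEStronglyMeasurable (fun z : E3 => ∫ x, h (x + z) ∂ν) volume :=
    (hm2.stronglyMeasurable.integral_prod_right (ν := ν)).aestronglyMeasurable
  have hB0 : 0 ≤ B := (abs_nonneg _).trans (hB 0)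
  have i1 : Integrable (fun z : E3 => eta δ z * ∫ x, h (x + z) ∂ν) := by
    have := Integrable.bdd_mul (c := B) (eta_integrable hδ) hmeas
      (Filter.Eventually.of_forall fun z => by
        have h2 := norm_integral_le_of_norm_le_const (μ := ν) (f := fun x => h (x + z)) (C := B)
          (Filter.Eventually.of_forall fun x => by rw [Real.norm_eq_abs]; exact hB _)
        simpa using h2)
    refine this.congr (Filter.Eventually.of_forall fun z => ?_)
    simp only
    ring
  have i2 : Integrable (fun z : E3 => eta δ z * ∫ x, h x ∂ν) := (eta_integrable hδ).mul_const _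
  rw [← integral_sub i1 i2, ← Real.norm_eq_abs]
  refine (norm_integral_le_integral_norm _).trans ?_
  have i3 : Integrable (fun z : E3 => 2 * B * Real.sqrt M0 * (‖z‖ * eta δ z)) :=
    (eta_moment_integrable hδ).const_mul _
  refine (integral_mono (i1.sub i2).norm i3 fun z => ?_).trans (le_of_eq ?_)
  · simp only [Pi.sub_apply]
    rw [← mul_sub, norm_mul, Real.norm_of_nonneg (eta_pos hδ z).le, Real.norm_eq_abs]
    have := mul_le_mul_of_nonneg_left (Mg.transl h B hm hB z) (eta_pos hδ z).le
    refine this.trans (le_of_eq ?_)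
    ring
  · rw [integral_const_mul, eta_moment hδ]

end Pool.Agent.Helper67.Mac
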