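import Mathlib
import Pool.Agent.Helper67.Bose.Mac1
import Pool.Agent.Helper67.Bose.Mac2

set_option autoImplicit false
open MeasureTheory
open scoped ENNReal NNReal Topology

namespace Pool.Agent.Helper67.Mac
open Pool.Agent.Helper23.Bose Pool.Agent.Helper92.Bose

variable {Vext W : E3 → ℝ} {V : E3 × E3 → ℝ}

theorem exists_cut : ∃ A : ℝ, 0 ≤ A ∧ ∀ R : ℝ, 0 < R → ∃ χ : E3 → ℝ, ContDiff ℝ cinf χ ∧
    HasCompactSupport χ ∧ (∀ y, 0 ≤ χ y) ∧ (∀ y, χ y ≤ 1) ∧ (∀ y, ‖fderiv ℝ χ y‖ ≤ A / R) ∧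
    (∀ y, ‖y‖ ≤ R → χ y = 1) ∧ (∀ y, 2 * R ≤ ‖y‖ → χ y = 0) := by
  let φ : ContDiffBump (0 : E3) := ⟨1, 2, by norm_num, by norm_num⟩
  have hφs : ContDiff ℝ cinf (φ : E3 → ℝ) := φ.contDiff
  have hφc : HasCompactSupport (φ : E3 → ℝ) := φ.hasCompactSupport
  obtain ⟨A, hA⟩ := (hφc.fderiv ℝ).exists_bound_of_continuous (hφs.continuous_fderiv (by simp))
  have hA0 : 0 ≤ A := (norm_nonneg _).trans (hA 0)
  refine ⟨A, hA0, fun R hR => ?_⟩
  have hR' : R⁻¹ ≠ 0 := inv_ne_zero hR.ne'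
  have hn : ∀ y : E3, ‖R⁻¹ • y‖ = ‖y‖ / R := by
    intro y
    rw [norm_smul, norm_inv, Real.norm_of_nonneg hR.le]
    ring
  refine ⟨fun y => φ (R⁻¹ • y), hφs.comp (contDiff_const_smul _), ?_, fun y => φ.nonneg,
    fun y => φ.le_one, fun y => ?_, fun y hy => ?_, fun y hy => ?_⟩
  · exact hφc.comp_homeomorph (Homeomorph.smulOfNeZero R⁻¹ hR')
  · have h1 : HasFDerivAt (φ : E3 → ℝ) (fderiv ℝ φ (R⁻¹ • y)) (R⁻¹ • y) :=
      (hφs.differentiable (by simp) _).hasFDerivAt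
    have h2 : HasFDerivAt (fun y : E3 => R⁻¹ • y) (R⁻¹ • ContinuousLinearMap.id ℝ E3) y :=
      (hasFDerivAt_id y).const_smul R⁻¹
    have h3 := h1.comp y h2
    have h4 : fderiv ℝ (fun y => φ (R⁻¹ • y)) y
        = (fderiv ℝ φ (R⁻¹ • y)).comp (R⁻¹ • ContinuousLinearMap.id ℝ E3) := h3.fderiv
    rw [h4]
    refine (ContinuousLinearMap.opNorm_comp_le _ _).trans ?_
    rw [norm_smul, norm_inv, Real.norm_of_nonneg hR.le, div_eq_mul_inv]
    have h5 : ‖ContinuousLinearMap.id ℝ E3‖ ≤ 1 := ContinuousLinearMap.norm_id_le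
    have h6 : R⁻¹ * ‖ContinuousLinearMap.id ℝ E3‖ ≤ R⁻¹ := by
      have : 0 ≤ R⁻¹ := by positivity
      nlinarith
    exact mul_le_mul (hA _) h6 (by positivity) hA0
  · refine φ.one_of_mem_closedBall ?_
    rw [mem_closedBall_zero_iff, hn, div_le_iff₀ hR]
    simpa [φ] using hy
  · refine φ.zero_of_le_dist ?_
    rw [dist_zero_right, hn, le_div_iff₀ hR]
    exact hy

theorem exists_R {K1 K2 α κ : ℝ} (hα : 0 < α) (hκ : 0 < κ) :
    ∃ R : ℝ, 0 < R ∧ K1 / R ^ 2 ≤ κ ∧ K2 / R ^ α ≤ κ := by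
  have h1 : Filter.Tendsto (fun R : ℝ => K1 / R ^ 2) Filter.atTop (𝓝 0) :=
    Filter.Tendsto.div_atTop tendsto_const_nhds (Filter.tendsto_pow_atTop (by norm_num))
  have h2 : Filter.Tendsto (fun R : ℝ => K2 / R ^ α) Filter.atTop (𝓝 0) :=
    Filter.Tendsto.div_atTop tendsto_const_nhds (tendsto_rpow_atTop hα)
  obtain ⟨R, hR1, hR2, hR3⟩ := ((h1.eventually (ge_mem_nhds hκ)).and
    ((h2.eventually (ge_mem_nhds hκ)).and (Filter.eventually_gt_atTop 0))).exists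
  exact ⟨R, hR3, hR1, hR2⟩

theorem exists_d {K κ : ℝ} (hK : 0 ≤ K) (hκ : 0 < κ) : ∃ δ : ℝ, 0 < δ ∧ δ ≤ 1 ∧ K * δ ≤ κ := by
  refine ⟨min 1 (κ / (K + 1)), lt_min one_pos (by positivity), min_le_left _ _, ?_⟩
  have h1 : K * min 1 (κ / (K + 1)) ≤ K * (κ / (K + 1)) :=
    mul_le_mul_of_nonneg_left (min_le_right _ _) hK
  refine h1.trans ?_
  rw [mul_div_assoc', div_le_iff₀ (by positivity)]
  nlinarith

theorem arith2 {e0 eps e' T G I s th c d P : ℝ} (heps : 0 < eps) (he0 : 0 ≤ e0)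
    (he' : e' = eps / (8 * (e0 + 1))) (hT : 0 ≤ T) (hG : 0 ≤ G) (hI : 0 ≤ I)
    (hs : 1 - th ≤ s) (hs0 : 0 < s) (hth : 3 * e0 * th ≤ eps / 4) (hc : c ≤ eps / 8)
    (hd : d ≤ eps / 8) (hP : P ≤ I + d)
    (h : s ^ 3 * e0 ≤ (1 + e') * T + c + P + G) : e0 - eps ≤ T + G + I := by
  by_contra hcon
  push Not at hcon
  have hTe : T ≤ e0 := by linarith
  have h1 : e' * T ≤ eps / 8 := by
    rw [he', div_mul_eq_mul_div, div_le_iff₀ (by positivity)]
    nlinarith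
  have h2 : 3 * s - 2 ≤ s ^ 3 := by nlinarith [mul_nonneg (sq_nonneg (s - 1)) (by linarith : 0 ≤ s + 2)]
  have h3 : (3 * s - 2) * e0 ≤ s ^ 3 * e0 := mul_le_mul_of_nonneg_right h2 he0
  have h4 : (3 * (1 - th) - 2) * e0 ≤ (3 * s - 2) * e0 :=
    mul_le_mul_of_nonneg_right (by linarith) he0
  nlinarith

theorem mac (H : Hyp Vext W V) {b1 b2 : ℝ}
    (hb1 : 0 ≤ b1) (hb2 : 0 ≤ b2) (M0 : ℝ) {eps : ℝ} (heps : 0 < eps) :
    ∃ δ : ℝ, 0 < δ ∧ δ ≤ 1 ∧ ∀ ν : Measure E3, Marg Vext M0 ν →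
      eGP Vext b1 b2 - eps ≤ Tkin δ ν + Gint b1 b2 δ ν + ∫ x, Vext x ∂ν := by
  set e0 := eGP Vext b1 b2 with he0
  have he00 : 0 ≤ e0 := eGP_nonneg H hb1 hb2
  obtain ⟨A, hA0, hA⟩ := exists_cut
  obtain ⟨C, α, hC, hα, hVg⟩ := H.vgrow
  set e' := eps / (8 * (e0 + 1)) with he'
  have he'0 : 0 < e' := by positivity
  set κ := min (eps / 8) (1 / 4) with hκ
  have hκ0 : 0 < κ := lt_min (by positivity) (by norm_num)
  have hκ1 : κ ≤ eps / 8 := min_le_left _ _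
  have hκ2 : κ ≤ 1 / 4 := min_le_right _ _
  obtain ⟨R, hR0, hR1, hR2⟩ := exists_R (K1 := (1 + 1 / e') * (3 * A ^ 2))
    (K2 := (3 * e0 + 1) * (|M0| / C)) hα hκ0
  obtain ⟨χ, hχs, hχc, hχ0, hχ1, hχd, hχR, hχ2⟩ := hA R hR0
  obtain ⟨M, hM⟩ := H.vloc (Metric.closedBall 0 (2 * R)) (isCompact_closedBall _ _)
  have hM0 : 0 ≤ M := (abs_nonneg _).trans (hM 0 (by simp; positivity))
  have hm := momC_nonneg
  set q := Real.sqrt M0 with hq
  have hq0 : 0 ≤ q := Real.sqrt_nonneg _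
  obtain ⟨δ, hδ0, hδ1, hδ⟩ := exists_d
    (K := 2 * M * q * momC + (3 * e0 + 1) * (2 * q * momC)) (by positivity) hκ0
  have hd1 : 2 * M * q * (δ * momC) ≤ κ := by
    have : 0 ≤ (3 * e0 + 1) * (2 * q * momC) * δ := by positivity
    nlinarith
  have hd2 : (3 * e0 + 1) * (2 * q * (δ * momC)) ≤ κ := by
    have : 0 ≤ 2 * M * q * momC * δ := by positivity
    nlinarith
  refine ⟨δ, hδ0, hδ1, fun ν Mg => ?_⟩
  have := Mg.prob
  set r := rho δ ν with hr
  have D : Dat r χ (A / R) (kapI * δ ^ 3)⁻¹ (1 / δ) :=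
    { rs := rho_contDiff hδ0 ν Mg.cpt
      rpos := rho_pos hδ0 ν
      rint := rho_integrable hδ0 ν
      rone := rho_integral hδ0 ν
      rle := rho_le hδ0 ν
      rdf := fun y => by
        have := rho_norm_fderiv hδ0 ν y
        rw [div_mul_eq_mul_div, one_mul]
        exact this
      cs := hχs
      cc := hχc
      c0 := hχ0
      c1 := hχ1
      cdf := hχd }
  have hχsq : ∀ y, χ y ^ 2 ≤ 1 := fun y => pow_le_one₀ (hχ0 y) (hχ1 y)
  have hχm : Measurable χ := hχs.continuous.measurable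
  -- the potential
  have hVi : Integrable Vext ν := by
    obtain ⟨R', hR'⟩ := Mg.cpt
    obtain ⟨M', hM'⟩ := H.vloc (Metric.closedBall 0 R') (isCompact_closedBall _ _)
    refine (integrable_const M').mono' H.vm.aestronglyMeasurable ?_
    have : ∀ᵐ x ∂ν, x ∈ Metric.closedBall (0 : E3) R' := by
      rw [ae_iff]
      exact hR'
    filter_upwards [this] with x hx
    rw [Real.norm_eq_abs]
    exact hM' x hx
  have hI0 : 0 ≤ ∫ x, Vext x ∂ν := integral_nonneg fun x => vnn' H x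
  have b1' : ∀ y, |Vext y * χ y ^ 2| ≤ M := by
    intro y
    by_cases hy : 2 * R ≤ ‖y‖
    · rw [hχ2 y hy]; simpa using hM0
    · push Not at hy
      have h1 : |Vext y| ≤ M := hM y (by rw [mem_closedBall_zero_iff]; exact hy.le)
      rw [abs_mul, abs_of_nonneg (sq_nonneg (χ y))]
      have := hχsq y
      have := abs_nonneg (Vext y)
      nlinarith
  have m1 : Measurable (fun y => Vext y * χ y ^ 2) := H.vm.mul (hχm.pow_const 2)
  have s1 := swap_est hδ0 Mg m1 b1'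
  have hi1 : Integrable (fun y => Vext y * χ y ^ 2) ν :=
    (integrable_const M).mono' m1.aestronglyMeasurable (Filter.Eventually.of_forall fun y => by
      rw [Real.norm_eq_abs]; exact b1' y)
  have l1 : ∫ x, Vext x * χ x ^ 2 ∂ν ≤ ∫ x, Vext x ∂ν := by
    refine integral_mono hi1 hVi fun y => ?_
    have := vnn' H y
    have := hχsq y
    simp only
    nlinarith
  have P1 : ∫ y, (Vext y * χ y ^ 2) * r y ≤ (∫ x, Vext x ∂ν) + 2 * M * q * (δ * momC) := by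
    have := le_abs_self ((∫ y, (Vext y * χ y ^ 2) * r y) - ∫ x, Vext x * χ x ^ 2 ∂ν)
    linarith
  -- the mass
  have b2' : ∀ y, |1 - χ y ^ 2| ≤ 1 := by
    intro y
    have := hχsq y
    have := sq_nonneg (χ y)
    rw [abs_of_nonneg (by linarith)]
    linarith
  have m2 : Measurable (fun y => 1 - χ y ^ 2) := measurable_const.sub (hχm.pow_const 2)
  have s2 := swap_est hδ0 Mg m2 b2'
  have hi2 : Integrable (fun y => 1 - χ y ^ 2) ν :=
    (integrable_const (1 : ℝ)).mono' m2.aestronglyMeasurable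
      (Filter.Eventually.of_forall fun y => by rw [Real.norm_eq_abs]; exact b2' y)
  have hRα : 0 < R ^ α := Real.rpow_pos_of_pos hR0 _
  have l2 : ∫ x, (1 - χ x ^ 2) ∂ν ≤ |M0| / C / R ^ α := by
    have h1 : ∫ x, (1 - χ x ^ 2) ∂ν ≤ ∫ x, (C * R ^ α)⁻¹ * Vext x ∂ν := by
      refine integral_mono hi2 (hVi.const_mul _) fun y => ?_
      simp only
      by_cases hy : ‖y‖ ≤ R
      · rw [hχR y hy]
        have := vnn' H y
        have : 0 ≤ (C * R ^ α)⁻¹ * Vext y := by positivity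
        linarith
      · push Not at hy
        have h1 : C * R ^ α ≤ Vext y := by
          refine le_trans ?_ (hVg y)
          exact mul_le_mul_of_nonneg_left (Real.rpow_le_rpow hR0.le hy.le hα.le) hC.le
        have h2 : 1 ≤ (C * R ^ α)⁻¹ * Vext y := by
          rw [inv_mul_eq_div, le_div_iff₀ (by positivity)]
          linarith
        have := sq_nonneg (χ y)
        linarith
    refine h1.trans ?_
    rw [integral_const_mul]
    have h2 : ∫ x, Vext x ∂ν ≤ |M0| := Mg.vint.trans (le_abs_self _)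
    have h3 : (C * R ^ α)⁻¹ * (∫ x, Vext x ∂ν) ≤ (C * R ^ α)⁻¹ * |M0| :=
      mul_le_mul_of_nonneg_left h2 (by positivity)
    refine h3.trans (le_of_eq ?_)
    field_simp
  have iχ : Integrable (fun y => χ y ^ 2 * r y) :=
    Continuous.integrable_of_hasCompactSupport ((hχs.continuous.pow 2).mul D.rs.continuous)
      ((hχc.comp_left (g := fun t : ℝ => t ^ 2) (by simp)).mul_right)
  have hmass : ∫ y, (1 - χ y ^ 2) * r y = 1 - ∫ y, χ y ^ 2 * r y := by
    have : ∀ y, (1 - χ y ^ 2) * r y = r y - χ y ^ 2 * r y := fun y => by ring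
    simp_rw [this]
    rw [integral_sub D.rint iχ, D.rone]
  set s := ∫ y, χ y ^ 2 * r y with hs
  set θ := |M0| / C / R ^ α + 2 * 1 * q * (δ * momC) with hθ
  have hs1 : s ≤ 1 := by
    have : 0 ≤ ∫ y, (1 - χ y ^ 2) * r y := integral_nonneg fun y => by
      have := hχsq y
      have := D.rpos y
      have : 0 ≤ 1 - χ y ^ 2 := by linarith
      positivity
    linarith
  have hsθ : 1 - θ ≤ s := by
    have := le_abs_self ((∫ y, (1 - χ y ^ 2) * r y) - ∫ x, (1 - χ x ^ 2) ∂ν)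
    linarith
  have hθ0 : 0 ≤ θ := by positivity
  have hθ1 : (3 * e0 + 1) * θ ≤ 2 * κ := by
    have h1 : (3 * e0 + 1) * θ = (3 * e0 + 1) * (|M0| / C) / R ^ α
        + (3 * e0 + 1) * (2 * q * (δ * momC)) := by
      rw [hθ]; ring
    linarith
  have hs0 : 0 < s := by nlinarith
  have key := compare H hb1 hb2 D he'0 hs hs0 hs1
  have hT0 : 0 ≤ Tkin δ ν := integral_nonneg fun y => by
    have hr := D.rpos y
    have h1 : 0 ≤ drho2 δ ν y := Finset.sum_nonneg fun k _ => by positivity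
    exact div_nonneg h1 (by positivity)
  have hG0 : 0 ≤ Gint b1 b2 δ ν := integral_nonneg fun y => by
    have := D.rpos y
    have h1 : 0 < rho δ ν y := this
    positivity
  have hc : (1 + 1 / e') * (3 * (A / R) ^ 2) ≤ eps / 8 := by
    have : (1 + 1 / e') * (3 * (A / R) ^ 2) = (1 + 1 / e') * (3 * A ^ 2) / R ^ 2 := by
      rw [div_pow]; ring
    rw [this]
    linarith
  refine arith2 heps he00 he' hT0 hG0 hI0 hsθ hs0 ?_ hc (hd1.trans hκ1) P1 key
  nlinarith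

end Pool.Agent.Helper67.Mac
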