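import Mathlib
import Pool.Agent.Helper67.Bose.GP

set_option autoImplicit false
open MeasureTheory Finset
open scoped ENNReal NNReal Topology

namespace Pool.Agent.Helper67.Bose
open Pool.Agent.Helper23.Bose

variable {Vext W : E3 → ℝ} {V : E3 × E3 → ℝ}
variable {N : ℕ} {a : E3 → ℝ} {b : E3 × E3 → ℝ} {u : E3 → ℂ} {R M A0 : ℝ}

theorem conv4 {t g r2 r3 B1 B2 e : ℝ} (ht : 0 ≤ t) (hg : 0 ≤ g) (h2 : 0 ≤ r2) (h3 : 0 ≤ r3)
    (hB1 : 0 ≤ B1) (hB2 : 0 ≤ B2) (he : 0 ≤ e) :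
    ENNReal.ofReal t * ENNReal.ofReal g + ENNReal.ofReal t ^ 2 * (ENNReal.ofReal r2
      * ENNReal.ofReal B1) + ENNReal.ofReal t ^ 3 * (ENNReal.ofReal r3 * ENNReal.ofReal B2)
      + ENNReal.ofReal e
    = ENNReal.ofReal (t * g + t ^ 2 * (r2 * B1) + t ^ 3 * (r3 * B2) + e) := by
  lift t to ℝ≥0 using ht
  lift g to ℝ≥0 using hg
  lift r2 to ℝ≥0 using h2
  lift r3 to ℝ≥0 using h3
  lift B1 to ℝ≥0 using hB1
  lift B2 to ℝ≥0 using hB2
  lift e to ℝ≥0 using he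
  simp only [ENNReal.ofReal_coe_nnreal]
  norm_cast
  rw [ENNReal.ofReal_coe_nnreal]

theorem BB_le (Hy : Hyp Vext W V) (hu : Adm1 u) (H : Std a b (rho u) R M A0) (hN : 0 < N)
    {B1 B2 : ℝ} (hB1 : 0 ≤ B1) (hB2 : 0 ≤ B2)
    (h1 : ∫⁻ r, (2 * ∑ k, Fk a k r + FW W a r) ≤ ENNReal.ofReal B1)
    (h2 : ∫⁻ p, (12 * ∑ k, Gk b k p + GV V b p) ≤ ENNReal.ofReal B2) :
    BB Vext W V u a b N R M A0 ≤ ENNReal.ofReal (
      (1 + 2 * (Cr R M A0 / N)) * ((∑ k : Fin 3, ∫ y, ‖fderiv ℝ u y (ek k)‖ ^ 2)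
        + ∫ y, Vext y * ‖u y‖ ^ 2)
      + (1 + 2 * (Cr R M A0 / N)) ^ 2 * ((∫ y, ‖u y‖ ^ 4) * (B1 / 2))
      + (1 + 2 * (Cr R M A0 / N)) ^ 3 * ((∫ y, ‖u y‖ ^ 6) * (B2 / 6))
      + (2 * (CX R M A0 * ∑ k : Fin 3, ∫ y, ‖u y‖ * ‖fderiv ℝ u y (ek k)‖)
        + 3 * CE R M A0) / Real.sqrt N) := by
  obtain ⟨hu1, hu2, hu3⟩ := hu
  have hN0 := cN_pos hN
  have hs := sqN_pos hN
  have hCr := Cr_nn H
  have hv := vB_nn
  have hM := H.M0
  have hR := H.R0
  have hA := H.A00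
  have hCX : 0 ≤ CX R M A0 := by unfold CX; positivity
  have hCE : 0 ≤ CE R M A0 := by unfold CE; positivity
  have g0 : ∀ k : Fin 3, 0 ≤ ∫ y, ‖fderiv ℝ u y (ek k)‖ ^ 2 := fun k =>
    integral_nonneg fun x => by positivity
  have t0 : ∀ k : Fin 3, 0 ≤ ∫ y, ‖u y‖ * ‖fderiv ℝ u y (ek k)‖ := fun k =>
    integral_nonneg fun x => by positivity
  have v0 : 0 ≤ ∫ y, Vext y * ‖u y‖ ^ 2 :=
    integral_nonneg fun x => mul_nonneg (vnn Hy x) (by positivity)
  have r20 : 0 ≤ ∫ y : E3, ‖u y‖ ^ 4 := integral_nonneg fun x => by positivity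
  have r30 : 0 ≤ ∫ y : E3, ‖u y‖ ^ 6 := integral_nonneg fun x => by positivity
  have mF : ∀ k, Measurable (Fk a k) := fun k => measurable_Fk H.ab k
  have mG : ∀ k, Measurable (Gk b k) := fun k => measurable_Gk H.ab k
  rw [lintegral_add_left ((Finset.measurable_fun_sum _ fun k _ => mF k).const_mul _),
    lintegral_const_mul _ (Finset.measurable_fun_sum _ fun k _ => mF k),
    lintegral_finsetSum _ (fun k _ => mF k)] at h1
  rw [lintegral_add_left ((Finset.measurable_fun_sum _ fun k _ => mG k).const_mul _),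
    lintegral_const_mul _ (Finset.measurable_fun_sum _ fun k _ => mG k),
    lintegral_finsetSum _ (fun k _ => mG k)] at h2
  have c1 : ENNReal.ofReal (1 / 2) * 2 = 1 := by
    have : (2 : ℝ≥0∞) = ENNReal.ofReal 2 := by simp
    rw [this, ← ENNReal.ofReal_mul (by norm_num)]
    norm_num
  have c2 : ENNReal.ofReal (1 / 6) * 12 = 2 := by
    have : (12 : ℝ≥0∞) = ENNReal.ofReal 12 := by simp
    rw [this, ← ENNReal.ofReal_mul (by norm_num)]
    norm_num
  have k1 : ∑ k, (∫⁻ r, Fk a k r) + ENNReal.ofReal (1 / 2) * ∫⁻ r, FW W a r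
      ≤ ENNReal.ofReal (B1 / 2) := by
    calc ∑ k, (∫⁻ r, Fk a k r) + ENNReal.ofReal (1 / 2) * ∫⁻ r, FW W a r
        = (ENNReal.ofReal (1 / 2) * 2) * ∑ k, (∫⁻ r, Fk a k r)
          + ENNReal.ofReal (1 / 2) * ∫⁻ r, FW W a r := by rw [c1, one_mul]
      _ = ENNReal.ofReal (1 / 2) * (2 * ∑ k, (∫⁻ r, Fk a k r) + ∫⁻ r, FW W a r) := by ring
      _ ≤ ENNReal.ofReal (1 / 2) * ENNReal.ofReal B1 := by gcongr
      _ = _ := by rw [← ENNReal.ofReal_mul (by norm_num)]; congr 1; ring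
  have k2 : 2 * ∑ k, (∫⁻ p, Gk b k p) + ENNReal.ofReal (1 / 6) * ∫⁻ p, GV V b p
      ≤ ENNReal.ofReal (B2 / 6) := by
    calc 2 * ∑ k, (∫⁻ p, Gk b k p) + ENNReal.ofReal (1 / 6) * ∫⁻ p, GV V b p
        = (ENNReal.ofReal (1 / 6) * 12) * ∑ k, (∫⁻ p, Gk b k p)
          + ENNReal.ofReal (1 / 6) * ∫⁻ p, GV V b p := by rw [c2]
      _ = ENNReal.ofReal (1 / 6) * (12 * ∑ k, (∫⁻ p, Gk b k p) + ∫⁻ p, GV V b p) := by ring
      _ ≤ ENNReal.ofReal (1 / 6) * ENNReal.ofReal B2 := by gcongr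
      _ = _ := by rw [← ENNReal.ofReal_mul (by norm_num)]; congr 1; ring
  have k3 : ∑ k : Fin 3, mass (gk u k) + mass (vk Vext u)
      = ENNReal.ofReal ((∑ k : Fin 3, ∫ y, ‖fderiv ℝ u y (ek k)‖ ^ 2)
        + ∫ y, Vext y * ‖u y‖ ^ 2) := by
    rw [ENNReal.ofReal_add (Finset.sum_nonneg fun k _ => g0 k) v0,
      ENNReal.ofReal_sum_of_nonneg fun k _ => g0 k, mass_vk Hy hu1 hu2]
    congr 1
    exact Finset.sum_congr rfl fun k _ => mass_gk hu1 hu2 k
  have k4 : 2 * (ENNReal.ofReal (CX R M A0 / Real.sqrt N) * ∑ k : Fin 3, mass (tk u k))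
      + 3 * ENNReal.ofReal (CE R M A0 / Real.sqrt N)
      = ENNReal.ofReal ((2 * (CX R M A0 * ∑ k : Fin 3, ∫ y, ‖u y‖ * ‖fderiv ℝ u y (ek k)‖)
        + 3 * CE R M A0) / Real.sqrt N) := by
    have e1 : ∑ k : Fin 3, mass (tk u k)
        = ENNReal.ofReal (∑ k : Fin 3, ∫ y, ‖u y‖ * ‖fderiv ℝ u y (ek k)‖) := by
      rw [ENNReal.ofReal_sum_of_nonneg fun k _ => t0 k]
      exact Finset.sum_congr rfl fun k _ => mass_tk hu1 hu2 k
    have e2 : ∀ X : ℝ, 2 * ENNReal.ofReal X = ENNReal.ofReal (2 * X) := fun X => by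
      rw [ENNReal.ofReal_mul (by norm_num)]; simp
    have e3 : ∀ X : ℝ, 3 * ENNReal.ofReal X = ENNReal.ofReal (3 * X) := fun X => by
      rw [ENNReal.ofReal_mul (by norm_num)]; simp
    have t0' := Finset.sum_nonneg fun (k : Fin 3) (_ : k ∈ (univ : Finset (Fin 3))) => t0 k
    rw [e1, ← ENNReal.ofReal_mul (by positivity), e2, e3, ← ENNReal.ofReal_add
      (mul_nonneg (by norm_num) (mul_nonneg (by positivity) t0')) (by positivity)]
    congr 1
    ring
  have t0' : 0 ≤ ∑ k : Fin 3, ∫ y, ‖u y‖ * ‖fderiv ℝ u y (ek k)‖ :=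
    Finset.sum_nonneg fun k _ => t0 k
  rw [← conv4 (by positivity) (add_nonneg (Finset.sum_nonneg fun k _ => g0 k) v0) r20 r30
    (by positivity) (by positivity) (by positivity), ← k3, ← k4, ← mass_rho2 hu1 hu2,
    ← mass_rho3 hu1 hu2]
  have hth : ENNReal.ofReal (1 + 2 * (Cr R M A0 / N)) = th N R M A0 := rfl
  rw [hth]
  calc BB Vext W V u a b N R M A0
      = th N R M A0 * (∑ k : Fin 3, mass (gk u k) + mass (vk Vext u))
        + th N R M A0 ^ 2 * ((∫⁻ y, rho u y ^ 2)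
          * (∑ k, (∫⁻ r, Fk a k r) + ENNReal.ofReal (1 / 2) * ∫⁻ r, FW W a r))
        + th N R M A0 ^ 3 * ((∫⁻ y, rho u y ^ 3)
          * (2 * ∑ k, (∫⁻ p, Gk b k p) + ENNReal.ofReal (1 / 6) * ∫⁻ p, GV V b p))
        + (2 * (ENNReal.ofReal (CX R M A0 / Real.sqrt N) * ∑ k : Fin 3, mass (tk u k))
          + 3 * ENNReal.ofReal (CE R M A0 / Real.sqrt N)) := by
        unfold BB
        simp only [Fin.sum_univ_three]
        ring
    _ ≤ _ := by
        gcongr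

theorem ZZ_pos (H : Std a b (rho u) R M A0) (hN : 0 < N) (hc : Cr R M A0 / N ≤ 1 / 2)
    (S : Finset (Fin N)) : ZZ (rho u) a b S ≠ 0 := by
  induction S using Finset.induction_on with
  | empty => rw [ZZ_empty H.hρ H.h1]; exact one_ne_zero
  | insert i S hi ih =>
    intro h0
    have := ZZ_er H hN hc (insert i S) i
    rw [erase_insert hi, h0, mul_zero] at this
    exact ih (le_antisymm this zero_le)

theorem AS_perm (σ : Equiv.Perm (Fin N)) (x : Fin N → E3) :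
    AS a b univ (x ∘ σ) = AS a b univ x := by
  unfold AS
  have e1 : ∀ i j, pa a i j (x ∘ σ) = pa a (σ i) (σ j) x := by
    intro i j
    unfold pa
    simp only [Function.comp_apply, EmbeddingLike.apply_eq_iff_eq]
  have e2 : ∀ i j k, pb b i j k (x ∘ σ) = pb b (σ i) (σ j) (σ k) x := by
    intro i j k
    unfold pb
    simp only [Function.comp_apply, EmbeddingLike.apply_eq_iff_eq]
  simp_rw [e1, e2]
  congr 1
  · rw [Equiv.sum_comp σ (fun i => ∑ j, pa a i (σ j) x)]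
    exact Finset.sum_congr rfl fun i _ => Equiv.sum_comp σ (fun j => pa a i j x)
  · rw [Equiv.sum_comp σ (fun i => ∑ j, ∑ k, pb b i (σ j) (σ k) x)]
    refine Finset.sum_congr rfl fun i _ => ?_
    rw [Equiv.sum_comp σ (fun j => ∑ k, pb b i j (σ k) x)]
    exact Finset.sum_congr rfl fun j _ => Equiv.sum_comp σ (fun k => pb b i j k x)

theorem Psi_perm (σ : Equiv.Perm (Fin N)) (x : Fin N → E3) :
    Psi u a b (x ∘ σ) = Psi u a b x := by
  unfold Psi
  rw [AS_perm]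
  congr 1
  exact Equiv.prod_comp σ (fun j => u (x j))

theorem Psi_supp (hs : HasCompactSupport u) :
    HasCompactSupport (Psi (N := N) u a b) := by
  refine HasCompactSupport.intro (K := Set.univ.pi fun _ : Fin N => tsupport u)
    (isCompact_univ_pi fun _ => hs) ?_
  intro x hx
  rw [Set.mem_univ_pi] at hx
  push Not at hx
  obtain ⟨j, hj⟩ := hx
  have hj0 : u (x j) = 0 := image_eq_zero_of_notMem_tsupport hj
  unfold Psi
  rw [Finset.prod_eq_zero (mem_univ j) hj0, zero_mul]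

theorem norm_int (H : Std a b (rho u) R M A0) (hu : Adm1 u) :
    ∫ x, ‖Psi (N := N) u a b x‖ ^ 2 = (ZZ (rho u) a b (univ : Finset (Fin N))).toReal := by
  obtain ⟨hu1, hu2, hu3⟩ := hu
  have hc : Continuous (fun x => ‖Psi (N := N) u a b x‖ ^ 2) :=
    (contDiff_Psi H.ab hu1).continuous.norm.pow 2
  rw [integral_eq_lintegral_of_nonneg_ae (Filter.Eventually.of_forall fun x => by positivity)
    hc.aestronglyMeasurable]
  congr 1
  unfold ZZ EE
  exact lintegral_congr fun x => norm_Psi x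

theorem gradi_smul (c : ℝ) {ψ : (Fin N → E3) → ℂ} (hψ : ContDiff ℝ cinf ψ) (i : Fin N)
    (x : Fin N → E3) : gradi (fun x => (c : ℂ) * ψ x) i x = c ^ 2 * gradi ψ i x := by
  unfold gradi
  rw [Finset.mul_sum]
  refine Finset.sum_congr rfl fun k _ => ?_
  have h1 : HasFDerivAt ψ (fderiv ℝ ψ x) x := (hψ.differentiable (by simp) _).hasFDerivAt
  have h2 := h1.const_mul (c : ℂ)
  rw [h2.fderiv]
  rw [ContinuousLinearMap.smul_apply, norm_smul, mul_pow, Complex.norm_real, Real.norm_eq_abs,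
    sq_abs]

theorem integ_smul (c : ℝ) {ψ : (Fin N → E3) → ℂ} (hψ : ContDiff ℝ cinf ψ)
    (x : Fin N → E3) : integ Vext W V N (fun x => (c : ℂ) * ψ x) x
      = c ^ 2 * integ Vext W V N ψ x := by
  unfold integ
  simp_rw [gradi_smul c hψ]
  rw [← Finset.mul_sum, norm_mul, mul_pow, Complex.norm_real, Real.norm_eq_abs, sq_abs]
  ring

theorem QN_eq (ψ : (Fin N → E3) → ℂ) : QN Vext W V N ψ = ∫ x, integ Vext W V N ψ x := rfl

theorem integ_nn (Hy : Hyp Vext W V) (ψ : (Fin N → E3) → ℂ) (x : Fin N → E3) :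
    0 ≤ integ Vext W V N ψ x := by
  have h1 : 0 ≤ ∑ i : Fin N, gradi ψ i x := Finset.sum_nonneg fun i _ =>
    Finset.sum_nonneg fun k _ => by positivity
  have h2 : 0 ≤ ∑ i : Fin N, Vext (x i) := Finset.sum_nonneg fun i _ => vnn Hy _
  have h3 : 0 ≤ pot2 W N x := Finset.sum_nonneg fun i _ => Finset.sum_nonneg fun j _ => by
    have := Hy.wnn ((N : ℝ) • (x i - x j)); positivity
  have h4 : 0 ≤ pot3 V N x := Finset.sum_nonneg fun i _ => Finset.sum_nonneg fun j _ =>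
    Finset.sum_nonneg fun k _ => by
      have := Hy.Vnn (Real.sqrt N • (x i - x j), Real.sqrt N • (x i - x k)); positivity
  unfold integ
  positivity

theorem integ_meas (Hy : Hyp Vext W V) {ψ : (Fin N → E3) → ℂ} (hψ : ContDiff ℝ cinf ψ) :
    Measurable (integ Vext W V N ψ) := by
  have m1 : Measurable (fun x => ∑ i : Fin N, gradi ψ i x) := by
    refine Finset.measurable_fun_sum _ fun i _ => ?_
    unfold gradi
    refine Finset.measurable_fun_sum _ fun k _ => ?_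
    have h1 : Continuous (fun x : Fin N → E3 => fderiv ℝ ψ x (Pi.single i (ek k))) :=
      (hψ.continuous_fderiv (by simp)).clm_apply continuous_const
    exact (h1.norm.pow 2).measurable
  have mψ : Measurable (fun x : Fin N → E3 => ‖ψ x‖ ^ 2) := (hψ.continuous.norm.pow 2).measurable
  have m2 : Measurable (fun x : Fin N → E3 => ∑ i : Fin N, Vext (x i)) :=
    Finset.measurable_fun_sum _ fun i _ => Hy.vm.comp (measurable_pi_apply i)
  have m3 : Measurable (pot2 W N) := by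
    unfold pot2
    refine Finset.measurable_fun_sum _ fun i _ => Finset.measurable_fun_sum _ fun j _ => ?_
    have h1 : Measurable (fun x : Fin N → E3 => W ((N : ℝ) • (x i - x j))) :=
      Hy.wm.comp (by fun_prop)
    exact h1.const_mul _
  have m4 : Measurable (pot3 V N) := by
    unfold pot3
    refine Finset.measurable_fun_sum _ fun i _ => Finset.measurable_fun_sum _ fun j _ =>
      Finset.measurable_fun_sum _ fun k _ => ?_
    have h1 : Measurable (fun x : Fin N → E3 =>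
        V (Real.sqrt N • (x i - x j), Real.sqrt N • (x i - x k))) :=
      Hy.Vm.comp (by fun_prop)
    exact h1.const_mul _
  unfold integ
  exact ((m1.add (m2.mul mψ)).add (m3.mul mψ)).add (m4.mul mψ)

/-- normalised trial state with energy bound -/
theorem trial (Hy : Hyp Vext W V) (hu : Adm1 u) (H : Std a b (rho u) R M A0) (hN : 0 < N)
    (hc : Cr R M A0 / N ≤ 1 / 2) {e : ℝ} (he : 0 ≤ e)
    (hB : BB Vext W V u a b N R M A0 ≤ ENNReal.ofReal e) :
    ∃ ψ : (Fin N → E3) → ℂ, AdmN N ψ ∧ QN Vext W V N ψ ≤ N * e := by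
  have hu' := hu
  obtain ⟨hu1, hu2, hu3⟩ := hu
  set Z := (ZZ (rho u) a b (univ : Finset (Fin N))).toReal with hZ
  have hfin : ZZ (rho u) a b (univ : Finset (Fin N)) ≠ ⊤ :=
    ((ZZ_le_one H.ab H.hρ H.h1 univ).trans_lt ENNReal.one_lt_top).ne
  have hZ0 : 0 < Z := ENNReal.toReal_pos (ZZ_pos H hN hc univ) hfin
  have hsm := contDiff_Psi (N := N) H.ab hu1
  have hN0 := cN_pos hN
  have hc2 : ((Real.sqrt Z)⁻¹) ^ 2 = 1 / Z := by
    rw [inv_pow, Real.sq_sqrt hZ0.le, one_div]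
  refine ⟨fun x => (((Real.sqrt Z)⁻¹ : ℝ) : ℂ) * Psi u a b x, ⟨?_, ?_, ?_, ?_⟩, ?_⟩
  · exact contDiff_const.mul hsm
  · exact (Psi_supp hu2).mul_left
  · intro σ x
    show (((Real.sqrt Z)⁻¹ : ℝ) : ℂ) * Psi u a b (x ∘ σ) = (((Real.sqrt Z)⁻¹ : ℝ) : ℂ) * Psi u a b x
    rw [Psi_perm]
  · have : ∀ x : Fin N → E3, ‖(((Real.sqrt Z)⁻¹ : ℝ) : ℂ) * Psi u a b x‖ ^ 2
        = (1 / Z) * ‖Psi u a b x‖ ^ 2 := by
      intro x
      rw [norm_mul, mul_pow, Complex.norm_real, Real.norm_eq_abs, sq_abs, hc2]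
    simp_rw [this]
    rw [integral_const_mul, norm_int H hu', ← hZ]
    field_simp
  · rw [QN_eq]
    simp_rw [integ_smul _ hsm, hc2]
    rw [integral_const_mul]
    have h1 := total_bd H hu1 Hy hN hc
    have h2 : ∫ x, integ Vext W V N (Psi u a b) x
        = (∫⁻ x, ENNReal.ofReal (integ Vext W V N (Psi u a b) x)).toReal :=
      integral_eq_lintegral_of_nonneg_ae (Filter.Eventually.of_forall fun x => integ_nn Hy _ x)
        (integ_meas Hy hsm).aestronglyMeasurable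
    have h3 : ∫⁻ x, ENNReal.ofReal (integ Vext W V N (Psi (N := N) u a b) x)
        ≤ ENNReal.ofReal (N * (e * Z)) := by
      refine h1.trans ?_
      rw [ENNReal.ofReal_mul hN0.le, ENNReal.ofReal_mul he, hZ, ENNReal.ofReal_toReal hfin]
      gcongr
      simp
    rw [h2]
    have h4 := ENNReal.toReal_mono ENNReal.ofReal_ne_top h3
    rw [ENNReal.toReal_ofReal (by positivity)] at h4
    calc 1 / Z * (∫⁻ x, ENNReal.ofReal (integ Vext W V N (Psi u a b) x)).toReal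
        ≤ 1 / Z * (N * (e * Z)) := by gcongr
      _ = N * e := by field_simp

theorem upper_bound {Vext W : E3 → ℝ} {V : E3 × E3 → ℝ} (H : Hyp Vext W V) {ε : ℝ} (hε : 0 < ε) :
    ∃ N0 : ℕ, ∀ N : ℕ, N0 ≤ N → ∃ ψ : (Fin N → E3) → ℂ, AdmN N ψ ∧
      QN Vext W V N ψ ≤ N * (eGP Vext (bW W) (bM V) + ε) := by
  obtain ⟨u, hu, hue⟩ := exists_gp (Vext := Vext) (b₁ := bW W) (b₂ := bM V)
    (show 0 < ε / 4 by positivity)
  have hu' := hu
  obtain ⟨hu1, hu2, hu3⟩ := hu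
  rw [GPf_split H hu1 hu2] at hue
  set r2 := ∫ y : E3, ‖u y‖ ^ 4 with hr2
  set r3 := ∫ y : E3, ‖u y‖ ^ 6 with hr3
  have r20 : 0 ≤ r2 := integral_nonneg fun x => by positivity
  have r30 : 0 ≤ r3 := integral_nonneg fun x => by positivity
  set δ := ε / (4 * (r2 / 2 + r3 / 6 + 1)) with hδ
  have hδ0 : 0 < δ := by positivity
  have hδ1 : δ * (r2 / 2 + r3 / 6) ≤ ε / 4 := by
    rw [hδ, div_mul_eq_mul_div, div_le_div_iff₀ (by positivity) (by norm_num)]
    nlinarith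
  obtain ⟨a, a1, a2, a3, a4, a5⟩ := nearW H hδ0
  obtain ⟨b, b1, b2, b3, b4, b5, b6⟩ := nearM H hδ0
  have hab : AB a b := ⟨a1, a2, a3, a4, b1, b2, b3, b4, b5⟩
  obtain ⟨R, M, A0, HS⟩ := exists_std hab hu'
  have hW0 : 0 ≤ bW W := by
    unfold bW
    refine Real.sInf_nonneg ?_
    rintro B ⟨φ, _, _, rfl⟩
    refine integral_nonneg fun y => ?_
    have h1 : 0 ≤ grad2 φ y := Finset.sum_nonneg fun k _ => by positivity
    have h2 := H.wnn y
    positivity
  have hM0 : 0 ≤ bM V := by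
    unfold bM
    refine Real.sInf_nonneg ?_
    rintro B ⟨φ, _, _, rfl⟩
    refine integral_nonneg fun y => ?_
    have h1 : 0 ≤ form3 φ y := Finset.sum_nonneg fun k _ => by positivity
    have h2 := H.Vnn y
    positivity
  set g := (∑ k : Fin 3, ∫ y, ‖fderiv ℝ u y (ek k)‖ ^ 2) + ∫ y, Vext y * ‖u y‖ ^ 2 with hg
  set mt := ∑ k : Fin 3, ∫ y, ‖u y‖ * ‖fderiv ℝ u y (ek k)‖ with hmt
  set ev := eGP Vext (bW W) (bM V) with hev
  -- the limit
  have hlim : Filter.Tendsto (fun n : ℕ => (1 + 2 * (Cr R M A0 / (n : ℝ))) * g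
      + (1 + 2 * (Cr R M A0 / (n : ℝ))) ^ 2 * (r2 * ((bW W + δ) / 2))
      + (1 + 2 * (Cr R M A0 / (n : ℝ))) ^ 3 * (r3 * ((bM V + δ) / 6))
      + (2 * (CX R M A0 * mt) + 3 * CE R M A0) / Real.sqrt n) Filter.atTop
      (𝓝 ((1 + 2 * 0) * g + (1 + 2 * 0) ^ 2 * (r2 * ((bW W + δ) / 2))
        + (1 + 2 * 0) ^ 3 * (r3 * ((bM V + δ) / 6)) + 0)) := by
    have t1 : Filter.Tendsto (fun n : ℕ => Cr R M A0 / (n : ℝ)) Filter.atTop (𝓝 0) :=
      tendsto_const_div_atTop_nhds_zero_nat _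
    have t2 : Filter.Tendsto (fun n : ℕ => (2 * (CX R M A0 * mt) + 3 * CE R M A0)
        / Real.sqrt n) Filter.atTop (𝓝 0) := by
      refine Filter.Tendsto.div_atTop tendsto_const_nhds ?_
      exact Real.tendsto_sqrt_atTop.comp tendsto_natCast_atTop_atTop
    have t3 := (t1.const_mul 2).const_add 1
    exact (((t3.mul_const g).add ((t3.pow 2).mul_const _)).add ((t3.pow 3).mul_const _)).add t2
  have hlt : (1 + 2 * 0) * g + (1 + 2 * 0) ^ 2 * (r2 * ((bW W + δ) / 2))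
        + (1 + 2 * 0) ^ 3 * (r3 * ((bM V + δ) / 6)) + 0 < ev + ε := by
    have e1 : (1 + 2 * 0) * g + (1 + 2 * 0) ^ 2 * (r2 * ((bW W + δ) / 2))
        + (1 + 2 * 0) ^ 3 * (r3 * ((bM V + δ) / 6)) + 0
        = (g + bW W / 2 * r2 + bM V / 6 * r3) + δ * (r2 / 2 + r3 / 6) := by ring
    rw [e1]
    linarith
  have ev1 := hlim.eventually_lt_const hlt
  have ev2 : ∀ᶠ n : ℕ in Filter.atTop, Cr R M A0 / (n : ℝ) < 1 / 2 :=
    (tendsto_const_div_atTop_nhds_zero_nat (Cr R M A0)).eventually_lt_const (by norm_num)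
  have ev3 : ∀ᶠ n : ℕ in Filter.atTop, 0 < n := Filter.eventually_gt_atTop 0
  obtain ⟨N0, hN0⟩ := Filter.eventually_atTop.1 (ev1.and (ev2.and ev3))
  refine ⟨N0, fun N hN => ?_⟩
  obtain ⟨h1, h2, h3⟩ := hN0 N hN
  have hbb := BB_le (N := N) H hu' HS h3 (B1 := bW W + δ) (B2 := bM V + δ) (by positivity)
    (by positivity) a5 b6
  have hnn : 0 ≤ ev + ε := by
    have : 0 ≤ ev := by
      rw [hev]
      unfold eGP
      refine Real.sInf_nonneg ?_
      rintro E ⟨w, hw, rfl⟩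
      unfold GPf
      refine integral_nonneg fun y => ?_
      have i1 : 0 ≤ grad2 w y := Finset.sum_nonneg fun k _ => by positivity
      have i2 := vnn H y
      positivity
    linarith
  refine trial H hu' HS h3 h2.le hnn (hbb.trans (ENNReal.ofReal_le_ofReal ?_))
  exact h1.le

end Pool.Agent.Helper67.Bose
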